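import Pool.Agent.Q236.CR.Stm

/-!
Project CR, part CHR: sums with a Dirichlet character (helper10).
-/

set_option autoImplicit false

namespace Pool.Agent.V8H34.CR.Chr

open Finset
open Pool.Agent.Q236.CR (nt S_ZSB S_SDB S_CHR)
open Pool.Agent.H469R2.NK (e norm_e)
open scoped ZMod

/-- a Dirichlet character as a combination of additive characters -/
lemma chi_exp {q : ℕ} [NeZero q] (χ : DirichletCharacter ℂ q) :
    ∃ c : ZMod q → ℂ, (∀ j, ‖c j‖ ≤ 1) ∧
      ∀ n : ℕ, χ (n : ZMod q) = ∑ j : ZMod q, c j * e ((j.val : ℝ) / q * n) := by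
  have hq0 : (0 : ℝ) < q := by exact_mod_cast NeZero.pos q
  have hqc : (q : ℂ) ≠ 0 := by exact_mod_cast (NeZero.ne q)
  set Φ : ZMod q → ℂ := fun a => χ a with hΦ
  refine ⟨fun j => (q : ℂ)⁻¹ * ZMod.dft Φ j, fun j => ?_, fun n => ?_⟩
  · rw [norm_mul, norm_inv, Complex.norm_natCast, inv_mul_le_iff₀ hq0, mul_one, ZMod.dft_apply]
    calc ‖∑ k : ZMod q, ZMod.stdAddChar (-(k * j)) • Φ k‖
        ≤ ∑ _k : ZMod q, (1 : ℝ) := by
          refine norm_sum_le_of_le _ fun k _ => ?_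
          rw [smul_eq_mul, norm_mul]
          have h1 : ‖(ZMod.stdAddChar (-(k * j)) : ℂ)‖ = 1 := by
            rw [ZMod.stdAddChar_apply]
            exact Circle.norm_coe _
          rw [h1, one_mul]
          exact χ.norm_le_one _
      _ = q := by
          rw [Finset.sum_const, Finset.card_univ, ZMod.card, nsmul_eq_mul, mul_one]
  · have h1 : ZMod.dft.symm (ZMod.dft Φ) (n : ZMod q) = Φ n := by
      rw [LinearEquiv.symm_apply_apply]
    have h2 : χ (n : ZMod q) = Φ n := rfl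
    rw [h2, ← h1, ZMod.invDFT_apply, smul_eq_mul, Finset.mul_sum]
    refine Finset.sum_congr rfl fun j _ => ?_
    have h3 : (ZMod.stdAddChar (j * (n : ZMod q)) : ℂ) = e ((j.val : ℝ) / q * n) := by
      have h4 : j * (n : ZMod q) = (((j.val * n : ℕ) : ℤ) : ZMod q) := by
        push_cast
        rw [ZMod.natCast_zmod_val]
      rw [h4, ZMod.stdAddChar_coe]
      unfold e
      congr 1
      push_cast
      field_simp
    rw [h3, smul_eq_mul]
    ring

/-- transfer of a bound -/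
lemma transfer {q : ℕ} [NeZero q] (χ : DirichletCharacter ℂ q) {N N' : ℕ} {t B : ℝ}
    (h : ∀ β : ℝ, ‖∑ n ∈ Finset.Ioc N N', e (β * n) * nt t n‖ ≤ B) :
    ‖∑ n ∈ Finset.Ioc N N', χ (n : ZMod q) * nt t n‖ ≤ q * B := by
  obtain ⟨c, hc, hχ⟩ := chi_exp χ
  have h1 : ∑ n ∈ Finset.Ioc N N', χ (n : ZMod q) * nt t n =
      ∑ j : ZMod q, c j * ∑ n ∈ Finset.Ioc N N', e ((j.val : ℝ) / q * n) * nt t n := by
    simp_rw [hχ, Finset.sum_mul]
    rw [Finset.sum_comm]
    refine Finset.sum_congr rfl fun j _ => ?_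
    rw [Finset.mul_sum]
    refine Finset.sum_congr rfl fun n _ => ?_
    ring
  rw [h1]
  calc ‖∑ j : ZMod q, c j * ∑ n ∈ Finset.Ioc N N', e ((j.val : ℝ) / q * n) * nt t n‖
      ≤ ∑ _j : ZMod q, B := by
        refine norm_sum_le_of_le _ fun j _ => ?_
        rw [norm_mul]
        have h2 := h ((j.val : ℝ) / q)
        calc ‖c j‖ * ‖∑ n ∈ Finset.Ioc N N', e ((j.val : ℝ) / q * n) * nt t n‖ ≤
            1 * B := mul_le_mul (hc j) h2 (norm_nonneg _) zero_le_one
          _ = B := one_mul B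
    _ = q * B := by
        rw [Finset.sum_const, Finset.card_univ, ZMod.card, nsmul_eq_mul]

/-- **CHR** -/
theorem chr (h1 : S_ZSB) (h2 : S_SDB) : S_CHR := by
  obtain ⟨C, c, hc, hc1, hZ⟩ := h1
  obtain ⟨C2, hC2, hS⟩ := h2
  refine ⟨⟨C, c, hc, hc1, ?_⟩, ⟨C2, hC2, ?_⟩⟩
  · intro q hq χ N N' t κ hN hNN hN2 hκ ht
    exact transfer χ fun β => hZ N N' t κ β hN hNN hN2 hκ ht
  · intro q hq χ N N' t hN hNN hN2 ht
    exact transfer χ fun β => hS N N' t β hN hNN hN2 ht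

end Pool.Agent.V8H34.CR.Chr
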