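import Mathlib
import Pool.Agent.Q236.CR.Stm

/-!
# Project CR, part DPL, first file: types of factors, blocks, real inequalities
-/

set_option autoImplicit false

namespace Pool.Agent.V8H34.CR.Dpl

open Finset Filter MeasureTheory
open Pool.Agent.Q236.CR

lemma nt_norm (t : ℝ) {n : ℕ} (hn : 1 ≤ n) : ‖nt t n‖ = 1 := by
  unfold nt
  rw [Complex.norm_natCast_cpow_of_pos (by omega)]
  simp

lemma nt_cont {n : ℕ} (hn : 1 ≤ n) : Continuous (fun t : ℝ => nt t n) := by
  unfold nt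
  refine Continuous.const_cpow (by fun_prop) (Or.inl ?_)
  exact_mod_cast (by omega : n ≠ 0)

lemma TS_sum {r : ℕ} (F : Fin r → ℕ → ℂ) (x1 x2 : ℕ) (τ : ℝ) :
    ∑ n ∈ Finset.Ioc x1 x2, TS F x2 n * nt τ n = PD F x1 x2 τ := by
  unfold TS PD
  rw [← Finset.sum_fiberwise_of_maps_to (g := fun v : Fin r → ℕ => ∏ i, v i) (t := Finset.Ioc x1 x2)]
  · refine Finset.sum_congr rfl fun n hn => ?_
    rw [Finset.sum_mul]
    rw [Finset.filter_filter]
    have hset : ((Fintype.piFinset (fun _ : Fin r => Finset.Icc 1 x2)).filter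
        (fun v => ∏ i, v i = n)) = ((Fintype.piFinset (fun _ : Fin r => Finset.Icc 1 x2)).filter
        (fun v => (x1 < ∏ i, v i ∧ ∏ i, v i ≤ x2) ∧ ∏ i, v i = n)) := by
      refine Finset.filter_congr fun v _ => ?_
      rw [Finset.mem_Ioc] at hn
      constructor
      · intro h; subst h; exact ⟨hn, rfl⟩
      · intro h; exact h.2
    rw [hset]
    refine Finset.sum_congr rfl fun v hv => ?_
    rw [(Finset.mem_filter.1 hv).2.2]
  · intro v hv
    rw [Finset.mem_Ioc]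
    exact (Finset.mem_filter.1 hv).2

lemma PD_cont {r : ℕ} (F : Fin r → ℕ → ℂ) (x1 x2 : ℕ) : Continuous (PD F x1 x2) := by
  unfold PD
  refine continuous_finsetSum _ fun v hv => ?_
  refine Continuous.mul continuous_const (nt_cont ?_)
  have h := (Finset.mem_filter.1 hv).1
  rw [Fintype.mem_piFinset] at h
  refine Nat.one_le_iff_ne_zero.2 (Finset.prod_ne_zero_iff.2 fun i _ => ?_)
  have := (Finset.mem_Icc.1 (h i)).1
  omega

/-- the three types of factors -/
def Typ {q : ℕ} (χ : DirichletCharacter ℂ q) (z : ℕ) (f : ℕ → ℂ) : Prop :=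
  f = (fun n : ℕ => χ (n : ZMod q)) ∨ f = (fun n : ℕ => χ (n : ZMod q) * (Real.log n : ℂ)) ∨
    f = gmu (fun n : ℕ => χ (n : ZMod q)) z

lemma typ_HBL {q : ℕ} (χ : DirichletCharacter ℂ q) (z j : ℕ) (i : Fin ((j + 1) + (j + 1))) :
    Typ χ z (HBL (fun n : ℕ => χ (n : ZMod q)) z j i) := by
  refine Fin.addCases (fun i => ?_) (fun i => ?_) i
  · unfold HBL
    rw [Fin.addCases_left]
    exact Or.inr (Or.inr rfl)
  · unfold HBL
    rw [Fin.addCases_right]
    by_cases h : (i : ℕ) = j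
    · simp only [h, if_true]
      exact Or.inr (Or.inl rfl)
    · simp only [h, if_false]
      exact Or.inl rfl

lemma typ_HBM {q : ℕ} (χ : DirichletCharacter ℂ q) (z j : ℕ) (i : Fin ((j + 1) + j)) :
    Typ χ z (HBM (fun n : ℕ => χ (n : ZMod q)) z j i) := by
  refine Fin.addCases (fun i => ?_) (fun i => ?_) i
  · unfold HBM
    rw [Fin.addCases_left]
    exact Or.inr (Or.inr rfl)
  · unfold HBM
    rw [Fin.addCases_right]
    exact Or.inl rfl

lemma one_le_log3 (n : ℕ) : 1 ≤ Real.log (n + 3) := by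
  rw [Real.le_log_iff_exp_le (by positivity)]
  have := Real.exp_one_lt_d9
  have h0 : (0 : ℝ) ≤ n := Nat.cast_nonneg n
  linarith

lemma chi_le {q : ℕ} (χ : DirichletCharacter ℂ q) (n : ℕ) : ‖χ (n : ZMod q)‖ ≤ 1 :=
  DirichletCharacter.norm_le_one χ _

lemma mu_le (n : ℕ) : ‖((ArithmeticFunction.moebius n : ℤ) : ℂ)‖ ≤ 1 := by
  rw [Complex.norm_intCast]
  exact_mod_cast ArithmeticFunction.abs_moebius_le_one

lemma log_nonneg_nat (n : ℕ) : 0 ≤ Real.log n := Real.log_natCast_nonneg n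

lemma typ_bound {q : ℕ} {χ : DirichletCharacter ℂ q} {z : ℕ} {f : ℕ → ℂ} (h : Typ χ z f) (n : ℕ) :
    ‖f n‖ ≤ Real.log (n + 3) := by
  have h1 := one_le_log3 n
  rcases h with h | h | h
  · rw [h]; exact (chi_le χ n).trans h1
  · rw [h]
    simp only [norm_mul, Complex.norm_real, Real.norm_eq_abs, abs_of_nonneg (log_nonneg_nat n)]
    have h2 : Real.log n ≤ Real.log (n + 3) := by
      rcases Nat.eq_zero_or_pos n with h0 | h0
      · subst h0; simp; positivity
      · exact Real.log_le_log (by exact_mod_cast h0) (by linarith)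
    calc ‖χ (n : ZMod q)‖ * Real.log n ≤ 1 * Real.log n :=
          mul_le_mul_of_nonneg_right (chi_le χ n) (log_nonneg_nat n)
      _ ≤ _ := by linarith
  · rw [h]
    unfold gmu
    split_ifs
    · rw [norm_mul]
      calc ‖χ (n : ZMod q)‖ * ‖((ArithmeticFunction.moebius n : ℤ) : ℂ)‖ ≤ 1 * 1 :=
            mul_le_mul (chi_le χ n) (mu_le n) (norm_nonneg _) (by norm_num)
        _ ≤ _ := by linarith
    · rw [norm_zero]; linarith

/-! ### partial summation with the weight `log n` -/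

lemma log_step (N : ℕ) : 0 ≤ Real.log ((N + 1 : ℕ) : ℝ) - Real.log N := by
  rcases Nat.eq_zero_or_pos N with h | h
  · subst h; simp
  · have := Real.log_le_log (x := (N : ℝ)) (y := ((N + 1 : ℕ) : ℝ)) (by exact_mod_cast h)
      (by push_cast; linarith)
    linarith

lemma log_w_aux (a : ℕ → ℂ) (B0 : ℝ) (N' : ℕ) : ∀ d N : ℕ, N + d = N' →
    (∀ k, N ≤ k → k ≤ N' → ‖∑ n ∈ Finset.Ioc k N', a n‖ ≤ B0) →
    ‖∑ n ∈ Finset.Ioc N N', ((Real.log n - Real.log N : ℝ) : ℂ) * a n‖ ≤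
      (Real.log N' - Real.log N) * B0 := by
  intro d
  induction d with
  | zero =>
    intro N hN _
    have : N' = N := by omega
    subst this
    simp
  | succ d ih =>
    intro N hN hB
    have hlt : N + 1 ≤ N' := by omega
    have hins : Finset.Ioc N N' = insert (N + 1) (Finset.Ioc (N + 1) N') := by
      ext x; simp only [Finset.mem_insert, Finset.mem_Ioc]; omega
    have hnot : (N + 1) ∉ Finset.Ioc (N + 1) N' := by simp
    have e1 : ∑ n ∈ Finset.Ioc N N', ((Real.log n - Real.log N : ℝ) : ℂ) * a n =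
        ∑ n ∈ Finset.Ioc (N + 1) N', ((Real.log n - Real.log ((N + 1 : ℕ) : ℝ) : ℝ) : ℂ) * a n +
        ((Real.log ((N + 1 : ℕ) : ℝ) - Real.log N : ℝ) : ℂ) * ∑ n ∈ Finset.Ioc N N', a n := by
      have e2 : ∑ n ∈ Finset.Ioc N N', ((Real.log n - Real.log N : ℝ) : ℂ) * a n =
          ∑ n ∈ Finset.Ioc N N', (((Real.log n - Real.log ((N + 1 : ℕ) : ℝ) : ℝ) : ℂ) * a n +
            ((Real.log ((N + 1 : ℕ) : ℝ) - Real.log N : ℝ) : ℂ) * a n) := by
        refine Finset.sum_congr rfl fun n _ => ?_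
        push_cast; ring
      rw [e2, Finset.sum_add_distrib, ← Finset.mul_sum]
      congr 1
      rw [hins, Finset.sum_insert hnot]
      simp
    rw [e1]
    have h1 := ih (N + 1) (by omega) (fun k hk hk' => hB k (by omega) hk')
    have h2 := hB N le_rfl (by omega)
    have h3 := log_step N
    refine (norm_add_le _ _).trans ?_
    rw [norm_mul, Complex.norm_real, Real.norm_eq_abs, abs_of_nonneg h3]
    have h4 := mul_le_mul_of_nonneg_left h2 h3
    nlinarith [h1, h4]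

lemma log_w (a : ℕ → ℂ) (B0 : ℝ) (N N' : ℕ) (h : N ≤ N')
    (hB : ∀ k, N ≤ k → k ≤ N' → ‖∑ n ∈ Finset.Ioc k N', a n‖ ≤ B0) :
    ‖∑ n ∈ Finset.Ioc N N', ((Real.log n : ℝ) : ℂ) * a n‖ ≤ Real.log N' * B0 := by
  have h1 := log_w_aux a B0 N' (N' - N) N (by omega) hB
  have h2 := hB N le_rfl h
  have e1 : ∑ n ∈ Finset.Ioc N N', ((Real.log n : ℝ) : ℂ) * a n =
      ∑ n ∈ Finset.Ioc N N', ((Real.log n - Real.log N : ℝ) : ℂ) * a n +
        ((Real.log N : ℝ) : ℂ) * ∑ n ∈ Finset.Ioc N N', a n := by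
    rw [Finset.mul_sum, ← Finset.sum_add_distrib]
    refine Finset.sum_congr rfl fun n _ => ?_
    push_cast; ring
  rw [e1]
  refine (norm_add_le _ _).trans ?_
  rw [norm_mul, Complex.norm_real, Real.norm_eq_abs, abs_of_nonneg (log_nonneg_nat N)]
  have h4 := mul_le_mul_of_nonneg_left h2 (log_nonneg_nat N)
  nlinarith [h1, h4]

/-! ### blocks of `χ` and `χ log` from the second derivative test -/

/-- the bound of CHR for one block -/
noncomputable def BB (C : ℝ) (q M : ℕ) (τ : ℝ) : ℝ :=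
  1 + q * (C * (√|τ| + 2 * M / √|τ|) * (1 + Real.log (2 * M)))

lemma BB_nonneg {C : ℝ} (hC : 1 ≤ C) {q M : ℕ} (hM : 1 ≤ M) (τ : ℝ) : 0 ≤ BB C q M τ := by
  unfold BB
  have hM' : (1 : ℝ) ≤ M := by exact_mod_cast hM
  have h1 : 0 ≤ Real.log (2 * M) := Real.log_nonneg (by linarith)
  positivity

lemma chr_block {C : ℝ} (hC : 1 ≤ C) (hchr : ∀ (q : ℕ) (_ : NeZero q) (χ : DirichletCharacter ℂ q)
    (N N' : ℕ) (t : ℝ), 1 ≤ N → N ≤ N' → N' ≤ 2 * N → 1 ≤ |t| →
    ‖∑ n ∈ Finset.Ioc N N', χ (n : ZMod q) * nt t n‖ ≤ q * (C * (√|t| + N / √|t|) * (1 + Real.log N)))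
    (q : ℕ) (hq : NeZero q) (χ : DirichletCharacter ℂ q) (M u v : ℕ) (τ : ℝ) (hM : 1 ≤ M)
    (hu : M ≤ u + 1) (hv : v ≤ 2 * M) (hτ : 1 ≤ |τ|) :
    ‖∑ n ∈ Finset.Ioc u v, χ (n : ZMod q) * nt τ n‖ ≤ BB C q M τ := by
  rcases le_or_gt v u with h | h
  · rw [Finset.Ioc_eq_empty_of_le h]
    simp only [Finset.sum_empty, norm_zero]
    exact BB_nonneg hC hM τ
  · have hins : Finset.Ioc u v = insert (u + 1) (Finset.Ioc (u + 1) v) := by
      ext x; simp only [Finset.mem_insert, Finset.mem_Ioc]; omega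
    have hnot : (u + 1) ∉ Finset.Ioc (u + 1) v := by simp
    rw [hins, Finset.sum_insert hnot]
    have h1 : ‖χ ((u + 1 : ℕ) : ZMod q) * nt τ (u + 1)‖ ≤ 1 := by
      rw [norm_mul, nt_norm τ (by omega), mul_one]
      exact chi_le χ (u + 1)
    have h2 := hchr q hq χ (u + 1) v τ (by omega) (by omega) (by omega) hτ
    refine (norm_add_le _ _).trans (add_le_add h1 (h2.trans ?_))
    have hM' : (1 : ℝ) ≤ M := by exact_mod_cast hM
    have hu' : ((u + 1 : ℕ) : ℝ) ≤ 2 * M := by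
      have : u + 1 ≤ 2 * M := by omega
      exact_mod_cast this
    have hs : 0 < √|τ| := Real.sqrt_pos.2 (by linarith)
    have hlog : Real.log ((u + 1 : ℕ) : ℝ) ≤ Real.log (2 * M) :=
      Real.log_le_log (by positivity) hu'
    have hlog0 : 0 ≤ Real.log ((u + 1 : ℕ) : ℝ) := log_nonneg_nat _
    have hdiv : ((u + 1 : ℕ) : ℝ) / √|τ| ≤ 2 * M / √|τ| := by gcongr
    refine mul_le_mul_of_nonneg_left ?_ (Nat.cast_nonneg q)
    refine mul_le_mul ?_ (by linarith) (by linarith) (by positivity)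
    refine mul_le_mul_of_nonneg_left (by linarith) (by linarith)

lemma chr_typ {C : ℝ} (hC : 1 ≤ C) (hchr : ∀ (q : ℕ) (_ : NeZero q) (χ : DirichletCharacter ℂ q)
    (N N' : ℕ) (t : ℝ), 1 ≤ N → N ≤ N' → N' ≤ 2 * N → 1 ≤ |t| →
    ‖∑ n ∈ Finset.Ioc N N', χ (n : ZMod q) * nt t n‖ ≤ q * (C * (√|t| + N / √|t|) * (1 + Real.log N)))
    (q : ℕ) (hq : NeZero q) (χ : DirichletCharacter ℂ q) (f : ℕ → ℂ)
    (hf : f = (fun n : ℕ => χ (n : ZMod q)) ∨ f = (fun n : ℕ => χ (n : ZMod q) * (Real.log n : ℂ)))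
    (M u v : ℕ) (τ : ℝ) (hM : 1 ≤ M)
    (hu : M ≤ u + 1) (hv : v ≤ 2 * M) (hτ : 1 ≤ |τ|) :
    ‖∑ n ∈ Finset.Ioc u v, f n * nt τ n‖ ≤ (1 + Real.log (2 * M)) * BB C q M τ := by
  have hM' : (1 : ℝ) ≤ M := by exact_mod_cast hM
  have hl : 0 ≤ Real.log (2 * M) := Real.log_nonneg (by linarith)
  have hB := BB_nonneg hC (q := q) hM τ
  rcases hf with hf | hf
  · subst hf
    refine (chr_block hC hchr q hq χ M u v τ hM hu hv hτ).trans ?_
    nlinarith
  · subst hf
    rcases le_or_gt v u with h | h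
    · rw [Finset.Ioc_eq_empty_of_le h]
      simp only [Finset.sum_empty, norm_zero]
      positivity
    · have h1 := log_w (fun n => χ (n : ZMod q) * nt τ n) (BB C q M τ) u v h.le
        (fun k hk _ => chr_block hC hchr q hq χ M k v τ hM (by omega) hv hτ)
      have e1 : ∑ n ∈ Finset.Ioc u v, χ (n : ZMod q) * (Real.log n : ℂ) * nt τ n =
          ∑ n ∈ Finset.Ioc u v, ((Real.log n : ℝ) : ℂ) * (χ (n : ZMod q) * nt τ n) := by
        refine Finset.sum_congr rfl fun n _ => ?_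
        ring
      simp only
      rw [e1]
      refine h1.trans ?_
      have hv' : (v : ℝ) ≤ 2 * M := by exact_mod_cast hv
      have hlv : Real.log v ≤ Real.log (2 * M) :=
        Real.log_le_log (by exact_mod_cast (by omega : 0 < v)) hv'
      exact mul_le_mul_of_nonneg_right (by linarith) hB

end Pool.Agent.V8H34.CR.Dpl
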