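import Mathlib
import Pool.Agent.V8H34.CR.DplA

/-!
# Project CR, part DPL, second file: one factor has small blocks
-/

set_option autoImplicit false

namespace Pool.Agent.V8H34.CR.Dpl

open Finset Filter MeasureTheory
open Pool.Agent.Q236.CR

lemma ineqA {S M T X Y D : ℝ} (hM : 0 < M) (hT : 0 ≤ T) (hY : 0 < Y) (hX : X = Y ^ 3)
    (hMY : M ≤ 8 * Y) (hTY : T ≤ Y ^ 2) (hD : 1 ≤ D) (hS0 : 0 ≤ S) (hS : S ≤ M / D) :
    S ^ 2 * ((T + X / M) * (X / M)) ≤ 9 * X ^ 2 / D ^ 2 := by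
  have hX0 : 0 < X := by rw [hX]; positivity
  have h1 : S ^ 2 ≤ (M / D) ^ 2 := by gcongr
  have h2 : S ^ 2 * ((T + X / M) * (X / M)) ≤ (M / D) ^ 2 * ((T + X / M) * (X / M)) := by
    gcongr
  refine h2.trans ?_
  have e : (M / D) ^ 2 * ((T + X / M) * (X / M)) = (T * X * M + X ^ 2) / D ^ 2 := by
    field_simp
  rw [e]
  gcongr
  have h3 : T * X * M ≤ Y ^ 2 * X * (8 * Y) := by gcongr
  have h4 : Y ^ 2 * X * (8 * Y) = 8 * X ^ 2 := by rw [hX]; ring
  linarith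

lemma ineqS {S l q C L t T M : ℝ} (hl : 0 ≤ l) (hlL : 1 + l ≤ 2 * L) (hL : 1 ≤ L) (hq : 1 ≤ q)
    (hC : 1 ≤ C) (ht : 1 ≤ t) (htT : t ≤ T) (hTt : T ≤ 2 * t) (hM : 1 ≤ M)
    (hS : S ≤ (1 + l) * (1 + q * (C * (√t + 2 * M / √t) * (1 + l)))) :
    S ≤ 18 * q * C * L ^ 2 * (√T + M / √T) := by
  have hT : 1 ≤ T := ht.trans htT
  have h1 : √t ≤ √T := Real.sqrt_le_sqrt htT
  have hst : 0 < √t := Real.sqrt_pos.2 (by linarith)
  have hsT : 1 ≤ √T := by rw [Real.one_le_sqrt]; exact hT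
  have h2 : √T ≤ 2 * √t := by
    rw [Real.sqrt_le_left (by positivity)]
    rw [mul_pow, Real.sq_sqrt (by linarith)]
    linarith
  have h3 : M / √t ≤ 2 * (M / √T) := by
    rw [← mul_div_assoc, div_le_div_iff₀ hst (by linarith)]
    nlinarith
  set R := √T + M / √T with hR
  have hMT : 0 ≤ M / √T := by positivity
  have hR1 : 1 ≤ R := by linarith
  have h4 : √t + 2 * M / √t ≤ 4 * R := by
    have : 2 * M / √t = 2 * (M / √t) := by ring
    rw [this]; linarith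
  have h5 : C * (√t + 2 * M / √t) * (1 + l) ≤ C * (4 * R) * (2 * L) := by gcongr
  have h6 : (1 + l) * (1 + q * (C * (√t + 2 * M / √t) * (1 + l))) ≤
      2 * L * (1 + q * (C * (4 * R) * (2 * L))) := by
    have : 0 ≤ C * (√t + 2 * M / √t) * (1 + l) := by positivity
    gcongr
  refine hS.trans (h6.trans ?_)
  have hqC : 1 ≤ q * C := by nlinarith
  have hLR : 1 ≤ L * R := by nlinarith
  have h7 : 1 ≤ q * C * (L * R) := by nlinarith
  have h8 : 2 * L * 1 ≤ 2 * L * (q * C * (L * R)) := by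
    exact mul_le_mul_of_nonneg_left h7 (by linarith)
  nlinarith [h8]

lemma ineqC1 {S q C L T M X P : ℝ} (hS0 : 0 ≤ S) (hq : 1 ≤ q) (hC : 1 ≤ C) (hL : 1 ≤ L) (hT : 1 ≤ T)
    (hM : 0 < M) (hX : 0 < X) (hP : 0 < P)
    (hS : S ≤ 18 * q * C * L ^ 2 * (√T + M / √T))
    (h1 : T ^ 2 * P ≤ X * M) (h2 : T * P ≤ M ^ 2) (h3 : M * P ≤ X) (h4 : P ≤ T) :
    S ^ 2 * ((T + X / M) * (X / M)) ≤ 2592 * q ^ 2 * C ^ 2 * L ^ 4 * (X ^ 2 / P) := by
  have hT0 : 0 < T := by linarith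
  have hsT : 0 < √T := Real.sqrt_pos.2 hT0
  have hsq : √T ^ 2 = T := Real.sq_sqrt hT0.le
  have hR : (√T + M / √T) ^ 2 ≤ 2 * (T + M ^ 2 / T) := by
    have e1 : (√T + M / √T) ^ 2 = √T ^ 2 + 2 * M + M ^ 2 / √T ^ 2 := by
      field_simp
      ring
    rw [e1, hsq]
    have : 2 * M ≤ T + M ^ 2 / T := by
      have e : T + M ^ 2 / T - 2 * M = (T - M) ^ 2 / T := by field_simp; ring
      have : 0 ≤ (T - M) ^ 2 / T := by positivity
      linarith
    linarith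
  have hS2 : S ^ 2 ≤ 648 * q ^ 2 * C ^ 2 * L ^ 4 * (T + M ^ 2 / T) := by
    have : S ^ 2 ≤ (18 * q * C * L ^ 2 * (√T + M / √T)) ^ 2 := by gcongr
    refine this.trans ?_
    rw [mul_pow]
    have e : (18 * q * C * L ^ 2) ^ 2 = 324 * q ^ 2 * C ^ 2 * L ^ 4 := by ring
    rw [e]
    have := mul_le_mul_of_nonneg_left hR (show 0 ≤ 324 * q ^ 2 * C ^ 2 * L ^ 4 by positivity)
    linarith
  have e2 : (T + M ^ 2 / T) * ((T + X / M) * (X / M)) =
      T ^ 2 * X / M + T * X ^ 2 / M ^ 2 + M * X + X ^ 2 / T := by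
    field_simp
    ring
  have g1 : T ^ 2 * X / M ≤ X ^ 2 / P := by
    rw [div_le_div_iff₀ hM hP]; nlinarith [mul_le_mul_of_nonneg_right h1 hX.le]
  have g2 : T * X ^ 2 / M ^ 2 ≤ X ^ 2 / P := by
    rw [div_le_div_iff₀ (by positivity) hP]
    nlinarith [mul_le_mul_of_nonneg_right h2 (sq_nonneg X)]
  have g3 : M * X ≤ X ^ 2 / P := by
    rw [le_div_iff₀ hP]; nlinarith [mul_le_mul_of_nonneg_right h3 hX.le]
  have g4 : X ^ 2 / T ≤ X ^ 2 / P := by gcongr
  have h5 : (T + M ^ 2 / T) * ((T + X / M) * (X / M)) ≤ 4 * (X ^ 2 / P) := by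
    rw [e2]; linarith
  have hnn : 0 ≤ (T + X / M) * (X / M) := by positivity
  calc S ^ 2 * ((T + X / M) * (X / M))
      ≤ 648 * q ^ 2 * C ^ 2 * L ^ 4 * (T + M ^ 2 / T) * ((T + X / M) * (X / M)) :=
        mul_le_mul_of_nonneg_right hS2 hnn
    _ = 648 * q ^ 2 * C ^ 2 * L ^ 4 * ((T + M ^ 2 / T) * ((T + X / M) * (X / M))) := by ring
    _ ≤ 648 * q ^ 2 * C ^ 2 * L ^ 4 * (4 * (X ^ 2 / P)) :=
        mul_le_mul_of_nonneg_left h5 (by positivity)
    _ = _ := by ring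

lemma ineqC2 {S q C L T t M X P l : ℝ} (hS0 : 0 ≤ S) (hq : 1 ≤ q) (hC : 1 ≤ C) (hL : 1 ≤ L) (ht : 1 ≤ t)
    (htT : t ≤ T) (hTt : T ≤ 2 * t) (hl0 : 0 ≤ l) (hl : 1 + l ≤ 2 * L)
    (hM : 0 < M) (hX : 0 < X) (hP : 0 < P)
    (hS : S ≤ C * (M / t + q * t) * (1 + l))
    (h1 : M * P ≤ X * T) (h2 : P ≤ T ^ 2) (h3 : T ^ 3 * P ≤ X * M) (h4 : T ^ 2 * P ≤ M ^ 2) :
    S ^ 2 * ((T + X / M) * (X / M)) ≤ 2592 * q ^ 2 * C ^ 2 * L ^ 4 * (X ^ 2 / P) := by
  have hT : 1 ≤ T := ht.trans htT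
  have hT0 : 0 < T := by linarith
  have ht0 : 0 < t := by linarith
  have hMt : M / t ≤ 2 * (M / T) := by
    rw [← mul_div_assoc, div_le_div_iff₀ ht0 hT0]; nlinarith
  have hS1 : S ≤ 4 * q * C * L * (M / T + T) := by
    have hMT : 0 ≤ M / T := by positivity
    have a1 : M / t + q * t ≤ 2 * q * (M / T + T) := by
      have : q * t ≤ q * T := by gcongr
      nlinarith [mul_nonneg (sub_nonneg.2 hq) hMT]
    have a2 : C * (M / t + q * t) * (1 + l) ≤ C * (2 * q * (M / T + T)) * (2 * L) := by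
      have : 0 ≤ M / t + q * t := by positivity
      gcongr
    linarith [hS, a2, (by ring : C * (2 * q * (M / T + T)) * (2 * L) = 4 * q * C * L * (M / T + T))]
  have hR : (M / T + T) ^ 2 ≤ 2 * (M ^ 2 / T ^ 2 + T ^ 2) := by
    have e : M ^ 2 / T ^ 2 = (M / T) ^ 2 := by rw [div_pow]
    rw [e]; nlinarith [sq_nonneg (M / T - T)]
  have hS2 : S ^ 2 ≤ 32 * q ^ 2 * C ^ 2 * L ^ 2 * (M ^ 2 / T ^ 2 + T ^ 2) := by
    have : S ^ 2 ≤ (4 * q * C * L * (M / T + T)) ^ 2 := by gcongr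
    refine this.trans ?_
    rw [mul_pow]
    have e : (4 * q * C * L) ^ 2 = 16 * q ^ 2 * C ^ 2 * L ^ 2 := by ring
    rw [e]
    have := mul_le_mul_of_nonneg_left hR (show 0 ≤ 16 * q ^ 2 * C ^ 2 * L ^ 2 by positivity)
    linarith
  have e2 : (M ^ 2 / T ^ 2 + T ^ 2) * ((T + X / M) * (X / M)) =
      M * X / T + X ^ 2 / T ^ 2 + T ^ 3 * X / M + T ^ 2 * X ^ 2 / M ^ 2 := by
    field_simp
    ring
  have g1 : M * X / T ≤ X ^ 2 / P := by
    rw [div_le_div_iff₀ hT0 hP]; nlinarith [mul_le_mul_of_nonneg_right h1 hX.le]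
  have g2 : X ^ 2 / T ^ 2 ≤ X ^ 2 / P := by gcongr
  have g3 : T ^ 3 * X / M ≤ X ^ 2 / P := by
    rw [div_le_div_iff₀ hM hP]; nlinarith [mul_le_mul_of_nonneg_right h3 hX.le]
  have g4 : T ^ 2 * X ^ 2 / M ^ 2 ≤ X ^ 2 / P := by
    rw [div_le_div_iff₀ (by positivity) hP]
    nlinarith [mul_le_mul_of_nonneg_right h4 (sq_nonneg X)]
  have h5 : (M ^ 2 / T ^ 2 + T ^ 2) * ((T + X / M) * (X / M)) ≤ 4 * (X ^ 2 / P) := by
    rw [e2]; linarith
  have hnn : 0 ≤ (T + X / M) * (X / M) := by positivity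
  have hL4 : L ^ 2 ≤ L ^ 4 := by
    have : (1 : ℝ) ≤ L ^ 2 := by nlinarith
    nlinarith [sq_nonneg L]
  calc S ^ 2 * ((T + X / M) * (X / M))
      ≤ 32 * q ^ 2 * C ^ 2 * L ^ 2 * (M ^ 2 / T ^ 2 + T ^ 2) * ((T + X / M) * (X / M)) :=
        mul_le_mul_of_nonneg_right hS2 hnn
    _ = 32 * q ^ 2 * C ^ 2 * L ^ 2 * ((M ^ 2 / T ^ 2 + T ^ 2) * ((T + X / M) * (X / M))) := by ring
    _ ≤ 32 * q ^ 2 * C ^ 2 * L ^ 2 * (4 * (X ^ 2 / P)) :=
        mul_le_mul_of_nonneg_left h5 (by positivity)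
    _ = 128 * q ^ 2 * C ^ 2 * (X ^ 2 / P) * L ^ 2 := by ring
    _ ≤ 2592 * q ^ 2 * C ^ 2 * (X ^ 2 / P) * L ^ 4 := by
        gcongr
        norm_num
    _ = _ := by ring

lemma fin_bound {q C L X : ℝ} {B K : ℕ} (hq0 : 0 ≤ q) (hq : q ≤ L ^ B) (hC : 1 ≤ C)
    (hL : 2592 * C ^ 2 ≤ L) (hX : 0 ≤ X) :
    2592 * q ^ 2 * C ^ 2 * L ^ 4 * (X ^ 2 / L ^ (K + 2 * B + 6)) ≤ X ^ 2 / L ^ K := by
  have hL1 : 1 ≤ L := by nlinarith
  have hL0 : 0 < L := by linarith
  have h1 : q ^ 2 ≤ L ^ (2 * B) := by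
    calc q ^ 2 ≤ (L ^ B) ^ 2 := by gcongr
      _ = L ^ (2 * B) := by rw [← pow_mul]; ring_nf
  have h2 : 2592 * q ^ 2 * C ^ 2 * L ^ 4 ≤ L ^ (2 * B + 6) := by
    calc 2592 * q ^ 2 * C ^ 2 * L ^ 4 = (2592 * C ^ 2) * q ^ 2 * L ^ 4 := by ring
      _ ≤ L * L ^ (2 * B) * L ^ 4 := by gcongr
      _ = L ^ (2 * B + 5) := by ring
      _ ≤ L ^ (2 * B + 6) := pow_le_pow_right₀ hL1 (by omega)
  have e : X ^ 2 / L ^ K = L ^ (2 * B + 6) * (X ^ 2 / L ^ (K + 2 * B + 6)) := by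
    have : L ^ (K + 2 * B + 6) = L ^ K * L ^ (2 * B + 6) := by rw [← pow_add]; ring_nf
    rw [this]; field_simp
  rw [e]
  gcongr

lemma gmu_sum (g w : ℕ → ℂ) (z u v : ℕ) :
    ∑ n ∈ Finset.Ioc u v, gmu g z n * w n =
      ∑ n ∈ Finset.Ioc u (min v z), (g n * ((ArithmeticFunction.moebius n : ℤ) : ℂ)) * w n := by
  have hset : Finset.Ioc u (min v z) = (Finset.Ioc u v).filter (fun n => n ≤ z) := by
    ext x; simp only [Finset.mem_Ioc, Finset.mem_filter, le_min_iff]; tauto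
  rw [hset, Finset.sum_filter]
  refine Finset.sum_congr rfl fun n _ => ?_
  unfold gmu
  split_ifs <;> simp

lemma log_large (c : ℝ) : ∃ X₀ : ℕ, ∀ X : ℕ, X₀ ≤ X → c ≤ Real.log X := by
  refine ⟨⌈Real.exp c⌉₊ + 1, fun X hX => ?_⟩
  have h1 : Real.exp c ≤ X := by
    refine (Nat.le_ceil _).trans ?_
    exact_mod_cast (by omega : ⌈Real.exp c⌉₊ ≤ X)
  rw [Real.le_log_iff_exp_le ((Real.exp_pos c).trans_le h1)]
  exact h1

theorem good (h3 : S_PW) (h4 : S_CHR) (h5 : S_FD) (B K r : ℕ) (hr : r ≤ 6) :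
    ∃ Cm E : ℕ, ∀ C₀ : ℕ, Cm ≤ C₀ → ∃ X₀ : ℕ, ∀ X : ℕ, X₀ ≤ X → ∀ (q : ℕ) (_ : NeZero q),
      (q : ℝ) ≤ Real.log X ^ B → ∀ χ : DirichletCharacter ℂ q, ∀ z : ℕ,
      (z : ℝ) ≤ 8 * (X : ℝ) ^ (1 / 3 : ℝ) → ∀ F : Fin r → ℕ → ℂ, (∀ i, Typ χ z (F i)) →
      ∀ T0 T : ℝ, Real.log X ^ C₀ ≤ T0 → T0 ≤ T → T ≤ 2 * T0 →
      T * Real.log X ^ (2 * E) ≤ (X : ℝ) ^ (2 / 3 : ℝ) →
      ∀ M : Fin r → ℕ, (∀ i, 1 ≤ M i) → X ≤ ∏ i, M i → ∏ i, M i ≤ 18 ^ r * X →
        ∃ i, Good X T0 T K (F i) (M i) := by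
  obtain ⟨-, C1, hC1, hchr⟩ := h4
  obtain ⟨C2, hC2, hfd⟩ := h5
  obtain ⟨Cw, Xw, hpw⟩ := h3 B (K + 1) 20 (by norm_num)
  set E := K + 2 * B + 6 with hE
  refine ⟨max (E + 1) Cw, E, fun C₀ hC₀ => ?_⟩
  have hCE : E + 1 ≤ C₀ := (le_max_left _ _).trans hC₀
  have hCw : Cw ≤ C₀ := (le_max_right _ _).trans hC₀
  set C := max C1 C2 with hCdef
  have hC : 1 ≤ C := hC1.trans (le_max_left _ _)
  obtain ⟨X1, hX1⟩ := log_large (max (2592 * C ^ 2) (18 ^ 6))
  refine ⟨max (max X1 Xw) 8, fun X hX q hq hqB χ z hz F hF T0 T hT0 hT0T hT2 hTE M hM1 hMX hMX2 => ?_⟩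
  have hXX1 : X1 ≤ X := (le_max_left _ _).trans ((le_max_left _ _).trans hX)
  have hXXw : Xw ≤ X := (le_max_right _ _).trans ((le_max_left _ _).trans hX)
  have hX8 : 8 ≤ X := (le_max_right _ _).trans hX
  have hL := hX1 X hXX1
  set L := Real.log X with hLdef
  have hLC : 2592 * C ^ 2 ≤ L := (le_max_left _ _).trans hL
  have hL18 : (18 : ℝ) ^ 6 ≤ L := (le_max_right _ _).trans hL
  have hL1 : 1 ≤ L := le_trans (by norm_num) hL18
  have hXr8 : (8 : ℝ) ≤ X := by exact_mod_cast hX8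
  have hXr : (0 : ℝ) < X := by linarith
  set Y := (X : ℝ) ^ (1 / 3 : ℝ) with hYdef
  have hY0 : 0 < Y := Real.rpow_pos_of_pos hXr _
  have hY3 : (X : ℝ) = Y ^ 3 := by
    rw [hYdef, ← Real.rpow_natCast, ← Real.rpow_mul hXr.le]; norm_num
  have hY2 : (X : ℝ) ^ (2 / 3 : ℝ) = Y ^ 2 := by
    rw [hYdef, ← Real.rpow_natCast, ← Real.rpow_mul hXr.le]; norm_num
  have hY1 : 2 ≤ Y := by
    by_contra hcon
    push Not at hcon
    have : Y ^ 3 < 2 ^ 3 := by gcongr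
    rw [← hY3] at this
    linarith
  rw [hY2] at hTE
  have hLp : 0 < L := by linarith
  set P := L ^ E with hPdef
  have hP1 : 1 ≤ P := one_le_pow₀ hL1
  have hP0 : 0 < P := by linarith
  have hPP : L ^ (2 * E) = P ^ 2 := by rw [hPdef, ← pow_mul]; ring_nf
  rw [hPP] at hTE
  have hPT0 : P * L ≤ T0 := by
    calc P * L = L ^ (E + 1) := (pow_succ L E).symm
      _ ≤ L ^ C₀ := pow_le_pow_right₀ hL1 hCE
      _ ≤ T0 := hT0
  have hPT0' : P ≤ T0 := by nlinarith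
  have hT01 : 1 ≤ T0 := hP1.trans hPT0'
  have hPT : P ≤ T := hPT0'.trans hT0T
  have hT1 : 1 ≤ T := hT01.trans hT0T
  have hT00 : 0 < T := by linarith
  have hP21 : 1 ≤ P ^ 2 := one_le_pow₀ hP1
  have hTY : T ≤ Y ^ 2 := by
    calc T = T * 1 := (mul_one T).symm
      _ ≤ T * P ^ 2 := by gcongr
      _ ≤ Y ^ 2 := hTE
  have hqr : (1 : ℝ) ≤ q := by exact_mod_cast Nat.one_le_iff_ne_zero.2 hq.out
  have hTX : T ≤ X := by rw [hY3]; nlinarith [sq_nonneg Y]
  by_cases hA : ∃ i, (X : ℝ) ^ (1 / 20 : ℝ) ≤ M i ∧ (M i : ℝ) ≤ 8 * Y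
  · obtain ⟨i, hi1, hi2⟩ := hA
    refine ⟨i, fun u v hu hv τ hτ0 hτ1 => ?_⟩
    have hMi : (1 : ℝ) ≤ M i := by exact_mod_cast hM1 i
    have hM20 : (X : ℝ) ≤ (M i : ℝ) ^ 20 := by
      calc (X : ℝ) = ((X : ℝ) ^ (1 / 20 : ℝ)) ^ 20 := by
            rw [← Real.rpow_natCast, ← Real.rpow_mul hXr.le]; norm_num
        _ ≤ (M i : ℝ) ^ 20 := by gcongr
    have hMXX : M i ≤ X ^ 2 := by
      have : (M i : ℝ) ≤ (X : ℝ) ^ 2 := by
        refine hi2.trans ?_
        rw [hY3]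
        have h32 : (32 : ℝ) ≤ Y ^ 5 := by
          calc (32 : ℝ) = 2 ^ 5 := by norm_num
            _ ≤ Y ^ 5 := by gcongr
        nlinarith
      exact_mod_cast this
    have hτw : L ^ Cw ≤ |τ| := by
      calc L ^ Cw ≤ L ^ C₀ := pow_le_pow_right₀ hL1 hCw
        _ ≤ T0 := hT0
        _ ≤ |τ| := hτ0
    have hτX : |τ| ≤ X := hτ1.trans hTX
    have hblock : ∀ v' : ℕ, v' ≤ 2 * M i → _ := fun v' hv' =>
      hpw X hXXw q hq hqB χ (M i) u v' hM20 hu hv' hMXX τ hτw hτX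
    have hS : ‖∑ n ∈ Finset.Ioc u v, F i n * nt τ n‖ ≤ (M i : ℝ) / L ^ (K + 1) := by
      rcases hF i with h | h | h
      · rw [h]; exact (hblock v hv).2.1
      · rw [h]; exact (hblock v hv).2.2
      · rw [h, gmu_sum]; exact (hblock (min v z) (by omega)).1
    refine (ineqA (by linarith) hT00.le hY0 hY3 hi2 hTY (one_le_pow₀ hL1) (norm_nonneg _) hS).trans ?_
    have hL9 : 9 ≤ L := le_trans (by norm_num) hL18
    have e : (L ^ (K + 1)) ^ 2 = L ^ K * (L ^ (K + 1) * L) := by ring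
    rw [e, ← div_div]
    rw [div_div, div_le_div_iff₀ (by positivity) (by positivity)]
    have h9 : 9 ≤ L ^ (K + 1) * L := by
      have := one_le_pow₀ hL1 (n := K + 1)
      nlinarith
    have h10 : 0 ≤ (X : ℝ) ^ 2 * L ^ K := by positivity
    nlinarith [mul_le_mul_of_nonneg_left h9 h10]
  · by_cases hB : ∃ i, F i = gmu (fun n : ℕ => χ (n : ZMod q)) z ∧ z < M i
    · obtain ⟨i, hi1, hi2⟩ := hB
      refine ⟨i, fun u v hu hv τ hτ0 hτ1 => ?_⟩
      rw [hi1, gmu_sum, Finset.Ioc_eq_empty_of_le (by omega)]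
      simp only [Finset.sum_empty, norm_zero]
      have : (0 : ℝ) ≤ (X : ℝ) ^ 2 / Real.log X ^ K := by positivity
      simpa using this
    · push Not at hA hB
      have hex : ∃ i, 8 * Y < M i := by
        by_contra hcon
        push Not at hcon
        have hlt : ∀ i, (M i : ℝ) ≤ (X : ℝ) ^ (1 / 20 : ℝ) := by
          intro i
          by_contra hc
          push Not at hc
          exact absurd (hcon i) (not_le.2 (hA i hc.le))
        have h1 : ((∏ i, M i : ℕ) : ℝ) ≤ ((X : ℝ) ^ (1 / 20 : ℝ)) ^ r := by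
          push_cast
          calc ∏ i, (M i : ℝ) ≤ ∏ _i : Fin r, (X : ℝ) ^ (1 / 20 : ℝ) :=
                Finset.prod_le_prod (fun i _ => Nat.cast_nonneg _) (fun i _ => hlt i)
            _ = _ := by simp
        have h2 : ((X : ℝ) ^ (1 / 20 : ℝ)) ^ r ≤ ((X : ℝ) ^ (1 / 20 : ℝ)) ^ 6 := by
          refine pow_le_pow_right₀ ?_ hr
          exact Real.one_le_rpow (by linarith) (by norm_num)
        have h3 : ((X : ℝ) ^ (1 / 20 : ℝ)) ^ 6 = (X : ℝ) ^ (3 / 10 : ℝ) := by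
          rw [← Real.rpow_natCast, ← Real.rpow_mul hXr.le]; norm_num
        have h4 : (X : ℝ) ^ (3 / 10 : ℝ) < (X : ℝ) ^ (1 : ℝ) :=
          Real.rpow_lt_rpow_of_exponent_lt (by linarith) (by norm_num)
        rw [Real.rpow_one] at h4
        have h5 : (X : ℝ) ≤ ((∏ i, M i : ℕ) : ℝ) := by exact_mod_cast hMX
        linarith
      obtain ⟨i, hi⟩ := hex
      have hFi : F i = (fun n : ℕ => χ (n : ZMod q)) ∨
          F i = (fun n : ℕ => χ (n : ZMod q) * (Real.log n : ℂ)) := by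
        rcases hF i with h | h | h
        · exact Or.inl h
        · exact Or.inr h
        · exfalso
          have := hB i h
          have h' : (M i : ℝ) ≤ z := by exact_mod_cast this
          linarith
      have hMiX : (M i : ℝ) ≤ 18 ^ 6 * X := by
        have h1 : M i ≤ ∏ i, M i :=
          Nat.le_of_dvd (Finset.prod_pos fun j _ => hM1 j) (Finset.dvd_prod_of_mem M (Finset.mem_univ i))
        have h2 : M i ≤ 18 ^ 6 * X :=
          h1.trans (hMX2.trans (Nat.mul_le_mul_right X (Nat.pow_le_pow_right (by norm_num) hr)))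
        exact_mod_cast h2
      have hMi : (1 : ℝ) ≤ M i := by exact_mod_cast hM1 i
      have hMi0 : (0 : ℝ) < M i := by linarith
      have hMY : Y ≤ M i := by linarith
      refine ⟨i, fun u v hu hv τ hτ0 hτ1 => ?_⟩
      have hτ1' : 1 ≤ |τ| := hT01.trans hτ0
      have hTτ : T ≤ 2 * |τ| := by linarith
      -- logarithms
      have hlog2M : 1 + Real.log (2 * M i) ≤ 2 * L := by
        have h1 : Real.log (2 * M i) ≤ Real.log (2 * 18 ^ 6 * X) :=
          Real.log_le_log (by positivity) (by linarith)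
        have h2 : Real.log (2 * 18 ^ 6 * X) = Real.log (2 * 18 ^ 6) + L := by
          rw [Real.log_mul (by norm_num) (by linarith)]
        have h3 : Real.log (2 * 18 ^ 6) ≤ 2 * 18 ^ 6 - 1 := by
          exact Real.log_le_sub_one_of_pos (by norm_num)
        have h4 : Real.log (2 * 18 ^ 6) ≤ 30 := by
          rw [Real.log_le_iff_le_exp (by norm_num)]
          have : (2 : ℝ) ^ 30 ≤ Real.exp 30 := by
            have h2e : (2 : ℝ) ≤ Real.exp 1 := by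
              have := Real.exp_one_gt_d9; linarith
            calc (2 : ℝ) ^ 30 ≤ (Real.exp 1) ^ 30 := by gcongr
              _ = Real.exp 30 := by rw [← Real.exp_nat_mul]; norm_num
          refine le_trans (by norm_num) this
        have h5 : (31 : ℝ) ≤ L := le_trans (by norm_num) hL18
        linarith
      have hlog2M0 : 0 ≤ Real.log (2 * M i) := Real.log_nonneg (by linarith)
      have hlogM0 : 0 ≤ Real.log (M i) := Real.log_nonneg hMi
      have hlogM : 1 + Real.log (M i) ≤ 2 * L := by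
        have : Real.log (M i) ≤ Real.log (2 * M i) := Real.log_le_log hMi0 (by linarith)
        linarith
      by_cases hc : (M i : ℝ) * P ≤ X
      · have hS := chr_typ hC1 hchr q hq χ (F i) hFi (M i) u v τ (hM1 i) hu hv hτ1'
        unfold BB at hS
        have hS' := ineqS hlog2M0 hlog2M hL1 hqr hC1 hτ1' hτ1 hTτ hMi hS
        have hb := ineqC1 (X := X) (P := P) (norm_nonneg _) hqr hC1 hL1 hT1 hMi0 hXr hP0 hS' ?_ ?_ hc hPT
        · refine hb.trans ?_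
          refine le_trans ?_ (fin_bound (B := B) (K := K) (by linarith) hqB hC hLC hXr.le)
          gcongr
          exact le_max_left _ _
        · -- T^2 P ≤ X M
          have a1 : T ^ 2 * P ≤ (T * P ^ 2) ^ 2 := by
            have : P ≤ P ^ 4 := by
              calc P = P ^ 1 := (pow_one P).symm
                _ ≤ P ^ 4 := pow_le_pow_right₀ hP1 (by norm_num)
            calc T ^ 2 * P ≤ T ^ 2 * P ^ 4 := by gcongr
              _ = _ := by ring
          have a2 : (T * P ^ 2) ^ 2 ≤ (Y ^ 2) ^ 2 := by gcongr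
          have a3 : (Y ^ 2) ^ 2 ≤ X * M i := by
            rw [hY3]
            calc (Y ^ 2) ^ 2 = Y ^ 3 * Y := by ring
              _ ≤ Y ^ 3 * M i := by gcongr
          linarith
        · -- T P ≤ M^2
          have a1 : T * P ≤ T * P ^ 2 := by
            have : P ≤ P ^ 2 := by nlinarith
            gcongr
          have a2 : Y ^ 2 ≤ (M i : ℝ) ^ 2 := by gcongr
          linarith
      · push Not at hc
        have hS : ‖∑ n ∈ Finset.Ioc u v, F i n * nt τ n‖ ≤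
            C2 * (M i / |τ| + q * |τ|) * (1 + Real.log (M i)) := by
          have h1 := hfd q hq χ (M i) u v τ (hM1 i) hu hv hτ1'
          rcases hFi with h | h
          · rw [h]
            refine h1.1.trans ?_
            have : 0 ≤ C2 * (M i / |τ| + q * |τ|) := by positivity
            nlinarith
          · rw [h]; exact h1.2
        have hb := ineqC2 (X := X) (P := P) (norm_nonneg _) hqr hC2 hL1 hτ1' hτ1 hTτ hlogM0 hlogM hMi0
          hXr hP0 hS ?_ ?_ ?_ ?_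
        · refine hb.trans ?_
          refine le_trans ?_ (fin_bound (B := B) (K := K) (by linarith) hqB hC hLC hXr.le)
          gcongr
          exact le_max_right _ _
        · -- M P ≤ X T
          calc (M i : ℝ) * P ≤ 18 ^ 6 * X * P := by gcongr
            _ = X * (P * 18 ^ 6) := by ring
            _ ≤ X * (P * L) := by gcongr
            _ ≤ X * T0 := by gcongr
            _ ≤ X * T := by gcongr
        · nlinarith
        · -- T^3 P ≤ X M
          have a1 : T ^ 3 * P ^ 6 ≤ (X : ℝ) ^ 2 := by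
            calc T ^ 3 * P ^ 6 = (T * P ^ 2) ^ 3 := by ring
              _ ≤ (Y ^ 2) ^ 3 := by gcongr
              _ = (X : ℝ) ^ 2 := by rw [hY3]; ring
          have a2 : (X : ℝ) ^ 2 ≤ X * M i * P := by nlinarith
          have a3 : T ^ 3 * P * P ≤ X * M i * P := by
            calc T ^ 3 * P * P ≤ T ^ 3 * P ^ 6 := by
                  have : P ^ 2 ≤ P ^ 6 := pow_le_pow_right₀ hP1 (by norm_num)
                  have hT3 : 0 ≤ T ^ 3 := by positivity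
                  nlinarith
              _ ≤ _ := a1.trans a2
          exact le_of_mul_le_mul_right a3 hP0
        · -- T^2 P ≤ M^2
          have a1 : T ^ 2 * P ^ 3 ≤ (X : ℝ) ^ 2 := by
            calc T ^ 2 * P ^ 3 ≤ T ^ 2 * P ^ 4 := by
                  have : P ^ 3 ≤ P ^ 4 := pow_le_pow_right₀ hP1 (by norm_num)
                  gcongr
              _ = (T * P ^ 2) ^ 2 := by ring
              _ ≤ (Y ^ 2) ^ 2 := by gcongr
              _ ≤ (Y ^ 3) ^ 2 := by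
                  have : Y ^ 2 ≤ Y ^ 3 := pow_le_pow_right₀ (by linarith) (by norm_num)
                  gcongr
              _ = (X : ℝ) ^ 2 := by rw [hY3]
          have a2 : (X : ℝ) ^ 2 ≤ (M i * P) ^ 2 := by gcongr
          have a3 : T ^ 2 * P * P ^ 2 ≤ (M i : ℝ) ^ 2 * P ^ 2 := by
            calc T ^ 2 * P * P ^ 2 = T ^ 2 * P ^ 3 := by ring
              _ ≤ _ := a1
              _ ≤ _ := a2
              _ = _ := by ring
          exact le_of_mul_le_mul_right a3 (by positivity)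

end Pool.Agent.V8H34.CR.Dpl
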