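import Pool.Agent.Q236.CR.Stm

/-!
# Project CR, part HB (helper64): Heath-Brown's identity with a completely multiplicative twist

`S_HB` of `Stm.lean` fails for `k = 0` (second clause at `n = 1`), so the statement proved here, `S_HB1`, has the
hypothesis `1 ≤ k`.
-/

set_option autoImplicit false

namespace Pool.Agent.V8H34.CR.Hb

open Finset ArithmeticFunction
open Pool.Agent.Q236.CR (TS gmu HBL HBM)

/-- `S_HB` with `1 ≤ k` -/
def S_HB1 : Prop := ∀ g : ℕ → ℂ, (∀ m n, g (m * n) = g m * g n) → g 1 = 1 → ∀ k z X n : ℕ, 1 ≤ k → 1 ≤ n → n ≤ X →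
  n ≤ z ^ k →
  (g n * (ArithmeticFunction.vonMangoldt n : ℂ) =
    ∑ j ∈ Finset.range k, (-1 : ℂ) ^ j * (k.choose (j + 1) : ℂ) * TS (HBL g z j) X n) ∧
  (g n * ((ArithmeticFunction.moebius n : ℤ) : ℂ) =
    ∑ j ∈ Finset.range k, (-1 : ℂ) ^ j * (k.choose (j + 1) : ℂ) * TS (HBM g z j) X n)

/-- a function as an arithmetic function -/
noncomputable def AF (F : ℕ → ℂ) : ArithmeticFunction ℂ := ⟨fun n => if n = 0 then 0 else F n, by simp⟩

theorem AF_apply (F : ℕ → ℂ) (n : ℕ) : AF F n = if n = 0 then 0 else F n := rfl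

/-- point masses -/
noncomputable def dl (m : ℕ) : ArithmeticFunction ℂ := AF fun n => if n = m then 1 else 0

theorem dl_apply (m n : ℕ) : dl m n = if n ≠ 0 ∧ n = m then 1 else 0 := by
  unfold dl
  rw [AF_apply]
  by_cases h : n = 0 <;> simp [h]

theorem dl_one : dl 1 = 1 := by
  ext n
  rw [dl_apply, one_apply]
  by_cases h : n = 1
  · simp [h]
  · simp [h]

theorem dl_mul (a b : ℕ) : dl (a * b) = dl a * dl b := by
  ext n
  rw [dl_apply, mul_apply]
  by_cases hn : n = 0
  · subst hn
    simp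
  by_cases h : n = a * b
  · subst h
    rw [if_pos ⟨hn, rfl⟩, Finset.sum_eq_single (a, b)]
    · have ha : a ≠ 0 := left_ne_zero_of_mul hn
      have hb : b ≠ 0 := right_ne_zero_of_mul hn
      rw [dl_apply, dl_apply, if_pos ⟨ha, rfl⟩, if_pos ⟨hb, rfl⟩, one_mul]
    · rintro ⟨x, y⟩ hx hne
      by_cases h1 : x = a
      · have h2 : y ≠ b := fun h2 => hne (by rw [h1, h2])
        have h3 : dl b y = 0 := by rw [dl_apply, if_neg (fun h => h2 h.2)]
        change dl a x * dl b y = 0
        rw [h3, mul_zero]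
      · have h3 : dl a x = 0 := by rw [dl_apply, if_neg (fun h => h1 h.2)]
        change dl a x * dl b y = 0
        rw [h3, zero_mul]
    · intro h
      exact absurd (Nat.mem_divisorsAntidiagonal.2 ⟨rfl, hn⟩) h
  · rw [if_neg (fun h' => h h'.2), Finset.sum_eq_zero]
    rintro ⟨x, y⟩ hx
    rw [Nat.mem_divisorsAntidiagonal] at hx
    by_cases h1 : x = a
    · have h2 : y ≠ b := fun h2 => h (by rw [← hx.1, h1, h2])
      have h3 : dl b y = 0 := by rw [dl_apply, if_neg (fun h => h2 h.2)]
      change dl a x * dl b y = 0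
      rw [h3, mul_zero]
    · have h3 : dl a x = 0 := by rw [dl_apply, if_neg (fun h => h1 h.2)]
      change dl a x * dl b y = 0
      rw [h3, zero_mul]

/-- `dl` as a homomorphism -/
noncomputable def dlh : ℕ →* ArithmeticFunction ℂ where
  toFun := dl
  map_one' := dl_one
  map_mul' := dl_mul

theorem dl_prod {r : ℕ} (v : Fin r → ℕ) : ∏ i, dl (v i) = dl (∏ i, v i) :=
  (map_prod dlh v univ).symm

theorem sum_apply {ι : Type*} (s : Finset ι) (f : ι → ArithmeticFunction ℂ) (n : ℕ) :
    (∑ i ∈ s, f i) n = ∑ i ∈ s, f i n := by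
  classical
  induction s using Finset.induction_on with
  | empty => simp
  | insert a s ha ih => rw [Finset.sum_insert ha, Finset.sum_insert ha, ArithmeticFunction.add_apply, ih]

/-- the truncated function as a combination of point masses -/
theorem trunc_apply (F : ℕ → ℂ) (X n : ℕ) (hn : n ≤ X) :
    (∑ m ∈ Icc 1 X, F m • dl m) n = AF F n := by
  rw [sum_apply, AF_apply]
  by_cases h0 : n = 0
  · rw [if_pos h0]
    apply Finset.sum_eq_zero
    intro m _
    rw [smul_map, dl_apply, if_neg (fun h => h.1 h0), smul_zero]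
  · rw [if_neg h0, Finset.sum_eq_single n]
    · rw [smul_map, dl_apply, if_pos ⟨h0, rfl⟩, smul_eq_mul, mul_one]
    · intro m _ hm
      rw [smul_map, dl_apply, if_neg (fun h => hm h.2.symm), smul_zero]
    · intro h
      exact absurd (Finset.mem_Icc.2 ⟨Nat.one_le_iff_ne_zero.2 h0, hn⟩) h

theorem prod_congr_le {ι : Type*} (s : Finset ι) (f f' : ι → ArithmeticFunction ℂ) (X : ℕ)
    (h : ∀ i ∈ s, ∀ n ≤ X, f i n = f' i n) : ∀ n ≤ X, (∏ i ∈ s, f i) n = (∏ i ∈ s, f' i) n := by
  classical
  induction s using Finset.induction_on with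
  | empty => intro n _; rfl
  | insert a s ha ih =>
    intro n hn
    rw [Finset.prod_insert ha, Finset.prod_insert ha, mul_apply, mul_apply]
    refine Finset.sum_congr rfl fun x hx => ?_
    have h1 := Nat.divisor_le (Nat.fst_mem_divisors_of_mem_antidiagonal hx)
    have h2 := Nat.divisor_le (Nat.snd_mem_divisors_of_mem_antidiagonal hx)
    rw [h a (Finset.mem_insert_self a s) _ (h1.trans hn),
      ih (fun i hi => h i (Finset.mem_insert_of_mem hi)) _ (h2.trans hn)]

/-- `TS` is a product of arithmetic functions -/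
theorem TS_eq {r : ℕ} (F : Fin r → ℕ → ℂ) (X n : ℕ) (h1 : 1 ≤ n) (hn : n ≤ X) :
    TS F X n = (∏ i, AF (F i)) n := by
  classical
  rw [← prod_congr_le univ (fun i => ∑ m ∈ Icc 1 X, F i m • dl m) (fun i => AF (F i)) X
    (fun i _ n hn => trunc_apply (F i) X n hn) n hn]
  rw [Finset.prod_univ_sum, sum_apply]
  unfold TS
  rw [Finset.sum_filter]
  refine Finset.sum_congr rfl fun v _ => ?_
  rw [Finset.prod_smul, dl_prod, smul_map, dl_apply, smul_eq_mul]
  by_cases h : ∏ i, v i = n
  · rw [if_pos h, if_pos ⟨by omega, h.symm⟩, mul_one]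
  · rw [if_neg h, if_neg (fun h' => h h'.2.symm), mul_zero]

section alg
variable (g : ℕ → ℂ) (hg : ∀ m n, g (m * n) = g m * g n) (g1 : g 1 = 1)

/-- the twist -/
noncomputable def tw (f : ArithmeticFunction ℂ) : ArithmeticFunction ℂ :=
  ⟨fun n => g n * f n, by simp⟩

theorem tw_apply (f : ArithmeticFunction ℂ) (n : ℕ) : tw g f n = g n * f n := rfl

include g1 in
theorem tw_one : tw g 1 = 1 := by
  ext n
  rw [tw_apply, one_apply]
  by_cases h : n = 1
  · rw [h, if_pos rfl, g1, one_mul]
  · rw [if_neg h, mul_zero]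

include hg in
theorem tw_mul (f h : ArithmeticFunction ℂ) : tw g (f * h) = tw g f * tw g h := by
  ext n
  rw [tw_apply, mul_apply, mul_apply, Finset.mul_sum]
  refine Finset.sum_congr rfl fun x hx => ?_
  rw [Nat.mem_divisorsAntidiagonal] at hx
  rw [tw_apply, tw_apply, ← hx.1, hg]
  ring

theorem tw_add (f h : ArithmeticFunction ℂ) : tw g (f + h) = tw g f + tw g h := by
  ext n
  rw [tw_apply, ArithmeticFunction.add_apply, ArithmeticFunction.add_apply, tw_apply, tw_apply, mul_add]

theorem tw_zero : tw g 0 = 0 := by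
  ext n
  rw [tw_apply, ArithmeticFunction.zero_apply, mul_zero]

/-- the twist as a ring homomorphism -/
noncomputable def twh : ArithmeticFunction ℂ →+* ArithmeticFunction ℂ where
  toFun := tw g
  map_one' := tw_one g g1
  map_mul' := tw_mul g hg
  map_zero' := tw_zero g
  map_add' := tw_add g

end alg

/-- `μ` cut at `z` -/
noncomputable def muz (z : ℕ) : ArithmeticFunction ℂ :=
  ⟨fun n => if n ≤ z then ((ArithmeticFunction.moebius n : ℤ) : ℂ) else 0, by simp⟩

theorem muz_apply (z n : ℕ) : muz z n = if n ≤ z then ((ArithmeticFunction.moebius n : ℤ) : ℂ) else 0 := rfl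

/-- complex zeta, log, mangoldt, moebius -/
noncomputable def zt : ArithmeticFunction ℂ := AF fun _ => 1
noncomputable def lg : ArithmeticFunction ℂ := AF fun n => (Real.log n : ℂ)
noncomputable def vm : ArithmeticFunction ℂ := AF fun n => (ArithmeticFunction.vonMangoldt n : ℂ)
noncomputable def mo : ArithmeticFunction ℂ := AF fun n => ((ArithmeticFunction.moebius n : ℤ) : ℂ)

theorem zt_apply {n : ℕ} (h : n ≠ 0) : zt n = 1 := by
  unfold zt
  rw [AF_apply, if_neg h]

theorem vm_zt : vm * zt = lg := by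
  ext n
  rw [mul_apply]
  unfold lg
  rw [AF_apply]
  by_cases h : n = 0
  · rw [if_pos h, h]; simp
  rw [if_neg h, ← vonMangoldt_sum, Complex.ofReal_sum,
    Nat.sum_divisorsAntidiagonal (f := fun a b => vm a * zt b)]
  refine Finset.sum_congr rfl fun d hd => ?_
  have hd0 : d ≠ 0 := (Nat.pos_of_mem_divisors hd).ne'
  have hq : n / d ≠ 0 := by
    have := Nat.div_pos (Nat.divisor_le hd) (Nat.pos_of_ne_zero hd0)
    omega
  rw [zt_apply hq]
  unfold vm
  rw [AF_apply, if_neg hd0, mul_one]

theorem mo_zt : mo * zt = 1 := by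
  have h := ArithmeticFunction.moebius_mul_coe_zeta
  ext n
  by_cases h0 : n = 0
  · rw [h0]; simp
  have h2 := congrArg (fun f : ArithmeticFunction ℤ => ((f n : ℤ) : ℂ)) h
  simp only [mul_apply, one_apply] at h2 ⊢
  push_cast at h2
  rw [← h2]
  refine Finset.sum_congr rfl fun x hx => ?_
  rw [Nat.mem_divisorsAntidiagonal] at hx
  have hx1 : x.1 ≠ 0 := by
    intro h; rw [h] at hx; simp at hx; exact h0 hx.1.symm
  have hx2 : x.2 ≠ 0 := by
    intro h; rw [h] at hx; simp at hx; exact h0 hx.1.symm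
  rw [zt_apply hx2]
  unfold mo
  rw [AF_apply, if_neg hx1]
  simp [natCoe_apply, zeta_apply, hx2]

/-- `δ - 1 * μ_z` -/
noncomputable def Dz (z : ℕ) : ArithmeticFunction ℂ := 1 - zt * muz z

theorem Dz_apply {z n : ℕ} (h : n ≤ z) : Dz z n = 0 := by
  have e : (zt * muz z) n = (mo * zt) n := by
    rw [mul_comm mo zt, mul_apply, mul_apply]
    refine Finset.sum_congr rfl fun x hx => ?_
    have h2 := Nat.divisor_le (Nat.snd_mem_divisors_of_mem_antidiagonal hx)
    rw [Nat.mem_divisorsAntidiagonal] at hx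
    have hx2 : x.2 ≠ 0 := by
      intro h'; rw [h'] at hx; simp at hx; exact hx.2 hx.1.symm
    rw [muz_apply, if_pos (h2.trans h)]
    unfold mo
    rw [AF_apply, if_neg hx2]
  unfold Dz
  rw [sub_eq_add_neg, ArithmeticFunction.add_apply, ArithmeticFunction.neg_apply, e, mo_zt]
  ring

theorem Dz_pow {z : ℕ} (k : ℕ) : ∀ n, n < (z + 1) ^ k → (Dz z ^ k) n = 0 := by
  induction k with
  | zero =>
    intro n hn
    rw [pow_zero] at hn ⊢
    have : n = 0 := by omega
    rw [this]
    simp
  | succ k ih =>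
    intro n hn
    rw [pow_succ, mul_apply]
    apply Finset.sum_eq_zero
    intro x hx
    rw [Nat.mem_divisorsAntidiagonal] at hx
    by_cases h : x.2 ≤ z
    · rw [Dz_apply h, mul_zero]
    · rw [ih, zero_mul]
      rw [pow_succ, ← hx.1] at hn
      by_contra hc
      push Not at hc h
      have : (z + 1) ^ k * (z + 1) ≤ x.1 * x.2 := Nat.mul_le_mul hc h
      omega

theorem mul_Dz_pow (f : ArithmeticFunction ℂ) {z k n : ℕ} (h : n < (z + 1) ^ k) : (f * Dz z ^ k) n = 0 := by
  rw [mul_apply]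
  apply Finset.sum_eq_zero
  intro x hx
  have h2 := Nat.divisor_le (Nat.snd_mem_divisors_of_mem_antidiagonal hx)
  rw [Dz_pow k x.2 (lt_of_le_of_lt h2 h), mul_zero]

theorem natCast_mul_apply (c : ℕ) (f : ArithmeticFunction ℂ) (n : ℕ) :
    ((c : ArithmeticFunction ℂ) * f) n = (c : ℂ) * f n := by
  induction c with
  | zero => simp
  | succ c ih =>
    rw [Nat.cast_succ, add_mul, one_mul, ArithmeticFunction.add_apply, ih, Nat.cast_succ]
    ring

theorem negone_mul_apply (j : ℕ) (f : ArithmeticFunction ℂ) (n : ℕ) :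
    ((-1 : ArithmeticFunction ℂ) ^ j * f) n = (-1 : ℂ) ^ j * f n := by
  rcases Nat.even_or_odd j with h | h
  · rw [h.neg_one_pow (α := ArithmeticFunction ℂ), h.neg_one_pow (α := ℂ), one_mul, one_mul]
  · rw [h.neg_one_pow (α := ArithmeticFunction ℂ), h.neg_one_pow (α := ℂ), neg_one_mul, neg_one_mul,
      ArithmeticFunction.neg_apply]

theorem expand (z k : ℕ) (f : ArithmeticFunction ℂ) : f * Dz z ^ k = f -
    ∑ j ∈ Finset.range k, ((-1 : ℂ) ^ j * (k.choose (j + 1) : ℂ)) • ((f * zt) * zt ^ j * muz z ^ (j + 1)) := by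
  have h : Dz z ^ k = ∑ j ∈ Finset.range (k + 1), ((-1 : ℂ) ^ j * (k.choose j : ℂ)) • (zt ^ j * muz z ^ j) := by
    unfold Dz
    rw [sub_eq_add_neg, add_comm, add_pow]
    refine Finset.sum_congr rfl fun j _ => ?_
    rw [one_pow, mul_one, neg_pow (zt * muz z), mul_pow zt]
    ext n
    rw [smul_map, smul_eq_mul, mul_assoc, negone_mul_apply, mul_comm (zt ^ j * muz z ^ j), natCast_mul_apply]
    ring
  rw [h, Finset.sum_range_succ', mul_add, Finset.mul_sum]
  rw [pow_zero, Nat.choose_zero_right, pow_zero, pow_zero, Nat.cast_one, one_mul, one_smul, one_mul, mul_one,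
    sub_eq_add_neg, add_comm, ← Finset.sum_neg_distrib]
  congr 1
  refine Finset.sum_congr rfl fun j _ => ?_
  rw [mul_smul_comm, ← neg_smul]
  congr 1
  · ring
  · ring

theorem value (f : ArithmeticFunction ℂ) {z k n : ℕ} (h : n < (z + 1) ^ k) : f n =
    ∑ j ∈ Finset.range k, ((-1 : ℂ) ^ j * (k.choose (j + 1) : ℂ)) * ((f * zt) * zt ^ j * muz z ^ (j + 1)) n := by
  have h1 := mul_Dz_pow f h
  rw [expand, sub_eq_add_neg, ArithmeticFunction.add_apply, ArithmeticFunction.neg_apply, sum_apply] at h1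
  simp only [smul_map, smul_eq_mul] at h1
  linear_combination h1

section fin
variable (g : ℕ → ℂ) (z : ℕ)

theorem tw_zt : tw g zt = AF g := by
  ext n
  rw [tw_apply, AF_apply]
  by_cases h : n = 0
  · rw [h]; simp
  · rw [zt_apply h, if_neg h, mul_one]

theorem tw_lg : tw g lg = AF fun n => g n * (Real.log n : ℂ) := by
  ext n
  unfold lg
  rw [tw_apply, AF_apply, AF_apply]
  by_cases h : n = 0
  · rw [h]; simp
  · rw [if_neg h, if_neg h]

theorem tw_muz : tw g (muz z) = AF (gmu g z) := by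
  ext n
  rw [tw_apply, AF_apply, muz_apply]
  unfold gmu
  by_cases h : n = 0
  · rw [h]; simp
  · rw [if_neg h]
    by_cases h2 : n ≤ z
    · rw [if_pos h2, if_pos h2]
    · rw [if_neg h2, if_neg h2, mul_zero]

theorem prodL (j : ℕ) : ∏ i, AF (HBL g z j i) =
    AF (gmu g z) ^ (j + 1) * (AF g ^ j * AF fun n => g n * (Real.log n : ℂ)) := by
  rw [Fin.prod_univ_add]
  unfold HBL
  simp only [Fin.addCases_left, Fin.addCases_right]
  rw [Finset.prod_const, Finset.card_univ, Fintype.card_fin, Fin.prod_univ_castSucc]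
  congr 2
  · rw [Finset.prod_congr rfl (g := fun _ => AF g), Finset.prod_const, Finset.card_univ, Fintype.card_fin]
    intro i _
    congr 1
    funext n
    have : (i : ℕ) < j := i.2
    rw [if_neg]
    simp only [Fin.val_castSucc]
    omega
  · simp

theorem prodM (j : ℕ) : ∏ i, AF (HBM g z j i) = AF (gmu g z) ^ (j + 1) * AF g ^ j := by
  rw [Fin.prod_univ_add]
  unfold HBM
  simp only [Fin.addCases_left, Fin.addCases_right]
  rw [Finset.prod_const, Finset.card_univ, Fintype.card_fin, Finset.prod_const, Finset.card_univ, Fintype.card_fin]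

end fin

theorem hb1 : S_HB1 := by
  intro g hg g1 k z X n hk h1 hn hz
  have hlt : n < (z + 1) ^ k := lt_of_le_of_lt hz (Nat.pow_lt_pow_left (by omega) (by omega))
  have hn0 : n ≠ 0 := by omega
  have hh : ∀ f : ArithmeticFunction ℂ, ∀ j : ℕ, tw g (f * zt ^ j * muz z ^ (j + 1)) =
      tw g f * AF g ^ j * AF (gmu g z) ^ (j + 1) := by
    intro f j
    have e := map_mul (twh g hg g1) (f * zt ^ j) (muz z ^ (j + 1))
    rw [map_mul (twh g hg g1) f, map_pow (twh g hg g1) zt, map_pow (twh g hg g1) (muz z)] at e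
    have e1 : twh g hg g1 zt = AF g := tw_zt g
    have e2 : twh g hg g1 (muz z) = AF (gmu g z) := tw_muz g z
    rw [e1, e2] at e
    exact e
  constructor
  · have h := value vm hlt
    have hv : vm n = (ArithmeticFunction.vonMangoldt n : ℂ) := by
      unfold vm
      rw [AF_apply, if_neg hn0]
    rw [hv, vm_zt] at h
    rw [h, Finset.mul_sum]
    refine Finset.sum_congr rfl fun j _ => ?_
    rw [TS_eq _ X n h1 hn, prodL]
    have e := congrArg (fun f : ArithmeticFunction ℂ => f n) (hh lg j)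
    rw [tw_apply, tw_lg] at e
    rw [mul_left_comm, e]
    congr 2
    ring
  · have h := value mo hlt
    have hv : mo n = ((ArithmeticFunction.moebius n : ℤ) : ℂ) := by
      unfold mo
      rw [AF_apply, if_neg hn0]
    rw [hv, mo_zt] at h
    rw [h, Finset.mul_sum]
    refine Finset.sum_congr rfl fun j _ => ?_
    rw [TS_eq _ X n h1 hn, prodM]
    have e := congrArg (fun f : ArithmeticFunction ℂ => f n) (hh 1 j)
    rw [tw_apply, tw_one g g1] at e
    rw [mul_left_comm, e]
    congr 2
    ring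

end Pool.Agent.V8H34.CR.Hb
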