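import Mathlib
import Pool.Agent.V8H34.CR.DplB
import Pool.Agent.V8H34.CR.Hb

/-!
# Project CR, part DPL: Dirichlet polynomials over primes (and over the Moebius function) with a
character, in mean square over the heights `(log X)^{C₀} ≤ |τ| ≤ X^{2/3} / (log X)^{C₁}`
-/

set_option autoImplicit false

namespace Pool.Agent.V8H34.CR

open Finset Filter MeasureTheory
open Pool.Agent.Q236.CR

namespace Dpl

theorem piece (h2 : S_MVG) (h3 : S_PW) (h4 : S_CHR) (h5 : S_FD) (B U r : ℕ) (hr1 : 1 ≤ r) (hr : r ≤ 6) :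
    ∃ Cm E : ℕ, ∀ C₀ : ℕ, Cm ≤ C₀ → ∃ X₀ : ℕ, ∀ X : ℕ, X₀ ≤ X → ∀ (q : ℕ) (_ : NeZero q),
      (q : ℝ) ≤ Real.log X ^ B → ∀ χ : DirichletCharacter ℂ q, ∀ z : ℕ,
      (z : ℝ) ≤ 8 * (X : ℝ) ^ (1 / 3 : ℝ) → ∀ F : Fin r → ℕ → ℂ, (∀ i, Typ χ z (F i)) →
      ∀ T0 T : ℝ, Real.log X ^ C₀ ≤ T0 → T0 ≤ T → T ≤ 2 * T0 →
      T * Real.log X ^ (2 * E) ≤ (X : ℝ) ^ (2 / 3 : ℝ) → ∀ x1 x2 : ℕ, X ≤ x1 → x2 ≤ 9 * X →
      ∫ τ in T0..T, ‖PD F x1 x2 τ‖ ^ 2 ≤ (X : ℝ) ^ 2 / Real.log X ^ U ∧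
      ∫ τ in (-T)..(-T0), ‖PD F x1 x2 τ‖ ^ 2 ≤ (X : ℝ) ^ 2 / Real.log X ^ U := by
  obtain ⟨K, X1, hK⟩ := h2 r U hr1
  obtain ⟨Cm, E, hg⟩ := good h3 h4 h5 B K r hr
  refine ⟨Cm, E, fun C₀ hC₀ => ?_⟩
  obtain ⟨X2, hg2⟩ := hg C₀ hC₀
  obtain ⟨X3, hX3⟩ := log_large 1
  refine ⟨max (max X1 X2) (max X3 1), fun X hX q hq hqB χ z hz F hF T0 T hT0 hT0T hT2 hTE x1 x2 hx1 hx2 => ?_⟩
  have hX1 : X1 ≤ X := (le_max_left _ _).trans ((le_max_left _ _).trans hX)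
  have hX2 : X2 ≤ X := (le_max_right _ _).trans ((le_max_left _ _).trans hX)
  have hL1 := hX3 X ((le_max_left _ _).trans ((le_max_right _ _).trans hX))
  have hX0 : 1 ≤ X := (le_max_right _ _).trans ((le_max_right _ _).trans hX)
  have hXr : (1 : ℝ) ≤ X := by exact_mod_cast hX0
  have hT01 : 1 ≤ T0 := (one_le_pow₀ hL1).trans hT0
  have hT1 : 0 ≤ T := by linarith
  have hTX : T ≤ X := by
    have h1 : T ≤ T * Real.log X ^ (2 * E) := by
      have := one_le_pow₀ hL1 (n := 2 * E)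
      nlinarith
    have h2 : (X : ℝ) ^ (2 / 3 : ℝ) ≤ (X : ℝ) ^ (1 : ℝ) :=
      Real.rpow_le_rpow_of_exponent_le hXr (by norm_num)
    rw [Real.rpow_one] at h2
    linarith
  exact hK X hX1 T0 T (by linarith) hT0T hTX F (fun i n => typ_bound (hF i) n)
    (fun M hM1 hMX hMX2 => hg2 X hX2 q hq hqB χ z hz F hF T0 T hT0 hT0T hT2 hTE M hM1 hMX hMX2)
    x1 x2 hx1 hx2

lemma doubling {f : ℝ → ℝ} (hf : Continuous f) {a Tm E : ℝ} (ha : 0 < a)
    (h : ∀ T0 T : ℝ, a ≤ T0 → T0 ≤ T → T ≤ 2 * T0 → T ≤ Tm → ∫ τ in T0..T, f τ ≤ E) :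
    ∀ (k : ℕ) (T : ℝ), a ≤ T → T ≤ 2 ^ k * a → T ≤ Tm → ∫ τ in a..T, f τ ≤ k * E := by
  intro k
  induction k with
  | zero =>
    intro T h1 h2 _
    have : T = a := by linarith [h2, (by ring : (2 : ℝ) ^ 0 * a = a)]
    subst this
    simp
  | succ k ih =>
    intro T h1 h2 h3
    have hT' : max a (T / 2) ≤ T := max_le h1 (by linarith)
    have e := intervalIntegral.integral_add_adjacent_intervals (a := a) (b := max a (T / 2)) (c := T)
      (μ := volume) (f := f) (hf.intervalIntegrable _ _) (hf.intervalIntegrable _ _)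
    rw [← e]
    have i1 := ih (max a (T / 2)) (le_max_left _ _) (max_le ?_ ?_) (hT'.trans h3)
    · have i2 := h (max a (T / 2)) T (le_max_left _ _) hT' ?_ h3
      · push_cast; linarith
      · have := le_max_right a (T / 2); linarith
    · have : (1 : ℝ) ≤ 2 ^ k := one_le_pow₀ (by norm_num)
      nlinarith
    · have : (2 : ℝ) ^ (k + 1) * a = 2 * (2 ^ k * a) := by ring
      linarith

lemma comb3 (P : ℕ → ℂ) :
    ‖∑ j ∈ Finset.range 3, (-1 : ℂ) ^ j * ((3 : ℕ).choose (j + 1) : ℂ) * P j‖ ^ 2 ≤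
      19 * (‖P 0‖ ^ 2 + ‖P 1‖ ^ 2 + ‖P 2‖ ^ 2) := by
  have e : ∑ j ∈ Finset.range 3, (-1 : ℂ) ^ j * ((3 : ℕ).choose (j + 1) : ℂ) * P j =
      3 * P 0 + (-3) * P 1 + P 2 := by
    rw [Finset.sum_range_succ, Finset.sum_range_succ, Finset.sum_range_one]
    have c1 : (3 : ℕ).choose (0 + 1) = 3 := by decide
    have c2 : (3 : ℕ).choose (1 + 1) = 3 := by decide
    have c3 : (3 : ℕ).choose (2 + 1) = 1 := by decide
    rw [c1, c2, c3]
    push_cast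
    ring
  rw [e]
  have h : ‖3 * P 0 + (-3) * P 1 + P 2‖ ≤ 3 * ‖P 0‖ + 3 * ‖P 1‖ + ‖P 2‖ := by
    refine (norm_add_le _ _).trans (add_le_add ((norm_add_le _ _).trans ?_) le_rfl)
    rw [norm_mul, norm_mul]
    simp
  have h0 := norm_nonneg (P 0)
  have h1 := norm_nonneg (P 1)
  have h2 := norm_nonneg (P 2)
  calc ‖3 * P 0 + (-3) * P 1 + P 2‖ ^ 2 ≤ (3 * ‖P 0‖ + 3 * ‖P 1‖ + ‖P 2‖) ^ 2 := by gcongr
    _ ≤ _ := by
      nlinarith [sq_nonneg (‖P 0‖ - ‖P 1‖), sq_nonneg (‖P 0‖ - 3 * ‖P 2‖), sq_nonneg (‖P 1‖ - 3 * ‖P 2‖)]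

/-- from the three polynomials of the identity to the polynomial itself, one dyadic piece -/
lemma int_comb {A : ℝ → ℂ} {P : ℕ → ℝ → ℂ} (hA : ∀ τ, A τ =
      ∑ j ∈ Finset.range 3, (-1 : ℂ) ^ j * ((3 : ℕ).choose (j + 1) : ℂ) * P j τ)
    (hP : ∀ j, Continuous (P j)) {a b D : ℝ} (hab : a ≤ b)
    (h : ∀ j < 3, ∫ τ in a..b, ‖P j τ‖ ^ 2 ≤ D) : ∫ τ in a..b, ‖A τ‖ ^ 2 ≤ 57 * D := by
  have hAc : Continuous A := by
    have : A = fun τ => ∑ j ∈ Finset.range 3, (-1 : ℂ) ^ j * ((3 : ℕ).choose (j + 1) : ℂ) * P j τ :=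
      funext hA
    rw [this]
    exact continuous_finsetSum _ fun j _ => continuous_const.mul (hP j)
  have hi : ∀ j, IntervalIntegrable (fun τ => ‖P j τ‖ ^ 2) volume a b := fun j =>
    ((hP j).norm.pow 2).intervalIntegrable _ _
  have h1 : ∫ τ in a..b, ‖A τ‖ ^ 2 ≤
      ∫ τ in a..b, 19 * (‖P 0 τ‖ ^ 2 + ‖P 1 τ‖ ^ 2 + ‖P 2 τ‖ ^ 2) := by
    refine intervalIntegral.integral_mono_on hab ((hAc.norm.pow 2).intervalIntegrable _ _) ?_ ?_
    · exact ((((hi 0).add (hi 1)).add (hi 2)).const_mul 19)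
    · intro τ _
      rw [hA τ]
      exact comb3 (fun j => P j τ)
  rw [intervalIntegral.integral_const_mul, intervalIntegral.integral_add ((hi 0).add (hi 1)) (hi 2),
    intervalIntegral.integral_add (hi 0) (hi 1)] at h1
  have := h 0 (by norm_num)
  have := h 1 (by norm_num)
  have := h 2 (by norm_num)
  linarith

/-- the completely multiplicative function of a character -/
lemma chi_mul {q : ℕ} (χ : DirichletCharacter ℂ q) (m n : ℕ) :
    χ ((m * n : ℕ) : ZMod q) = χ (m : ZMod q) * χ (n : ZMod q) := by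
  rw [Nat.cast_mul, map_mul]

end Dpl

open Dpl in
theorem dpl (h1 : Hb.S_HB1) (h2 : S_MVG) (h3 : S_PW) (h4 : S_CHR) (h5 : S_FD) : S_DPL := by
  intro B U
  have HL : ∀ j : Fin 3, _ := fun j =>
    piece h2 h3 h4 h5 B (U + 2) (((j : ℕ) + 1) + ((j : ℕ) + 1)) (by omega) (by omega)
  have HM : ∀ j : Fin 3, _ := fun j =>
    piece h2 h3 h4 h5 B (U + 2) (((j : ℕ) + 1) + (j : ℕ)) (by omega) (by omega)
  choose CL EL hL using HL
  choose CM EM hM using HM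
  refine ⟨∑ j, (CL j + CM j), fun C₀ hC₀ => ?_⟩
  have hCL : ∀ j, CL j ≤ C₀ := fun j => by
    have : CL j + CM j ≤ ∑ j, (CL j + CM j) :=
      Finset.single_le_sum (f := fun j => CL j + CM j) (fun _ _ => Nat.zero_le _) (Finset.mem_univ j)
    omega
  have hCM : ∀ j, CM j ≤ C₀ := fun j => by
    have : CL j + CM j ≤ ∑ j, (CL j + CM j) :=
      Finset.single_le_sum (f := fun j => CL j + CM j) (fun _ _ => Nat.zero_le _) (Finset.mem_univ j)
    omega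
  set E := ∑ j, (EL j + EM j) with hE
  have hEL : ∀ j, EL j ≤ E := fun j => by
    have : EL j + EM j ≤ ∑ j, (EL j + EM j) :=
      Finset.single_le_sum (f := fun j => EL j + EM j) (fun _ _ => Nat.zero_le _) (Finset.mem_univ j)
    omega
  have hEM : ∀ j, EM j ≤ E := fun j => by
    have : EL j + EM j ≤ ∑ j, (EL j + EM j) :=
      Finset.single_le_sum (f := fun j => EL j + EM j) (fun _ _ => Nat.zero_le _) (Finset.mem_univ j)
    omega
  have HL2 := fun j => hL j C₀ (hCL j)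
  have HM2 := fun j => hM j C₀ (hCM j)
  choose XL hXL using HL2
  choose XM hXM using HM2
  obtain ⟨X1, hX1⟩ := log_large 171
  refine ⟨2 * E, max (∑ j, (XL j + XM j)) (max X1 1), fun X hX q hq hqB χ T hTE hT x1 x2 hx1 hx2 c hc => ?_⟩
  have hXL' : ∀ j, XL j ≤ X := fun j => by
    have : XL j + XM j ≤ ∑ j, (XL j + XM j) :=
      Finset.single_le_sum (f := fun j => XL j + XM j) (fun _ _ => Nat.zero_le _) (Finset.mem_univ j)
    have := (le_max_left _ _).trans hX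
    omega
  have hXM' : ∀ j, XM j ≤ X := fun j => by
    have : XL j + XM j ≤ ∑ j, (XL j + XM j) :=
      Finset.single_le_sum (f := fun j => XL j + XM j) (fun _ _ => Nat.zero_le _) (Finset.mem_univ j)
    have := (le_max_left _ _).trans hX
    omega
  have hL171 := hX1 X ((le_max_left _ _).trans ((le_max_right _ _).trans hX))
  have hX0 : 1 ≤ X := (le_max_right _ _).trans ((le_max_right _ _).trans hX)
  have hXr : (1 : ℝ) ≤ X := by exact_mod_cast hX0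
  have hXp : (0 : ℝ) < X := by linarith
  set L := Real.log X with hLdef
  have hL1 : 1 ≤ L := by linarith
  -- the cut
  obtain ⟨z, hz1, hz2⟩ : ∃ z : ℕ, (z : ℝ) ≤ 8 * (X : ℝ) ^ (1 / 3 : ℝ) ∧ 9 * X ≤ z ^ 3 := by
    refine ⟨⌈3 * (X : ℝ) ^ (1 / 3 : ℝ)⌉₊, ?_, ?_⟩
    · have h1 : (1 : ℝ) ≤ (X : ℝ) ^ (1 / 3 : ℝ) := Real.one_le_rpow hXr (by norm_num)
      have h2 := Nat.ceil_lt_add_one (show (0 : ℝ) ≤ 3 * (X : ℝ) ^ (1 / 3 : ℝ) by positivity)
      linarith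
    · have h1 := Nat.le_ceil (3 * (X : ℝ) ^ (1 / 3 : ℝ))
      have h2 : ((X : ℝ) ^ (1 / 3 : ℝ)) ^ 3 = X := by
        rw [← Real.rpow_natCast, ← Real.rpow_mul hXp.le]; norm_num
      have h3 : (9 * X : ℝ) ≤ (⌈3 * (X : ℝ) ^ (1 / 3 : ℝ)⌉₊ : ℝ) ^ 3 := by
        calc (9 * X : ℝ) ≤ 27 * ((X : ℝ) ^ (1 / 3 : ℝ)) ^ 3 := by rw [h2]; linarith
          _ = (3 * (X : ℝ) ^ (1 / 3 : ℝ)) ^ 3 := by ring
          _ ≤ _ := by gcongr
      exact_mod_cast h3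
  set g : ℕ → ℂ := fun n : ℕ => χ (n : ZMod q) with hg
  have hgm : ∀ m n, g (m * n) = g m * g n := fun m n => chi_mul χ m n
  have hg1 : g 1 = 1 := by simp [hg]
  have hnz : ∀ n ∈ Finset.Ioc x1 x2, 1 ≤ n ∧ n ≤ x2 ∧ n ≤ z ^ 3 := fun n hn => by
    rw [Finset.mem_Ioc] at hn
    refine ⟨by omega, hn.2, ?_⟩
    have : n ≤ 9 * X := hn.2.trans hx2
    omega
  -- the polynomial as a combination
  obtain ⟨P, hPc, hPA, hPi⟩ : ∃ P : ℕ → ℝ → ℂ, (∀ j, Continuous (P j)) ∧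
      (∀ τ, ∑ n ∈ Finset.Ioc x1 x2, c n * nt τ n =
        ∑ j ∈ Finset.range 3, (-1 : ℂ) ^ j * ((3 : ℕ).choose (j + 1) : ℂ) * P j τ) ∧
      (∀ j < 3, ∀ T0 T1 : ℝ, L ^ C₀ ≤ T0 → T0 ≤ T1 → T1 ≤ 2 * T0 → T1 ≤ T →
        ∫ τ in T0..T1, ‖P j τ‖ ^ 2 ≤ (X : ℝ) ^ 2 / L ^ (U + 2) ∧
        ∫ τ in (-T1)..(-T0), ‖P j τ‖ ^ 2 ≤ (X : ℝ) ^ 2 / L ^ (U + 2)) := by
    have hTEj : ∀ (T0 T1 : ℝ) (Ej : ℕ), L ^ C₀ ≤ T0 → T0 ≤ T1 → T1 ≤ T → Ej ≤ E →
        T1 * L ^ (2 * Ej) ≤ (X : ℝ) ^ (2 / 3 : ℝ) := by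
      intro T0 T1 Ej a1 a2 a3 a4
      have b0 : 1 ≤ L ^ C₀ := one_le_pow₀ hL1
      calc T1 * L ^ (2 * Ej) ≤ T * L ^ (2 * E) := by
            refine mul_le_mul a3 (pow_le_pow_right₀ hL1 (by omega)) (by positivity) (by linarith)
        _ ≤ _ := hTE
    rcases hc with hc | hc
    · refine ⟨fun j => PD (HBL g z j) x1 x2, fun j => PD_cont _ _ _, fun τ => ?_, fun j hj T0 T1 a1 a2 a3 a4 => ?_⟩
      · rw [hc]
        have e1 : ∀ n ∈ Finset.Ioc x1 x2, cL χ n * nt τ n =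
            ∑ j ∈ Finset.range 3, (-1 : ℂ) ^ j * ((3 : ℕ).choose (j + 1) : ℂ) *
              (TS (HBL g z j) x2 n * nt τ n) := by
          intro n hn
          obtain ⟨b1, b2, b3⟩ := hnz n hn
          have := (h1 g hgm hg1 3 z x2 n (by norm_num) b1 b2 b3).1
          have e0 : cL χ n = g n * (ArithmeticFunction.vonMangoldt n : ℂ) := rfl
          rw [e0, this, Finset.sum_mul]
          refine Finset.sum_congr rfl fun j _ => ?_
          ring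
        rw [Finset.sum_congr rfl e1, Finset.sum_comm]
        refine Finset.sum_congr rfl fun j _ => ?_
        rw [← Finset.mul_sum, TS_sum]
      · have := hXL ⟨j, hj⟩ X (hXL' _) q hq hqB χ z hz1 (HBL g z j) (typ_HBL χ z j) T0 T1 a1 a2 a3
          (hTEj T0 T1 _ a1 a2 a4 (hEL _)) x1 x2 hx1 hx2
        exact this
    · refine ⟨fun j => PD (HBM g z j) x1 x2, fun j => PD_cont _ _ _, fun τ => ?_, fun j hj T0 T1 a1 a2 a3 a4 => ?_⟩
      · rw [hc]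
        have e1 : ∀ n ∈ Finset.Ioc x1 x2, cM χ n * nt τ n =
            ∑ j ∈ Finset.range 3, (-1 : ℂ) ^ j * ((3 : ℕ).choose (j + 1) : ℂ) *
              (TS (HBM g z j) x2 n * nt τ n) := by
          intro n hn
          obtain ⟨b1, b2, b3⟩ := hnz n hn
          have := (h1 g hgm hg1 3 z x2 n (by norm_num) b1 b2 b3).2
          have e0 : cM χ n = g n * ((ArithmeticFunction.moebius n : ℤ) : ℂ) := rfl
          rw [e0, this, Finset.sum_mul]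
          refine Finset.sum_congr rfl fun j _ => ?_
          ring
        rw [Finset.sum_congr rfl e1, Finset.sum_comm]
        refine Finset.sum_congr rfl fun j _ => ?_
        rw [← Finset.mul_sum, TS_sum]
      · have := hXM ⟨j, hj⟩ X (hXM' _) q hq hqB χ z hz1 (HBM g z j) (typ_HBM χ z j) T0 T1 a1 a2 a3
          (hTEj T0 T1 _ a1 a2 a4 (hEM _)) x1 x2 hx1 hx2
        exact this
  set A : ℝ → ℂ := fun τ => ∑ n ∈ Finset.Ioc x1 x2, c n * nt τ n with hA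
  have hAc : Continuous A := by
    refine continuous_finsetSum _ fun n hn => continuous_const.mul (nt_cont ?_)
    exact (hnz n hn).1
  set D := (X : ℝ) ^ 2 / L ^ (U + 2) with hD
  have hLp : 0 < L := by linarith
  have hD0 : 0 ≤ D := by positivity
  -- number of pieces
  have hk : (X : ℝ) ≤ 2 ^ ⌈2 * L⌉₊ := by
    have h1 : (X : ℝ) = Real.exp L := (Real.exp_log hXp).symm
    have h2 : (2 : ℝ) = Real.exp (Real.log 2) := (Real.exp_log (by norm_num)).symm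
    have h3 : (2 : ℝ) ^ ⌈2 * L⌉₊ = Real.exp (⌈2 * L⌉₊ * Real.log 2) := by
      rw [Real.exp_nat_mul, Real.exp_log (by norm_num)]
    rw [h3]
    rw [h1]
    refine Real.exp_le_exp.2 ?_
    have h4 := Nat.le_ceil (2 * L)
    have h5 := Real.log_two_gt_d9
    nlinarith
  have hk3 : (⌈2 * L⌉₊ : ℝ) ≤ 3 * L := by
    have := Nat.ceil_lt_add_one (show (0 : ℝ) ≤ 2 * L by linarith)
    linarith
  have ha1 : 1 ≤ L ^ C₀ := one_le_pow₀ hL1
  have hTX : T ≤ 2 ^ ⌈2 * L⌉₊ * L ^ C₀ := by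
    have hT0 : 0 ≤ T := by linarith
    have b1 : T ≤ T * L ^ (2 * E) := by
      have := one_le_pow₀ hL1 (n := 2 * E)
      nlinarith
    have b2 : (X : ℝ) ^ (2 / 3 : ℝ) ≤ (X : ℝ) ^ (1 : ℝ) :=
      Real.rpow_le_rpow_of_exponent_le hXr (by norm_num)
    rw [Real.rpow_one] at b2
    have b3 : T ≤ X := by linarith
    calc T ≤ 2 ^ ⌈2 * L⌉₊ * 1 := by linarith
      _ ≤ _ := by gcongr
  have hfin : (⌈2 * L⌉₊ : ℝ) * (57 * D) ≤ (X : ℝ) ^ 2 / L ^ U := by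
    have e : (X : ℝ) ^ 2 / L ^ U = L ^ 2 * D := by
      rw [hD, pow_add]; field_simp
    rw [e]
    calc (⌈2 * L⌉₊ : ℝ) * (57 * D) ≤ (3 * L) * (57 * D) := by gcongr
      _ = 171 * L * D := by ring
      _ ≤ L * L * D := by gcongr
      _ = L ^ 2 * D := by ring
  constructor
  · refine (doubling (f := fun τ => ‖A τ‖ ^ 2) (hAc.norm.pow 2) (a := L ^ C₀) (Tm := T) (E := 57 * D)
      (by linarith) ?_ ⌈2 * L⌉₊ T hT hTX le_rfl).trans hfin
    intro T0 T1 a1 a2 a3 a4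
    exact int_comb hPA hPc a2 (fun j hj => (hPi j hj T0 T1 a1 a2 a3 a4).1)
  · have e := intervalIntegral.integral_comp_neg (a := L ^ C₀) (b := T) (fun τ => ‖A τ‖ ^ 2)
    rw [← e]
    refine (doubling (f := fun τ => ‖A (-τ)‖ ^ 2) ((hAc.comp continuous_neg).norm.pow 2)
      (a := L ^ C₀) (Tm := T) (E := 57 * D) (by linarith) ?_ ⌈2 * L⌉₊ T hT hTX le_rfl).trans hfin
    intro T0 T1 a1 a2 a3 a4
    have e2 := intervalIntegral.integral_comp_neg (a := T0) (b := T1) (fun τ => ‖A τ‖ ^ 2)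
    rw [e2]
    exact int_comb hPA hPc (by linarith) (fun j hj => (hPi j hj T0 T1 a1 a2 a3 a4).2)

end Pool.Agent.V8H34.CR
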