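import Pool.Agent.Q236.CR.Stm
import Pool.Agent.H398R2.BA1

/-! Project CR, part DV: moments of the number of ordered factorisations. -/

set_option autoImplicit false

namespace Pool.Agent.V8H34.CR

open Finset Pool.Agent.Q236.CR

theorem tr_le (r X n : ℕ) (hn : 1 ≤ n) : tr r X n ≤ n.divisors.card ^ r := by
  unfold tr
  have h1 : ((Fintype.piFinset (fun _ : Fin r => Finset.Icc 1 X)).filter (fun v => ∏ i, v i = n)) ⊆
      Fintype.piFinset (fun _ : Fin r => n.divisors) := by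
    intro v hv
    rw [mem_filter] at hv
    rw [Fintype.mem_piFinset]
    intro i
    rw [Nat.mem_divisors]
    refine ⟨?_, by omega⟩
    rw [← hv.2]
    exact Finset.dvd_prod_of_mem _ (mem_univ i)
  refine (card_le_card h1).trans ?_
  rw [Fintype.card_piFinset]
  simp

theorem dv_explicit (r X Y : ℕ) (hY : 1 ≤ Y) :
    ∑ n ∈ Finset.Icc 1 Y, (tr r X n : ℝ) ^ 4 ≤ Y * (1 + Real.log Y) ^ (2 ^ (r * 4)) := by
  have h0 := Pool.Agent.H398R2.BV.sum_card_pow_div (r * 4) Y
  have hY0 : (0 : ℝ) ≤ Y := Nat.cast_nonneg Y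
  refine le_trans ?_ (mul_le_mul_of_nonneg_left h0 hY0)
  rw [mul_sum]
  refine sum_le_sum fun n hn => ?_
  rw [mem_Icc] at hn
  have hn0 : (0 : ℝ) < n := by exact_mod_cast (by omega : 0 < n)
  have hnY : (n : ℝ) ≤ Y := by exact_mod_cast hn.2
  have h1 : (tr r X n : ℝ) ≤ (n.divisors.card : ℝ) ^ r := by exact_mod_cast tr_le r X n hn.1
  have h2 : (tr r X n : ℝ) ^ 4 ≤ (n.divisors.card : ℝ) ^ (r * 4) := by
    rw [pow_mul]
    exact pow_le_pow_left₀ (Nat.cast_nonneg _) h1 4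
  refine h2.trans ?_
  rw [mul_div_assoc', le_div_iff₀ hn0, mul_comm]
  exact mul_le_mul_of_nonneg_right hnY (by positivity)

theorem dv : S_DV := fun r => ⟨2 ^ (r * 4), fun X Y hY => dv_explicit r X Y hY⟩

end Pool.Agent.V8H34.CR
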