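import Mathlib
import Pool.Agent.Q236.CR.Stm

set_option autoImplicit false

namespace Pool.Agent.V8H34.CR.Fd

open Finset Pool.Agent.Q236.CR

lemma nt_norm (τ : ℝ) {n : ℕ} (hn : 1 ≤ n) : ‖nt τ n‖ = 1 := by
  unfold nt
  have h0 : (0 : ℝ) < n := by exact_mod_cast hn
  have : ((n : ℂ)) = (((n : ℝ)) : ℂ) := by push_cast; rfl
  rw [this, Complex.norm_cpow_eq_rpow_re_of_pos h0]
  simp

/-- summation by parts -/
lemma parts (a w : ℕ → ℂ) (u k : ℕ) :
    ∑ n ∈ Ioc u (u + k), a n * w n = (∑ n ∈ Ioc u (u + k), a n) * w (u + k) -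
      ∑ j ∈ range k, (∑ n ∈ Ioc u (u + j), a n) * (w (u + j + 1) - w (u + j)) := by
  induction k with
  | zero => simp
  | succ k ih =>
    have h1 : ∀ f : ℕ → ℂ, ∑ n ∈ Ioc u (u + (k + 1)), f n = ∑ n ∈ Ioc u (u + k), f n + f (u + k + 1) := by
      intro f
      rw [← add_assoc, Finset.sum_Ioc_succ_top (by omega)]
    rw [h1, h1, ih, sum_range_succ, ← add_assoc]
    ring

lemma parts_le (a w : ℕ → ℂ) (u v : ℕ) (B V : ℝ) (huv : u ≤ v) (hB : 0 ≤ B)
    (ha : ∀ v' : ℕ, u ≤ v' → v' ≤ v → ‖∑ n ∈ Ioc u v', a n‖ ≤ B)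
    (hw : ‖w v‖ + ∑ n ∈ Ioc u (v - 1), ‖w (n + 1) - w n‖ ≤ V) :
    ‖∑ n ∈ Ioc u v, a n * w n‖ ≤ B * V := by
  obtain ⟨k, rfl⟩ := Nat.exists_eq_add_of_le huv
  rw [parts]
  have h1 : ‖(∑ n ∈ Ioc u (u + k), a n) * w (u + k)‖ ≤ B * ‖w (u + k)‖ := by
    rw [norm_mul]
    exact mul_le_mul_of_nonneg_right (ha _ (by omega) le_rfl) (norm_nonneg _)
  have h2 : ‖∑ j ∈ range k, (∑ n ∈ Ioc u (u + j), a n) * (w (u + j + 1) - w (u + j))‖ ≤
      B * ∑ n ∈ Ioc u (u + k - 1), ‖w (n + 1) - w n‖ := by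
    rcases k with _ | k
    · simp
    · rw [sum_range_succ', mul_sum]
      simp only [add_zero, Ioc_self, sum_empty, zero_mul]
      refine (norm_sum_le _ _).trans ?_
      have : Ioc u (u + (k + 1) - 1) = (range k).image (fun j => u + (j + 1)) := by
        ext n
        simp only [mem_Ioc, mem_image, mem_range]
        constructor
        · rintro ⟨h1, h2⟩
          exact ⟨n - u - 1, by omega, by omega⟩
        · rintro ⟨j, hj, rfl⟩
          omega
      rw [this, sum_image (by intro a _ b _ h; simp only at h; omega)]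
      refine sum_le_sum fun j hj => ?_
      rw [mem_range] at hj
      rw [norm_mul]
      exact mul_le_mul_of_nonneg_right (ha _ (by omega) (by omega)) (norm_nonneg _)
  calc _ ≤ B * ‖w (u + k)‖ + B * ∑ n ∈ Ioc u (u + k - 1), ‖w (n + 1) - w n‖ :=
        (norm_sub_le _ _).trans (add_le_add h1 h2)
    _ = B * (‖w (u + k)‖ + ∑ n ∈ Ioc u (u + k - 1), ‖w (n + 1) - w n‖) := by ring
    _ ≤ B * V := mul_le_mul_of_nonneg_left hw hB

/-- `|y^{-iτ} - n^{-iτ}| ≤ |τ| (y - n) / n` -/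
lemma osc (τ : ℝ) {n : ℕ} (hn : 1 ≤ n) {y : ℝ} (hy : (n : ℝ) ≤ y) :
    ‖(y : ℂ) ^ (-(τ : ℂ) * Complex.I) - nt τ n‖ ≤ |τ| * ((y - n) / n) := by
  have hn0 : (0 : ℝ) < n := by exact_mod_cast hn
  have hy0 : 0 < y := lt_of_lt_of_le hn0 hy
  unfold nt
  have e1 : (y : ℂ) ^ (-(τ : ℂ) * Complex.I) = Complex.exp (Complex.I * ((-τ * Real.log y : ℝ) : ℂ)) := by
    rw [Complex.cpow_def_of_ne_zero (by exact_mod_cast hy0.ne'), ← Complex.ofReal_log hy0.le]
    congr 1; push_cast; ring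
  have e2 : (n : ℂ) ^ (-(τ : ℂ) * Complex.I) = Complex.exp (Complex.I * ((-τ * Real.log n : ℝ) : ℂ)) := by
    rw [Complex.cpow_def_of_ne_zero (by exact_mod_cast hn0.ne'), ← Complex.natCast_log]
    congr 1; push_cast; ring
  rw [e1, e2]
  have e3 : Complex.exp (Complex.I * ((-τ * Real.log y : ℝ) : ℂ)) -
      Complex.exp (Complex.I * ((-τ * Real.log n : ℝ) : ℂ)) =
      Complex.exp (Complex.I * ((-τ * Real.log n : ℝ) : ℂ)) *
      (Complex.exp (Complex.I * ((-τ * (Real.log y - Real.log n) : ℝ) : ℂ)) - 1) := by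
    rw [mul_sub, ← Complex.exp_add, mul_one]
    congr 2
    push_cast; ring
  rw [e3, norm_mul]
  have e4 : ‖Complex.exp (Complex.I * ((-τ * Real.log n : ℝ) : ℂ))‖ = 1 := by
    rw [mul_comm, Complex.norm_exp_ofReal_mul_I]
  rw [e4, one_mul]
  refine (Real.norm_exp_I_mul_ofReal_sub_one_le).trans ?_
  rw [Real.norm_eq_abs, abs_mul, abs_neg]
  refine mul_le_mul_of_nonneg_left ?_ (abs_nonneg _)
  rw [← Real.log_div hy0.ne' hn0.ne', abs_of_nonneg (Real.log_nonneg (by rw [le_div_iff₀ hn0]; linarith))]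
  have := Real.log_le_sub_one_of_pos (div_pos hy0 hn0)
  refine this.trans (le_of_eq ?_)
  field_simp

/-- the primitive of `y^{-iτ}` -/
noncomputable def pr (τ y : ℝ) : ℂ := (y : ℂ) ^ (1 - (τ : ℂ) * Complex.I) / (1 - (τ : ℂ) * Complex.I)

lemma den_ne (τ : ℝ) : (1 - (τ : ℂ) * Complex.I) ≠ 0 := by
  intro h
  have := congrArg Complex.re h
  simp at this

lemma pr_le {τ y : ℝ} (hτ : 1 ≤ |τ|) (hy : 0 < y) : ‖pr τ y‖ ≤ y / |τ| := by
  unfold pr
  rw [norm_div, Complex.norm_cpow_eq_rpow_re_of_pos hy]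
  have h1 : (1 - (τ : ℂ) * Complex.I).re = 1 := by simp
  rw [h1, Real.rpow_one]
  have h2 : |τ| ≤ ‖(1 - (τ : ℂ) * Complex.I)‖ := by
    have := Complex.abs_im_le_norm (1 - (τ : ℂ) * Complex.I)
    simpa using this
  exact div_le_div_of_nonneg_left hy.le (by linarith) h2

lemma pr_deriv (τ : ℝ) {y : ℝ} (hy : 0 < y) :
    HasDerivAt (pr τ) ((y : ℂ) ^ (-(τ : ℂ) * Complex.I)) y := by
  have h1 : HasDerivAt (fun z : ℂ => z ^ (1 - (τ : ℂ) * Complex.I))
      ((1 - (τ : ℂ) * Complex.I) * (y : ℂ) ^ ((1 - (τ : ℂ) * Complex.I) - 1)) (y : ℂ) := by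
    have := (hasDerivAt_id (y : ℂ)).cpow_const (c := (1 - (τ : ℂ) * Complex.I))
      (Or.inl (by simpa using hy))
    simpa using this
  have h2 := (h1.comp_ofReal).div_const (1 - (τ : ℂ) * Complex.I)
  have e : (1 - (τ : ℂ) * Complex.I) * (y : ℂ) ^ ((1 - (τ : ℂ) * Complex.I) - 1) /
      (1 - (τ : ℂ) * Complex.I) = (y : ℂ) ^ (-(τ : ℂ) * Complex.I) := by
    rw [mul_div_cancel_left₀ _ (den_ne τ)]
    congr 1; ring
  rw [e] at h2
  exact h2

lemma step (τ : ℝ) {n : ℕ} (hn : 1 ≤ n) :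
    ‖(pr τ (n + 1 : ℕ) - pr τ n) - nt τ n‖ ≤ |τ| / n := by
  have hn0 : (0 : ℝ) < n := by exact_mod_cast hn
  have key := norm_image_sub_le_of_norm_deriv_le_segment' (f := fun y : ℝ => pr τ y - (y : ℂ) * nt τ n)
    (f' := fun y : ℝ => (y : ℂ) ^ (-(τ : ℂ) * Complex.I) - nt τ n) (a := (n : ℝ)) (b := (n : ℝ) + 1)
    (C := |τ| / n) ?_ ?_ ((n : ℝ) + 1) (by constructor <;> linarith)
  · have e : (pr τ (n + 1 : ℕ) - pr τ n) - nt τ n =
        (pr τ ((n : ℝ) + 1) - (((n : ℝ) + 1 : ℝ) : ℂ) * nt τ n) - (pr τ n - ((n : ℝ) : ℂ) * nt τ n) := by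
      push_cast; ring
    rw [e]
    refine key.trans (le_of_eq ?_)
    ring
  · intro y hy
    have hy0 : 0 < y := lt_of_lt_of_le hn0 hy.1
    have h2 : HasDerivAt (fun y : ℝ => (y : ℂ) * nt τ n) (nt τ n) y := by
      have := (Complex.ofRealCLM.hasDerivAt (x := y)).mul_const (nt τ n)
      simpa using this
    exact ((pr_deriv τ hy0).sub h2).hasDerivWithinAt
  · intro y hy
    refine (osc τ hn hy.1).trans ?_
    rw [div_eq_mul_one_div |τ|]
    refine mul_le_mul_of_nonneg_left ?_ (abs_nonneg _)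
    rw [div_le_div_iff_of_pos_right hn0]
    linarith [hy.2]

/-- the sum of `n^{-iτ}` -/
lemma base {M u v : ℕ} {τ : ℝ} (hM : 1 ≤ M) (hu : M ≤ u + 1) (hv : v ≤ 2 * M) (hτ : 1 ≤ |τ|) :
    ‖∑ n ∈ Ioc u v, nt τ n‖ ≤ 6 * (M / |τ|) + 3 * |τ| := by
  have hM0 : (1 : ℝ) ≤ M := by exact_mod_cast hM
  have hτ0 : 0 < |τ| := by linarith
  rcases Nat.le_total v u with h | h
  · rw [Ioc_eq_empty_of_le h, sum_empty, norm_zero]; positivity
  have h1 : ∑ n ∈ Ioc u v, nt τ n = ∑ n ∈ Ioc u v, (pr τ (n + 1 : ℕ) - pr τ n) -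
      ∑ n ∈ Ioc u v, ((pr τ (n + 1 : ℕ) - pr τ n) - nt τ n) := by
    rw [← sum_sub_distrib]
    exact sum_congr rfl fun n _ => by ring
  have h2 : ∑ n ∈ Ioc u v, (pr τ (n + 1 : ℕ) - pr τ n) = pr τ (v + 1 : ℕ) - pr τ (u + 1 : ℕ) := by
    obtain ⟨k, rfl⟩ := Nat.exists_eq_add_of_le h
    clear h1 h hv
    induction k with
    | zero => simp
    | succ k ih =>
      rw [← add_assoc, Finset.sum_Ioc_succ_top (by omega), ih]
      ring
  have h3 : ‖∑ n ∈ Ioc u v, ((pr τ (n + 1 : ℕ) - pr τ n) - nt τ n)‖ ≤ 3 * |τ| := by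
    refine (norm_sum_le _ _).trans ?_
    have : ∀ n ∈ Ioc u v, ‖(pr τ (n + 1 : ℕ) - pr τ n) - nt τ n‖ ≤ |τ| / M := by
      intro n hn
      rw [mem_Ioc] at hn
      refine (step τ (by omega)).trans ?_
      refine div_le_div_of_nonneg_left hτ0.le (by linarith) ?_
      exact_mod_cast (by omega : M ≤ n)
    refine (sum_le_sum this).trans ?_
    rw [sum_const, Nat.card_Ioc, nsmul_eq_mul]
    have h4 : ((v - u : ℕ) : ℝ) ≤ 3 * M := by
      have : v - u ≤ 3 * M := by omega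
      exact_mod_cast this
    calc ((v - u : ℕ) : ℝ) * (|τ| / M) ≤ (3 * M) * (|τ| / M) :=
          mul_le_mul_of_nonneg_right h4 (by positivity)
      _ = 3 * |τ| := by field_simp
  have h5 : ‖pr τ (v + 1 : ℕ) - pr τ (u + 1 : ℕ)‖ ≤ 6 * (M / |τ|) := by
    have a1 := pr_le (τ := τ) (y := ((v + 1 : ℕ) : ℝ)) hτ (by positivity)
    have a2 := pr_le (τ := τ) (y := ((u + 1 : ℕ) : ℝ)) hτ (by positivity)
    refine (norm_sub_le _ _).trans ((add_le_add a1 a2).trans ?_)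
    rw [← add_div, ← mul_div_assoc]
    refine div_le_div_of_nonneg_right ?_ hτ0.le
    have : (v + 1) + (u + 1) ≤ 6 * M := by omega
    exact_mod_cast this
  rw [h1, h2]
  refine (norm_sub_le _ _).trans ?_
  linarith

/-- oscillation of `n^{-iτ}` between neighbours, total variation -/
lemma var {M u v : ℕ} {τ : ℝ} (hM : 1 ≤ M) (hu : M ≤ u + 1) (hv : v ≤ 2 * M) (huv : u < v) (hτ : 1 ≤ |τ|) :
    ‖nt τ v‖ + ∑ n ∈ Ioc u (v - 1), ‖nt τ (n + 1) - nt τ n‖ ≤ 3 * |τ| := by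
  have hM0 : (1 : ℝ) ≤ M := by exact_mod_cast hM
  rw [nt_norm τ (by omega)]
  have : ∀ n ∈ Ioc u (v - 1), ‖nt τ (n + 1) - nt τ n‖ ≤ |τ| / M := by
    intro n hn
    rw [mem_Ioc] at hn
    have hn1 : 1 ≤ n := by omega
    have hn0 : (0 : ℝ) < n := by exact_mod_cast hn1
    have := osc τ hn1 (y := ((n + 1 : ℕ) : ℝ)) (by push_cast; linarith)
    have e : (((n + 1 : ℕ) : ℝ) : ℂ) ^ (-(τ : ℂ) * Complex.I) = nt τ (n + 1) := by
      unfold nt; push_cast; rfl
    rw [e] at this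
    refine this.trans ?_
    have e2 : (((n + 1 : ℕ) : ℝ) - n) / n = 1 / n := by push_cast; ring
    rw [e2, ← div_eq_mul_one_div]
    refine div_le_div_of_nonneg_left (by positivity) (by linarith) ?_
    exact_mod_cast (by omega : M ≤ n)
  have h2 : ∑ n ∈ Ioc u (v - 1), ‖nt τ (n + 1) - nt τ n‖ ≤ 2 * |τ| := by
    refine (sum_le_sum this).trans ?_
    rw [sum_const, Nat.card_Ioc, nsmul_eq_mul]
    have h4 : ((v - 1 - u : ℕ) : ℝ) ≤ 2 * M := by
      have : v - 1 - u ≤ 2 * M := by omega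
      exact_mod_cast this
    calc ((v - 1 - u : ℕ) : ℝ) * (|τ| / M) ≤ (2 * M) * (|τ| / M) :=
          mul_le_mul_of_nonneg_right h4 (by positivity)
      _ = 2 * |τ| := by field_simp
  linarith

/-- prefix sums of a function of period `q` with mean zero -/
lemma per {q : ℕ} (hq : 0 < q) (f : ℕ → ℂ) (hf : ∀ n, f (n + q) = f n) (h0 : ∑ n ∈ range q, f n = 0)
    (hb : ∀ n, ‖f n‖ ≤ 2) (N : ℕ) : ‖∑ n ∈ range N, f n‖ ≤ 2 * q := by
  induction N using Nat.strong_induction_on with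
  | _ N ih =>
    rcases Nat.lt_or_ge N q with h | h
    · refine (norm_sum_le _ _).trans ((sum_le_sum fun n _ => hb n).trans ?_)
      rw [sum_const, card_range, nsmul_eq_mul]
      have : (N : ℝ) ≤ q := by exact_mod_cast h.le
      linarith
    · obtain ⟨k, rfl⟩ := Nat.exists_eq_add_of_le h
      rw [sum_range_add, h0, zero_add]
      have : ∀ x ∈ range k, f (q + x) = f x := fun x _ => by rw [add_comm, hf]
      rw [sum_congr rfl this]
      exact ih k (by omega)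

lemma ioc_range (f : ℕ → ℂ) {u v : ℕ} (h : u ≤ v) :
    ∑ n ∈ Ioc u v, f n = ∑ n ∈ range (v + 1), f n - ∑ n ∈ range (u + 1), f n := by
  obtain ⟨k, rfl⟩ := Nat.exists_eq_add_of_le h
  clear h
  induction k with
  | zero => simp
  | succ k ih =>
    rw [← add_assoc, Finset.sum_Ioc_succ_top (by omega), ih, sum_range_succ _ (u + k + 1)]
    ring

lemma twist {q : ℕ} [NeZero q] (χ : DirichletCharacter ℂ q) {M u v : ℕ} {τ : ℝ} (hM : 1 ≤ M)
    (hu : M ≤ u + 1) (hv : v ≤ 2 * M) (hτ : 1 ≤ |τ|) :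
    ‖∑ n ∈ Ioc u v, χ (n : ZMod q) * nt τ n‖ ≤ 15 * (M / |τ| + q * |τ|) := by
  have hM0 : (1 : ℝ) ≤ M := by exact_mod_cast hM
  have hτ0 : 0 < |τ| := by linarith
  have hq : 0 < q := Nat.pos_of_ne_zero (NeZero.ne q)
  have hq1 : (1 : ℝ) ≤ q := by exact_mod_cast hq
  rcases Nat.lt_or_ge u v with h | h
  swap
  · rw [Ioc_eq_empty_of_le h, sum_empty, norm_zero]; positivity
  set α : ℂ := (∑ b ∈ range q, χ (b : ZMod q)) / q with hα
  have hα1 : ‖α‖ ≤ 1 := by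
    rw [hα, norm_div, Complex.norm_natCast, div_le_one (by positivity)]
    refine (norm_sum_le _ _).trans ((sum_le_sum fun b _ => χ.norm_le_one _).trans ?_)
    simp
  have h0 : ∑ n ∈ range q, (χ (n : ZMod q) - α) = 0 := by
    rw [sum_sub_distrib, sum_const, card_range, nsmul_eq_mul, hα, mul_div_cancel₀, sub_self]
    exact_mod_cast hq.ne'
  have hf : ∀ n : ℕ, (χ ((n + q : ℕ) : ZMod q) - α) = χ (n : ZMod q) - α := by
    intro n; simp
  have hb : ∀ n : ℕ, ‖χ (n : ZMod q) - α‖ ≤ 2 := by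
    intro n
    refine (norm_sub_le _ _).trans ?_
    have := χ.norm_le_one (n : ZMod q)
    linarith
  have hP := per hq (fun n : ℕ => χ (n : ZMod q) - α) hf h0 hb
  have h1 : ‖∑ n ∈ Ioc u v, (χ (n : ZMod q) - α) * nt τ n‖ ≤ (4 * q) * (3 * |τ|) := by
    refine parts_le _ _ u v _ _ h.le (by positivity) ?_ (var hM hu hv h hτ)
    intro v' h1 h2
    rw [ioc_range _ h1]
    refine (norm_sub_le _ _).trans ?_
    have := hP (v' + 1)
    have := hP (u + 1)
    linarith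
  have h2 : ∑ n ∈ Ioc u v, χ (n : ZMod q) * nt τ n =
      ∑ n ∈ Ioc u v, (χ (n : ZMod q) - α) * nt τ n + α * ∑ n ∈ Ioc u v, nt τ n := by
    rw [mul_sum, ← sum_add_distrib]
    exact sum_congr rfl fun n _ => by ring
  rw [h2]
  refine (norm_add_le _ _).trans ?_
  rw [norm_mul]
  have h3 := base hM hu hv hτ
  have h4 : ‖α‖ * ‖∑ n ∈ Ioc u v, nt τ n‖ ≤ 1 * (6 * (M / |τ|) + 3 * |τ|) :=
    mul_le_mul hα1 h3 (norm_nonneg _) zero_le_one
  have h5 : |τ| ≤ q * |τ| := by nlinarith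
  have h6 : 0 ≤ (M : ℝ) / |τ| := by positivity
  nlinarith

lemma logvar {M u v : ℕ} (hM : 1 ≤ M) (hu : M ≤ u + 1) (hv : v ≤ 2 * M) (huv : u < v) :
    ‖((Real.log v : ℝ) : ℂ)‖ + ∑ n ∈ Ioc u (v - 1), ‖((Real.log (n + 1 : ℕ) : ℝ) : ℂ) - ((Real.log n : ℝ) : ℂ)‖ ≤
      2 * (1 + Real.log M) := by
  have hM0 : (0 : ℝ) < M := by exact_mod_cast hM
  have h1 : ∑ n ∈ Ioc u (v - 1), ‖((Real.log (n + 1 : ℕ) : ℝ) : ℂ) - ((Real.log n : ℝ) : ℂ)‖ =
      Real.log v - Real.log (u + 1 : ℕ) := by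
    have : ∀ n ∈ Ioc u (v - 1), ‖((Real.log (n + 1 : ℕ) : ℝ) : ℂ) - ((Real.log n : ℝ) : ℂ)‖ =
        Real.log (n + 1 : ℕ) - Real.log n := by
      intro n hn
      rw [mem_Ioc] at hn
      rw [← Complex.ofReal_sub, Complex.norm_real, Real.norm_eq_abs, abs_of_nonneg]
      have := Real.log_le_log (x := (n : ℝ)) (y := ((n + 1 : ℕ) : ℝ))
        (by exact_mod_cast (by omega : 0 < n)) (by push_cast; linarith)
      linarith
    rw [sum_congr rfl this]
    obtain ⟨k, rfl⟩ := Nat.exists_eq_add_of_lt huv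
    clear this hv huv
    have e : u + k + 1 - 1 = u + k := by omega
    rw [e]
    induction k with
    | zero => simp
    | succ k ih =>
      rw [← add_assoc, Finset.sum_Ioc_succ_top (by omega), ih (by omega)]
      ring
  rw [h1, Complex.norm_real, Real.norm_eq_abs, abs_of_nonneg (Real.log_natCast_nonneg v)]
  have h2 : Real.log v ≤ 1 + Real.log M := by
    have a1 : Real.log v ≤ Real.log (2 * M) :=
      Real.log_le_log (by exact_mod_cast (by omega : 0 < v)) (by exact_mod_cast hv)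
    rw [Real.log_mul (by norm_num) hM0.ne'] at a1
    have := Real.log_two_lt_d9
    linarith
  have h3 := Real.log_natCast_nonneg (u + 1)
  linarith

theorem fd : S_FD := by
  refine ⟨30, by norm_num, ?_⟩
  intro q _ χ M u v τ hM hu hv hτ
  have hτ0 : 0 < |τ| := by linarith
  have hM0 : (1 : ℝ) ≤ M := by exact_mod_cast hM
  have hl := Real.log_natCast_nonneg M
  constructor
  · refine (twist χ hM hu hv hτ).trans ?_
    have : 0 ≤ M / |τ| + q * |τ| := by positivity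
    linarith
  · rcases Nat.lt_or_ge u v with h | h
    swap
    · rw [Ioc_eq_empty_of_le h, sum_empty, norm_zero]; positivity
    have e : ∑ n ∈ Ioc u v, (χ (n : ZMod q) * (Real.log n : ℂ)) * nt τ n =
        ∑ n ∈ Ioc u v, (χ (n : ZMod q) * nt τ n) * (Real.log n : ℂ) :=
      sum_congr rfl fun n _ => by ring
    rw [e]
    have := parts_le (fun n : ℕ => χ (n : ZMod q) * nt τ n) (fun n : ℕ => ((Real.log n : ℝ) : ℂ)) u v
      (15 * (M / |τ| + q * |τ|)) (2 * (1 + Real.log M)) h.le (by positivity)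
      (fun v' _ h2 => twist χ hM hu (h2.trans hv) hτ) (logvar hM hu hv h)
    refine this.trans (le_of_eq ?_)
    ring

end Pool.Agent.V8H34.CR.Fd
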