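import Pool.Agent.V8H34.CR.Dv
import Pool.Agent.H370R2.MV

/-! Project CR, part MVG: tools (mean squares of sums over tuples, cells). -/

set_option autoImplicit false

namespace Pool.Agent.V8H34.CR

open Finset MeasureTheory Pool.Agent.Q236.CR

theorem nt_mul (τ : ℝ) (m n : ℕ) : nt τ (m * n) = nt τ m * nt τ n := by
  unfold nt
  push_cast
  exact Complex.natCast_mul_natCast_cpow m n _

theorem nt_one (τ : ℝ) : nt τ 1 = 1 := by
  unfold nt; simp

theorem nt_prod {ι : Type*} (τ : ℝ) (s : Finset ι) (v : ι → ℕ) :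
    nt τ (∏ i ∈ s, v i) = ∏ i ∈ s, nt τ (v i) := by
  classical
  induction s using Finset.induction_on with
  | empty => simp [nt_one]
  | insert a s ha ih => rw [prod_insert ha, prod_insert ha, nt_mul, ih]

theorem nt_norm (τ : ℝ) {n : ℕ} (hn : 1 ≤ n) : ‖nt τ n‖ = 1 := by
  unfold nt
  rw [Complex.norm_natCast_cpow_of_pos (by omega)]
  simp

theorem nt_cont {n : ℕ} (hn : 1 ≤ n) : Continuous fun τ : ℝ => nt τ n := by
  unfold nt
  have h : (n : ℂ) ≠ 0 := by exact_mod_cast (by omega : n ≠ 0)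
  refine Continuous.const_cpow (by fun_prop) (Or.inl h)

theorem cont_sum {ι : Type*} (W : Finset ι) (c : ι → ℂ) (f : ι → ℕ) (hf : ∀ w ∈ W, 1 ≤ f w) :
    Continuous fun τ : ℝ => ∑ w ∈ W, c w * nt τ (f w) := by
  refine continuous_finsetSum _ fun w hw => ?_
  exact continuous_const.mul (nt_cont (hf w hw))

/-- mean square of a sum over tuples -/
theorem ms_of_tuples {r : ℕ} (W : Finset (Fin r → ℕ)) (c : (Fin r → ℕ) → ℂ) (A : ℝ) (Y Z : ℕ)
    (hA : 0 ≤ A) (hW : ∀ w ∈ W, ∀ i, w i ∈ Icc 1 Y) (P : Finset ℕ) (hPZ : P ⊆ Icc 1 Z)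
    (hP : ∀ w ∈ W, ∏ i, w i ∈ P) (hc : ∀ w ∈ W, ‖c w‖ ≤ A) (T1 T2 : ℝ) (h : T1 ≤ T2) :
    ∫ τ in T1..T2, ‖∑ w ∈ W, c w * nt τ (∏ i, w i)‖ ^ 2 ≤
      (T2 - T1 + 8 * Z * (1 + Real.log Z)) * (A ^ 2 * ∑ n ∈ P, (tr r Y n : ℝ) ^ 2) := by
  classical
  set b : ℕ → ℂ := fun n => ∑ w ∈ W.filter (fun w => ∏ i, w i = n), c w with hb
  have h1 : ∀ τ : ℝ, ∑ w ∈ W, c w * nt τ (∏ i, w i) =
      ∑ n ∈ Icc 1 Z, b n * (n : ℂ) ^ (-(τ : ℂ) * Complex.I) := by
    intro τ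
    rw [← sum_fiberwise_of_maps_to (s := W) (t := Icc 1 Z) (g := fun w => ∏ i, w i)
      (fun w hw => hPZ (hP w hw))]
    refine sum_congr rfl fun n hn => ?_
    rw [hb]
    simp only
    rw [sum_mul]
    refine sum_congr rfl fun w hw => ?_
    rw [mem_filter] at hw
    rw [hw.2]
    rfl
  simp_rw [h1]
  refine (H370.mean_value b Z T1 T2 h).trans ?_
  have hb0 : ∀ n, ‖b n‖ ≤ A * tr r Y n := by
    intro n
    rw [hb]
    refine (norm_sum_le _ _).trans ?_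
    calc ∑ w ∈ W.filter (fun w => ∏ i, w i = n), ‖c w‖
        ≤ ∑ w ∈ W.filter (fun w => ∏ i, w i = n), A :=
          sum_le_sum fun w hw => hc w (mem_filter.1 hw).1
      _ = A * (W.filter (fun w => ∏ i, w i = n)).card := by
          rw [sum_const, nsmul_eq_mul, mul_comm]
      _ ≤ A * tr r Y n := by
          refine mul_le_mul_of_nonneg_left ?_ hA
          unfold tr
          norm_cast
          refine card_le_card ?_
          intro w hw
          rw [mem_filter] at hw ⊢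
          exact ⟨Fintype.mem_piFinset.2 (hW w hw.1), hw.2⟩
  have hb1 : ∀ n, n ∉ P → b n = 0 := by
    intro n hn
    rw [hb]
    simp only
    refine sum_eq_zero fun w hw => ?_
    rw [mem_filter] at hw
    exact absurd (hw.2 ▸ hP w hw.1) hn
  have hsum : ∑ n ∈ Icc 1 Z, ‖b n‖ ^ 2 ≤ A ^ 2 * ∑ n ∈ P, (tr r Y n : ℝ) ^ 2 := by
    rw [← sum_subset hPZ (f := fun n => ‖b n‖ ^ 2)
      (fun n _ hn => by rw [hb1 n hn]; simp), mul_sum]
    refine sum_le_sum fun n _ => ?_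
    rw [← mul_pow]
    exact pow_le_pow_left₀ (norm_nonneg _) (hb0 n) 2
  refine mul_le_mul_of_nonneg_left hsum ?_
  have := Real.log_natCast_nonneg Z
  have : (0 : ℝ) ≤ 8 * Z * (1 + Real.log Z) := by positivity
  linarith

/-! ### cells -/

/-- the cell of `n` -/
noncomputable def cl (η : ℝ) (n : ℕ) : ℕ := ⌊Real.log n / η⌋₊

theorem cl_iff {η : ℝ} (hη : 0 < η) {n : ℕ} (hn : 1 ≤ n) (l : ℕ) :
    cl η n = l ↔ Real.exp (l * η) ≤ n ∧ (n : ℝ) < Real.exp ((l + 1) * η) := by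
  have hn0 : (0 : ℝ) < n := by exact_mod_cast hn
  have hlog : 0 ≤ Real.log n / η := div_nonneg (Real.log_natCast_nonneg n) hη.le
  unfold cl
  rw [Nat.floor_eq_iff hlog, le_div_iff₀ hη, div_lt_iff₀ hη, Real.le_log_iff_exp_le hn0,
    Real.log_lt_iff_lt_exp hn0]

/-- cells are intervals -/
theorem cell_eq {η : ℝ} (hη : 0 < η) (hη2 : Real.exp η ≤ 2) (Y l : ℕ) :
    ∃ v : ℕ, v ≤ 2 * ⌈Real.exp (l * η)⌉₊ ∧
      (Icc 1 Y).filter (fun n => cl η n = l) = Ioc (⌈Real.exp (l * η)⌉₊ - 1) v := by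
  set M : ℕ := ⌈Real.exp (l * η)⌉₊ with hM
  have hM1 : 1 ≤ M := Nat.one_le_iff_ne_zero.2 (by
    rw [hM]; exact (Nat.ceil_pos.2 (Real.exp_pos _)).ne')
  have hMle : Real.exp (l * η) ≤ M := Nat.le_ceil _
  set V : ℕ := ⌈Real.exp ((l + 1) * η)⌉₊ with hV
  have hV1 : 1 ≤ V := Nat.one_le_iff_ne_zero.2 (by
    rw [hV]; exact (Nat.ceil_pos.2 (Real.exp_pos _)).ne')
  have hV2 : V ≤ 2 * M := by
    rw [hV, Nat.ceil_le]
    push_cast
    have : Real.exp ((l + 1) * η) = Real.exp η * Real.exp (l * η) := by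
      rw [← Real.exp_add]; congr 1; ring
    rw [this]
    exact mul_le_mul hη2 hMle (Real.exp_pos _).le (by norm_num)
  refine ⟨min Y (V - 1), by omega, ?_⟩
  ext n
  rw [mem_filter, mem_Icc, mem_Ioc]
  constructor
  · rintro ⟨⟨h1, h2⟩, h3⟩
    rw [cl_iff hη h1] at h3
    have h4 : M ≤ n := Nat.ceil_le.2 h3.1
    have h5 : n < V := Nat.lt_ceil.2 h3.2
    omega
  · rintro ⟨h1, h2⟩
    have h3 : M ≤ n := by omega
    have h4 : n < V := by omega
    have h5 : 1 ≤ n := by omega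
    refine ⟨⟨h5, by omega⟩, ?_⟩
    rw [cl_iff hη h5]
    exact ⟨Nat.ceil_le.1 h3, Nat.lt_ceil.1 h4⟩

end Pool.Agent.V8H34.CR
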