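import Pool.Agent.Q236.CR.Stm
import Pool.Agent.H373R2.T7.LamMaj
import Pool.Agent.H373R2.T7.SupMu
import Pool.Agent.V8H34.CR.MvgA

/-! Project CR, part LOW: small heights. -/

set_option autoImplicit false

namespace Pool.Agent.V8H34.CR

open Finset Filter Pool.Agent.Q236.CR

theorem sum_range_zmod {q : ℕ} [NeZero q] (g : ZMod q → ℂ) :
    ∑ c ∈ range q, g (c : ZMod q) = ∑ a : ZMod q, g a := by
  refine sum_bij' (fun c _ => (c : ZMod q)) (fun a _ => a.val) (fun _ _ => mem_univ _)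
    (fun a _ => mem_range.2 (ZMod.val_lt a)) (fun c hc => ?_) (fun a _ => ?_) (fun _ _ => rfl)
  · exact ZMod.val_cast_of_lt (mem_range.1 hc)
  · exact ZMod.natCast_zmod_val a

theorem sum_classes {q : ℕ} [NeZero q] (χ : DirichletCharacter ℂ q) (f : ℕ → ℝ) (y : ℕ) :
    ∑ n ∈ Icc 1 y, χ (n : ZMod q) * (f n : ℂ) =
      ∑ c ∈ range q, χ (c : ZMod q) *
        ((∑ n ∈ (Icc 1 y).filter (fun n => n ≡ c [MOD q]), f n : ℝ) : ℂ) := by
  have hq : 0 < q := Nat.pos_of_ne_zero (NeZero.ne q)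
  rw [← sum_fiberwise_of_maps_to (s := Icc 1 y) (t := range q) (g := fun n => n % q)
    (fun n _ => mem_range.2 (Nat.mod_lt n hq))]
  refine sum_congr rfl fun c hc => ?_
  have hcq : c < q := mem_range.1 hc
  push_cast
  rw [mul_sum]
  have hfil : (Icc 1 y).filter (fun n => n % q = c) = (Icc 1 y).filter (fun n => n ≡ c [MOD q]) := by
    refine filter_congr fun n _ => ?_
    unfold Nat.ModEq
    rw [Nat.mod_eq_of_lt hcq]
  rw [hfil]
  refine sum_congr rfl fun n hn => ?_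
  rw [(ZMod.natCast_eq_natCast_iff n c q).2 (mem_filter.1 hn).2]

theorem sum_char_classes {q : ℕ} [NeZero q] (χ : DirichletCharacter ℂ q) (y : ℝ) :
    ∑ c ∈ range q, χ (c : ZMod q) *
      (((if c.Coprime q then y / (Nat.totient q : ℝ) else 0 : ℝ)) : ℂ) =
      if χ = 1 then (y : ℂ) else 0 := by
  classical
  have h1 : ∀ c ∈ range q, χ (c : ZMod q) *
      (((if c.Coprime q then y / (Nat.totient q : ℝ) else 0 : ℝ)) : ℂ) =
      χ (c : ZMod q) * ((y / (Nat.totient q : ℝ) : ℝ) : ℂ) := by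
    intro c _
    by_cases hc : c.Coprime q
    · rw [if_pos hc]
    · have : χ (c : ZMod q) = 0 := χ.map_nonunit (by rwa [ZMod.isUnit_iff_coprime])
      rw [this, zero_mul, zero_mul]
  rw [sum_congr rfl h1, ← sum_mul, sum_range_zmod (fun a => χ a)]
  by_cases hχ : χ = 1
  · rw [if_pos hχ, hχ, MulChar.sum_one_eq_card_units, ZMod.card_units_eq_totient]
    have hφ : (Nat.totient q : ℂ) ≠ 0 := by
      exact_mod_cast (Nat.totient_pos.2 (Nat.pos_of_ne_zero (NeZero.ne q))).ne'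
    push_cast
    field_simp
  · rw [if_neg hχ, MulChar.sum_eq_zero_of_ne_one hχ, zero_mul]

/-- prefix sums of `χ Λ - δ` -/
theorem pre_lam (B U : ℕ) : ∃ N0 : ℕ, ∀ N : ℕ, N0 ≤ N → ∀ (q : ℕ) (_ : NeZero q),
    (q : ℝ) ≤ Real.log N ^ B → ∀ χ : DirichletCharacter ℂ q, ∀ y : ℕ, y ≤ N →
    ‖∑ n ∈ Icc 1 y, (cL χ n - (if χ = 1 then 1 else 0))‖ ≤ q * (N / Real.log N ^ U) := by
  classical
  obtain ⟨N0, h⟩ := Pool.Agent.H373R2.T7.lam_ap B U
  refine ⟨N0, fun N hN q hq hqB χ y hy => ?_⟩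
  have hq1 : 1 ≤ q := Nat.one_le_iff_ne_zero.2 (NeZero.ne q)
  have e1 : ∑ n ∈ Icc 1 y, (cL χ n - (if χ = 1 then 1 else 0)) =
      ∑ c ∈ range q, χ (c : ZMod q) *
        (((∑ n ∈ (Icc 1 y).filter (fun n => n ≡ c [MOD q]), ArithmeticFunction.vonMangoldt n) -
          (if c.Coprime q then (y : ℝ) / (Nat.totient q : ℝ) else 0) : ℝ) : ℂ) := by
    rw [sum_sub_distrib]
    have e2 := sum_classes χ (fun n => ArithmeticFunction.vonMangoldt n) y
    have e3 := sum_char_classes χ (y : ℝ)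
    unfold cL
    rw [e2]
    have e4 : ∑ n ∈ Icc 1 y, (if χ = 1 then (1 : ℂ) else 0) = if χ = 1 then (y : ℂ) else 0 := by
      rw [sum_const, Nat.card_Icc, nsmul_eq_mul]
      split_ifs <;> simp
    rw [e4]
    have e5 : (if χ = 1 then (y : ℂ) else 0) = if χ = 1 then (((y : ℝ)) : ℂ) else 0 := by
      push_cast; rfl
    rw [e5, ← e3, ← sum_sub_distrib]
    refine sum_congr rfl fun c _ => ?_
    push_cast
    ring
  rw [e1]
  refine (norm_sum_le _ _).trans ?_
  calc ∑ c ∈ range q, ‖χ (c : ZMod q) *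
        (((∑ n ∈ (Icc 1 y).filter (fun n => n ≡ c [MOD q]), ArithmeticFunction.vonMangoldt n) -
          (if c.Coprime q then (y : ℝ) / (Nat.totient q : ℝ) else 0) : ℝ) : ℂ)‖
      ≤ ∑ c ∈ range q, N / Real.log N ^ U := by
        refine sum_le_sum fun c _ => ?_
        rw [norm_mul, Complex.norm_real, Real.norm_eq_abs]
        have h1 := h N hN q hq1 hqB c y hy
        calc _ ≤ 1 * (N / Real.log N ^ U) :=
              mul_le_mul (χ.norm_le_one _) h1 (abs_nonneg _) zero_le_one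
          _ = _ := one_mul _
    _ = _ := by rw [sum_const, card_range, nsmul_eq_mul]

/-- prefix sums of `χ μ` -/
theorem pre_mu (B U : ℕ) : ∃ N0 : ℕ, ∀ N : ℕ, N0 ≤ N → ∀ (q : ℕ) (_ : NeZero q),
    (q : ℝ) ≤ Real.log N ^ B → ∀ χ : DirichletCharacter ℂ q, ∀ y : ℕ, y ≤ N →
    ‖∑ n ∈ Icc 1 y, cM χ n‖ ≤ q * (N / Real.log N ^ U) := by
  classical
  obtain ⟨N0, h⟩ := Pool.Agent.H373R2.T7.mu_ap B U
  refine ⟨N0, fun N hN q hq hqB χ y hy => ?_⟩
  have hq1 : 1 ≤ q := Nat.one_le_iff_ne_zero.2 (NeZero.ne q)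
  have e1 : ∑ n ∈ Icc 1 y, cM χ n =
      ∑ c ∈ range q, χ (c : ZMod q) *
        ((∑ n ∈ (Icc 1 y).filter (fun n => n ≡ c [MOD q]), Pool.Agent.H373R2.T7.muR n : ℝ) : ℂ) := by
    rw [← sum_classes χ Pool.Agent.H373R2.T7.muR y]
    refine sum_congr rfl fun n _ => ?_
    unfold cM Pool.Agent.H373R2.T7.muR
    push_cast
    rfl
  rw [e1]
  refine (norm_sum_le _ _).trans ?_
  calc ∑ c ∈ range q, ‖χ (c : ZMod q) *
        ((∑ n ∈ (Icc 1 y).filter (fun n => n ≡ c [MOD q]), Pool.Agent.H373R2.T7.muR n : ℝ) : ℂ)‖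
      ≤ ∑ c ∈ range q, N / Real.log N ^ U := by
        refine sum_le_sum fun c _ => ?_
        rw [norm_mul, Complex.norm_real, Real.norm_eq_abs]
        have h1 := h N hN q hq1 hqB c y hy
        calc _ ≤ 1 * (N / Real.log N ^ U) :=
              mul_le_mul (χ.norm_le_one _) h1 (abs_nonneg _) zero_le_one
          _ = _ := one_mul _
    _ = _ := by rw [sum_const, card_range, nsmul_eq_mul]

/-- consecutive values of `n^{-iτ}` are close -/
theorem nt_step (τ : ℝ) {n : ℕ} (hn : 1 ≤ n) : ‖nt τ (n + 1) - nt τ n‖ ≤ |τ| / n := by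
  have hn0 : (0 : ℝ) < n := by exact_mod_cast hn
  have h1 : nt τ (n + 1) - nt τ n = nt τ n *
      (Complex.exp (Complex.I * ((-τ * (Real.log (n + 1) - Real.log n) : ℝ) : ℂ)) - 1) := by
    unfold nt
    have a1 : ((n : ℕ) : ℂ) ≠ 0 := by exact_mod_cast (by omega : n ≠ 0)
    have a2 : ((n + 1 : ℕ) : ℂ) ≠ 0 := by exact_mod_cast (by omega : n + 1 ≠ 0)
    rw [Complex.cpow_def_of_ne_zero a1, Complex.cpow_def_of_ne_zero a2, mul_sub, mul_one,
      ← Complex.exp_add, ← Complex.natCast_log, ← Complex.natCast_log]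
    congr 2
    push_cast
    ring
  rw [h1, norm_mul, nt_norm τ hn, one_mul]
  refine (Real.norm_exp_I_mul_ofReal_sub_one_le).trans ?_
  rw [Real.norm_eq_abs, abs_mul, abs_neg, div_eq_mul_one_div]
  refine mul_le_mul_of_nonneg_left ?_ (abs_nonneg _)
  have h2 : Real.log (n + 1) - Real.log n = Real.log ((n + 1) / n) := by
    rw [Real.log_div (by positivity) hn0.ne']
  have h3 : 0 ≤ Real.log (((n : ℝ) + 1) / n) := Real.log_nonneg (by
    rw [le_div_iff₀ hn0]; linarith)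
  rw [h2, abs_of_nonneg h3]
  have h4 := Real.log_le_sub_one_of_pos (show (0 : ℝ) < ((n : ℝ) + 1) / n by positivity)
  refine h4.trans (le_of_eq ?_)
  field_simp
  ring

/-- partial summation -/
theorem abel_nt (a : ℕ → ℂ) (τ P : ℝ) (X x1 k : ℕ) (hX : 1 ≤ X) (hx1 : X ≤ x1) (hk : k ≤ 8 * X)
    (hP : ∀ y, y ≤ x1 + k → ‖∑ n ∈ Icc 1 y, a n‖ ≤ P) :
    ‖∑ n ∈ Ioc x1 (x1 + k), a n * nt τ n‖ ≤ 2 * P * (1 + 8 * |τ|) := by
  set b : ℕ → ℂ := fun j => ∑ n ∈ Ioc x1 (x1 + j), a n with hb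
  have hP0 : 0 ≤ P := (norm_nonneg _).trans (hP 0 (Nat.zero_le _))
  have hbP : ∀ j, j ≤ k → ‖b j‖ ≤ 2 * P := by
    intro j hj
    have h1 : b j = (∑ n ∈ Icc 1 (x1 + j), a n) - ∑ n ∈ Icc 1 x1, a n := by
      have h2 : Icc 1 (x1 + j) = Icc 1 x1 ∪ Ioc x1 (x1 + j) := by
        ext n; simp only [mem_Icc, mem_union, mem_Ioc]; omega
      have h3 : Disjoint (Icc 1 x1) (Ioc x1 (x1 + j)) := by
        rw [disjoint_left]; intro n; simp only [mem_Icc, mem_Ioc]; omega
      rw [h2, sum_union h3, add_sub_cancel_left]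
    rw [h1]
    refine (norm_sub_le _ _).trans ?_
    have := hP (x1 + j) (by omega)
    have := hP x1 (by omega)
    linarith
  have hsum : ∀ k, ∑ n ∈ Ioc x1 (x1 + k), a n * nt τ n =
      b k * nt τ (x1 + k) - ∑ j ∈ range k, b j * (nt τ (x1 + j + 1) - nt τ (x1 + j)) := by
    intro k
    induction k with
    | zero => simp [hb]
    | succ k ih =>
      have h1 : Ioc x1 (x1 + (k + 1)) = insert (x1 + k + 1) (Ioc x1 (x1 + k)) := by
        ext n; simp only [mem_Ioc, mem_insert]; omega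
      have h2 : (x1 + k + 1) ∉ Ioc x1 (x1 + k) := by simp
      have h3 : b (k + 1) = a (x1 + k + 1) + b k := by
        rw [hb]; simp only
        rw [h1, sum_insert h2]
      rw [h1, sum_insert h2, ih, sum_range_succ, h3, ← add_assoc x1 k 1]
      ring
  rw [hsum k]
  have hX0 : (0 : ℝ) < X := by exact_mod_cast hX
  have h1 : ‖b k * nt τ (x1 + k)‖ ≤ 2 * P := by
    rw [norm_mul, nt_norm τ (by omega), mul_one]
    exact hbP k le_rfl
  have h2 : ‖∑ j ∈ range k, b j * (nt τ (x1 + j + 1) - nt τ (x1 + j))‖ ≤ 2 * P * (8 * |τ|) := by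
    refine (norm_sum_le _ _).trans ?_
    calc ∑ j ∈ range k, ‖b j * (nt τ (x1 + j + 1) - nt τ (x1 + j))‖
        ≤ ∑ j ∈ range k, 2 * P * (|τ| / X) := by
          refine sum_le_sum fun j hj => ?_
          rw [norm_mul]
          refine mul_le_mul (hbP j (mem_range.1 hj).le) ?_ (norm_nonneg _) (by positivity)
          refine (nt_step τ (by omega)).trans ?_
          refine div_le_div_of_nonneg_left (abs_nonneg _) hX0 ?_
          exact_mod_cast (by omega : X ≤ x1 + j)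
      _ = 2 * P * (k * (|τ| / X)) := by rw [sum_const, card_range, nsmul_eq_mul]; ring
      _ ≤ 2 * P * (8 * |τ|) := by
          refine mul_le_mul_of_nonneg_left ?_ (by positivity)
          have : (k : ℝ) ≤ 8 * X := by exact_mod_cast hk
          rw [mul_div_assoc', div_le_iff₀ hX0]
          nlinarith [abs_nonneg τ]
  calc _ ≤ ‖b k * nt τ (x1 + k)‖ + ‖∑ j ∈ range k, b j * (nt τ (x1 + j + 1) - nt τ (x1 + j))‖ :=
        norm_sub_le _ _
    _ ≤ 2 * P * (1 + 8 * |τ|) := by linarith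

/-- **LOW** -/
theorem low : S_LOW := by
  intro B C₀ K
  set U : ℕ := K + B + C₀ + 1 with hU
  obtain ⟨N0, hlam⟩ := pre_lam B U
  obtain ⟨N1, hmu⟩ := pre_mu B U
  have hlog : Tendsto (fun n : ℕ => Real.log n) atTop atTop :=
    Real.tendsto_log_atTop.comp tendsto_natCast_atTop_atTop
  obtain ⟨N2, hN2⟩ := eventually_atTop.1 (hlog.eventually_ge_atTop 162)
  refine ⟨max (max N0 N1) (max N2 1), fun X hX q hq hqB χ τ hτ x1 x2 hx1 hx2 => ?_⟩
  have hXN0 : N0 ≤ X := (le_max_left _ _).trans ((le_max_left _ _).trans hX)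
  have hXN1 : N1 ≤ X := (le_max_right _ _).trans ((le_max_left _ _).trans hX)
  have hXN2 : N2 ≤ X := (le_max_left _ _).trans ((le_max_right _ _).trans hX)
  have hX1 : 1 ≤ X := (le_max_right _ _).trans ((le_max_right _ _).trans hX)
  have hL := hN2 X hXN2
  have hX0 : (0 : ℝ) < X := by exact_mod_cast hX1
  set L : ℝ := Real.log X with hLdef
  have hL0 : 0 < L := by linarith
  have hL1 : 1 ≤ L := by linarith
  have hlog9 : L ≤ Real.log ((9 * X : ℕ) : ℝ) := by
    refine Real.log_le_log hX0 ?_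
    push_cast; linarith
  have hqB9 : (q : ℝ) ≤ Real.log ((9 * X : ℕ) : ℝ) ^ B := hqB.trans (pow_le_pow_left₀ hL0.le hlog9 B)
  set P : ℝ := L ^ B * (9 * X / L ^ U) with hP
  have hbd : (q : ℝ) * (((9 * X : ℕ) : ℝ) / Real.log ((9 * X : ℕ) : ℝ) ^ U) ≤ P := by
    rw [hP]
    refine mul_le_mul hqB ?_ (by positivity) (by positivity)
    push_cast at hlog9 ⊢
    exact div_le_div_of_nonneg_left (by positivity) (by positivity)
      (pow_le_pow_left₀ hL0.le hlog9 U)
  have hfin : 2 * P * (1 + 8 * |τ|) ≤ X / L ^ K := by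
    have h1 : 1 + 8 * |τ| ≤ 9 * L ^ C₀ := by
      have : (1 : ℝ) ≤ L ^ C₀ := one_le_pow₀ hL1
      linarith
    have h2 : 2 * P * (1 + 8 * |τ|) ≤ 2 * P * (9 * L ^ C₀) :=
      mul_le_mul_of_nonneg_left h1 (by positivity)
    refine h2.trans ?_
    have h3 : 2 * P * (9 * L ^ C₀) = X / L ^ K * (162 / L) := by
      rw [hP, hU]
      have : L ^ (K + B + C₀ + 1) = L ^ K * L ^ B * L ^ C₀ * L := by ring
      rw [this]
      field_simp
      ring
    rw [h3]
    have h4 : 162 / L ≤ 1 := by rw [div_le_one hL0]; exact hL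
    calc (X : ℝ) / L ^ K * (162 / L) ≤ X / L ^ K * 1 :=
          mul_le_mul_of_nonneg_left h4 (by positivity)
      _ = _ := mul_one _
  rcases le_or_gt x2 x1 with hx | hx
  · rw [Ioc_eq_empty (not_lt.2 hx)]
    simp only [sum_empty, norm_zero]
    constructor <;> positivity
  obtain ⟨k, hk⟩ := Nat.exists_eq_add_of_lt hx
  obtain ⟨k', hk'⟩ : ∃ k', x2 = x1 + k' := ⟨k + 1, by omega⟩
  rw [hk']
  constructor
  · refine (abel_nt _ τ P X x1 k' hX1 hx1 (by omega) ?_).trans hfin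
    intro y hy
    exact (hlam (9 * X) (by omega) q hq hqB9 χ y (by omega)).trans hbd
  · refine (abel_nt _ τ P X x1 k' hX1 hx1 (by omega) ?_).trans hfin
    intro y hy
    exact (hmu (9 * X) (by omega) q hq hqB9 χ y (by omega)).trans hbd

end Pool.Agent.V8H34.CR
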