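import Pool.Agent.Q236.CR.Stm
import Pool.Agent.Y306.VK.Zeta
import Pool.Agent.Y957.VK.Fin1
import Pool.Agent.H307R2.LU
import Pool.Agent.H370R2.DirGood

/-!
Project CR, part LUP: upper bound for `L(s, χ)` near the line `Re s = 1` (helper10).
-/

set_option autoImplicit false

namespace Pool.Agent.V8H34.CR.Lup

open Finset Filter
open Pool.Agent.Q236.CR (nt S_CHR S_LUP)
open Pool.Agent.Y306.VK (abel' term_eq)

/-- the numbers -/
structure Nm (B C : ℕ) (c C2 L u v w : ℝ) : Prop where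
  c0 : 0 < c
  hC2 : 1 ≤ C2
  u1 : 1 ≤ u
  uv : u ^ (C + 4) = v
  v2 : v ^ 2 = L
  hv : 18 * (1 + B + C * 3 ^ C) ≤ c * v
  hv2 : 10 ≤ v
  hlog : Real.log L ≤ u
  hw : w * L = u
  big : Real.log (2 * C2) + B * Real.log L + Real.log (1 + 4 * L) + 4 * u ≤ L / (6 * u)
  big2 : Real.log 26 + 2 * B * Real.log L ≤ L / (3 * u)

namespace Nm

variable {B C : ℕ} {c C2 L u v w : ℝ}

theorem L100 (h : Nm B C c C2 L u v w) : 100 ≤ L := by
  have h1 := h.v2
  have h2 := h.hv2
  nlinarith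

theorem uv4 (h : Nm B C c C2 L u v w) : u ^ 4 ≤ v := by
  rw [← h.uv]
  exact pow_le_pow_right₀ h.u1 (by omega)

theorem uv3 (h : Nm B C c C2 L u v w) : u ^ 3 ≤ v := by
  rw [← h.uv]
  exact pow_le_pow_right₀ h.u1 (by omega)

theorem u_le_v (h : Nm B C c C2 L u v w) : u ≤ v := by
  have h1 : u ^ 1 ≤ u ^ (C + 4) := pow_le_pow_right₀ h.u1 (by omega)
  rw [pow_one, h.uv] at h1
  exact h1

theorem u_le (h : Nm B C c C2 L u v w) : 2 * u ≤ L := by
  have h1 := h.u_le_v
  have h2 := h.hv2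
  rw [← h.v2]
  nlinarith

theorem w0 (h : Nm B C c C2 L u v w) : 0 < w := by
  have h1 := h.hw
  have h2 := h.L100
  have h3 := h.u1
  by_contra hcon
  push Not at hcon
  nlinarith

theorem w_le (h : Nm B C c C2 L u v w) : w ≤ 1 / 2 := by
  have h1 := h.hw
  have h2 := h.u_le
  have h3 := h.L100
  by_contra hcon
  push Not at hcon
  nlinarith

/-- the exponent of a piece -/
theorem piece (h : Nm B C c C2 L u v w) {κ m : ℝ} (hm : L / u ≤ m) (hκ0 : 0 ≤ κ) (hκ : κ ≤ 2 * u) :
    B * Real.log L + C * (1 + κ) ^ C + m * (w - c / (1 + κ) ^ 2) ≤ 0 := by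
  have hL := h.L100
  have hu := h.u1
  have hc := h.c0
  have hL0 : 0 < L := by linarith
  have hu0 : 0 < u := by linarith
  have hm0 : 0 < m := lt_of_lt_of_le (by positivity) hm
  have h1 : 1 + κ ≤ 3 * u := by linarith
  have h2 : (1 + κ) ^ C ≤ (3 * u) ^ C := pow_le_pow_left₀ (by linarith) h1 C
  have h3 : c / (9 * u ^ 2) ≤ c / (1 + κ) ^ 2 := by
    refine div_le_div_of_nonneg_left hc.le (by positivity) ?_
    have h4 := pow_le_pow_left₀ (by linarith : (0 : ℝ) ≤ 1 + κ) h1 2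
    calc (1 + κ) ^ 2 ≤ (3 * u) ^ 2 := h4
      _ = 9 * u ^ 2 := by ring
  have hv0 : 0 < v := by linarith [h.hv2]
  have hC0 : (0 : ℝ) ≤ (C : ℝ) * 3 ^ C := by positivity
  have hB0 : (0 : ℝ) ≤ (B : ℝ) := Nat.cast_nonneg B
  have h5 : w ≤ c / (18 * u ^ 2) := by
    rw [le_div_iff₀ (by positivity)]
    have h6 : w * L * (18 * u ^ 2) ≤ c * L := by
      rw [h.hw]
      have h7 := h.uv3
      have h8 : 18 * v ≤ c * v * v := by
        have h9 := h.hv
        nlinarith
      calc u * (18 * u ^ 2) = 18 * u ^ 3 := by ring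
        _ ≤ 18 * v := by linarith
        _ ≤ c * v * v := h8
        _ = c * L := by rw [← h.v2]; ring
    have h10 : L * (w * (18 * u ^ 2)) ≤ L * c := by linarith
    exact le_of_mul_le_mul_left h10 hL0
  have h6 : m * (w - c / (1 + κ) ^ 2) ≤ -(c * L / (18 * u ^ 3)) := by
    have h7 : w - c / (1 + κ) ^ 2 ≤ -(c / (18 * u ^ 2)) := by
      have e : c / (9 * u ^ 2) = 2 * (c / (18 * u ^ 2)) := by field_simp; ring
      linarith
    have h8 : c * L / (18 * u ^ 3) = (L / u) * (c / (18 * u ^ 2)) := by field_simp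
    have h9 : (L / u) * (c / (18 * u ^ 2)) ≤ m * (c / (18 * u ^ 2)) :=
      mul_le_mul_of_nonneg_right hm (by positivity)
    have h10 : m * (w - c / (1 + κ) ^ 2) ≤ m * (-(c / (18 * u ^ 2))) :=
      mul_le_mul_of_nonneg_left h7 hm0.le
    rw [h8]
    linarith
  have h7 : B * Real.log L + (C : ℝ) * (1 + κ) ^ C ≤ c * L / (18 * u ^ 3) := by
    rw [le_div_iff₀ (by positivity)]
    have e1 : (B : ℝ) * Real.log L ≤ B * u ^ (C + 1) := by
      refine mul_le_mul_of_nonneg_left (h.hlog.trans ?_) hB0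
      calc u = u ^ 1 := (pow_one u).symm
        _ ≤ u ^ (C + 1) := pow_le_pow_right₀ hu (by omega)
    have e2 : (C : ℝ) * (1 + κ) ^ C ≤ C * 3 ^ C * u ^ (C + 1) := by
      calc (C : ℝ) * (1 + κ) ^ C ≤ C * (3 * u) ^ C :=
            mul_le_mul_of_nonneg_left h2 (Nat.cast_nonneg C)
        _ = C * 3 ^ C * u ^ C := by rw [mul_pow]; ring
        _ ≤ C * 3 ^ C * u ^ (C + 1) := by
            refine mul_le_mul_of_nonneg_left ?_ hC0
            exact pow_le_pow_right₀ hu (by omega)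
    calc (B * Real.log L + (C : ℝ) * (1 + κ) ^ C) * (18 * u ^ 3)
        ≤ (B * u ^ (C + 1) + C * 3 ^ C * u ^ (C + 1)) * (18 * u ^ 3) := by
          refine mul_le_mul_of_nonneg_right ?_ (by positivity)
          linarith
      _ = 18 * (B + C * 3 ^ C) * u ^ (C + 4) := by ring
      _ = 18 * (B + C * 3 ^ C) * v := by rw [h.uv]
      _ ≤ (c * v) * v := by
          refine mul_le_mul_of_nonneg_right ?_ hv0.le
          linarith [h.hv]
      _ = c * L := by rw [← h.v2]; ring
  linarith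

end Nm

/-- the hypotheses of CHR -/
def H1 (C : ℕ) (c : ℝ) : Prop := ∀ (q : ℕ) (_ : NeZero q) (χ : DirichletCharacter ℂ q)
    (N N' : ℕ) (t κ : ℝ), 2 ≤ N → N ≤ N' → N' ≤ 2 * N → 1 ≤ κ → |t| = (N : ℝ) ^ κ →
    ‖∑ n ∈ Finset.Ioc N N', χ (n : ZMod q) * nt t n‖ ≤
      q * (Real.exp (C * (1 + κ) ^ C) * (N : ℝ) ^ (1 - c / (1 + κ) ^ 2 : ℝ))

def H2 (C : ℝ) : Prop := ∀ (q : ℕ) (_ : NeZero q) (χ : DirichletCharacter ℂ q)
    (N N' : ℕ) (t : ℝ), 1 ≤ N → N ≤ N' → N' ≤ 2 * N → 1 ≤ |t| →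
    ‖∑ n ∈ Finset.Ioc N N', χ (n : ZMod q) * nt t n‖ ≤ q * (C * (√|t| + N / √|t|) * (1 + Real.log N))

section pieces

variable {B C : ℕ} {c C2 L u v w : ℝ} {q : ℕ} [NeZero q] (χ : DirichletCharacter ℂ q)

omit [NeZero q] in
lemma sum_eq {M M' : ℕ} (σ t : ℝ) :
    ∑ n ∈ Ioc M M', χ (n : ZMod q) * (n : ℂ) ^ (-(⟨σ, t⟩ : ℂ)) =
      ∑ n ∈ Ioc M M', ((((n : ℝ) ^ (-σ) : ℝ)) : ℂ) * (χ (n : ZMod q) * nt t n) := by
  refine Finset.sum_congr rfl fun n hn => ?_
  rw [Finset.mem_Ioc] at hn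
  rw [term_eq (by omega) σ t]
  unfold nt
  ring

omit [NeZero q] in
lemma abel_piece {M M' : ℕ} {σ t Bd : ℝ} (hM : 1 ≤ M) (hMM : M ≤ M') (hσ : 0 ≤ σ)
    (hB : ∀ k, M ≤ k → k ≤ M' → ‖∑ n ∈ Ioc M k, χ (n : ZMod q) * nt t n‖ ≤ Bd) :
    ‖∑ n ∈ Ioc M M', χ (n : ZMod q) * (n : ℂ) ^ (-(⟨σ, t⟩ : ℂ))‖ ≤ (M : ℝ) ^ (-σ) * Bd := by
  rw [sum_eq]
  exact abel' (a := fun n : ℕ => (n : ℝ) ^ (-σ)) (z := fun n : ℕ => χ (n : ZMod q) * nt t n) hMM (by
      intro n hn
      have hn0 : (0 : ℝ) < n := by exact_mod_cast (by omega : 0 < n)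
      refine Real.rpow_le_rpow_of_nonpos hn0 ?_ (by linarith)
      push_cast
      linarith) (by positivity) hB

/-- one dyadic piece below the height -/
theorem piece_a (hZ : H1 C c) (h : Nm B C c C2 L u v w) (hq : (q : ℝ) ≤ L ^ B) {t σ : ℝ}
    (ht : Real.log |t| ≤ 2 * L) (hσ : 1 - w ≤ σ) {M M' : ℕ} (hM1 : L / u ≤ Real.log M)
    (hMt : (M : ℝ) ≤ |t|) (hMM : M ≤ M') (hM' : M' ≤ 2 * M) :
    ‖∑ n ∈ Ioc M M', χ (n : ZMod q) * (n : ℂ) ^ (-(⟨σ, t⟩ : ℂ))‖ ≤ 1 := by
  have hL := h.L100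
  have hu := h.u1
  have hL0 : 0 < L := by linarith
  have hu0 : 0 < u := by linarith
  have hm0 : 0 < Real.log M := lt_of_lt_of_le (by positivity) hM1
  have hM2' : 2 ≤ M := by
    by_contra hcon
    have : M = 0 ∨ M = 1 := by omega
    rcases this with rfl | rfl <;> simp at hm0
  have hMR : (0 : ℝ) < M := by exact_mod_cast (by omega : 0 < M)
  have ht0 : 0 < |t| := lt_of_lt_of_le hMR hMt
  set κ : ℝ := Real.log |t| / Real.log M with hκ
  have hκ1 : 1 ≤ κ := by
    rw [hκ, le_div_iff₀ hm0, one_mul]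
    exact Real.log_le_log hMR hMt
  have hκ2 : κ ≤ 2 * u := by
    rw [hκ, div_le_iff₀ hm0]
    rw [div_le_iff₀ hu0] at hM1
    nlinarith
  have htκ : |t| = (M : ℝ) ^ κ := by
    rw [Real.rpow_def_of_pos hMR, hκ, mul_div_cancel₀ _ hm0.ne', Real.exp_log ht0]
  have hσ0 : 0 ≤ σ := by
    have := h.w_le
    linarith
  have h2 := abel_piece χ (M := M) (M' := M') (σ := σ) (t := t)
    (Bd := q * (Real.exp (C * (1 + κ) ^ C) * (M : ℝ) ^ (1 - c / (1 + κ) ^ 2 : ℝ))) (by omega) hMM hσ0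
    (fun k hk hk' => hZ q inferInstance χ M k t κ hM2' hk (by omega) hκ1 htκ)
  refine h2.trans ?_
  have hqe : (q : ℝ) ≤ Real.exp (B * Real.log L) := by
    rw [Real.exp_nat_mul, Real.exp_log hL0]
    exact hq
  have h3 : (M : ℝ) ^ (-σ) * (q * (Real.exp (C * (1 + κ) ^ C) * (M : ℝ) ^ (1 - c / (1 + κ) ^ 2 : ℝ))) ≤
      Real.exp (B * Real.log L + C * (1 + κ) ^ C + Real.log M * (1 - σ - c / (1 + κ) ^ 2)) := by
    have e1 : (M : ℝ) ^ (-σ) * (q * (Real.exp (C * (1 + κ) ^ C) *
        (M : ℝ) ^ (1 - c / (1 + κ) ^ 2 : ℝ))) =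
        q * ((M : ℝ) ^ (-σ) * (Real.exp (C * (1 + κ) ^ C) * (M : ℝ) ^ (1 - c / (1 + κ) ^ 2 : ℝ))) := by
      ring
    have e2 : (M : ℝ) ^ (-σ) * (Real.exp (C * (1 + κ) ^ C) * (M : ℝ) ^ (1 - c / (1 + κ) ^ 2 : ℝ)) =
      Real.exp (C * (1 + κ) ^ C + Real.log M * (1 - σ - c / (1 + κ) ^ 2)) := by
      rw [Real.rpow_def_of_pos hMR, Real.rpow_def_of_pos hMR, ← Real.exp_add, ← Real.exp_add]
      congr 1
      ring
    rw [e1, e2]
    calc (q : ℝ) * Real.exp (C * (1 + κ) ^ C + Real.log M * (1 - σ - c / (1 + κ) ^ 2))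
        ≤ Real.exp (B * Real.log L) *
          Real.exp (C * (1 + κ) ^ C + Real.log M * (1 - σ - c / (1 + κ) ^ 2)) :=
          mul_le_mul_of_nonneg_right hqe (Real.exp_pos _).le
      _ = _ := by
          rw [← Real.exp_add]
          congr 1
          ring
  refine h3.trans ?_
  refine le_trans (Real.exp_le_exp.2 ?_) (le_of_eq Real.exp_zero)
  have h4 := h.piece hM1 (by linarith) hκ2
  have h5 : Real.log M * (1 - σ - c / (1 + κ) ^ 2) ≤ Real.log M * (w - c / (1 + κ) ^ 2) :=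
    mul_le_mul_of_nonneg_left (by linarith) hm0.le
  linarith

/-- one dyadic piece above the height -/
theorem piece_b (hZ : H2 C2) (h : Nm B C c C2 L u v w) (hq : (q : ℝ) ≤ L ^ B) {t σ : ℝ}
    (ht : L / (3 * u) ≤ Real.log |t|) (hσ : 1 - w ≤ σ) {M M' : ℕ} (hM1 : 1 ≤ M)
    (hM2 : Real.log M ≤ 4 * L) (hMt : |t| ≤ (M : ℝ)) (hMM : M ≤ M') (hM' : M' ≤ 2 * M) :
    ‖∑ n ∈ Ioc M M', χ (n : ZMod q) * (n : ℂ) ^ (-(⟨σ, t⟩ : ℂ))‖ ≤ 1 := by
  have hL := h.L100
  have hu := h.u1
  have hL0 : 0 < L := by linarith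
  have hu0 : 0 < u := by linarith
  have hMR : (0 : ℝ) < M := by exact_mod_cast (by omega : 0 < M)
  have hM1R : (1 : ℝ) ≤ M := by exact_mod_cast hM1
  have hlt : 0 < Real.log |t| := lt_of_lt_of_le (by positivity) ht
  have ht0 : 0 < |t| := by
    rcases (abs_nonneg t).eq_or_lt with h0 | h0
    · rw [← h0, Real.log_zero] at hlt
      exact absurd hlt (lt_irrefl _)
    · exact h0
  have ht1 : 1 ≤ |t| := by
    by_contra hcon
    push Not at hcon
    have := Real.log_nonpos ht0.le hcon.le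
    linarith
  have hσ0 : 0 ≤ σ := by
    have := h.w_le
    linarith
  have hlM : 0 ≤ Real.log M := Real.log_nonneg hM1R
  have hC20 : 0 < C2 := by linarith [h.hC2]
  have hs0 : 0 < √|t| := Real.sqrt_pos.2 ht0
  have hsle : √|t| ≤ M / √|t| := by
    rw [le_div_iff₀ hs0, Real.mul_self_sqrt ht0.le]
    exact hMt
  have h2 := abel_piece χ (M := M) (M' := M') (σ := σ) (t := t)
    (Bd := q * (C2 * (√|t| + M / √|t|) * (1 + Real.log M))) hM1 hMM hσ0
    (fun k hk hk' => hZ q inferInstance χ M k t hM1 hk (by omega) ht1)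
  refine h2.trans ?_
  have hqe : (q : ℝ) ≤ Real.exp (B * Real.log L) := by
    rw [Real.exp_nat_mul, Real.exp_log hL0]
    exact hq
  have h3 : C2 * (√|t| + M / √|t|) * (1 + Real.log M) ≤ 2 * C2 * (M / √|t|) * (1 + 4 * L) := by
    have e1 : C2 * (√|t| + M / √|t|) ≤ 2 * C2 * (M / √|t|) := by nlinarith
    exact mul_le_mul e1 (by linarith) (by linarith) (by positivity)
  have h4 : √|t| = Real.exp (Real.log |t| / 2) := by
    rw [Real.sqrt_eq_rpow, Real.rpow_def_of_pos ht0]
    congr 1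
    ring
  have h5 : (M : ℝ) ^ (-σ) * (q * (C2 * (√|t| + M / √|t|) * (1 + Real.log M))) ≤
      (M : ℝ) ^ (-σ) * (Real.exp (B * Real.log L) * (2 * C2 * (M / √|t|) * (1 + 4 * L))) := by
    refine mul_le_mul_of_nonneg_left ?_ (by positivity)
    exact mul_le_mul hqe h3 (by positivity) (by positivity)
  refine h5.trans ?_
  have h6 : (M : ℝ) ^ (-σ) * (Real.exp (B * Real.log L) * (2 * C2 * (M / √|t|) * (1 + 4 * L))) =
      Real.exp (Real.log (2 * C2) + B * Real.log L + Real.log (1 + 4 * L) +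
        Real.log M * (1 - σ) - Real.log |t| / 2) := by
    rw [h4, Real.rpow_def_of_pos hMR]
    have e1 : Real.exp (Real.log (2 * C2) + B * Real.log L + Real.log (1 + 4 * L) +
        Real.log M * (1 - σ) - Real.log |t| / 2) =
        Real.exp (Real.log (2 * C2)) * Real.exp (B * Real.log L) * Real.exp (Real.log (1 + 4 * L)) *
        (Real.exp (Real.log M * (-σ)) * Real.exp (Real.log M)) / Real.exp (Real.log |t| / 2) := by
      rw [← Real.exp_add, ← Real.exp_add, ← Real.exp_add, ← Real.exp_add, ← Real.exp_sub]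
      congr 1
      ring
    rw [e1, Real.exp_log (by positivity), Real.exp_log (by positivity), Real.exp_log hMR]
    ring
  rw [h6]
  refine le_trans (Real.exp_le_exp.2 ?_) (le_of_eq Real.exp_zero)
  have h7 : Real.log M * (1 - σ) ≤ 4 * u := by
    have e1 : Real.log M * (1 - σ) ≤ Real.log M * w := mul_le_mul_of_nonneg_left (by linarith) hlM
    have e2 : Real.log M * w ≤ 4 * L * w := mul_le_mul_of_nonneg_right hM2 h.w0.le
    have e3 : 4 * L * w = 4 * u := by rw [← h.hw]; ring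
    linarith
  have h8 := h.big
  have h9 : L / (6 * u) ≤ Real.log |t| / 2 := by
    have e1 : L / (6 * u) = L / (3 * u) / 2 := by
      field_simp
      ring
    rw [e1]
    linarith
  linarith

/-- all the pieces -/
theorem pieces (hZ : H1 C c) (hZ2 : H2 C2) (h : Nm B C c C2 L u v w) (hq : (q : ℝ) ≤ L ^ B) {t σ : ℝ}
    (ht : Real.log |t| ≤ 2 * L) (ht2 : L / (3 * u) ≤ Real.log |t|) (hσ : 1 - w ≤ σ)
    {Y N : ℕ} (hY0 : 1 ≤ Y) (hY : L / u ≤ Real.log Y) (hN : Real.log N ≤ 4 * L) (hYN : Y ≤ N)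
    (i : ℕ) :
    ‖∑ n ∈ Ioc Y (min (2 ^ i * Y) N), χ (n : ZMod q) * (n : ℂ) ^ (-(⟨σ, t⟩ : ℂ))‖ ≤ i := by
  induction i with
  | zero => simp [min_eq_left hYN]
  | succ i ih =>
    have hYi : Y ≤ 2 ^ i * Y := Nat.le_mul_of_pos_left _ (by positivity)
    have hP1 : Y ≤ min (2 ^ i * Y) N := le_min hYi hYN
    have hP2 : min (2 ^ i * Y) N ≤ min (2 ^ (i + 1) * Y) N := by
      refine min_le_min_right _ ?_
      rw [pow_succ]
      nlinarith [hYi]
    have hP3 : min (2 ^ (i + 1) * Y) N ≤ 2 * min (2 ^ i * Y) N := by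
      rw [pow_succ]
      rcases le_total (2 ^ i * Y) N with h1 | h1
      · rw [min_eq_left h1]
        refine (min_le_left _ _).trans (le_of_eq ?_)
        ring
      · rw [min_eq_right h1]
        exact (min_le_right _ _).trans (by omega)
    rw [← Finset.sum_Ioc_consecutive _ hP1 hP2]
    have hY0R : (0 : ℝ) < Y := by exact_mod_cast (by omega : 0 < Y)
    have hPpos : (0 : ℝ) < ((min (2 ^ i * Y) N : ℕ) : ℝ) := by
      exact_mod_cast (lt_of_lt_of_le (by omega : 0 < Y) hP1)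
    have hlY : L / u ≤ Real.log ((min (2 ^ i * Y) N : ℕ) : ℝ) :=
      hY.trans (Real.log_le_log hY0R (by exact_mod_cast hP1))
    have hlN : Real.log ((min (2 ^ i * Y) N : ℕ) : ℝ) ≤ 4 * L :=
      (Real.log_le_log hPpos (by exact_mod_cast min_le_right _ _)).trans hN
    have h1 : ‖∑ n ∈ Ioc (min (2 ^ i * Y) N) (min (2 ^ (i + 1) * Y) N),
        χ (n : ZMod q) * (n : ℂ) ^ (-(⟨σ, t⟩ : ℂ))‖ ≤ 1 := by
      rcases le_total ((min (2 ^ i * Y) N : ℕ) : ℝ) |t| with h2 | h2
      · exact piece_a χ hZ h hq ht hσ hlY h2 hP2 hP3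
      · exact piece_b χ hZ2 h hq ht2 hσ (by omega) hlN h2 hP2 hP3
    push_cast
    exact (norm_add_le _ _).trans (add_le_add ih h1)

end pieces


/-- the bound for `χ ≠ 1` -/
theorem main_ne {B C : ℕ} {c C2 L u v w : ℝ} {q : ℕ} [NeZero q] (χ : DirichletCharacter ℂ q)
    (hχ : χ ≠ 1) (hZ : H1 C c) (hZ2 : H2 C2) (h : Nm B C c C2 L u v w) (hq : (q : ℝ) ≤ L ^ B)
    {t σ : ℝ} (ht : |t| ≤ 3 * Real.exp L) (hσ : 1 - w ≤ σ) (hσ3 : σ ≤ 3) :
    ‖χ.LFunction ⟨σ, t⟩‖ ≤ 20 * L := by
  have hL := h.L100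
  have hu := h.u1
  have hL0 : 0 < L := by linarith
  have hu0 : 0 < u := by linarith
  have huL := h.u_le
  have hw := h.w0
  have hw2 := h.w_le
  have hσ2 : 1 / 2 ≤ σ := by linarith
  have hq1 : (1 : ℝ) ≤ q := by exact_mod_cast NeZero.one_le (n := q)
  have ht0 : 0 ≤ |t| := abs_nonneg t
  have hLu : L / u ≤ L := div_le_self hL0.le hu
  have hLu0 : 0 < L / u := by positivity
  have hexp3 : (3 : ℝ) ≤ Real.exp L := by
    have := Real.add_one_le_exp L
    linarith
  have hqe : (q : ℝ) ≤ Real.exp (B * Real.log L) := by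
    rw [Real.exp_nat_mul, Real.exp_log hL0]
    exact hq
  have hBl : 0 ≤ (B : ℝ) * Real.log L :=
    mul_nonneg (Nat.cast_nonneg B) (Real.log_nonneg (by linarith))
  have hE26 : Real.exp (Real.log 26) = 26 := Real.exp_log (by norm_num)
  set s : ℂ := ⟨σ, t⟩ with hs
  have hsre : s.re = σ := rfl
  have hs0 : 0 < s.re := by rw [hsre]; linarith
  set Z : ℝ := q * (|t| + 2) with hZdef
  have hZ2' : 2 ≤ Z := by nlinarith
  set X : ℕ := ⌈Z ^ 2⌉₊ with hXdef
  have hX1 : Z ^ 2 ≤ X := Nat.le_ceil _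
  have hX2 : (X : ℝ) < Z ^ 2 + 1 := Nat.ceil_lt_add_one (by positivity)
  have hX0 : (1 : ℝ) ≤ X := by nlinarith
  have hXN : 1 ≤ X := by exact_mod_cast hX0
  have hXpos : (0 : ℝ) < X := by linarith
  -- the tail
  have htail : ‖s * H307R2.TM X (H307R2.Ech χ X) s‖ ≤ 4 := by
    have h2 := H307R2.TM_norm_le hXN (H307R2.Ech_norm_le hχ X) hs0
    rw [hsre] at h2
    have h3 : ‖s‖ ≤ 3 + |t| := by
      have h4 := Complex.norm_le_abs_re_add_abs_im s
      have h5 : |s.re| ≤ 3 := by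
        rw [hsre, abs_le]
        constructor <;> linarith
      have h6 : |s.im| = |t| := rfl
      linarith
    have h4 : (X : ℝ) ^ (-σ) ≤ 1 / Z := by
      have h5 : (X : ℝ) ^ (-σ) ≤ (X : ℝ) ^ (-(1 / 2) : ℝ) :=
        Real.rpow_le_rpow_of_exponent_le hX0 (by linarith)
      refine h5.trans ?_
      rw [Real.rpow_neg (by linarith), ← Real.sqrt_eq_rpow, ← one_div]
      refine one_div_le_one_div_of_le (by linarith) ?_
      rw [Real.le_sqrt' (by linarith)]
      exact hX1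
    have h5 : (X : ℝ) ^ (-σ) / σ ≤ 2 / Z := by
      rw [div_le_iff₀ (by linarith)]
      have h6 : 2 / Z * σ = 1 / Z * (2 * σ) := by ring
      rw [h6]
      have h7 : 0 < 1 / Z := by positivity
      nlinarith
    rw [norm_mul]
    calc ‖s‖ * ‖H307R2.TM X (H307R2.Ech χ X) s‖ ≤ (3 + |t|) * (q * (2 / Z)) := by
          refine mul_le_mul h3 (h2.trans ?_) (norm_nonneg _) (by linarith)
          exact mul_le_mul_of_nonneg_left h5 (by linarith)
      _ = 2 * (3 + |t|) / (|t| + 2) := by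
          rw [hZdef]
          field_simp
      _ ≤ 4 := by
          rw [div_le_iff₀ (by linarith)]
          linarith
  -- the size of `X`
  have hsize : ∀ x : ℝ, 0 ≤ x → |t| ≤ 3 * Real.exp x → Z ^ 2 + 1 ≤
      Real.exp (Real.log 26 + 2 * B * Real.log L + 2 * x) := by
    intro x hx htx
    have h1 : (1 : ℝ) ≤ Real.exp x := Real.one_le_exp hx
    have h2 : Z ≤ Real.exp (B * Real.log L) * (5 * Real.exp x) := by
      refine mul_le_mul hqe (by linarith) (by linarith) (Real.exp_pos _).le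
    have h3 : Z ^ 2 ≤ (Real.exp (B * Real.log L) * (5 * Real.exp x)) ^ 2 :=
      pow_le_pow_left₀ (by linarith) h2 2
    have h4 : Real.exp (Real.log 26 + 2 * B * Real.log L + 2 * x) =
        26 * (Real.exp (B * Real.log L) * Real.exp x) ^ 2 := by
      have e1 : Real.log 26 + 2 * B * Real.log L + 2 * x =
          Real.log 26 + ((B * Real.log L + x) + (B * Real.log L + x)) := by ring
      rw [e1, Real.exp_add, hE26, Real.exp_add, Real.exp_add]
      ring
    have h5 : (1 : ℝ) ≤ (Real.exp (B * Real.log L) * Real.exp x) ^ 2 := by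
      have h6 : (1 : ℝ) ≤ Real.exp (B * Real.log L) := Real.one_le_exp hBl
      have h7 : (1 : ℝ) ≤ Real.exp (B * Real.log L) * Real.exp x :=
        one_le_mul_of_one_le_of_one_le h6 h1
      exact one_le_pow₀ h7
    rw [h4]
    have h6 : (Real.exp (B * Real.log L) * (5 * Real.exp x)) ^ 2 =
        25 * (Real.exp (B * Real.log L) * Real.exp x) ^ 2 := by ring
    linarith
  have hL3u : L / (3 * u) ≤ L := div_le_self hL0.le (by linarith)
  have hlogX : Real.log X ≤ 4 * L := by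
    have h1 := hsize L hL0.le ht
    have h2 : (X : ℝ) ≤ Real.exp (4 * L) := by
      refine hX2.le.trans (h1.trans (Real.exp_le_exp.2 ?_))
      have := h.big2
      linarith
    rw [← Real.log_exp (4 * L)]
    exact Real.log_le_log hXpos h2
  set Y : ℕ := ⌈Real.exp (L / u)⌉₊ with hYdef
  have hY1 : Real.exp (L / u) ≤ Y := Nat.le_ceil _
  have hY2 : (Y : ℝ) ≤ Real.exp (L / u + 1) := by
    have h1 : (Y : ℝ) < Real.exp (L / u) + 1 := Nat.ceil_lt_add_one (Real.exp_pos _).le
    have h2 : (1 : ℝ) ≤ Real.exp (L / u) := Real.one_le_exp hLu0.le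
    have h3 := Real.exp_one_gt_d9
    rw [Real.exp_add]
    nlinarith
  have hY0 : (0 : ℝ) < Y := lt_of_lt_of_le (Real.exp_pos _) hY1
  have hY1' : 1 ≤ Y := by
    have : 0 < Y := by exact_mod_cast hY0
    exact this
  have hlogY : L / u ≤ Real.log Y := by
    rw [← Real.log_exp (L / u)]
    exact Real.log_le_log (Real.exp_pos _) hY1
  have hlogY2 : Real.log Y ≤ L / u + 1 := by
    rw [← Real.log_exp (L / u + 1)]
    exact Real.log_le_log hY0 hY2
  -- the powers
  have hpow : ∀ n : ℕ, 1 ≤ n → (n : ℝ) ^ (1 - σ) ≤ Real.exp (w * Real.log n) := by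
    intro n hn
    have hn0 : (0 : ℝ) < n := by exact_mod_cast (by omega : 0 < n)
    have hn1 : (1 : ℝ) ≤ n := by exact_mod_cast hn
    rw [Real.rpow_def_of_pos hn0]
    refine Real.exp_le_exp.2 ?_
    rw [mul_comm w]
    exact mul_le_mul_of_nonneg_left (by linarith) (Real.log_nonneg hn1)
  -- the first part of the sum
  have hfirst : ∀ Y' : ℕ, Y' ≤ Y → ‖∑ n ∈ Ioc 0 Y', χ (n : ZMod q) * (n : ℂ) ^ (-s)‖ ≤
      8 * (2 + L) := by
    intro Y' hYY'
    have h1 : ∀ n ∈ Ioc 0 Y', ‖χ (n : ZMod q) * (n : ℂ) ^ (-s)‖ ≤ 8 * (1 / (n : ℝ)) := by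
      intro n hn
      rw [Finset.mem_Ioc] at hn
      have hn0 : (0 : ℝ) < n := by exact_mod_cast hn.1
      rw [norm_mul, Complex.norm_natCast_cpow_of_pos hn.1]
      have e1 : (-s).re = (1 - σ) + (-1) := by
        rw [hs, Complex.neg_re]
        ring
      rw [e1, Real.rpow_add hn0, Real.rpow_neg_one, ← one_div]
      have h9 : (n : ℝ) ^ (1 - σ) ≤ 8 := by
        refine (hpow n hn.1).trans ?_
        have h2 : w * Real.log n ≤ 2 := by
          have h3 : Real.log n ≤ L / u + 1 :=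
            (Real.log_le_log hn0 (by exact_mod_cast hn.2.trans hYY')).trans hlogY2
          have h4 : w * Real.log n ≤ w * (L / u + 1) := mul_le_mul_of_nonneg_left h3 hw.le
          have h5 : w * (L / u + 1) = 1 + w := by
            rw [mul_add, mul_one, mul_div_assoc', h.hw, div_self hu0.ne']
          linarith
        have h3 : Real.exp (w * Real.log n) ≤ Real.exp 2 := Real.exp_le_exp.2 h2
        have h4 : Real.exp 2 ≤ 8 := by
          have h5 := Real.exp_one_lt_d9
          have h6 : Real.exp 2 = Real.exp 1 * Real.exp 1 := by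
            rw [← Real.exp_add]; norm_num
          rw [h6]
          have h7 := Real.exp_pos 1
          nlinarith
        linarith
      have h10 : ‖χ (n : ZMod q)‖ ≤ 1 := χ.norm_le_one _
      calc ‖χ (n : ZMod q)‖ * ((n : ℝ) ^ (1 - σ) * (1 / n)) ≤ 1 * (8 * (1 / n)) := by
            refine mul_le_mul h10 ?_ (by positivity) (by norm_num)
            exact mul_le_mul_of_nonneg_right h9 (by positivity)
        _ = 8 * (1 / (n : ℝ)) := one_mul _
    refine (norm_sum_le_of_le _ h1).trans ?_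
    rw [← Finset.mul_sum]
    refine mul_le_mul_of_nonneg_left ?_ (by norm_num)
    have h2 : ∑ n ∈ Ioc 0 Y', 1 / (n : ℝ) = (harmonic Y' : ℝ) := by
      rw [harmonic_eq_sum_Icc]
      push_cast
      refine Finset.sum_congr ?_ fun n _ => one_div _
      ext n
      simp [Finset.mem_Ioc, Finset.mem_Icc, Nat.one_le_iff_ne_zero, Nat.pos_iff_ne_zero]
    rw [h2]
    have h3 := harmonic_le_one_add_log Y'
    have h4 : Real.log Y' ≤ Real.log Y := by
      rcases Nat.eq_zero_or_pos Y' with h0 | h0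
      · rw [h0]
        simp only [Nat.cast_zero, Real.log_zero]
        exact le_trans hLu0.le hlogY
      · exact Real.log_le_log (by exact_mod_cast h0) (by exact_mod_cast hYY')
    linarith
  have hsum : ‖∑ n ∈ Icc 1 X, χ (n : ZMod q) * (n : ℂ) ^ (-s)‖ ≤ 8 * (2 + L) + (6 * L + 1) := by
    have hIcc : Icc 1 X = Ioc 0 X := by
      ext n
      simp [Nat.succ_le_iff]
    rw [hIcc]
    rcases le_or_gt X Y with hXY | hXY
    · have := hfirst X hXY
      linarith
    · have h1 : L / (3 * u) ≤ Real.log |t| := by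
        by_contra hcon
        push Not at hcon
        have hx0 : 0 ≤ L / (3 * u) := by positivity
        have h2 : |t| ≤ 3 * Real.exp (L / (3 * u)) := by
          have h4 := Real.one_le_exp hx0
          rcases ht0.eq_or_lt with h3 | h3
          · rw [← h3]
            linarith
          · have h5 : |t| ≤ Real.exp (L / (3 * u)) := by
              rw [← Real.exp_log h3]
              exact Real.exp_le_exp.2 hcon.le
            linarith
        have h3 := hsize _ hx0 h2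
        have h4 : Real.exp (Real.log 26 + 2 * B * Real.log L + 2 * (L / (3 * u))) ≤
            Real.exp (L / u) := by
          apply Real.exp_le_exp.2
          have h5 := h.big2
          have h6 : L / u = 3 * (L / (3 * u)) := by
            field_simp
          linarith
        have h5 : (X : ℝ) < Y := by linarith
        have h6 : X < Y := by exact_mod_cast h5
        omega
      have h2L : Real.log |t| ≤ 2 * L := by
        have hx0 : 0 < L / (3 * u) := by positivity
        have h3 : 0 < |t| := by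
          rcases ht0.eq_or_lt with h3 | h3
          · rw [← h3, Real.log_zero] at h1
            linarith
          · exact h3
        rw [← Real.log_exp (2 * L)]
        refine Real.log_le_log h3 (ht.trans ?_)
        have e1 : Real.exp (2 * L) = Real.exp L * Real.exp L := by
          rw [← Real.exp_add]
          congr 1
          ring
        rw [e1]
        exact mul_le_mul_of_nonneg_right hexp3 (Real.exp_pos _).le
      have h3 := pieces χ hZ hZ2 h hq h2L h1 hσ hY1' hlogY hlogX hXY.le (Nat.log 2 X + 1)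
      have h4 : X ≤ 2 ^ (Nat.log 2 X + 1) * Y := by
        have h5 : X < 2 ^ (Nat.log 2 X + 1) := Nat.lt_pow_succ_log_self (by norm_num) X
        exact h5.le.trans (Nat.le_mul_of_pos_right _ (by omega))
      rw [min_eq_right h4] at h3
      rw [← Finset.sum_Ioc_consecutive _ (Nat.zero_le Y) hXY.le]
      refine (norm_add_le _ _).trans (add_le_add (hfirst Y le_rfl) (h3.trans ?_))
      push_cast
      have h5 : (2 : ℝ) ^ (Nat.log 2 X) ≤ X := by
        exact_mod_cast Nat.pow_log_le_self 2 (by omega)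
      have h6 := Real.log_le_log (by positivity) h5
      rw [Real.log_pow] at h6
      have h7 := Real.log_two_gt_d9
      have h8 : (0 : ℝ) ≤ (Nat.log 2 X : ℝ) := Nat.cast_nonneg _
      nlinarith
  rw [H307R2.LFunction_eq hχ hXN hs0]
  refine (norm_add_le _ _).trans ?_
  linarith

/-- the numbers for large `L` -/
theorem nm_ev (B C : ℕ) {c C2 : ℝ} (hc : 0 < c) (hC2 : 1 ≤ C2) :
    ∀ᶠ L : ℝ in atTop, Nm B C c C2 L (L ^ (1 / (2 * ((C : ℝ) + 4)))) (Real.sqrt L)
      (L ^ (1 / (2 * ((C : ℝ) + 4)) - 1)) := by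
  set δ : ℝ := 1 / (2 * ((C : ℝ) + 4)) with hδ
  have hC0 : (0 : ℝ) ≤ C := Nat.cast_nonneg C
  have hB0 : (0 : ℝ) ≤ B := Nat.cast_nonneg B
  have hδ0 : 0 < δ := by positivity
  have h1 := (isLittleO_log_rpow_atTop hδ0).bound (show (0 : ℝ) < 1 by norm_num)
  have h2 := (tendsto_rpow_atTop hδ0).eventually_ge_atTop
    (6 * (|Real.log (2 * C2)| + B + 8) + 3 * (4 + 2 * B))
  have h3 := (Real.tendsto_sqrt_atTop).eventually_ge_atTop
    (max 10 (18 * (1 + B + C * 3 ^ C) / c))
  filter_upwards [h1, h2, h3, eventually_ge_atTop 1] with L a1 a2 a3 a4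
  have hL0 : 0 < L := by linarith
  have hu0 : 0 < L ^ δ := Real.rpow_pos_of_pos hL0 _
  rw [Real.norm_of_nonneg (Real.log_nonneg a4), Real.norm_of_nonneg hu0.le, one_mul] at a1
  have hv1 : 10 ≤ √L := (le_max_left _ _).trans a3
  have hv2 : 18 * (1 + B + C * 3 ^ C) / c ≤ √L := (le_max_right _ _).trans a3
  have huv : (L ^ δ) ^ (C + 4) = √L := by
    rw [← Real.rpow_natCast, ← Real.rpow_mul hL0.le, Real.sqrt_eq_rpow]
    congr 1
    rw [hδ]
    push_cast
    field_simp
  have hsq : √L ^ 2 = L := Real.sq_sqrt hL0.le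
  have hlab : 0 ≤ |Real.log (2 * C2)| := abs_nonneg _
  have hu1 : 1 ≤ L ^ δ := by linarith
  have huL : (L ^ δ) ^ 8 ≤ L := by
    have e1 : (L ^ δ) ^ 4 ≤ √L := by
      rw [← huv]
      exact pow_le_pow_right₀ hu1 (by omega)
    calc (L ^ δ) ^ 8 = ((L ^ δ) ^ 4) ^ 2 := by ring
      _ ≤ √L ^ 2 := pow_le_pow_left₀ (by positivity) e1 2
      _ = L := hsq
  have h38 : (L ^ δ) ^ 3 ≤ L := by
    refine le_trans ?_ huL
    exact pow_le_pow_right₀ hu1 (by norm_num)
  have hlogB : (B : ℝ) * Real.log L ≤ B * L ^ δ := mul_le_mul_of_nonneg_left a1 hB0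
  have hwL : L ^ (δ - 1) * L = L ^ δ := by
    rw [← Real.rpow_add_one hL0.ne']
    congr 1
    ring
  generalize L ^ (δ - 1) = w at *
  generalize L ^ δ = u at *
  refine ⟨hc, hC2, hu1, huv, hsq, ?_, hv1, a1, hwL, ?_, ?_⟩
  · rw [div_le_iff₀ hc] at hv2
    linarith
  · rw [le_div_iff₀ (by linarith)]
    have e1 : Real.log (1 + 4 * L) ≤ 2 + u := by
      have e2 : Real.log (1 + 4 * L) ≤ Real.log (5 * L) := Real.log_le_log (by linarith) (by linarith)
      rw [Real.log_mul (by norm_num) (by linarith)] at e2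
      have e3 : Real.log 5 ≤ 2 := by
        rw [Real.log_le_iff_le_exp (by norm_num)]
        have e4 := Real.exp_one_gt_d9
        have e5 : Real.exp 2 = Real.exp 1 * Real.exp 1 := by
          rw [← Real.exp_add]; norm_num
        rw [e5]
        nlinarith
      linarith
    have e2 : Real.log (2 * C2) ≤ |Real.log (2 * C2)| := le_abs_self _
    have e3 : Real.log (2 * C2) + B * Real.log L + Real.log (1 + 4 * L) + 4 * u ≤
        (|Real.log (2 * C2)| + B + 8) * u := by nlinarith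
    have e4 : (Real.log (2 * C2) + B * Real.log L + Real.log (1 + 4 * L) + 4 * u) * (6 * u) ≤
        ((|Real.log (2 * C2)| + B + 8) * u) * (6 * u) :=
      mul_le_mul_of_nonneg_right e3 (by linarith)
    have e5 : ((|Real.log (2 * C2)| + B + 8) * u) * (6 * u) =
        (6 * (|Real.log (2 * C2)| + B + 8)) * u ^ 2 := by ring
    have e6 : (6 * (|Real.log (2 * C2)| + B + 8)) * u ^ 2 ≤ u * u ^ 2 :=
      mul_le_mul_of_nonneg_right (by linarith) (by positivity)
    have e7 : u * u ^ 2 = u ^ 3 := by ring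
    linarith
  · rw [le_div_iff₀ (by linarith)]
    have e3 : Real.log 26 ≤ 4 := by
      rw [Real.log_le_iff_le_exp (by norm_num)]
      have e4 := Real.exp_one_gt_d9
      have e5 : Real.exp 4 = (Real.exp 1 * Real.exp 1) * (Real.exp 1 * Real.exp 1) := by
        rw [← Real.exp_add, ← Real.exp_add]; norm_num
      rw [e5]
      have e6 : 7 ≤ Real.exp 1 * Real.exp 1 := by nlinarith
      nlinarith
    have e4 : Real.log 26 + 2 * B * Real.log L ≤ (4 + 2 * B) * u := by nlinarith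
    have e5 : (Real.log 26 + 2 * B * Real.log L) * (3 * u) ≤ ((4 + 2 * B) * u) * (3 * u) :=
      mul_le_mul_of_nonneg_right e4 (by linarith)
    have e6 : ((4 + 2 * B) * u) * (3 * u) = (3 * (4 + 2 * (B : ℝ))) * u ^ 2 := by ring
    have e7 : (3 * (4 + 2 * (B : ℝ))) * u ^ 2 ≤ u * u ^ 2 :=
      mul_le_mul_of_nonneg_right (by linarith) (by positivity)
    have e8 : u * u ^ 2 = u ^ 3 := by ring
    linarith

/-- the principal character -/
lemma lf_one {q : ℕ} [NeZero q] {s : ℂ} (hs : s ≠ 1) (hre : 0 ≤ s.re) :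
    ‖(1 : DirichletCharacter ℂ q).LFunction s‖ ≤ q * ‖riemannZeta s‖ := by
  have h1 := DirichletCharacter.LFunctionTrivChar_eq_mul_riemannZeta (N := q) hs
  have h2 : (1 : DirichletCharacter ℂ q).LFunction s = DirichletCharacter.LFunctionTrivChar q s := rfl
  rw [h2, h1, norm_mul]
  refine mul_le_mul_of_nonneg_right ?_ (norm_nonneg _)
  rw [norm_prod]
  calc ∏ p ∈ q.primeFactors, ‖1 - (p : ℂ) ^ (-s)‖ ≤ ∏ p ∈ q.primeFactors, (p : ℝ) := by
        refine Finset.prod_le_prod (fun _ _ => norm_nonneg _) fun p hp => ?_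
        have hp' := Nat.prime_of_mem_primeFactors hp
        have hp2 : (2 : ℝ) ≤ p := by exact_mod_cast hp'.two_le
        refine (norm_sub_le _ _).trans ?_
        rw [norm_one, Complex.norm_natCast_cpow_of_pos hp'.pos, Complex.neg_re]
        have h3 : (p : ℝ) ^ (-s.re) ≤ 1 :=
          Real.rpow_le_one_of_one_le_of_nonpos (by linarith) (by linarith)
        linarith
    _ = ((∏ p ∈ q.primeFactors, p : ℕ) : ℝ) := by push_cast; rfl
    _ ≤ q := by exact_mod_cast Nat.le_of_dvd (NeZero.pos q) (Nat.prod_primeFactors_dvd q)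

/-- **LUP** -/
theorem lup (h : S_CHR) : S_LUP := by
  intro B
  obtain ⟨⟨C, c, hc, hc1, hZ⟩, C2, hC2, hZ2⟩ := h
  obtain ⟨δ₁, K₁, t₀, hδ₁0, hδ₁1, hK₁, ht₀, hzeta⟩ := Pool.Agent.Y957.VK.zeta_all
  obtain ⟨G, A, hG, hA, hgr⟩ := H370.DL.zeta_growth
  set δ' : ℝ := 1 / (2 * ((C : ℝ) + 4)) with hδ'
  have hC0 : (0 : ℝ) ≤ C := Nat.cast_nonneg C
  have hδ'0 : 0 < δ' := by positivity
  have hδ'1 : δ' < 1 := by
    rw [hδ', div_lt_one (by positivity)]
    linarith
  set δ : ℝ := min δ' (δ₁ / 2) with hδ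
  have hδ0 : 0 < δ := lt_min hδ'0 (by linarith)
  have hδ1 : δ < 1 := lt_of_le_of_lt (min_le_left _ _) hδ'1
  have hδa : δ ≤ δ' := min_le_left _ _
  have hδb : δ ≤ δ₁ / 2 := min_le_right _ _
  have hev : ∀ᶠ L : ℝ in atTop, Nm B C c C2 L (L ^ δ') (Real.sqrt L) (L ^ (δ' - 1)) ∧
      2 ≤ L ^ (δ₁ / 2) ∧ max (2 * K₁) (G * t₀ ^ A) ≤ L ∧ 20 ≤ L := by
    filter_upwards [nm_ev B C hc hC2, (tendsto_rpow_atTop (half_pos hδ₁0)).eventually_ge_atTop 2,
      eventually_ge_atTop (max (2 * K₁) (G * t₀ ^ A)), eventually_ge_atTop 20] with L a1 a2 a3 a4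
    exact ⟨a1, a2, a3, a4⟩
  obtain ⟨L0, hL0⟩ := eventually_atTop.1 hev
  refine ⟨δ, (B : ℝ) + 2, max 3 (Real.exp L0), hδ0, hδ1, by
    have : (0 : ℝ) ≤ B := Nat.cast_nonneg B
    linarith, le_max_left _ _, ?_⟩
  intro T hT q hq0 hq χ s hor him hre hre3
  have hTe : Real.exp L0 ≤ T := (le_max_right _ _).trans hT
  have hT0 : 0 < T := (Real.exp_pos _).trans_le hTe
  set L : ℝ := Real.log T with hLdef
  have hLL : L0 ≤ L := by
    rw [hLdef, Real.le_log_iff_exp_le hT0]
    exact hTe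
  have hTL : T = Real.exp L := (Real.exp_log hT0).symm
  obtain ⟨b1, b2, b3, b4⟩ := hL0 L hLL
  have hLpos : 0 < L := by linarith
  have hL1 : 1 ≤ L := by linarith
  have hLB : (0 : ℝ) ≤ L ^ B := by positivity
  have hK : L ^ ((B : ℝ) + 2) = L ^ B * L * L := by
    have e1 : (B : ℝ) + 2 = ((B + 2 : ℕ) : ℝ) := by push_cast; ring
    rw [e1, Real.rpow_natCast, pow_add]
    ring
  rw [hK]
  have hseq : s = ⟨s.re, s.im⟩ := rfl
  have hone : (1 : ℝ) ≤ L ^ B := one_le_pow₀ hL1
  by_cases hχ : χ = 1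
  · have him1 : 1 ≤ |s.im| := by
      rcases hor with h1 | h1
      · exact absurd hχ h1
      · exact h1
    subst hχ
    have hs1 : s ≠ 1 := by
      intro h0
      rw [h0] at him1
      simp at him1
      linarith
    have hre0 : 1 / 2 ≤ s.re := by
      have h1 : L ^ (δ - 1) ≤ L ^ (δ' - 1) :=
        Real.rpow_le_rpow_of_exponent_le hL1 (by linarith)
      have h2 := b1.w_le
      linarith
    have hzb : ‖riemannZeta s‖ ≤ L * L := by
      rcases le_or_gt t₀ |s.im| with h1 | h1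
      · have hl3 : 1 ≤ Real.log |s.im| := by
          rw [Real.le_log_iff_exp_le (by linarith)]
          have := Real.exp_one_lt_d9
          linarith
        have hl2 : Real.log |s.im| ≤ 2 * L := by
          rw [← Real.log_exp (2 * L)]
          refine Real.log_le_log (by linarith) (him.trans ?_)
          have e1 : Real.exp (2 * L) = Real.exp L * Real.exp L := by
            rw [← Real.exp_add]
            congr 1
            ring
          rw [e1, hTL]
          refine mul_le_mul_of_nonneg_right ?_ (Real.exp_pos _).le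
          have := Real.add_one_le_exp L
          linarith
        have h2 := hzeta s.re s.im h1 (by
          have h3 : L ^ (δ - 1) ≤ (Real.log |s.im|) ^ (δ₁ - 1) := by
            have h4 : (2 * L) ^ (δ₁ - 1) ≤ (Real.log |s.im|) ^ (δ₁ - 1) :=
              Real.rpow_le_rpow_of_nonpos (by linarith) hl2 (by linarith)
            refine le_trans ?_ h4
            rw [Real.mul_rpow (by norm_num) hLpos.le]
            have h5 : (1 : ℝ) / 2 ≤ 2 ^ (δ₁ - 1) := by
              have h6 : (2 : ℝ) ^ (-1 : ℝ) ≤ 2 ^ (δ₁ - 1) :=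
                Real.rpow_le_rpow_of_exponent_le (by norm_num) (by linarith)
              rw [Real.rpow_neg_one] at h6
              linarith
            have h6 : L ^ (δ₁ - 1) = L ^ (δ₁ / 2) * L ^ (δ₁ / 2 - 1) := by
              rw [← Real.rpow_add hLpos]
              congr 1
              ring
            have h7 : L ^ (δ - 1) ≤ L ^ (δ₁ / 2 - 1) :=
              Real.rpow_le_rpow_of_exponent_le hL1 (by linarith)
            have h8 : 0 < L ^ (δ₁ / 2 - 1) := Real.rpow_pos_of_pos hLpos _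
            rw [h6]
            calc L ^ (δ - 1) ≤ L ^ (δ₁ / 2 - 1) := h7
              _ = 1 / 2 * (2 * L ^ (δ₁ / 2 - 1)) := by ring
              _ ≤ 2 ^ (δ₁ - 1) * (L ^ (δ₁ / 2) * L ^ (δ₁ / 2 - 1)) := by
                  refine mul_le_mul h5 ?_ (by positivity) (by positivity)
                  exact mul_le_mul_of_nonneg_right b2 h8.le
          linarith) hre3
        rw [← hseq] at h2
        have hb3 : 2 * K₁ ≤ L := (le_max_left _ _).trans b3
        calc ‖riemannZeta s‖ ≤ K₁ * Real.log |s.im| := h2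
          _ ≤ K₁ * (2 * L) := mul_le_mul_of_nonneg_left hl2 (by linarith)
          _ = (2 * K₁) * L := by ring
          _ ≤ L * L := mul_le_mul_of_nonneg_right hb3 hLpos.le
      · have hb3 : G * t₀ ^ A ≤ L := (le_max_right _ _).trans b3
        have hpos : ∀ z : ℂ, 1 / 2 ≤ z.re → z.re ≤ 3 → 1 ≤ z.im → z.im ≤ t₀ →
            ‖riemannZeta z‖ ≤ L * L := by
          intro z c1 c2 c3 c4
          have h2 := hgr z (by linarith) (by linarith) c3
          have h3 : z.im ^ A ≤ t₀ ^ A := Real.rpow_le_rpow (by linarith) c4 hA.le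
          calc ‖riemannZeta z‖ ≤ G * z.im ^ A := h2
            _ ≤ G * t₀ ^ A := mul_le_mul_of_nonneg_left h3 hG.le
            _ ≤ L := hb3
            _ ≤ L * L := by nlinarith
        rcases le_or_gt 0 s.im with h2 | h2
        · rw [abs_of_nonneg h2] at him1 h1
          exact hpos s hre0 hre3 him1 h1.le
        · rw [abs_of_neg h2] at him1 h1
          have h3 := hpos ((starRingEnd ℂ) s) (by simpa using hre0) (by simpa using hre3)
            (by simpa using him1) (by simpa using h1.le)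
          rw [riemannZeta_conj, RCLike.norm_conj] at h3
          exact h3
    calc ‖(1 : DirichletCharacter ℂ q).LFunction s‖ ≤ q * ‖riemannZeta s‖ :=
          lf_one hs1 (by linarith)
      _ ≤ L ^ B * (L * L) := mul_le_mul hq hzb (norm_nonneg _) hLB
      _ = L ^ B * L * L := by ring
  · have h1 := main_ne χ hχ hZ hZ2 b1 hq (t := s.im) (σ := s.re) (by rw [← hTL]; exact him) (by
      have h1 : L ^ (δ - 1) ≤ L ^ (δ' - 1) :=
        Real.rpow_le_rpow_of_exponent_le hL1 (by linarith)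
      linarith) hre3
    rw [← hseq] at h1
    have h2 : 20 * L ≤ L * L := mul_le_mul_of_nonneg_right b4 hLpos.le
    have h3 : L * L ≤ L ^ B * (L * L) := by
      have : 0 ≤ L * L := by positivity
      nlinarith
    calc ‖χ.LFunction s‖ ≤ 20 * L := h1
      _ ≤ L ^ B * (L * L) := by linarith
      _ = L ^ B * L * L := by ring

end Pool.Agent.V8H34.CR.Lup
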