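import Pool.Agent.Q236.CR.Stm
import Pool.Agent.Y333.VK.Zf
import Pool.Agent.W66.LB

/-!
Project CR, part LZF: zero free region and bound for the inverse of `L(s, χ)` (helper10).
-/

set_option autoImplicit false

open Complex Filter Topology Set MeasureTheory Metric
open scoped ArithmeticFunction.vonMangoldt ArithmeticFunction.Moebius

namespace Pool.Agent.V8H34.CR.Lzf

open Pool.Agent.Q236.CR (S_LUP S_LZF)
open Pool.Agent.Y333.VK (zeta_le sum_re)

variable {q : ℕ} [NeZero q]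

/-- bound for the inverse to the right of `1` -/
lemma inv_le (χ : DirichletCharacter ℂ q) {w : ℂ} (hw : 1 < w.re) :
    ‖(χ.LFunction w)⁻¹‖ ≤ 1 + 1 / (w.re - 1) := by
  have h1 := DirichletCharacter.LSeries.mul_mu_eq_one χ hw
  rw [← DirichletCharacter.LFunction_eq_LSeries χ hw] at h1
  rw [inv_eq_of_mul_eq_one_right h1, LSeries]
  refine le_trans ?_ (zeta_le hw)
  have hsum : Summable (fun n : ℕ => (n : ℝ) ^ (-w.re)) :=
    Real.summable_nat_rpow.mpr (by linarith)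
  refine tsum_of_norm_bounded hsum.hasSum fun n => ?_
  rcases Nat.eq_zero_or_pos n with rfl | hn
  · rw [LSeries.term_zero, norm_zero]
    exact Real.rpow_nonneg (Nat.cast_nonneg 0) _
  · rw [LSeries.term_of_ne_zero hn.ne', norm_div, Complex.norm_natCast_cpow_of_pos hn,
      Real.rpow_neg (Nat.cast_nonneg n), ← one_div]
    apply div_le_div_of_nonneg_right _ (Real.rpow_nonneg (Nat.cast_nonneg n) _)
    rw [Pi.mul_apply, norm_mul]
    have h3 := ArithmeticFunction.abs_moebius_le_one (n := n)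
    have h4 : ‖((ArithmeticFunction.moebius n : ℤ) : ℂ)‖ ≤ 1 := by
      rw [Complex.norm_intCast]
      exact_mod_cast h3
    exact mul_le_one₀ (χ.norm_le_one _) (norm_nonneg _) h4

/-- the upper bound, at all heights up to `3 T` -/
def UB (q : ℕ) [NeZero q] (x M T : ℝ) : Prop := ∀ χ : DirichletCharacter ℂ q, ∀ s : ℂ,
  1 ≤ |s.im| → |s.im| ≤ 3 * T → 1 - x ≤ s.re → s.re ≤ 3 → ‖χ.LFunction s‖ ≤ M

lemma re_lt_one (χ : DirichletCharacter ℂ q) {ρ : ℂ} (h1 : ρ ≠ 1) (h : χ.LFunction ρ = 0) :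
    ρ.re < 1 := by
  by_contra hcon
  exact DirichletCharacter.LFunction_ne_zero_of_one_le_re χ (Or.inr h1) (not_lt.1 hcon) h

/-- the local lemma -/
lemma loc {w M T : ℝ} (hw0 : 0 < w) (hw1 : w ≤ 1 / 32) (hM : 1 ≤ M) (hT : 3 ≤ T)
    (h : UB q (32 * w) M T) (χ : DirichletCharacter ℂ q)
    {τ η : ℝ} (hτ1 : 18 / 10 ≤ |τ|) (hτ2 : |τ| ≤ 2 * T + 2) (hη0 : 0 < η)
    (hη : η ≤ w) :
    (-(12 * (Real.log (2 * M / η) + 1) / w) ≤
      (deriv χ.LFunction ⟨1 + η, τ⟩ / χ.LFunction ⟨1 + η, τ⟩).re) ∧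
    (∀ ρ ∈ closedBall (⟨1 + η, τ⟩ : ℂ) (2 * w), χ.LFunction ρ = 0 →
      (1 / ((⟨1 + η, τ⟩ : ℂ) - ρ)).re -
        12 * (Real.log (2 * M / η) + 1) / w ≤
        (deriv χ.LFunction ⟨1 + η, τ⟩ / χ.LFunction ⟨1 + η, τ⟩).re) ∧
    (∀ z ∈ closedBall (⟨1 + η, τ⟩ : ℂ) w, ∀ d : ℝ, 0 < d →
      (∀ ρ ∈ closedBall (⟨1 + η, τ⟩ : ℂ) (2 * w), χ.LFunction ρ = 0 → d ≤ ‖z - ρ‖) →
      χ.LFunction z ≠ 0 ∧ ‖deriv χ.LFunction z / χ.LFunction z‖ ≤
        Real.log (2 * M / η) * (3 / 2) / d +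
          12 * (Real.log (2 * M / η) + 1) / w) := by
  set c : ℂ := ⟨1 + η, τ⟩ with hc
  have hcr : c.re = 1 + η := rfl
  have hci : c.im = τ := rfl
  have him : ∀ z ∈ closedBall c (4 * w), 1 ≤ |z.im| ∧ |z.im| ≤ 3 * T := by
    intro z hz
    rw [mem_closedBall, dist_eq_norm] at hz
    have h2 := (abs_im_le_norm (z - c)).trans hz
    rw [sub_im, hci] at h2
    have h3 : |τ| - |z.im| ≤ |z.im - τ| := by
      rw [abs_sub_comm]
      exact abs_sub_abs_le_abs_sub _ _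
    have h4 : |z.im| - |τ| ≤ |z.im - τ| := abs_sub_abs_le_abs_sub _ _
    constructor <;> linarith
  have hball : ∀ z ∈ closedBall c (4 * w), ‖χ.LFunction z‖ ≤ M := by
    intro z hz
    obtain ⟨i1, i2⟩ := him z hz
    rw [mem_closedBall, dist_eq_norm] at hz
    have h1 := (abs_re_le_norm (z - c)).trans hz
    rw [sub_re, hcr, abs_le] at h1
    exact h χ z i1 i2 (by linarith [h1.1]) (by linarith [h1.2])
  have hne : ∀ z ∈ closedBall c (4 * w), z ≠ 1 := by
    intro z hz he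
    have h2 := (him z hz).1
    rw [he] at h2
    simp at h2
    linarith
  have han : AnalyticOnNhd ℂ χ.LFunction (closedBall c (4 * w)) := by
    have h1 : DifferentiableOn ℂ χ.LFunction {1}ᶜ := fun z hz =>
      (DirichletCharacter.differentiableAt_LFunction χ z (Or.inl hz)).differentiableWithinAt
    exact (h1.analyticOnNhd isOpen_compl_singleton).mono fun z hz => hne z hz
  have hcm : c ∈ closedBall c (4 * w) := mem_closedBall_self (by linarith)
  have hcb := hball c hcm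
  have hcre : 1 < c.re := by rw [hcr]; linarith
  have hc0 : χ.LFunction c ≠ 0 :=
    DirichletCharacter.LFunction_ne_zero_of_one_le_re χ (Or.inr (hne c hcm)) hcre.le
  have hcpos : 0 < ‖χ.LFunction c‖ := norm_pos_iff.2 hc0
  have hinv : ‖χ.LFunction c‖⁻¹ ≤ 2 / η := by
    have h1 := inv_le χ hcre
    rw [norm_inv] at h1
    have h2 : c.re - 1 = η := by rw [hcr]; ring
    rw [h2] at h1
    refine h1.trans ?_
    have h3 : 1 ≤ 1 / η := by rw [le_div_iff₀ hη0]; linarith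
    have h4 : 2 / η = 1 / η + 1 / η := by ring
    linarith
  have hM0 : 0 < M := by linarith
  have hlog : Real.log (M / ‖χ.LFunction c‖) ≤ Real.log (2 * M / η) := by
    apply Real.log_le_log (by positivity)
    calc M / ‖χ.LFunction c‖ = M * ‖χ.LFunction c‖⁻¹ := div_eq_mul_inv _ _
      _ ≤ M * (2 / η) := mul_le_mul_of_nonneg_left hinv (by positivity)
      _ = 2 * M / η := by ring
  have hlog0 : 0 ≤ Real.log (M / ‖χ.LFunction c‖) :=
    Real.log_nonneg (by rw [le_div_iff₀ hcpos]; linarith)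
  have hq : Real.log (2 * w / (4 * w - 2 * w)) = 0 := by
    have h1 : 4 * w - 2 * w = 2 * w := by ring
    rw [h1, div_self (by positivity), Real.log_one]
  have herr : 2 * (Real.log (M / ‖χ.LFunction c‖) +
      Real.log (M / ‖χ.LFunction c‖) / Real.log (4 * w / (2 * w)) *
      Real.log (2 * w / (4 * w - 2 * w)) + 1) * (3 / 2 * w) / (2 * w - 3 / 2 * w) /
      (3 / 2 * w - w) ≤ 12 * (Real.log (2 * M / η) + 1) / w := by
    rw [hq]
    have e1 : 2 * w - 3 / 2 * w = w / 2 := by ring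
    have e2 : 3 / 2 * w - w = w / 2 := by ring
    rw [e1, e2, mul_zero, add_zero]
    have e3 : 2 * (Real.log (M / ‖χ.LFunction c‖) + 1) * (3 / 2 * w) / (w / 2) / (w / 2) =
        12 * (Real.log (M / ‖χ.LFunction c‖) + 1) / w := by
      field_simp
      ring
    rw [e3]
    gcongr
  obtain ⟨s, hs1, hs2, hs3⟩ := Pool.Agent.W66.landau_re (f := χ.LFunction) (c := c) (r := 2 * w)
    (r1 := 3 / 2 * w) (r2 := w) (R := 4 * w) (M := M) hw0 (by linarith) (by linarith)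
    (by linarith) (by linarith) hM hcb han hc0 hball
  have hzre : ∀ ρ ∈ s, ρ.re < 1 := by
    intro ρ hρ
    obtain ⟨h1, h2⟩ := hs1 ρ hρ
    exact re_lt_one χ (hne ρ (closedBall_subset_closedBall (by linarith) h1)) h2
  have hcne : ∀ ρ ∈ s, c ≠ ρ := by
    intro ρ hρ he
    have h1 := hzre ρ hρ
    rw [← he] at h1
    linarith
  have h3 := (hs3 c (mem_closedBall_self hw0.le) hcne).trans herr
  obtain ⟨j1, j2⟩ := sum_re hcre s hzre
  have h4 := (Complex.abs_re_le_norm _).trans h3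
  rw [sub_re, abs_le] at h4
  refine ⟨by linarith [h4.1], fun ρ hρ hρ0 => ?_, fun z hz d hd hdist => ?_⟩
  · have := j2 ρ (hs2 ρ hρ hρ0)
    linarith [h4.1]
  · obtain ⟨h5, h6⟩ := H370.Loc.landau (f := χ.LFunction) (c := c) (r := 2 * w)
      (r1 := 3 / 2 * w) (r2 := w) (R := 4 * w) (M := M) hw0 (by linarith) (by linarith)
      (by linarith) (by linarith) hM hcb han hc0 hball z hz d hd hdist
    refine ⟨h5, h6.trans (add_le_add ?_ herr)⟩
    have e1 : 4 * w / (2 * w) = 2 := by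
      field_simp
      norm_num
    rw [e1]
    have hl2 : 2 / 3 ≤ Real.log 2 := by
      have := Real.log_two_gt_d9
      linarith
    have e2 : Real.log (M / ‖χ.LFunction c‖) / Real.log 2 ≤
        Real.log (2 * M / η) * (3 / 2) := by
      rw [div_le_iff₀ (by linarith)]
      have h7 : 0 ≤ Real.log (2 * M / η) := hlog0.trans hlog
      nlinarith
    gcongr

/-- the logarithmic derivative as a series -/
lemma LSeries_eq (χ : DirichletCharacter ℂ q) {s : ℂ} (hs : 1 < s.re) :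
    LSeries ((fun n : ℕ => (χ n : ℂ)) * (fun n : ℕ => (Λ n : ℂ))) s =
      - (deriv χ.LFunction s / χ.LFunction s) := by
  rw [DirichletCharacter.LSeries_twist_vonMangoldt_eq χ hs]
  have h1 : χ.LFunction =ᶠ[𝓝 s] LSeries (fun n : ℕ => χ n) := by
    have h4 : {z : ℂ | 1 < z.re} ∈ 𝓝 s :=
      (isOpen_lt continuous_const Complex.continuous_re).mem_nhds hs
    filter_upwards [h4] with z hz
    exact DirichletCharacter.LFunction_eq_LSeries χ hz
  rw [h1.deriv_eq, h1.eq_of_nhds]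
  ring

/-- the numbers: `E = 12 (λ + 1) ≤ 12 K Q`, `A = 120 K + 2` -/
structure Nz (w M K Q : ℝ) : Prop where
  w0 : 0 < w
  w1 : w ≤ 1 / 32
  M1 : 1 ≤ M
  K1 : 1 ≤ K
  Q1 : 1 ≤ Q
  lam : Real.log (2 * M / (w / (7 * (120 * K + 2) * Q))) + 1 ≤ K * Q

/-- no zeros near the line -/
lemma zfree : ∃ C0 : ℝ, 0 < C0 ∧ ∀ (q : ℕ) [NeZero q] (w M K Q T : ℝ), Nz w M K Q → C0 ≤ Q →
    3 ≤ T → UB q (32 * w) M T →
    ∀ (χ : DirichletCharacter ℂ q) (ρ : ℂ), χ.LFunction ρ = 0 → 18 / 10 ≤ |ρ.im| →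
      |ρ.im| ≤ T + 1 → ρ.re ≤ 1 - w / (7 * (120 * K + 2) * Q) := by
  obtain ⟨K0, hK0, hD⟩ := Pool.Agent.W66.D_re
  have hell := Pool.Agent.W66.one_le_ell 0
  refine ⟨3 * (K0 * Pool.Agent.W66.ell 0), by positivity, ?_⟩
  intro q _ w M K Q T hN hQ3 hT hUB χ ρ hρ ht htT
  obtain ⟨hw0, hw1, hM1, hK1, hQ1, hlam⟩ := hN
  have hloc := fun (χ : DirichletCharacter ℂ q) (τ : ℝ) (η : ℝ) =>
    @loc q _ w M T hw0 hw1 hM1 hT hUB χ τ η
  generalize ht' : ρ.im = t at *
  set A : ℝ := 120 * K + 2 with hA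
  have hA0 : 0 < A := by positivity
  have hAK : 60 * K + 1 = A / 2 := by rw [hA]; ring
  set η : ℝ := w / (A * Q) with hη
  have hQ0 : 0 < Q := by linarith
  have hη0 : 0 < η := by positivity
  have hAQ : 1 ≤ A * Q := by nlinarith
  have hηw : η ≤ w := div_le_self hw0.le hAQ
  have hlam2 : Real.log (2 * M / η) + 1 ≤ K * Q := by
    refine le_trans (add_le_add_left ?_ 1) hlam
    apply Real.log_le_log (by positivity)
    apply div_le_div_of_nonneg_left (by positivity) (by positivity)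
    rw [hη]
    apply div_le_div_of_nonneg_left hw0.le (by positivity)
    nlinarith
  have hne1 : ρ ≠ 1 := by
    intro h0
    rw [h0, one_im] at ht'
    rw [← ht', abs_zero] at ht
    linarith
  by_cases hre : ρ.re < 1 - w / 2
  · have h1 : w / (7 * A * Q) ≤ w / 2 :=
      div_le_div_of_nonneg_left hw0.le (by norm_num) (by nlinarith)
    linarith
  push Not at hre
  have hre1 : ρ.re < 1 := re_lt_one χ hne1 hρ
  have h341 := Pool.Agent.W66L.three_four_one_char χ (σ := 1 + η) (by linarith) t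
  have hcr : ∀ v : ℝ, 1 < (⟨1 + η, v⟩ : ℂ).re := fun v => by
    show 1 < 1 + η
    linarith
  rw [Pool.Agent.W66.LSeries_eq_DD (hcr 0), LSeries_eq χ (hcr t), LSeries_eq (χ ^ 2) (hcr (2 * t)),
    sub_re, neg_re, neg_re] at h341
  have d0 := (hD 0 (1 + η) (by linarith) (by linarith)).1
  change _ ≤ (Pool.Agent.W66.DD _).re at d0
  have hball : ρ ∈ closedBall (⟨1 + η, t⟩ : ℂ) (2 * w) := by
    rw [mem_closedBall, dist_eq_norm]
    have e : ρ - ⟨1 + η, t⟩ = ((ρ.re - (1 + η) : ℝ) : ℂ) := by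
      apply Complex.ext <;> simp [ht']
    rw [e, Complex.norm_real, Real.norm_eq_abs, abs_le]
    constructor <;> linarith
  have d1 := (hloc χ t η ht (by linarith) hη0 hηw).2.1 ρ hball hρ
  have h2t : |2 * t| = 2 * |t| := by rw [abs_mul]; norm_num
  have d2 := (hloc (χ ^ 2) (2 * t) η (by rw [h2t]; linarith [abs_nonneg t])
    (by rw [h2t]; linarith) hη0 hηw).1
  have e0 : (1 / ((⟨1 + η, 0⟩ : ℂ) - 1)).re = 1 / η := by
    have e : (⟨1 + η, 0⟩ : ℂ) - 1 = ((η : ℝ) : ℂ) := by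
      apply Complex.ext <;> simp
    rw [e, ← Complex.ofReal_one, ← Complex.ofReal_div, Complex.ofReal_re]
  have e1 : (1 / ((⟨1 + η, t⟩ : ℂ) - ρ)).re = 1 / (1 + η - ρ.re) := by
    have e : (⟨1 + η, t⟩ : ℂ) - ρ = ((1 + η - ρ.re : ℝ) : ℂ) := by
      apply Complex.ext <;> simp [ht']
    rw [e, ← Complex.ofReal_one, ← Complex.ofReal_div, Complex.ofReal_re]
  rw [e1] at d1
  rw [e0] at h341
  have hE : 12 * (Real.log (2 * M / η) + 1) / w ≤ 12 * K * (Q / w) := by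
    calc 12 * (Real.log (2 * M / η) + 1) / w ≤ 12 * (K * Q) / w := by gcongr
      _ = 12 * K * (Q / w) := by ring
  have h3η : 1 / η = A * (Q / w) := by
    rw [hη]
    field_simp
  have hQw : Q ≤ Q / w := by
    rw [le_div_iff₀ hw0]
    nlinarith
  have hD0 : 0 < 1 + η - ρ.re := by linarith
  have hQw0 : 0 < Q / w := by positivity
  have hm : 4 * (1 / (1 + η - ρ.re)) ≤ 7 / 2 * A * (Q / w) := by
    have e5 : 7 / 2 * A * (Q / w) = 3 * (A * (Q / w)) + 5 * (12 * K * (Q / w)) + Q / w := by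
      have : 7 / 2 * A = 3 * A + (60 * K + 1) := by rw [hAK]; ring
      rw [this]
      ring
    rw [e5]
    linarith
  have hm2 : 4 ≤ 7 / 2 * A * (Q / w) * (1 + η - ρ.re) := by
    have h1 : 4 * (1 / (1 + η - ρ.re)) = 4 / (1 + η - ρ.re) := by ring
    rw [h1, div_le_iff₀ hD0] at hm
    exact hm
  have hm3 : 8 / 7 * (w / (A * Q)) ≤ 1 + η - ρ.re := by
    have h1 : 7 / 2 * A * (Q / w) * (8 / 7 * (w / (A * Q))) = 4 := by
      field_simp
      norm_num
    have h2 : 0 < 7 / 2 * A * (Q / w) := by positivity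
    by_contra hcon
    push Not at hcon
    have := mul_lt_mul_of_pos_left hcon h2
    linarith
  have e4 : w / (7 * A * Q) = 1 / 7 * (w / (A * Q)) := by
    field_simp
  rw [e4]
  rw [hη] at hm3
  linarith

/-- growth along a horizontal segment -/
lemma grow (χ : DirichletCharacter ℂ q) {σ x1 t G : ℝ} (hσ : σ ≤ x1) (ht : t ≠ 0)
    (h : ∀ x ∈ Icc σ x1, χ.LFunction ⟨x, t⟩ ≠ 0 ∧
      ‖deriv χ.LFunction ⟨x, t⟩ / χ.LFunction ⟨x, t⟩‖ ≤ G) :
    ‖χ.LFunction ⟨x1, t⟩‖ ≤ ‖χ.LFunction ⟨σ, t⟩‖ * Real.exp (G * (x1 - σ)) := by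
  have hd : ∀ x : ℝ, HasDerivAt (fun x : ℝ => χ.LFunction ⟨x, t⟩) (deriv χ.LFunction ⟨x, t⟩) x := by
    intro x
    have hne : (⟨x, t⟩ : ℂ) ≠ 1 := by
      intro he
      apply ht
      have := congrArg Complex.im he
      simpa using this
    have h1 := (DirichletCharacter.differentiableAt_LFunction χ _ (Or.inl hne)).hasDerivAt
    have h2 : HasDerivAt (fun x : ℝ => (⟨x, t⟩ : ℂ)) 1 x := by
      have h3 : (fun x : ℝ => (⟨x, t⟩ : ℂ)) = fun x : ℝ => (x : ℂ) + t * I := by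
        ext x
        apply Complex.ext <;> simp
      rw [h3]
      exact (HasDerivAt.ofReal_comp (hasDerivAt_id x)).add_const _
    have h3 := HasDerivAt.comp x h1 h2
    rw [mul_one] at h3
    exact h3
  have hg := norm_le_gronwallBound_of_norm_deriv_right_le (f := fun x : ℝ => χ.LFunction ⟨x, t⟩)
    (f' := fun x => deriv χ.LFunction ⟨x, t⟩) (δ := ‖χ.LFunction ⟨σ, t⟩‖) (K := G) (ε := 0)
    (a := σ) (b := x1) (fun x _ => (hd x).continuousAt.continuousWithinAt)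
    (fun x _ => (hd x).hasDerivWithinAt) le_rfl (fun x hx => by
      obtain ⟨h1, h2⟩ := h x ⟨hx.1, hx.2.le⟩
      have h3 : deriv χ.LFunction ⟨x, t⟩ =
          deriv χ.LFunction ⟨x, t⟩ / χ.LFunction ⟨x, t⟩ * χ.LFunction ⟨x, t⟩ := by
        field_simp
      rw [add_zero, h3, norm_mul]
      exact mul_le_mul_of_nonneg_right h2 (norm_nonneg _)) x1 ⟨hσ, le_rfl⟩
  rwa [gronwallBound_ε0] at hg

/-- bound at one height -/
lemma bd {w M K Q T : ℝ} (hN : Nz w M K Q) (hT : 3 ≤ T) (hUB : UB q (32 * w) M T)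
    (χ : DirichletCharacter ℂ q) {t : ℝ} (ht : 2 ≤ |t|) (htT : |t| ≤ T)
    (hz : ∀ ρ : ℂ, χ.LFunction ρ = 0 → 18 / 10 ≤ |ρ.im| → |ρ.im| ≤ T + 1 →
      ρ.re ≤ 1 - w / (7 * (120 * K + 2) * Q)) {σ : ℝ}
    (hσ : 1 - w / (7 * (120 * K + 2) * Q) / 2 ≤ σ) :
    χ.LFunction ⟨σ, t⟩ ≠ 0 ∧ ‖(χ.LFunction ⟨σ, t⟩)⁻¹‖ ≤
      Real.exp (6 * K * Q) * (2 / (w / (7 * (120 * K + 2) * Q))) := by
  obtain ⟨hw0, hw1, hM1, hK1, hQ1, hlam⟩ := hN
  have hloc := fun (η : ℝ) => @loc q _ w M T hw0 hw1 hM1 hT hUB χ t η (by linarith)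
    (by linarith)
  have ht0 : t ≠ 0 := by
    intro h0
    rw [h0, abs_zero] at ht
    linarith
  have hQ0 : 0 < Q := by linarith
  have hK0 : 0 < K := by linarith
  set w1 : ℝ := w / (7 * (120 * K + 2) * Q) with hw1def
  have hw10 : 0 < w1 := by positivity
  have hw1w : w1 ≤ w / 100 := by
    rw [hw1def]
    refine div_le_div_of_nonneg_left hw0.le (by norm_num) ?_
    nlinarith
  have hexp1 : (1 : ℝ) ≤ Real.exp (6 * K * Q) := Real.one_le_exp (by positivity)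
  have hright : ∀ x : ℝ, 1 + w1 ≤ x → χ.LFunction ⟨x, t⟩ ≠ 0 ∧
      ‖(χ.LFunction ⟨x, t⟩)⁻¹‖ ≤ 2 / w1 := by
    intro x hx
    have h1 : 1 < (⟨x, t⟩ : ℂ).re := by
      show 1 < x
      linarith
    have hne : (⟨x, t⟩ : ℂ) ≠ 1 := by
      intro he
      apply ht0
      have := congrArg Complex.im he
      simpa using this
    refine ⟨DirichletCharacter.LFunction_ne_zero_of_one_le_re χ (Or.inr hne) h1.le,
      (inv_le χ h1).trans ?_⟩
    show 1 + 1 / (x - 1) ≤ 2 / w1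
    have h2 : 1 / (x - 1) ≤ 1 / w1 := one_div_le_one_div_of_le hw10 (by linarith)
    have h3 : 1 ≤ 1 / w1 := by
      rw [le_div_iff₀ hw10]
      linarith
    have h4 : 2 / w1 = 1 / w1 + 1 / w1 := by ring
    linarith
  have h2w0 : 0 < 2 / w1 := by positivity
  rcases le_or_gt (1 + w1) σ with hc | hc
  · obtain ⟨h1, h2⟩ := hright σ hc
    exact ⟨h1, h2.trans (le_mul_of_one_le_left h2w0.le hexp1)⟩
  have hseg : ∀ x ∈ Icc σ (1 + w1), χ.LFunction ⟨x, t⟩ ≠ 0 ∧
      ‖deriv χ.LFunction ⟨x, t⟩ / χ.LFunction ⟨x, t⟩‖ ≤ 4 * K * Q / w1 := by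
    intro x hx
    obtain ⟨h1, h2⟩ := (hloc w1 hw10 (by linarith)).2.2 ⟨x, t⟩ (by
      rw [mem_closedBall, dist_eq_norm]
      have e : (⟨x, t⟩ : ℂ) - ⟨1 + w1, t⟩ = ((x - (1 + w1) : ℝ) : ℂ) := by
        apply Complex.ext <;> simp
      rw [e, Complex.norm_real, Real.norm_eq_abs, abs_le]
      constructor <;> linarith [hx.1, hx.2]) (w1 / 2) (by linarith) (by
      intro ρ hρ hρ0
      rw [mem_closedBall, dist_eq_norm] at hρ
      have h2 := (abs_im_le_norm (ρ - ⟨1 + w1, t⟩)).trans hρ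
      rw [sub_im] at h2
      have h2' : |ρ.im - t| ≤ 2 * w := h2
      have a1 : |t| - |ρ.im| ≤ |ρ.im - t| := by
        rw [abs_sub_comm]
        exact abs_sub_abs_le_abs_sub _ _
      have a2 : |ρ.im| - |t| ≤ |ρ.im - t| := abs_sub_abs_le_abs_sub _ _
      have h3 := hz ρ hρ0 (by linarith) (by linarith)
      have h4 := (le_abs_self _).trans (abs_re_le_norm ((⟨x, t⟩ : ℂ) - ρ))
      rw [sub_re] at h4
      have h5 : (⟨x, t⟩ : ℂ).re = x := rfl
      rw [h5] at h4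
      linarith [hx.1])
    refine ⟨h1, h2.trans ?_⟩
    have e1 : Real.log (2 * M / w1) * (3 / 2) / (w1 / 2) ≤ 3 * K * Q / w1 := by
      have h3 : Real.log (2 * M / w1) ≤ K * Q := by linarith
      calc Real.log (2 * M / w1) * (3 / 2) / (w1 / 2) ≤ K * Q * (3 / 2) / (w1 / 2) := by gcongr
        _ = 3 * K * Q / w1 := by
          field_simp
    have e2 : 12 * (Real.log (2 * M / w1) + 1) / w ≤ K * Q / w1 := by
      calc 12 * (Real.log (2 * M / w1) + 1) / w ≤ 12 * (K * Q) / w := by gcongr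
        _ ≤ 12 * (K * Q) / (100 * w1) := by
          apply div_le_div_of_nonneg_left (by positivity) (by positivity)
          linarith
        _ = 12 / 100 * (K * Q / w1) := by
          field_simp
        _ ≤ K * Q / w1 := by
          have : 0 < K * Q / w1 := by positivity
          linarith
    have e3 : 4 * K * Q / w1 = 3 * K * Q / w1 + K * Q / w1 := by ring
    rw [e3]
    exact add_le_add e1 e2
  have hg := grow χ hc.le ht0 hseg
  obtain ⟨k1, k2⟩ := hright (1 + w1) le_rfl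
  have k3 := (hseg σ ⟨le_rfl, hc.le⟩).1
  refine ⟨k3, ?_⟩
  have hexp2 : Real.exp (4 * K * Q / w1 * (1 + w1 - σ)) ≤ Real.exp (6 * K * Q) := by
    apply Real.exp_le_exp.2
    have h1 : 4 * K * Q / w1 * (1 + w1 - σ) ≤ 4 * K * Q / w1 * (3 / 2 * w1) :=
      mul_le_mul_of_nonneg_left (by linarith) (by positivity)
    have h2 : 4 * K * Q / w1 * (3 / 2 * w1) = 6 * K * Q := by
      field_simp
      norm_num
    linarith
  have k4 : 0 < ‖χ.LFunction ⟨σ, t⟩‖ := norm_pos_iff.2 k3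
  have k5 : 0 < ‖χ.LFunction ⟨1 + w1, t⟩‖ := norm_pos_iff.2 k1
  have k6 : ‖χ.LFunction ⟨1 + w1, t⟩‖ ≤ ‖χ.LFunction ⟨σ, t⟩‖ * Real.exp (6 * K * Q) :=
    hg.trans (mul_le_mul_of_nonneg_left hexp2 (norm_nonneg _))
  rw [norm_inv] at k2 ⊢
  have k7 : ‖χ.LFunction ⟨σ, t⟩‖⁻¹ ≤ Real.exp (6 * K * Q) * ‖χ.LFunction ⟨1 + w1, t⟩‖⁻¹ := by
    rw [inv_eq_one_div, div_le_iff₀ k4]
    have h1 : Real.exp (6 * K * Q) * ‖χ.LFunction ⟨1 + w1, t⟩‖⁻¹ * ‖χ.LFunction ⟨σ, t⟩‖ =
        (‖χ.LFunction ⟨σ, t⟩‖ * Real.exp (6 * K * Q)) / ‖χ.LFunction ⟨1 + w1, t⟩‖ := by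
      ring
    rw [h1, le_div_iff₀ k5, one_mul]
    exact k6
  exact k7.trans (mul_le_mul_of_nonneg_left k2 (Real.exp_pos _).le)

/-- **LZF** -/
theorem lzf (h : S_LUP) : S_LZF := by
  intro B
  obtain ⟨δ, K₁, T₁, hδ0, hδ1, hK₁, hT₁, hup⟩ := h B
  obtain ⟨C0, hC0, hzf⟩ := zfree
  set K : ℝ := K₁ + 3 with hK
  set A : ℝ := 120 * K + 2 with hA
  have hK1 : 1 ≤ K := by linarith
  have hA0 : 0 < A := by positivity
  have hlt : Tendsto Real.log atTop atTop := Real.tendsto_log_atTop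
  have hlo : ∀ᶠ L : ℝ in atTop, 448 * A * Real.log L ≤ L ^ (δ / 2) := by
    have h1 := (isLittleO_log_rpow_atTop (half_pos hδ0)).bound
      (show (0 : ℝ) < 1 / (448 * A) by positivity)
    filter_upwards [h1, eventually_ge_atTop 1] with L h2 h3
    rw [Real.norm_of_nonneg (Real.log_nonneg h3),
      Real.norm_of_nonneg (Real.rpow_nonneg (by linarith) _)] at h2
    rw [one_div, ← div_eq_inv_mul, le_div_iff₀ (by positivity)] at h2
    linarith
  have hev : ∀ᶠ L : ℝ in atTop, 448 * A ≤ L ∧ 1 ≤ Real.log L ∧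
      Real.log (448 * A) + 1 ≤ Real.log L ∧ C0 ≤ Real.log L ∧
      448 * A * Real.log L ≤ L ^ (δ / 2) := by
    filter_upwards [eventually_ge_atTop (448 * A), hlt.eventually_ge_atTop 1,
      hlt.eventually_ge_atTop (Real.log (448 * A) + 1), hlt.eventually_ge_atTop C0,
      hlo] with L h1 h2 h3 h4 h5
    exact ⟨h1, h2, h3, h4, h5⟩
  obtain ⟨L0, hL0⟩ := eventually_atTop.1 hev
  refine ⟨δ / 2, 6 * K + 3, max (max 3 T₁) (Real.exp L0), by linarith, by linarith,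
    by linarith, (le_max_left _ _).trans (le_max_left _ _), ?_⟩
  intro T hT q hq0 hq χ s hs1 hs2 hs3 hs4
  have hT3 : 3 ≤ T := ((le_max_left _ _).trans (le_max_left _ _)).trans hT
  have hTT : T₁ ≤ T := ((le_max_right _ _).trans (le_max_left _ _)).trans hT
  have hTe : Real.exp L0 ≤ T := (le_max_right _ _).trans hT
  have hUP := hup T hTT q hq0 hq
  have hLL : L0 ≤ Real.log T := by
    rw [Real.le_log_iff_exp_le (by linarith)]
    exact hTe
  obtain ⟨h1, h2, h3, h4, h5⟩ := hL0 _ hLL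
  set L : ℝ := Real.log T with hLdef
  have hA1 : 1 ≤ 448 * A := by linarith
  have hL1 : 1 ≤ L := by linarith
  have hL0' : 0 < L := by linarith
  set Q : ℝ := Real.log L with hQdef
  have hQ0 : 0 < Q := by linarith
  set w : ℝ := L ^ (δ - 1) / 32 with hw
  have hp : 0 < L ^ (δ - 1) := Real.rpow_pos_of_pos hL0' _
  have hp1 : L ^ (δ - 1) ≤ 1 := Real.rpow_le_one_of_one_le_of_nonpos hL1 (by linarith)
  have hw0 : 0 < w := by positivity
  have hM1 : 1 ≤ L ^ K₁ := Real.one_le_rpow hL1 (by linarith)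
  have hN : Nz w (L ^ K₁) K Q := by
    refine ⟨hw0, by rw [hw]; linarith, hM1, hK1, h2, ?_⟩
    have e : 2 * L ^ K₁ / (w / (7 * (120 * K + 2) * Q)) =
        (448 * A) * L ^ K₁ * Q / L ^ (δ - 1) := by
      rw [hw, ← hA]
      field_simp
      ring
    rw [e, Real.log_div (by positivity) (by positivity), Real.log_mul (by positivity) (by positivity),
      Real.log_mul (by positivity) (by positivity), Real.log_rpow hL0', Real.log_rpow hL0']
    have h6 : Real.log Q ≤ Q := (Real.log_le_sub_one_of_pos hQ0).trans (by linarith)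
    rw [← hQdef, hK]
    nlinarith
  have hUB : UB q (32 * w) (L ^ K₁) T := by
    intro χ' z g1 g2 g3 g4
    refine hUP χ' z (Or.inr g1) g2 ?_ g4
    have : 32 * w = L ^ (δ - 1) := by rw [hw]; ring
    linarith
  have hz := hzf q w (L ^ K₁) K Q T hN h4 hT3 hUB χ
  have hw1eq : w / (7 * (120 * K + 2) * Q) / 2 = L ^ (δ - 1) / (448 * A * Q) := by
    rw [hw, ← hA]
    field_simp
    norm_num
  have hwid : L ^ (δ / 2 - 1) ≤ w / (7 * (120 * K + 2) * Q) / 2 := by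
    rw [hw1eq, le_div_iff₀ (by positivity)]
    have e3 : L ^ (δ - 1) = L ^ (δ / 2 - 1) * L ^ (δ / 2) := by
      rw [← Real.rpow_add hL0']
      congr 1
      ring
    rw [e3]
    exact mul_le_mul_of_nonneg_left h5 (Real.rpow_nonneg hL0'.le _)
  obtain ⟨r1, r2⟩ := bd hN hT3 hUB χ hs1 hs2 hz (σ := s.re) (by linarith)
  have hseq : (⟨s.re, s.im⟩ : ℂ) = s := rfl
  rw [hseq] at r1 r2
  refine ⟨r1, r2.trans ?_⟩
  have e1 : Real.exp (6 * K * Q) = L ^ (6 * K) := by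
    rw [Real.rpow_def_of_pos hL0', ← hQdef]
    congr 1
    ring
  have e2 : 2 / (w / (7 * (120 * K + 2) * Q)) ≤ L ^ (3 : ℝ) := by
    have e3 : 2 / (w / (7 * (120 * K + 2) * Q)) = (448 * A) * Q / L ^ (δ - 1) := by
      rw [hw, ← hA]
      field_simp
      norm_num
    rw [e3, div_le_iff₀ hp, ← Real.rpow_add hL0']
    have e4 : Q ≤ L := (Real.log_le_sub_one_of_pos hL0').trans (by linarith)
    have e5 : L * L = L ^ (2 : ℝ) := by
      rw [show (2 : ℝ) = ((2 : ℕ) : ℝ) by norm_num, Real.rpow_natCast, sq]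
    calc 448 * A * Q ≤ L * L := mul_le_mul h1 e4 hQ0.le hL0'.le
      _ = L ^ (2 : ℝ) := e5
      _ ≤ L ^ (3 + (δ - 1)) := Real.rpow_le_rpow_of_exponent_le hL1 (by linarith)
  calc Real.exp (6 * K * Q) * (2 / (w / (7 * (120 * K + 2) * Q))) ≤ L ^ (6 * K) * L ^ (3 : ℝ) := by
        rw [e1]
        exact mul_le_mul_of_nonneg_left e2 (by positivity)
    _ = L ^ (6 * K + 3) := by rw [← Real.rpow_add hL0']

end Pool.Agent.V8H34.CR.Lzf
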