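import Pool.Agent.V8H34.CR.Lzf
import Pool.Agent.Y25.VK.Mob

/-!
Project CR, part MOC: twisted sums of the Moebius function with a character (helper10).
-/

set_option autoImplicit false

open Complex Filter Topology Set MeasureTheory Metric
open scoped Real FourierTransform

namespace Pool.Agent.V8H34.CR.Moc

open Pool.Agent.H379R2.SW (vert vert_re vert_im vert_ne_zero continuous_vert)
open Pool.Agent.W66 (exp_vert integrable_inv_norm_vert_sq' perron_vert)
open Pool.Agent.Q236.CR (S_LZF S_MOC nt)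
open Pool.Agent.Y25.VK (norm_exp_vert tail_arctan)

variable {q : ℕ} [NeZero q] (χ : DirichletCharacter ℂ q)

/-- `χ(n) μ(n)` -/
noncomputable def Mu : ℕ → ℂ := fun n => χ (n : ZMod q) * ((ArithmeticFunction.moebius n : ℤ) : ℂ)

omit [NeZero q] in
lemma norm_Mu1 (n : ℕ) : ‖Mu χ n‖ ≤ 1 := by
  unfold Mu
  rw [norm_mul]
  refine mul_le_one₀ (χ.norm_le_one _) (norm_nonneg _) ?_
  rw [Complex.norm_intCast]
  exact_mod_cast ArithmeticFunction.abs_moebius_le_one

/-- the smoothed sum -/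
noncomputable def RS (τ v : ℝ) : ℂ :=
  ∑' n : ℕ, LSeries.term (Mu χ) ⟨0, τ⟩ n * ((max (v - Real.log n) 0 : ℝ) : ℂ)

omit [NeZero q] in
lemma Mu_summable {s : ℂ} (hs : 1 < s.re) : LSeriesSummable (Mu χ) s :=
  LSeriesSummable_of_bounded_of_one_lt_re (m := 1) (fun n _ => norm_Mu1 χ n) hs

omit [NeZero q] in
theorem RS_eq {c : ℝ} (hc : 1 < c) (τ v : ℝ) :
    RS χ τ v = ∫ ξ : ℝ, LSeries (Mu χ) (⟨0, τ⟩ + vert c ξ) *
      (cexp (vert c ξ * v) / (vert c ξ) ^ 2) := by
  have hc0 : 0 < c := by linarith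
  have ha : LSeriesSummable (Mu χ) (c : ℂ) := Mu_summable χ (by simpa using hc)
  set F : ℕ → ℝ → ℂ := fun n ξ => LSeries.term (Mu χ) (⟨0, τ⟩ + vert c ξ) n *
    (cexp (vert c ξ * v) / (vert c ξ) ^ 2) with hF
  have hterm : ∀ n ξ, F n ξ = LSeries.term (Mu χ) ⟨0, τ⟩ n *
      (cexp (vert c ξ * ((v - Real.log n : ℝ) : ℂ)) / (vert c ξ) ^ 2) := by
    intro n ξ
    simp only [hF]
    rcases Nat.eq_zero_or_pos n with rfl | hn
    · simp
    · rw [LSeries.term_of_ne_zero hn.ne', LSeries.term_of_ne_zero hn.ne']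
      have hnc : (n : ℂ) ≠ 0 := by exact_mod_cast hn.ne'
      have h1 : (n : ℂ) ^ ((⟨0, τ⟩ : ℂ) + vert c ξ) = (n : ℂ) ^ (⟨0, τ⟩ : ℂ) *
          cexp (vert c ξ * (Real.log n : ℝ)) := by
        rw [Complex.cpow_add _ _ hnc]
        congr 1
        rw [Complex.cpow_def_of_ne_zero hnc, ← Complex.natCast_log]
        congr 1
        push_cast
        ring
      have h2 : cexp (vert c ξ * ((v - Real.log n : ℝ) : ℂ)) =
          cexp (vert c ξ * v) / cexp (vert c ξ * (Real.log n : ℝ)) := by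
        rw [← Complex.exp_sub]
        congr 1
        push_cast
        ring
      rw [h1, h2]
      have h3 : (n : ℂ) ^ (⟨0, τ⟩ : ℂ) ≠ 0 := by
        rw [Complex.cpow_def_of_ne_zero hnc]; exact Complex.exp_ne_zero _
      have h4 := Complex.exp_ne_zero (vert c ξ * (Real.log n : ℝ))
      have h5 := vert_ne_zero hc0 ξ
      field_simp
  have hnorm : ∀ n ξ, ‖F n ξ‖ = ‖LSeries.term (Mu χ) (c : ℂ) n‖ *
      (Real.exp (c * v) * (‖vert c ξ‖ ^ 2)⁻¹) := by
    intro n ξ
    simp only [hF]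
    rw [norm_mul, norm_div, norm_exp_vert, norm_pow, div_eq_mul_inv]
    congr 1
    rw [LSeries.norm_term_eq, LSeries.norm_term_eq]
    congr 2
    simp [vert_re]
  have hkint := integrable_inv_norm_vert_sq' hc0
  have hFint : ∀ n, Integrable (F n) := by
    intro n
    refine Integrable.mono' ((hkint.const_mul (Real.exp (c * v))).const_mul
      ‖LSeries.term (Mu χ) (c : ℂ) n‖) ?_ ?_
    · apply Continuous.aestronglyMeasurable
      have : F n = fun ξ => LSeries.term (Mu χ) ⟨0, τ⟩ n *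
        (cexp (vert c ξ * ((v - Real.log n : ℝ) : ℂ)) / (vert c ξ) ^ 2) :=
        funext (hterm n)
      rw [this]
      have h1 := continuous_vert c
      exact continuous_const.mul (Continuous.div (by fun_prop) (h1.pow 2)
        (fun ξ => pow_ne_zero 2 (vert_ne_zero hc0 ξ)))
    · exact Eventually.of_forall (fun ξ => (hnorm n ξ).le)
  have hFsum : Summable (fun n => ∫ ξ, ‖F n ξ‖) := by
    simp only [hnorm, integral_const_mul]
    exact ha.norm.mul_right _
  have hmain := hasSum_integral_of_summable_integral_norm hFint hFsum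
  have hI : ∀ n, ∫ ξ, F n ξ = LSeries.term (Mu χ) ⟨0, τ⟩ n * ((max (v - Real.log n) 0 : ℝ) : ℂ) := by
    intro n
    have h1 : ∫ ξ, F n ξ = LSeries.term (Mu χ) ⟨0, τ⟩ n *
        ∫ ξ : ℝ, (cexp (vert c ξ * ((v - Real.log n : ℝ) : ℂ)) / (vert c ξ) ^ 2) := by
      simp only [hterm]
      rw [integral_const_mul]
    rw [h1, perron_vert hc0]
  simp only [hI] at hmain
  unfold RS
  rw [hmain.tsum_eq]
  congr 1
  ext ξ
  simp only [hF]
  rw [tsum_mul_right]
  rfl

/-- the inverse of the function -/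
noncomputable def MM (w : ℂ) : ℂ := (χ.LFunction w)⁻¹

lemma LSeries_Mu {w : ℂ} (hw : 1 < w.re) : LSeries (Mu χ) w = MM χ w ∧ χ.LFunction w ≠ 0 := by
  have h1 := DirichletCharacter.LSeries.mul_mu_eq_one χ hw
  rw [← DirichletCharacter.LFunction_eq_LSeries χ hw] at h1
  refine ⟨?_, left_ne_zero_of_mul_eq_one h1⟩
  unfold MM
  rw [inv_eq_of_mul_eq_one_right h1]
  rfl

lemma norm_Mu_le {w : ℂ} (hw : 1 < w.re) : ‖LSeries (Mu χ) w‖ ≤ 1 + 1 / (w.re - 1) := by
  rw [(LSeries_Mu χ hw).1]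
  exact Lzf.inv_le χ hw

theorem RS_bound {δ K T : ℝ} (hδ : 0 < δ) (hδ1 : δ < 1) (hT3 : 3 ≤ T)
    (hI : ∀ s : ℂ, 2 ≤ |s.im| → |s.im| ≤ T → 1 - (Real.log T) ^ (δ - 1) ≤ s.re → s.re ≤ 2 →
      χ.LFunction s ≠ 0 ∧ ‖(χ.LFunction s)⁻¹‖ ≤ (Real.log T) ^ K)
    (τ v R : ℝ) (hv : 1 ≤ v) (hR : 1 ≤ R) (hτR : R + 2 ≤ |τ|) (hτT : |τ| + R ≤ T) :
    ‖RS χ τ v‖ ≤ 48 * Real.exp v * ((Real.log T) ^ K *
      Real.exp (-((Real.log T) ^ (δ - 1) / 2 * v)) + (Real.log T) ^ K / R ^ 2 + v / R) := by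
  have hlT : 1 ≤ Real.log T := by
    rw [Real.le_log_iff_exp_le (by linarith)]
    linarith [Real.exp_one_lt_d9]
  set H := (Real.log T) ^ K with hH
  have hH0 : 0 < H := Real.rpow_pos_of_pos (by linarith) _
  set w := (Real.log T) ^ (δ - 1) / 2 with hw
  have hw0 : 0 < w := by
    have : 0 < (Real.log T) ^ (δ - 1) := Real.rpow_pos_of_pos (by linarith) _
    positivity
  have hw1 : w ≤ 1 / 2 := by
    have : (Real.log T) ^ (δ - 1) ≤ 1 := Real.rpow_le_one_of_one_le_of_nonpos hlT (by linarith)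
    linarith
  have hv0 : 0 < v := by linarith
  have hR0 : 0 < R := by linarith
  set c1 : ℝ := 1 + 1 / v with hc1
  have hiv : 0 < 1 / v := by positivity
  have hiv1 : 1 / v ≤ 1 := by rw [div_le_one hv0]; exact hv
  have hc10 : 1 < c1 := by linarith
  have hc12 : c1 ≤ 2 := by linarith
  set b0 : ℝ := 1 - w with hb0
  have hb0' : 1 / 2 ≤ b0 := by linarith
  set G : ℂ → ℂ := fun s => MM χ (⟨0, τ⟩ + s) * (cexp (s * v) / s ^ 2) with hG
  have he1 : Real.exp 1 ≤ 3 := by linarith [Real.exp_one_lt_d9]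
  have hev0 := Real.exp_pos v
  have hec : Real.exp (c1 * v) ≤ 3 * Real.exp v := by
    have h1 : c1 * v = 1 + v := by rw [hc1]; field_simp; ring
    rw [h1, Real.exp_add]
    gcongr
  -- lower bound for the square
  have hsq : ∀ s : ℂ, 1 / 2 ≤ s.re → (1 + s.im ^ 2) / 4 ≤ ‖s ^ 2‖ := by
    intro s hs
    rw [norm_pow, Complex.sq_norm, Complex.normSq_apply]
    nlinarith [sq_nonneg s.im]
  -- on the rectangle
  have hrect : ∀ s : ℂ, b0 ≤ s.re → s.re ≤ c1 → |s.im| ≤ R → χ.LFunction (⟨0, τ⟩ + s) ≠ 0 ∧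
      ‖G s‖ ≤ 4 * H * (1 + s.im ^ 2)⁻¹ * Real.exp (s.re * v) := by
    intro s h1 h2 h3
    have him : ((⟨0, τ⟩ : ℂ) + s).im = τ + s.im := by simp
    have hre : ((⟨0, τ⟩ : ℂ) + s).re = s.re := by simp
    have him2 : |τ| - |s.im| ≤ |τ + s.im| := by
      have h7 := abs_sub_abs_le_abs_sub τ (-s.im)
      rw [abs_neg, sub_neg_eq_add] at h7
      exact h7
    obtain ⟨k1, k2⟩ := hI (⟨0, τ⟩ + s) (by
      rw [him]
      linarith) (by
      rw [him]
      exact (abs_add_le _ _).trans (by linarith)) (by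
      rw [hre]
      linarith) (by rw [hre]; linarith)
    refine ⟨k1, ?_⟩
    simp only [hG]
    rw [norm_mul, norm_div, Complex.norm_exp, Complex.re_mul_ofReal]
    have h4 := hsq s (by linarith)
    have h5 : 0 < 1 + s.im ^ 2 := by positivity
    have h6 : Real.exp (s.re * v) / ‖s ^ 2‖ ≤ Real.exp (s.re * v) / ((1 + s.im ^ 2) / 4) :=
      div_le_div_of_nonneg_left (Real.exp_pos _).le (by positivity) h4
    calc ‖MM χ (⟨0, τ⟩ + s)‖ * (Real.exp (s.re * v) / ‖s ^ 2‖) ≤
        H * (Real.exp (s.re * v) / ((1 + s.im ^ 2) / 4)) :=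
          mul_le_mul k2 h6 (by positivity) hH0.le
      _ = _ := by field_simp
  have hGd : ∀ s : ℂ, χ.LFunction (⟨0, τ⟩ + s) ≠ 0 → s ≠ 0 → (⟨0, τ⟩ : ℂ) + s ≠ 1 →
      DifferentiableAt ℂ G s := by
    intro s hs hs0 hs1
    have h2 : DifferentiableAt ℂ (fun z : ℂ => (⟨0, τ⟩ : ℂ) + z) s := by fun_prop
    have h3 : DifferentiableAt ℂ (fun z : ℂ => χ.LFunction ((⟨0, τ⟩ : ℂ) + z)) s :=
      DifferentiableAt.comp (g := χ.LFunction) (f := fun z : ℂ => (⟨0, τ⟩ : ℂ) + z) s
        (DirichletCharacter.differentiableAt_LFunction χ _ (Or.inl hs1)) h2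
    have h4 : DifferentiableAt ℂ (fun z : ℂ => MM χ ((⟨0, τ⟩ : ℂ) + z)) s := by
      unfold MM
      exact h3.inv hs
    exact h4.mul (DifferentiableAt.div (by fun_prop) (by fun_prop) (pow_ne_zero 2 hs0))
  -- the line integral as an integral over `t`
  have hline : RS χ τ v = ((2 * π)⁻¹ : ℝ) • ∫ t : ℝ, G (c1 + t * I) := by
    rw [RS_eq χ hc10]
    have h1 : ∀ ξ : ℝ, LSeries (Mu χ) (⟨0, τ⟩ + vert c1 ξ) *
        (cexp (vert c1 ξ * v) / (vert c1 ξ) ^ 2) = (fun t : ℝ => G (c1 + t * I)) (2 * π * ξ) := by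
      intro ξ
      rw [(LSeries_Mu χ (by simp [vert_re]; exact hc10)).1]
      simp only [hG, vert]
    simp only [h1]
    rw [MeasureTheory.Measure.integral_comp_mul_left (fun t : ℝ => G (c1 + t * I)) (2 * π),
      abs_of_pos (by positivity)]
  -- bound on the whole line
  have hGline : ∀ t : ℝ, ‖G (c1 + t * I)‖ ≤ (6 * v * Real.exp v) * (1 + t ^ 2)⁻¹ := by
    intro t
    have hre : ((⟨0, τ⟩ : ℂ) + (c1 + t * I)).re = c1 := by simp
    have hre2 : ((c1 : ℂ) + t * I).re = c1 := by simp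
    have him2 : ((c1 : ℂ) + t * I).im = t := by simp
    have h0 : 1 < ((⟨0, τ⟩ : ℂ) + (c1 + t * I)).re := by rw [hre]; exact hc10
    have h1 := norm_Mu_le χ h0
    rw [hre, (LSeries_Mu χ h0).1] at h1
    have h2 : 1 + 1 / (c1 - 1) ≤ 2 * v := by
      have : c1 - 1 = 1 / v := by rw [hc1]; ring
      rw [this, one_div_one_div]
      linarith
    simp only [hG]
    rw [norm_mul, norm_div, Complex.norm_exp, Complex.re_mul_ofReal, hre2]
    have h3 : 1 + t ^ 2 ≤ ‖((c1 : ℂ) + t * I) ^ 2‖ := by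
      rw [norm_pow, Complex.sq_norm, Complex.normSq_apply, hre2, him2]
      nlinarith
    have h4 : 0 < 1 + t ^ 2 := by positivity
    calc ‖MM χ (⟨0, τ⟩ + (c1 + t * I))‖ * (Real.exp (c1 * v) / ‖((c1 : ℂ) + t * I) ^ 2‖) ≤
        (2 * v) * (3 * Real.exp v / (1 + t ^ 2)) :=
          mul_le_mul (h1.trans h2) (div_le_div₀ (by positivity) hec h4 h3) (by positivity)
            (by positivity)
      _ = _ := by rw [div_eq_mul_inv]; ring
  have hGcont : Continuous fun t : ℝ => G (c1 + t * I) := by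
    rw [continuous_iff_continuousAt]
    intro t
    have hre2 : ((c1 : ℂ) + t * I).re = c1 := by simp
    have h1 : χ.LFunction (⟨0, τ⟩ + (c1 + t * I)) ≠ 0 :=
      (LSeries_Mu χ (by rw [Complex.add_re, hre2]; simpa using hc10)).2
    have h2 : ContinuousAt (fun t : ℝ => (c1 : ℂ) + t * I) t := by fun_prop
    have h3 : (c1 : ℂ) + t * I ≠ 0 := by
      intro h
      rw [h] at hre2
      simp at hre2
      linarith
    have h4 : (⟨0, τ⟩ : ℂ) + ((c1 : ℂ) + t * I) ≠ 1 := by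
      intro h
      have h5 := congrArg Complex.re h
      simp at h5
      linarith
    exact ContinuousAt.comp (g := G) (f := fun t : ℝ => (c1 : ℂ) + t * I)
      (hGd _ h1 h3 h4).continuousAt h2
  have hGint : Integrable fun t : ℝ => G (c1 + t * I) :=
    (integrable_inv_one_add_sq.const_mul (6 * v * Real.exp v)).mono' hGcont.aestronglyMeasurable
      (Eventually.of_forall hGline)
  -- the tail
  have htail : ‖∫ t in (Set.Ioc (-R) R)ᶜ, G (c1 + t * I)‖ ≤ (6 * v * Real.exp v) * (2 / R) := by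
    have h1 : ‖∫ t in (Set.Ioc (-R) R)ᶜ, G (c1 + t * I)‖ ≤
        ∫ t in (Set.Ioc (-R) R)ᶜ, (6 * v * Real.exp v) * (1 + t ^ 2)⁻¹ :=
      norm_integral_le_of_norm_le (integrable_inv_one_add_sq.const_mul _).integrableOn
        (Eventually.of_forall fun t => hGline t)
    refine h1.trans ?_
    rw [integral_const_mul]
    apply mul_le_mul_of_nonneg_left _ (by positivity)
    have h2 := integral_add_compl (measurableSet_Ioc (a := -R) (b := R)) integrable_inv_one_add_sq
      (μ := volume)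
    rw [integral_univ_inv_one_add_sq, ← intervalIntegral.integral_of_le (by linarith),
      integral_inv_one_add_sq, Real.arctan_neg] at h2
    have h3 := tail_arctan hR
    linarith
  -- the rectangle
  have hcauchy := Complex.integral_boundary_rect_eq_zero_of_differentiableOn G
    (⟨b0, -R⟩ : ℂ) (⟨c1, R⟩ : ℂ) (by
      intro s hs
      rw [Complex.mem_reProdIm] at hs
      simp only at hs
      rw [uIcc_of_le (by linarith), uIcc_of_le (by linarith)] at hs
      have hs0 : s ≠ 0 := by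
        intro h
        rw [h] at hs
        have := hs.1.1
        simp at this
        linarith
      have hs1 : (⟨0, τ⟩ : ℂ) + s ≠ 1 := by
        intro h
        have h5 := congrArg Complex.im h
        simp at h5
        have h6 : |s.im| ≤ R := abs_le.2 hs.2
        have h7 : |τ| = |s.im| := by
          have : τ = -s.im := by linarith
          rw [this, abs_neg]
        linarith
      exact (hGd s (hrect s hs.1.1 hs.1.2 (abs_le.2 hs.2)).1 hs0 hs1).differentiableWithinAt)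
  simp only at hcauchy
  have hhor : ∀ r : ℝ, |r| = R → ‖∫ x : ℝ in b0..c1, G (x + ((r : ℝ) : ℂ) * I)‖ ≤
      24 * H * Real.exp v / R ^ 2 := by
    intro r hr
    have h1 : ∀ x ∈ Set.uIoc b0 c1, ‖G (x + ((r : ℝ) : ℂ) * I)‖ ≤
        12 * H * Real.exp v / R ^ 2 := by
      intro x hx
      rw [uIoc_of_le (by linarith)] at hx
      have hre : ((x : ℂ) + ((r : ℝ) : ℂ) * I).re = x := by simp
      have him : ((x : ℂ) + ((r : ℝ) : ℂ) * I).im = r := by simp
      have h2 := (hrect ((x : ℂ) + ((r : ℝ) : ℂ) * I) (by rw [hre]; exact hx.1.le)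
        (by rw [hre]; exact hx.2) (by rw [him, hr])).2
      rw [hre, him] at h2
      refine h2.trans ?_
      have h3 : Real.exp (x * v) ≤ 3 * Real.exp v :=
        (Real.exp_le_exp.2 (mul_le_mul_of_nonneg_right hx.2 hv0.le)).trans hec
      have h4 : (1 + r ^ 2)⁻¹ ≤ (R ^ 2)⁻¹ := by
        apply inv_anti₀ (by positivity)
        rw [← hr, sq_abs]
        linarith
      calc 4 * H * (1 + r ^ 2)⁻¹ * Real.exp (x * v) ≤ 4 * H * (R ^ 2)⁻¹ * (3 * Real.exp v) := by
            gcongr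
        _ = _ := by rw [div_eq_mul_inv]; ring
    refine (intervalIntegral.norm_integral_le_of_norm_le_const h1).trans ?_
    have h5 : |c1 - b0| ≤ 2 := by
      rw [abs_of_pos (by linarith)]
      linarith
    calc _ ≤ 12 * H * Real.exp v / R ^ 2 * 2 := by
          apply mul_le_mul_of_nonneg_left h5 (by positivity)
      _ = _ := by ring
  have hbot := hhor (-R) (by rw [abs_neg, abs_of_pos hR0])
  have htop := hhor R (abs_of_pos hR0)
  have hleft : ‖∫ y : ℝ in (-R)..R, G (((b0 : ℝ) : ℂ) + y * I)‖ ≤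
      16 * H * (Real.exp v * Real.exp (-(w * v))) := by
    have h1 : ∀ y ∈ Set.Ioc (-R) R, ‖G (((b0 : ℝ) : ℂ) + y * I)‖ ≤
        4 * H * (Real.exp v * Real.exp (-(w * v))) * (1 + y ^ 2)⁻¹ := by
      intro y hy
      have hre : (((b0 : ℝ) : ℂ) + y * I).re = b0 := by simp
      have him : (((b0 : ℝ) : ℂ) + y * I).im = y := by simp
      have h2 := (hrect (((b0 : ℝ) : ℂ) + y * I) (by rw [hre])
        (by rw [hre]; linarith) (by rw [him]; exact abs_le.2 ⟨hy.1.le, hy.2⟩)).2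
      rw [hre, him] at h2
      refine h2.trans (le_of_eq ?_)
      have h3 : b0 * v = v + -(w * v) := by rw [hb0]; ring
      rw [h3, Real.exp_add]
      ring
    have h2 := intervalIntegral.norm_integral_le_of_norm_le (μ := volume) (a := -R) (b := R)
      (f := fun y : ℝ => G (((b0 : ℝ) : ℂ) + y * I))
      (g := fun y => 4 * H * (Real.exp v * Real.exp (-(w * v))) * (1 + y ^ 2)⁻¹)
      (by linarith) (Eventually.of_forall h1)
      ((integrable_inv_one_add_sq.const_mul _).intervalIntegrable)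
    refine h2.trans ?_
    rw [intervalIntegral.integral_const_mul, integral_inv_one_add_sq]
    have h3 := Real.arctan_lt_pi_div_two R
    have h4 := Real.neg_pi_div_two_lt_arctan (-R)
    have h5 := Real.pi_lt_four
    calc 4 * H * (Real.exp v * Real.exp (-(w * v))) * (Real.arctan R - Real.arctan (-R)) ≤
        4 * H * (Real.exp v * Real.exp (-(w * v))) * 4 := by
          apply mul_le_mul_of_nonneg_left _ (by positivity)
          linarith
      _ = _ := by ring
  have hmid : ‖∫ y : ℝ in (-R)..R, G ((c1 : ℂ) + y * I)‖ ≤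
      16 * H * (Real.exp v * Real.exp (-(w * v))) + 2 * (24 * H * Real.exp v / R ^ 2) := by
    have h1 : I • ∫ y : ℝ in (-R)..R, G ((c1 : ℂ) + y * I) =
        I • (∫ y : ℝ in (-R)..R, G (((b0 : ℝ) : ℂ) + y * I)) -
        (∫ x : ℝ in b0..c1, G (x + ((-R : ℝ) : ℂ) * I)) +
        ∫ x : ℝ in b0..c1, G (x + ((R : ℝ) : ℂ) * I) := by
      linear_combination hcauchy
    have h2 : ‖∫ y : ℝ in (-R)..R, G ((c1 : ℂ) + y * I)‖ =
        ‖I • ∫ y : ℝ in (-R)..R, G ((c1 : ℂ) + y * I)‖ := by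
      rw [norm_smul, Complex.norm_I, one_mul]
    rw [h2, h1]
    refine (norm_add_le _ _).trans ?_
    have h3 := norm_sub_le (I • (∫ y : ℝ in (-R)..R, G (((b0 : ℝ) : ℂ) + y * I)))
      (∫ x : ℝ in b0..c1, G (x + ((-R : ℝ) : ℂ) * I))
    rw [norm_smul, Complex.norm_I, one_mul] at h3
    linarith
  rw [hline, norm_smul, Real.norm_of_nonneg (by positivity)]
  have htot : ‖∫ t : ℝ, G (c1 + t * I)‖ ≤ (16 * H * (Real.exp v * Real.exp (-(w * v))) +
      2 * (24 * H * Real.exp v / R ^ 2)) + (6 * v * Real.exp v) * (2 / R) := by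
    rw [← integral_add_compl (measurableSet_Ioc (a := -R) (b := R)) hGint,
      ← intervalIntegral.integral_of_le (by linarith)]
    exact (norm_add_le _ _).trans (add_le_add hmid htail)
  have hpi : (2 * π)⁻¹ ≤ 1 := by
    apply inv_le_one_of_one_le₀
    have := Real.pi_gt_three
    linarith
  calc (2 * π)⁻¹ * ‖∫ t : ℝ, G (c1 + t * I)‖ ≤ 1 * ‖∫ t : ℝ, G (c1 + t * I)‖ :=
        mul_le_mul_of_nonneg_right hpi (norm_nonneg _)
    _ ≤ (16 * H * (Real.exp v * Real.exp (-(w * v))) +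
      2 * (24 * H * Real.exp v / R ^ 2)) + (6 * v * Real.exp v) * (2 / R) := by
        rw [one_mul]; exact htot
    _ = 16 * (Real.exp v * (H * Real.exp (-(w * v)))) + 48 * (Real.exp v * (H / R ^ 2)) +
        12 * (Real.exp v * (v / R)) := by ring
    _ ≤ 48 * (Real.exp v * (H * Real.exp (-(w * v)))) + 48 * (Real.exp v * (H / R ^ 2)) +
        48 * (Real.exp v * (v / R)) := by
        have p1 : 0 ≤ Real.exp v * (H * Real.exp (-(w * v))) := by positivity
        have p3 : 0 ≤ Real.exp v * (v / R) := by positivity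
        linarith
    _ = _ := by ring

/-- the coefficients -/
noncomputable def aa (τ : ℝ) (n : ℕ) : ℂ :=
  ((ArithmeticFunction.moebius n : ℤ) : ℂ) * (χ (n : ZMod q) * nt τ n)

omit [NeZero q] in
lemma aa_norm (τ : ℝ) {n : ℕ} (hn : n ≠ 0) : ‖aa χ τ n‖ ≤ 1 := by
  unfold aa nt
  rw [norm_mul, norm_mul]
  have h1 : ‖(n : ℂ) ^ (-(τ : ℂ) * Complex.I)‖ = 1 := by
    rw [Complex.norm_natCast_cpow_of_pos (Nat.pos_of_ne_zero hn)]
    simp
  have h2 : ‖((ArithmeticFunction.moebius n : ℤ) : ℂ)‖ ≤ 1 := by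
    rw [← Complex.ofReal_intCast, Complex.norm_real, Real.norm_eq_abs]
    exact_mod_cast ArithmeticFunction.abs_moebius_le_one
  rw [h1, mul_one]
  exact mul_le_one₀ h2 (norm_nonneg _) (χ.norm_le_one _)

omit [NeZero q] in
lemma term_aa (τ : ℝ) {n : ℕ} (hn : n ≠ 0) : LSeries.term (Mu χ) ⟨0, τ⟩ n = aa χ τ n := by
  rw [LSeries.term_of_ne_zero hn]
  unfold aa Mu nt
  have h1 : (⟨0, τ⟩ : ℂ) = τ * Complex.I := by apply Complex.ext <;> simp
  rw [h1, div_eq_mul_inv, ← Complex.cpow_neg, neg_mul]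
  ring

omit [NeZero q] in
lemma RS_fin (τ : ℝ) {N : ℕ} (hN : 1 ≤ N) {v : ℝ} (hv : v ≤ Real.log N + 1) :
    RS χ τ v = ∑ n ∈ Finset.Icc 1 (3 * N), aa χ τ n * ((max (v - Real.log n) 0 : ℝ) : ℂ) := by
  unfold RS
  rw [tsum_eq_sum (s := Finset.Icc 1 (3 * N))]
  · refine Finset.sum_congr rfl fun n hn => ?_
    rw [term_aa χ τ (by have := (Finset.mem_Icc.1 hn).1; omega)]
  · intro n hn
    rcases Nat.eq_zero_or_pos n with rfl | h0
    · simp
    · have h3 : 3 * N < n := by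
        by_contra h
        exact hn (Finset.mem_Icc.2 ⟨h0, not_lt.1 h⟩)
      have h4 : Real.log N + 1 ≤ Real.log n := by
        have hN0 : (0 : ℝ) < N := by exact_mod_cast hN
        have h5 : Real.exp 1 * N ≤ n := by
          have h6 : (3 * N : ℝ) < n := by exact_mod_cast h3
          nlinarith [Real.exp_one_lt_d9]
        have h7 := Real.log_le_log (by positivity) h5
        rw [Real.log_mul (Real.exp_pos _).ne' hN0.ne', Real.log_exp] at h7
        linarith
      rw [max_eq_right (by linarith)]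
      simp

omit [NeZero q] in
theorem unsmooth (τ : ℝ) {N : ℕ} (hN : 1 ≤ N) {h : ℝ} (h0 : 0 < h) (h1 : h ≤ 1) :
    ‖∑ n ∈ Finset.Icc 1 N, aa χ τ n‖ ≤
      (‖RS χ τ (Real.log N + h)‖ + ‖RS χ τ (Real.log N)‖) / h + 2 * h * N := by
  set L := Real.log N with hL
  have hN0 : (0 : ℝ) < N := by exact_mod_cast hN
  set φ : ℕ → ℝ := fun n => max (L + h - Real.log n) 0 - max (L - Real.log n) 0 with hφ
  have hφ1 : ∀ n : ℕ, 1 ≤ n → n ≤ N → φ n = h := by
    intro n hn1 hn
    have hn0 : (0 : ℝ) < n := by exact_mod_cast hn1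
    have h2 : Real.log n ≤ L := Real.log_le_log hn0 (by exact_mod_cast hn)
    simp only [hφ]
    rw [max_eq_left (by linarith), max_eq_left (by linarith)]
    ring
  set F := ⌊(N : ℝ) * Real.exp h⌋₊ with hF
  have hφ2 : ∀ n : ℕ, N < n → |φ n| ≤ if n ≤ F then h else 0 := by
    intro n hn
    have hn0 : (0 : ℝ) < n := by exact_mod_cast (by omega : 0 < n)
    have h2 : L ≤ Real.log n := Real.log_le_log hN0 (by exact_mod_cast hn.le)
    simp only [hφ]
    rw [max_eq_right (by linarith : L - Real.log n ≤ 0), sub_zero, abs_of_nonneg (le_max_right _ _)]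
    split_ifs with h3
    · exact max_le (by linarith) h0.le
    · apply max_le _ le_rfl
      have h4 : (N : ℝ) * Real.exp h < n := (Nat.floor_lt (by positivity)).1 (not_le.1 h3)
      have h5 := Real.log_le_log (by positivity) h4.le
      rw [Real.log_mul hN0.ne' (Real.exp_pos _).ne', Real.log_exp] at h5
      linarith
  have hdiff : RS χ τ (L + h) - RS χ τ L =
      ∑ n ∈ Finset.Icc 1 (3 * N), aa χ τ n * ((φ n : ℝ) : ℂ) := by
    rw [RS_fin χ τ hN (by linarith), RS_fin χ τ hN (by linarith), ← Finset.sum_sub_distrib]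
    refine Finset.sum_congr rfl fun n _ => ?_
    simp only [hφ]
    push_cast
    ring
  rw [← Finset.sum_filter_add_sum_filter_not (Finset.Icc 1 (3 * N)) (fun n => n ≤ N)] at hdiff
  have hfil : (Finset.Icc 1 (3 * N)).filter (fun n => n ≤ N) = Finset.Icc 1 N := by
    ext n
    simp only [Finset.mem_filter, Finset.mem_Icc]
    omega
  rw [hfil] at hdiff
  have hmain : ∑ n ∈ Finset.Icc 1 N, aa χ τ n * ((φ n : ℝ) : ℂ) =
      (h : ℂ) * ∑ n ∈ Finset.Icc 1 N, aa χ τ n := by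
    rw [Finset.mul_sum]
    refine Finset.sum_congr rfl fun n hn => ?_
    rw [Finset.mem_Icc] at hn
    rw [hφ1 n hn.1 hn.2, mul_comm]
  rw [hmain] at hdiff
  set rem := ∑ n ∈ (Finset.Icc 1 (3 * N)).filter (fun n => ¬ n ≤ N), aa χ τ n * ((φ n : ℝ) : ℂ)
    with hrem
  have hNF : N ≤ F := by
    apply Nat.le_floor
    have := Real.add_one_le_exp h
    nlinarith
  have hremb : ‖rem‖ ≤ 2 * h * N * h := by
    calc ‖rem‖ ≤ ∑ n ∈ (Finset.Icc 1 (3 * N)).filter (fun n => ¬ n ≤ N),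
          if n ≤ F then h else 0 := by
          refine norm_sum_le_of_le _ fun n hn => ?_
          rw [Finset.mem_filter, Finset.mem_Icc] at hn
          rw [norm_mul, Complex.norm_real, Real.norm_eq_abs]
          have h2 := aa_norm χ τ (by omega : n ≠ 0)
          have h3 := hφ2 n (not_le.1 hn.2)
          calc ‖aa χ τ n‖ * |φ n| ≤ 1 * |φ n| := mul_le_mul_of_nonneg_right h2 (abs_nonneg _)
            _ ≤ _ := by rw [one_mul]; exact h3
      _ = (((Finset.Icc 1 (3 * N)).filter (fun n => ¬ n ≤ N)).filter (fun n => n ≤ F)).card *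
          h := by
          rw [← Finset.sum_filter, Finset.sum_const, nsmul_eq_mul]
      _ ≤ ((Finset.Ioc N F).card : ℝ) * h := by
          apply mul_le_mul_of_nonneg_right _ h0.le
          norm_cast
          apply Finset.card_le_card
          intro n hn
          simp only [Finset.mem_filter, Finset.mem_Icc, Finset.mem_Ioc] at hn ⊢
          omega
      _ ≤ (2 * h * N) * h := by
          apply mul_le_mul_of_nonneg_right _ h0.le
          rw [Nat.card_Ioc, Nat.cast_sub hNF]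
          have h2 : (F : ℝ) ≤ N * Real.exp h := Nat.floor_le (by positivity)
          have h3 : Real.exp h - 1 ≤ 2 * h := by
            have h4 := Real.abs_exp_sub_one_le (x := h) (by rw [abs_of_pos h0]; exact h1)
            rw [abs_of_pos h0] at h4
            exact (le_abs_self _).trans h4
          nlinarith
  have hS : (h : ℂ) * ∑ n ∈ Finset.Icc 1 N, aa χ τ n = RS χ τ (L + h) - RS χ τ L - rem := by
    rw [hdiff]
    ring
  have hS2 : h * ‖∑ n ∈ Finset.Icc 1 N, aa χ τ n‖ ≤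
      ‖RS χ τ (L + h)‖ + ‖RS χ τ L‖ + 2 * h * N * h := by
    have h2 : ‖(h : ℂ) * ∑ n ∈ Finset.Icc 1 N, aa χ τ n‖ = h * ‖∑ n ∈ Finset.Icc 1 N, aa χ τ n‖ := by
      rw [norm_mul, Complex.norm_real, Real.norm_of_nonneg h0.le]
    rw [← h2, hS]
    exact (norm_sub_le _ _).trans (add_le_add (norm_sub_le _ _) hremb)
  have hfin : ‖∑ n ∈ Finset.Icc 1 N, aa χ τ n‖ ≤
      (‖RS χ τ (L + h)‖ + ‖RS χ τ L‖ + 2 * h * N * h) / h := by
    rw [le_div_iff₀ h0, mul_comm]
    exact hS2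
  refine hfin.trans (le_of_eq ?_)
  field_simp


omit [NeZero q] χ in
theorem asym (δ K0 D : ℝ) (hδ : 0 < δ) (hD : 1 ≤ D) (K C₀ : ℕ) (hC₀ : K0 + 2 * K + 2 ≤ C₀)
    (hK0 : 0 ≤ K0) : ∃ L1 : ℝ, 4 ≤ L1 ∧
    ∀ L : ℝ, L1 ≤ L → L ^ (2 * K) * ((D * L) ^ K0 * Real.exp (-((D * L) ^ (δ - 1) / 2 * L)) +
      (D * L) ^ K0 * (4 / (L ^ C₀) ^ 2) + (L + 1) * (2 / L ^ C₀)) ≤ 1 := by
  have hD0 : 0 < D := by linarith
  have hDL : Tendsto (fun L : ℝ => D * L) atTop atTop := tendsto_id.const_mul_atTop hD0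
  have t1 : Tendsto (fun L : ℝ => (D * L) ^ (((2 * K : ℕ) : ℝ) + K0) *
      Real.exp (-(1 / (2 * D)) * (D * L) ^ δ)) atTop (𝓝 0) := by
    have h1 := (tendsto_rpow_mul_exp_neg_mul_atTop_nhds_zero ((((2 * K : ℕ) : ℝ) + K0) / δ)
      (1 / (2 * D)) (by positivity)).comp ((tendsto_rpow_atTop hδ).comp hDL)
    refine h1.congr' ?_
    filter_upwards [eventually_ge_atTop 1] with L hL
    have hDL0 : 0 ≤ D * L := by positivity
    simp only [Function.comp]
    rw [← Real.rpow_mul hDL0, mul_div_cancel₀ _ hδ.ne']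
  have t3 : Tendsto (fun L : ℝ => (4 * D ^ K0 + 4) / L) atTop (𝓝 0) :=
    tendsto_const_nhds.div_atTop tendsto_id
  have t := t1.add t3
  rw [add_zero] at t
  obtain ⟨L1, hL1⟩ := eventually_atTop.1 (t.eventually (eventually_le_nhds one_pos))
  refine ⟨max L1 4, le_max_right _ _, fun L hL => ?_⟩
  have hLL1 := (le_max_left _ _).trans hL
  have hL4 : 4 ≤ L := (le_max_right _ _).trans hL
  have hL1' : 1 ≤ L := by linarith
  have hL0 : 0 < L := by linarith
  refine le_trans ?_ (hL1 L hLL1)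
  have hDLpos : 0 < D * L := by positivity
  have e0 : L ^ (2 * K) * (D * L) ^ K0 ≤ (D * L) ^ (((2 * K : ℕ) : ℝ) + K0) := by
    rw [Real.rpow_add hDLpos, Real.rpow_natCast]
    apply mul_le_mul_of_nonneg_right _ (by positivity)
    apply pow_le_pow_left₀ hL0.le
    nlinarith
  have e1 : (D * L) ^ (δ - 1) / 2 * L = 1 / (2 * D) * (D * L) ^ δ := by
    have h1 : (D * L) ^ δ = (D * L) ^ (δ - 1) * (D * L) := by
      rw [← Real.rpow_add_one hDLpos.ne']
      congr 1
      ring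
    rw [h1]
    field_simp
  rw [mul_add, mul_add]
  have i1 : L ^ (2 * K) * ((D * L) ^ K0 * Real.exp (-((D * L) ^ (δ - 1) / 2 * L))) ≤
      (D * L) ^ (((2 * K : ℕ) : ℝ) + K0) * Real.exp (-(1 / (2 * D)) * (D * L) ^ δ) := by
    rw [e1, ← mul_assoc, ← neg_mul]
    exact mul_le_mul_of_nonneg_right e0 (Real.exp_pos _).le
  have hpw : L ^ (2 * K) * L ^ K0 * L * L ≤ L ^ C₀ := by
    have e2 : L ^ (2 * K) * L ^ K0 * L * L = L ^ (K0 + 2 * (K : ℝ) + 2) := by
      rw [Real.rpow_add hL0, Real.rpow_add hL0, show (2 : ℝ) = ((2 : ℕ) : ℝ) by norm_num,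
        ← Nat.cast_mul, Real.rpow_natCast, Real.rpow_natCast]
      ring
    rw [e2, ← Real.rpow_natCast]
    exact Real.rpow_le_rpow_of_exponent_le hL1' hC₀
  have hLC : 0 < L ^ C₀ := by positivity
  have hLK0 : 1 ≤ L ^ K0 := Real.one_le_rpow hL1' hK0
  have hL2K : 1 ≤ L ^ (2 * K) := one_le_pow₀ hL1'
  have i2 : L ^ (2 * K) * ((D * L) ^ K0 * (4 / (L ^ C₀) ^ 2)) ≤ 4 * D ^ K0 / L := by
    rw [Real.mul_rpow hD0.le hL0.le]
    have h1 : L ^ (2 * K) * (D ^ K0 * L ^ K0 * (4 / (L ^ C₀) ^ 2)) =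
        4 * D ^ K0 * ((L ^ (2 * K) * L ^ K0) / (L ^ C₀) ^ 2) := by ring
    have h2 : 4 * D ^ K0 / L = 4 * D ^ K0 * (1 / L) := by ring
    rw [h1, h2]
    refine mul_le_mul_of_nonneg_left ?_ (by positivity)
    rw [div_le_div_iff₀ (by positivity) hL0, one_mul]
    have h3 : 1 ≤ L ^ C₀ := one_le_pow₀ hL1'
    have h4 : L ^ (2 * K) * L ^ K0 * L ≤ L ^ (2 * K) * L ^ K0 * L * L :=
      le_mul_of_one_le_right (by positivity) hL1'
    nlinarith
  have i3 : L ^ (2 * K) * ((L + 1) * (2 / L ^ C₀)) ≤ 4 / L := by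
    have h1 : L ^ (2 * K) * ((L + 1) * (2 / L ^ C₀)) = (2 * L ^ (2 * K) * (L + 1)) / L ^ C₀ := by
      ring
    rw [h1, div_le_div_iff₀ hLC hL0]
    have h2 : L ^ (2 * K) * L * L ≤ L ^ (2 * K) * L ^ K0 * L * L := by
      have h5 : L ^ (2 * K) ≤ L ^ (2 * K) * L ^ K0 := le_mul_of_one_le_right (by positivity) hLK0
      have h6 : 0 ≤ L * L := by positivity
      nlinarith
    have h3 : 2 * L ^ (2 * K) * (L + 1) * L ≤ 4 * (L ^ (2 * K) * L * L) := by
      have h5 : 0 ≤ L ^ (2 * K) * L := by positivity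
      nlinarith
    linarith
  have i4 : (4 * D ^ K0 + 4) / L = 4 * D ^ K0 / L + 4 / L := by ring
  rw [i4]
  linarith

/-- **MOC** -/
theorem moc (hz : S_LZF) : S_MOC := by
  intro A B K
  obtain ⟨δ, K0, T₀, hδ, hδ1, hK0, hT₀, hb⟩ := hz B
  set C₀ : ℕ := ⌈K0⌉₊ + 2 * K + 2 with hC₀def
  have hC₀ : K0 + 2 * K + 2 ≤ (C₀ : ℝ) := by
    have := Nat.le_ceil K0
    rw [hC₀def]
    push_cast
    linarith
  set D := Real.log (4 + T₀) + ((A + 1 : ℕ) : ℝ) with hD
  have hlog4 : 0 ≤ Real.log (4 + T₀) := Real.log_nonneg (by linarith)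
  have hA1 : (1 : ℝ) ≤ ((A + 1 : ℕ) : ℝ) := by
    push_cast
    linarith [Nat.cast_nonneg (α := ℝ) A]
  have hD1 : 1 ≤ D := by linarith
  obtain ⟨L1, hL1, hasym⟩ := asym δ K0 D hδ hD1 K C₀ hC₀ (by linarith)
  refine ⟨C₀, 290 + L1 ^ K, fun N q hq0 χ τ hN hq hτ0 hτ => ?_⟩
  have hN0 : (0 : ℝ) < N := by exact_mod_cast (by omega : 0 < N)
  have hN1 : (1 : ℝ) ≤ N := by exact_mod_cast (by omega : 1 ≤ N)
  set L := Real.log N with hL
  have hL0 : 0 < L := Real.log_pos (by exact_mod_cast (by omega : 1 < N))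
  change ‖∑ n ∈ Finset.Icc 1 N, aa χ τ n‖ ≤ (290 + L1 ^ K) * N / L ^ K
  have hexpL : Real.exp L = N := Real.exp_log hN0
  rcases le_or_gt L1 L with hLL | hLL
  · have hL4 : 4 ≤ L := hL1.trans hLL
    have hLge1 : 1 ≤ L := by linarith
    have hLC4 : 4 ≤ L ^ C₀ := by
      have h1 : L ^ 1 ≤ L ^ C₀ := pow_le_pow_right₀ hLge1 (by omega)
      rw [pow_one] at h1
      linarith
    have hτ4 : 4 ≤ |τ| := hLC4.trans hτ0
    have hRS : ∀ v, L ≤ v → v ≤ L + 1 → ‖RS χ τ v‖ ≤ 144 * N / L ^ (2 * K) := by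
      intro v hv1 hv2
      have hev : Real.exp v ≤ 3 * N := by
        calc Real.exp v ≤ Real.exp (L + 1) := Real.exp_le_exp.2 hv2
          _ = N * Real.exp 1 := by rw [Real.exp_add, hexpL]
          _ ≤ 3 * N := by nlinarith [Real.exp_one_lt_d9]
      have hNA : (N : ℝ) ^ A ≤ (N : ℝ) ^ (A + 1) := pow_le_pow_right₀ hN1 (by omega)
      have hNA1 : (N : ℝ) ≤ (N : ℝ) ^ (A + 1) := by
        calc (N : ℝ) = (N : ℝ) ^ 1 := (pow_one _).symm
          _ ≤ _ := pow_le_pow_right₀ hN1 (by omega)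
      have hNpos : 0 < (N : ℝ) ^ (A + 1) := by positivity
      have hNge1 : 1 ≤ (N : ℝ) ^ (A + 1) := hN1.trans hNA1
      set T : ℝ := (4 + T₀) * (N : ℝ) ^ (A + 1) with hTdef
      have hT1 : T₀ ≤ T := by nlinarith
      have hT2 : |τ| + |τ| / 2 ≤ T := by nlinarith
      have hlogT : Real.log T = Real.log (4 + T₀) + ((A + 1 : ℕ) : ℝ) * L := by
        rw [hTdef, Real.log_mul (by linarith) hNpos.ne', Real.log_pow]
      have hLT : L ≤ Real.log T := by
        rw [hlogT]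
        nlinarith
      have hqT : (q : ℝ) ≤ Real.log T ^ B := hq.trans (pow_le_pow_left₀ hL0.le hLT B)
      have h1 := RS_bound χ hδ hδ1 (by linarith) (hb T hT1 q hq0 hqT χ) τ v (|τ| / 2)
        (by linarith) (by linarith) (by linarith) hT2
      rw [hlogT] at h1
      set ll := Real.log (4 + T₀) + ((A + 1 : ℕ) : ℝ) * L with hll
      have hll1 : 1 ≤ ll := by nlinarith
      have hllD : ll ≤ D * L := by
        rw [hll, hD, add_mul]
        nlinarith
      have k1 : ll ^ K0 ≤ (D * L) ^ K0 := Real.rpow_le_rpow (by linarith) hllD (by linarith)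
      have k2 : (D * L) ^ (δ - 1) ≤ ll ^ (δ - 1) :=
        Real.rpow_le_rpow_of_nonpos (by linarith) hllD (by linarith)
      have hDLpos : 0 < D * L := by positivity
      have k3 : Real.exp (-(ll ^ (δ - 1) / 2 * v)) ≤
          Real.exp (-((D * L) ^ (δ - 1) / 2 * L)) := by
        apply Real.exp_le_exp.2
        apply neg_le_neg
        have : 0 < (D * L) ^ (δ - 1) := Real.rpow_pos_of_pos hDLpos _
        exact mul_le_mul (by linarith) hv1 hL0.le (by linarith)
      have hLCp : 0 < L ^ C₀ := by positivity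
      have k4 : ll ^ K0 / (|τ| / 2) ^ 2 ≤ (D * L) ^ K0 * (4 / (L ^ C₀) ^ 2) := by
        have h5 : (L ^ C₀) ^ 2 ≤ |τ| ^ 2 := pow_le_pow_left₀ hLCp.le hτ0 2
        have h6 : ll ^ K0 / (|τ| / 2) ^ 2 = ll ^ K0 * (4 / |τ| ^ 2) := by
          rw [div_pow]
          field_simp
          norm_num
        rw [h6]
        apply mul_le_mul k1 _ (by positivity) (Real.rpow_nonneg hDLpos.le _)
        exact div_le_div_of_nonneg_left (by norm_num) (by positivity) h5
      have k5 : v / (|τ| / 2) ≤ (L + 1) * (2 / L ^ C₀) := by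
        have h6 : v / (|τ| / 2) = v * (2 / |τ|) := by
          field_simp
        rw [h6]
        exact mul_le_mul hv2 (div_le_div_of_nonneg_left (by norm_num) hLCp hτ0) (by positivity)
          (by linarith)
      have k6 : ll ^ K0 * Real.exp (-(ll ^ (δ - 1) / 2 * v)) ≤
          (D * L) ^ K0 * Real.exp (-((D * L) ^ (δ - 1) / 2 * L)) :=
        mul_le_mul k1 k3 (Real.exp_pos _).le (Real.rpow_nonneg hDLpos.le _)
      have h2 := hasym L hLL
      set Ψ := (D * L) ^ K0 * Real.exp (-((D * L) ^ (δ - 1) / 2 * L)) +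
        (D * L) ^ K0 * (4 / (L ^ C₀) ^ 2) + (L + 1) * (2 / L ^ C₀) with hΨ
      have hΨ0 : 0 ≤ Ψ := by positivity
      have hLK : 0 < L ^ (2 * K) := by positivity
      rw [le_div_iff₀ hLK]
      have h3 : ‖RS χ τ v‖ ≤ 48 * (3 * N) * Ψ := by
        refine h1.trans ?_
        have hll0 : 0 < ll := by linarith
        have hv0 : 0 < v := by linarith
        have hτp : 0 < |τ| := by linarith
        have hp1 : 0 ≤ ll ^ K0 := Real.rpow_nonneg hll0.le _
        apply mul_le_mul _ _ (by positivity) (by positivity)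
        · linarith
        · rw [hΨ]
          linarith
      calc ‖RS χ τ v‖ * L ^ (2 * K) ≤ 48 * (3 * N) * Ψ * L ^ (2 * K) :=
            mul_le_mul_of_nonneg_right h3 hLK.le
        _ = 144 * N * (L ^ (2 * K) * Ψ) := by ring
        _ ≤ 144 * N * 1 := mul_le_mul_of_nonneg_left h2 (by positivity)
        _ = _ := mul_one _
    have hLK : 0 < L ^ K := by positivity
    have hh0 : 0 < 1 / L ^ K := by positivity
    have hh1 : 1 / L ^ K ≤ 1 := by
      rw [div_le_one hLK]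
      exact one_le_pow₀ hLge1
    have h1 := unsmooth χ τ (by omega : 1 ≤ N) hh0 hh1
    have h2 := hRS (L + 1 / L ^ K) (by linarith) (by linarith)
    have h3 := hRS L le_rfl (by linarith)
    have h4 : (‖RS χ τ (L + 1 / L ^ K)‖ + ‖RS χ τ L‖) / (1 / L ^ K) ≤ 288 * N / L ^ K := by
      rw [div_le_iff₀ hh0]
      have h5 : 288 * (N : ℝ) / L ^ K * (1 / L ^ K) = 144 * N / L ^ (2 * K) +
          144 * N / L ^ (2 * K) := by
        rw [two_mul, pow_add]
        field_simp
        ring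
      rw [h5]
      exact add_le_add h2 h3
    have h6 : 2 * (1 / L ^ K) * (N : ℝ) = 2 * N / L ^ K := by ring
    have h7 : (288 * N / L ^ K + 2 * N / L ^ K : ℝ) = 290 * N / L ^ K := by ring
    have h8 : 290 * (N : ℝ) / L ^ K ≤ (290 + L1 ^ K) * N / L ^ K := by
      apply div_le_div_of_nonneg_right _ hLK.le
      have : 0 ≤ L1 ^ K * (N : ℝ) := by positivity
      linarith
    linarith
  · have h1 : ‖∑ n ∈ Finset.Icc 1 N, aa χ τ n‖ ≤ N := by
      calc ‖∑ n ∈ Finset.Icc 1 N, aa χ τ n‖ ≤ ∑ n ∈ Finset.Icc 1 N, (1 : ℝ) := by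
            refine norm_sum_le_of_le _ fun n hn => aa_norm χ τ ?_
            have := (Finset.mem_Icc.1 hn).1
            omega
        _ = N := by simp
    refine h1.trans ?_
    have hLK : 0 < L ^ K := by positivity
    rw [le_div_iff₀ hLK]
    have h2 : L ^ K ≤ L1 ^ K := pow_le_pow_left₀ hL0.le hLL.le K
    nlinarith

end Pool.Agent.V8H34.CR.Moc
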