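import Pool.Agent.V8H34.CR.MvgC

/-! Project CR, part MVG: products of Dirichlet polynomials in mean square. -/

set_option autoImplicit false

namespace Pool.Agent.V8H34.CR

open Finset MeasureTheory Filter Pool.Agent.Q236.CR

/-- the bound on an interval of heights -/
theorem mvg_core {r : ℕ} (hr : 1 ≤ r) (U X : ℕ) (hX : 1 ≤ X)
    (D K : ℕ) (hD : D = 2 ^ (r * 4) + 1 + 2 * r + U + 1)
    (hK : K = 2 * r * (2 * D + 1) + (2 ^ (r * 4) + 1 + 2 * r) + U + 1)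
    (hL : 2 ≤ Real.log X) (hLr : (r : ℝ) ≤ Real.log X)
    (hLc : 2336 * r * 3 ^ (2 ^ (r * 4) + 1 + 2 * r) + 5184 * 16 ^ r * 3 ^ (2 ^ (r * 4) + 1 + 2 * r)
      ≤ Real.log X)
    (hLX : Real.log X ^ (2 * D) ≤ X)
    (T0 T : ℝ) (hT0 : 0 ≤ T) (hT : T ≤ X)
    (F : Fin r → ℕ → ℂ) (hF : ∀ i n, ‖F i n‖ ≤ Real.log (n + 3))
    (hgood : ∀ M : Fin r → ℕ, (∀ i, 1 ≤ M i) → X ≤ ∏ i, M i → ∏ i, M i ≤ 18 ^ r * X →
      ∃ i, Good X T0 T K (F i) (M i))
    (x1 x2 : ℕ) (hx1 : X ≤ x1) (hx2 : x2 ≤ 9 * X)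
    (T1 T2 : ℝ) (h12 : T1 ≤ T2) (h12T : T2 - T1 ≤ T)
    (hτ : ∀ τ ∈ Set.Icc T1 T2, T0 ≤ |τ| ∧ |τ| ≤ T) :
    ∫ τ in T1..T2, ‖PD F x1 x2 τ‖ ^ 2 ≤ (X : ℝ) ^ 2 / Real.log X ^ U := by
  classical
  have hX0 : (0 : ℝ) < X := by exact_mod_cast hX
  have hX1 : (1 : ℝ) ≤ X := by exact_mod_cast hX
  have hr1 : (1 : ℝ) ≤ r := by exact_mod_cast hr
  set L : ℝ := Real.log X with hLdef
  have hL0 : 0 < L := by linarith
  have hL1 : 1 ≤ L := by linarith
  -- trivial case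
  rcases le_or_gt x2 x1 with hx | hx
  · have : ∀ τ, PD F x1 x2 τ = 0 := by
      intro τ
      unfold PD
      refine sum_eq_zero fun v hv => ?_
      rw [mem_filter] at hv
      obtain ⟨_, ha, hb⟩ := hv
      exact absurd (ha.trans_le hb) (not_lt.2 hx)
    simp_rw [this]
    simp only [norm_zero, ne_eq, OfNat.ofNat_ne_zero, not_false_eq_true, zero_pow,
      intervalIntegral.integral_zero]
    positivity
  set δ : ℝ := 1 / L ^ D with hδ
  have hδ0 : 0 < δ := by positivity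
  set η : ℝ := δ ^ 2 with hη
  have hη0 : 0 < η := by positivity
  have hηL : η * L ^ (2 * D) = 1 := by
    rw [hη, hδ, div_pow, one_pow, ← pow_mul, mul_comm D 2]
    exact one_div_mul_cancel (by positivity)
  have hD1 : 1 ≤ D := by rw [hD]; exact Nat.le_add_left 1 _
  have hL2D : L ≤ L ^ (2 * D) := by
    calc L = L ^ 1 := (pow_one L).symm
      _ ≤ L ^ (2 * D) := pow_le_pow_right₀ hL1 (by omega)
  have hrη : r * δ ^ 2 ≤ 1 := by
    rw [← hη, ← hηL, mul_comm]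
    exact mul_le_mul_of_nonneg_left (hLr.trans hL2D) hη0.le
  have hrX : 1 ≤ r * δ ^ 2 * X := by
    rw [← hη]
    calc (1 : ℝ) = η * L ^ (2 * D) := hηL.symm
      _ ≤ η * X := mul_le_mul_of_nonneg_left hLX hη0.le
      _ ≤ r * η * X := by
          have : 0 ≤ η * X := by positivity
          nlinarith
  have hη2 : Real.exp η ≤ 2 := by
    have h1 : η ≤ 1 / 2 := by
      have : η * 2 ≤ η * L ^ (2 * D) := mul_le_mul_of_nonneg_left (hL.trans hL2D) hη0.le
      linarith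
    have h := Real.abs_exp_sub_one_le (x := η) (by rw [abs_of_pos hη0]; linarith)
    rw [abs_of_pos hη0] at h
    have := (le_abs_self _).trans h
    linarith
  -- the decomposition
  set V := (Fintype.piFinset (fun _ : Fin r => Finset.Icc 1 x2)).filter
    (fun v => x1 < ∏ i, v i ∧ ∏ i, v i ≤ x2) with hV
  set In : (Fin r → ℕ) → Prop := fun l => (x1 : ℝ) < ∏ i, Real.exp (l i * η) ∧
    ∏ i, Real.exp ((l i + 1) * η) ≤ x2 with hIn
  set cv : (Fin r → ℕ) → (Fin r → ℕ) := fun v i => cl η (v i) with hcv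
  set B : ℕ := ⌊Real.log (9 * X) / η⌋₊ with hB
  set Ls : Finset (Fin r → ℕ) :=
    (Fintype.piFinset (fun _ : Fin r => range (B + 1))).filter In with hLs
  have hV1 : ∀ v ∈ V, ∀ i, 1 ≤ v i ∧ v i ≤ x2 := by
    intro v hv i
    have := Fintype.mem_piFinset.1 (mem_filter.1 hv).1 i
    rwa [mem_Icc] at this
  have hclB : ∀ n : ℕ, 1 ≤ n → n ≤ x2 → cl η n < B + 1 := by
    intro n hn hn2
    unfold cl
    rw [Nat.lt_add_one_iff]
    refine Nat.floor_le_floor ?_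
    refine div_le_div_of_nonneg_right ?_ hη0.le
    refine Real.log_le_log (by exact_mod_cast hn) ?_
    have : n ≤ 9 * X := by omega
    exact_mod_cast this
  have hBcard : ((B + 1 : ℕ) : ℝ) ≤ 4 * L ^ (2 * D + 1) := by
    have h1 : (B : ℝ) ≤ Real.log (9 * X) / η := by
      refine Nat.floor_le (div_nonneg (Real.log_nonneg (by linarith)) hη0.le)
    have h2 : Real.log (9 * X) / η ≤ 3 * L * L ^ (2 * D) := by
      rw [div_le_iff₀ hη0]
      have h3 := (log_facts hX hL).2.2.1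
      have : 3 * L * L ^ (2 * D) * η = 3 * L := by
        rw [mul_assoc, mul_comm (L ^ (2 * D)), hηL, mul_one]
      rw [this]
      linarith
    push_cast
    have h4 : (1 : ℝ) ≤ L ^ (2 * D + 1) := one_le_pow₀ hL1
    have h5 : 3 * L * L ^ (2 * D) = 3 * L ^ (2 * D + 1) := by ring
    linarith
  have hLscard : (Ls.card : ℝ) ≤ (4 * L ^ (2 * D + 1)) ^ r := by
    have h1 : Ls.card ≤ (B + 1) ^ r := by
      refine (card_filter_le _ _).trans ?_
      rw [Fintype.card_piFinset]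
      simp
    calc (Ls.card : ℝ) ≤ ((B + 1 : ℕ) : ℝ) ^ r := by exact_mod_cast h1
      _ ≤ _ := pow_le_pow_left₀ (Nat.cast_nonneg _) hBcard r
  set f : ℝ → (Fin r → ℕ) → ℂ := fun τ v => (∏ i, F i (v i)) * nt τ (∏ i, v i) with hf
  set A : (Fin r → ℕ) → ℝ → ℂ := fun l τ =>
    ∑ v ∈ Fintype.piFinset (fun i => cell η x2 (l i)), f τ v with hA
  set Vo := V.filter (fun v => ¬ In (cv v)) with hVo
  set R : ℝ → ℂ := fun τ => ∑ v ∈ Vo, f τ v with hR
  have hcellprod : ∀ l ∈ Ls, ∀ v : Fin r → ℕ, v ∈ Fintype.piFinset (fun i => cell η x2 (l i)) ↔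
      (v ∈ V ∧ In (cv v)) ∧ cv v = l := by
    intro l hl v
    have hlIn : In l := (mem_filter.1 hl).2
    constructor
    · intro hv
      rw [Fintype.mem_piFinset] at hv
      have hvl : cv v = l := by
        funext i
        exact (mem_filter.1 (hv i)).2
      refine ⟨⟨?_, by rw [hvl]; exact hlIn⟩, hvl⟩
      rw [hV, mem_filter, Fintype.mem_piFinset]
      refine ⟨fun i => (mem_filter.1 (hv i)).1, ?_, ?_⟩
      · have : (x1 : ℝ) < ∏ i, (v i : ℝ) :=
          hlIn.1.trans_le (prod_le_prod (fun i _ => (Real.exp_pos _).le)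
            fun i _ => (mem_cell hη0 (hv i)).2.2.2)
        exact_mod_cast this
      · have : ∏ i, (v i : ℝ) ≤ x2 :=
          (prod_le_prod (fun i _ => Nat.cast_nonneg _)
            fun i _ => (mem_cell hη0 (hv i)).2.2.1).trans hlIn.2
        exact_mod_cast this
    · rintro ⟨⟨hv, _⟩, hvl⟩
      rw [Fintype.mem_piFinset]
      intro i
      unfold cell
      rw [mem_filter, mem_Icc]
      exact ⟨hV1 v hv i, congrFun hvl i⟩
  have hdec : ∀ τ, PD F x1 x2 τ = (∑ l ∈ Ls, A l τ) + R τ := by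
    intro τ
    have h1 : PD F x1 x2 τ = ∑ v ∈ V, f τ v := rfl
    rw [h1, ← sum_filter_add_sum_filter_not V (fun v => In (cv v))]
    congr 1
    rw [← sum_fiberwise_of_maps_to (s := V.filter (fun v => In (cv v))) (t := Ls) (g := cv)]
    · refine sum_congr rfl fun l hl => ?_
      rw [hA]
      simp only
      refine sum_congr ?_ fun _ _ => rfl
      ext v
      rw [hcellprod l hl v, mem_filter, mem_filter]
    · intro v hv
      rw [mem_filter] at hv
      rw [hLs, mem_filter]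
      refine ⟨?_, hv.2⟩
      rw [Fintype.mem_piFinset]
      intro i
      rw [mem_range]
      exact hclB _ (hV1 v hv.1 i).1 (hV1 v hv.1 i).2
  -- continuity
  have hAcont : ∀ l, Continuous (A l) := by
    intro l
    rw [hA]
    refine cont_sum _ _ _ fun v hv => ?_
    refine Nat.one_le_iff_ne_zero.2 (prod_ne_zero_iff.2 fun i _ => ?_)
    have := (mem_cell hη0 (Fintype.mem_piFinset.1 hv i)).1
    omega
  have hRcont : Continuous R := by
    rw [hR]
    refine cont_sum _ _ _ fun v hv => ?_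
    refine Nat.one_le_iff_ne_zero.2 (prod_ne_zero_iff.2 fun i _ => ?_)
    have := (hV1 v (mem_filter.1 hv).1 i).1
    omega
  -- the inner part
  set Q : ℝ := (X : ℝ) ^ 2 / L ^ K * (2592 * (3 * L) ^ (2 ^ (r * 4) + 1 + 2 * r)) with hQ
  have hinner : ∀ l ∈ Ls, ∫ τ in T1..T2, ‖A l τ‖ ^ 2 ≤ Q := by
    intro l hl
    have hlIn : In l := (mem_filter.1 hl).2
    refine inner_cell hr X hX hL K T0 T hT0 F hF hgood hη0 hη2 x2 hx2 l ?_ hlIn.2 T1 T2 h12 h12T hτ
    have : (X : ℝ) ≤ x1 := by exact_mod_cast hx1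
    exact this.trans hlIn.1.le
  -- the outer part
  have houter : ∫ τ in T1..T2, ‖R τ‖ ^ 2 ≤
      (X : ℝ) ^ 2 * (1168 * r * (3 * L) ^ (2 ^ (r * 4) + 1 + 2 * r) * δ) := by
    refine outer_part hr X hX hL T hT F hF hδ0 hrη hrX Vo ?_ x1 x2 hx.le hx2 ?_ T1 T2 h12 h12T
    · intro w hw i
      have := hV1 w (mem_filter.1 hw).1 i
      rw [mem_Icc]; omega
    · intro w hw
      rw [hVo, mem_filter] at hw
      have hwV := hw.1
      rw [hV, mem_filter] at hwV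
      refine ⟨hwV.2.1, hwV.2.2, ?_⟩
      have hcell : ∀ i, Real.exp (cl η (w i) * η) ≤ w i ∧
          (w i : ℝ) < Real.exp ((cl η (w i) + 1) * η) := fun i =>
        (cl_iff hη0 (hV1 w hw.1 i).1 _).1 rfl
      have hre : ∏ _i : Fin r, Real.exp η = Real.exp (r * η) := by
        rw [← Real.exp_sum]; simp
      have hsplit : ∏ i, Real.exp (((cl η (w i) : ℕ) + 1) * η) =
          Real.exp (r * η) * ∏ i, Real.exp ((cl η (w i) : ℕ) * η) := by
        rw [← hre, ← prod_mul_distrib]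
        refine prod_congr rfl fun i _ => ?_
        rw [← Real.exp_add]; congr 1; ring
      have hlt : (∏ i, (w i : ℝ)) < ∏ i, Real.exp (((cl η (w i) : ℕ) + 1) * η) := by
        refine prod_lt_prod_of_nonempty (fun i _ => ?_) (fun i _ => (hcell i).2) ?_
        · exact_mod_cast (hV1 w hw.1 i).1
        · exact ⟨⟨0, by omega⟩, mem_univ _⟩
      have hle : ∏ i, Real.exp ((cl η (w i) : ℕ) * η) ≤ ∏ i, (w i : ℝ) :=
        prod_le_prod (fun i _ => (Real.exp_pos _).le) fun i _ => (hcell i).1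
      have hnot := hw.2
      rw [hIn, hcv] at hnot
      simp only [not_and_or, not_lt, not_le] at hnot
      push_cast
      rcases hnot with h | h
      · left
        refine hlt.trans_le ?_
        rw [hsplit]
        exact mul_le_mul_of_nonneg_left h (Real.exp_pos _).le
      · right
        rw [hsplit] at h
        rw [Real.exp_neg, inv_mul_lt_iff₀ (Real.exp_pos _)]
        exact h.trans_le (mul_le_mul_of_nonneg_left hle (Real.exp_pos _).le)
  -- combination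
  have hpt : ∀ τ, ‖PD F x1 x2 τ‖ ^ 2 ≤ 2 * ‖R τ‖ ^ 2 + 2 * (Ls.card * ∑ l ∈ Ls, ‖A l τ‖ ^ 2) := by
    intro τ
    rw [hdec τ]
    have h1 : ‖(∑ l ∈ Ls, A l τ) + R τ‖ ≤ (∑ l ∈ Ls, ‖A l τ‖) + ‖R τ‖ :=
      (norm_add_le _ _).trans (by gcongr; exact norm_sum_le _ _)
    have h2 : (∑ l ∈ Ls, ‖A l τ‖) ^ 2 ≤ Ls.card * ∑ l ∈ Ls, ‖A l τ‖ ^ 2 :=
      sq_sum_le_card_mul_sum_sq
    have h3 : ‖(∑ l ∈ Ls, A l τ) + R τ‖ ^ 2 ≤ ((∑ l ∈ Ls, ‖A l τ‖) + ‖R τ‖) ^ 2 :=
      pow_le_pow_left₀ (norm_nonneg _) h1 2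
    nlinarith [sq_nonneg ((∑ l ∈ Ls, ‖A l τ‖) - ‖R τ‖)]
  have hcontA2 : Continuous fun τ => ∑ l ∈ Ls, ‖A l τ‖ ^ 2 :=
    continuous_finsetSum _ fun l _ => (hAcont l).norm.pow 2
  have hPDcont : Continuous fun τ => ‖PD F x1 x2 τ‖ ^ 2 := by
    have : (fun τ => PD F x1 x2 τ) = fun τ => (∑ l ∈ Ls, A l τ) + R τ := funext hdec
    have h1 : Continuous fun τ => PD F x1 x2 τ := by
      rw [this]
      exact (continuous_finsetSum _ fun l _ => hAcont l).add hRcont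
    exact h1.norm.pow 2
  have hint : ∫ τ in T1..T2, ‖PD F x1 x2 τ‖ ^ 2 ≤
      2 * (∫ τ in T1..T2, ‖R τ‖ ^ 2) + 2 * (Ls.card * ∑ l ∈ Ls, ∫ τ in T1..T2, ‖A l τ‖ ^ 2) := by
    have c1 : Continuous fun τ => 2 * ‖R τ‖ ^ 2 := continuous_const.mul (hRcont.norm.pow 2)
    have c2 : Continuous fun τ => 2 * ((Ls.card : ℝ) * ∑ l ∈ Ls, ‖A l τ‖ ^ 2) :=
      continuous_const.mul (continuous_const.mul hcontA2)
    have h1 : ∫ τ in T1..T2, ‖PD F x1 x2 τ‖ ^ 2 ≤
        ∫ τ in T1..T2, (2 * ‖R τ‖ ^ 2 + 2 * (Ls.card * ∑ l ∈ Ls, ‖A l τ‖ ^ 2)) := by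
      refine intervalIntegral.integral_mono_on h12 (hPDcont.intervalIntegrable _ _) ?_
        fun τ _ => hpt τ
      exact (c1.add c2).intervalIntegrable _ _
    refine h1.trans (le_of_eq ?_)
    rw [intervalIntegral.integral_add (c1.intervalIntegrable _ _) (c2.intervalIntegrable _ _),
      intervalIntegral.integral_const_mul, intervalIntegral.integral_const_mul,
      intervalIntegral.integral_const_mul, intervalIntegral.integral_finsetSum]
    exact fun l _ => ((hAcont l).norm.pow 2).intervalIntegrable _ _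
  refine hint.trans ?_
  have hQ0 : 0 ≤ Q := by positivity
  have hA2 : (Ls.card : ℝ) * ∑ l ∈ Ls, ∫ τ in T1..T2, ‖A l τ‖ ^ 2 ≤
      (4 * L ^ (2 * D + 1)) ^ r * ((4 * L ^ (2 * D + 1)) ^ r * Q) := by
    have h1 : ∑ l ∈ Ls, ∫ τ in T1..T2, ‖A l τ‖ ^ 2 ≤ Ls.card * Q := by
      refine (sum_le_sum hinner).trans ?_
      rw [sum_const, nsmul_eq_mul]
    have h2 : (Ls.card : ℝ) * Q ≤ (4 * L ^ (2 * D + 1)) ^ r * Q :=
      mul_le_mul_of_nonneg_right hLscard hQ0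
    refine mul_le_mul hLscard (h1.trans h2) ?_ (by positivity)
    refine sum_nonneg fun l _ => ?_
    exact intervalIntegral.integral_nonneg h12 fun _ _ => by positivity
  set m : ℕ := 2 ^ (r * 4) + 1 + 2 * r with hm
  -- the numbers
  have hfin1 : (X : ℝ) ^ 2 * (1168 * r * (3 * L) ^ m * δ) =
      (X : ℝ) ^ 2 / L ^ U * (1168 * r * 3 ^ m / L) := by
    rw [hδ, hD, mul_pow]
    have : L ^ (m + U + 1) = L ^ m * L ^ U * L := by ring
    rw [this]
    field_simp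
  have hfin2 : (4 * L ^ (2 * D + 1)) ^ r * ((4 * L ^ (2 * D + 1)) ^ r * Q) =
      (X : ℝ) ^ 2 / L ^ U * (2592 * 16 ^ r * 3 ^ m / L) := by
    rw [hQ, hK, mul_pow, mul_pow, ← pow_mul]
    have h1 : L ^ (2 * r * (2 * D + 1) + m + U + 1) =
        L ^ ((2 * D + 1) * r) * L ^ ((2 * D + 1) * r) * L ^ m * L ^ U * L := by
      rw [← pow_add, ← pow_add, ← pow_add, ← pow_succ]; congr 1; ring
    have h2 : (16 : ℝ) ^ r = 4 ^ r * 4 ^ r := by rw [← mul_pow]; norm_num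
    rw [h1, h2]
    field_simp
  have hfin3 : (X : ℝ) ^ 2 / L ^ U * ((2336 * r * 3 ^ m + 5184 * 16 ^ r * 3 ^ m) / L) ≤
      (X : ℝ) ^ 2 / L ^ U := by
    have h1 : (2336 * r * 3 ^ m + 5184 * 16 ^ r * 3 ^ m) / L ≤ 1 := by
      rw [div_le_one hL0]; exact hLc
    calc (X : ℝ) ^ 2 / L ^ U * ((2336 * r * 3 ^ m + 5184 * 16 ^ r * 3 ^ m) / L)
        ≤ (X : ℝ) ^ 2 / L ^ U * 1 := mul_le_mul_of_nonneg_left h1 (by positivity)
      _ = _ := mul_one _
  rw [hfin1] at houter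
  rw [hfin2] at hA2
  have e : (X : ℝ) ^ 2 / L ^ U * ((2336 * r * 3 ^ m + 5184 * 16 ^ r * 3 ^ m) / L) =
      2 * ((X : ℝ) ^ 2 / L ^ U * (1168 * r * 3 ^ m / L)) +
      2 * ((X : ℝ) ^ 2 / L ^ U * (2592 * 16 ^ r * 3 ^ m / L)) := by ring
  rw [e] at hfin3
  linarith

/-- **MVG** -/
theorem mvg (_h : S_DV) : S_MVG := by
  intro r U hr
  set D : ℕ := 2 ^ (r * 4) + 1 + 2 * r + U + 1 with hD
  set K : ℕ := 2 * r * (2 * D + 1) + (2 ^ (r * 4) + 1 + 2 * r) + U + 1 with hK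
  set c : ℝ := 2336 * r * 3 ^ (2 ^ (r * 4) + 1 + 2 * r) +
    5184 * 16 ^ r * 3 ^ (2 ^ (r * 4) + 1 + 2 * r) with hc
  have hlog : Tendsto (fun n : ℕ => Real.log n) atTop atTop :=
    Real.tendsto_log_atTop.comp tendsto_natCast_atTop_atTop
  have h1 : ∀ᶠ n : ℕ in atTop, 2 ≤ Real.log n := hlog.eventually_ge_atTop 2
  have h2 : ∀ᶠ n : ℕ in atTop, (r : ℝ) ≤ Real.log n := hlog.eventually_ge_atTop _
  have h3 : ∀ᶠ n : ℕ in atTop, c ≤ Real.log n := hlog.eventually_ge_atTop _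
  have h4 : ∀ᶠ n : ℕ in atTop, Real.log n ^ (2 * D) ≤ n := by
    have h5 : (fun x : ℝ => Real.log x ^ (2 * D)) =o[atTop] id :=
      Real.isLittleO_pow_log_id_atTop
    have h6 := (h5.comp_tendsto tendsto_natCast_atTop_atTop (k := (fun n : ℕ => (n : ℝ)))).bound
      (c := 1) one_pos
    filter_upwards [h6, h1] with n hn hn1
    simp only [Function.comp, id, one_mul, Real.norm_eq_abs] at hn
    rw [abs_of_nonneg (by positivity), abs_of_nonneg (by positivity)] at hn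
    exact hn
  obtain ⟨X₀, hX₀⟩ := eventually_atTop.1 ((h1.and h2).and (h3.and h4))
  refine ⟨K, max X₀ 1, fun X hX T0 T hT0 hT0T hTX F hF hgood x1 x2 hx1 hx2 => ?_⟩
  obtain ⟨⟨g1, g2⟩, g3, g4⟩ := hX₀ X (le_of_max_le_left hX)
  have hX1 : 1 ≤ X := le_of_max_le_right hX
  constructor
  · refine mvg_core hr U X hX1 D K hD hK g1 g2 g3 g4 T0 T (hT0.trans hT0T) hTX F hF hgood x1 x2
      hx1 hx2 T0 T hT0T (by linarith) ?_
    intro τ hτ
    rw [abs_of_nonneg (hT0.trans hτ.1)]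
    exact hτ
  · refine mvg_core hr U X hX1 D K hD hK g1 g2 g3 g4 T0 T (hT0.trans hT0T) hTX F hF hgood x1 x2
      hx1 hx2 (-T) (-T0) (by linarith) (by linarith) ?_
    intro τ hτ
    rw [abs_of_nonpos (by linarith [hτ.2])]
    exact ⟨by linarith [hτ.2], by linarith [hτ.1]⟩

end Pool.Agent.V8H34.CR
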