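import Pool.Agent.Q236.CR.Stm
import Pool.Agent.Y306.VK.Zeta

/-!
# Project CR, part PW (helper64): pointwise bounds on blocks, from CHR and MOC
-/

set_option autoImplicit false

namespace Pool.Agent.V8H34.CR.Pw

open Finset Filter
open Pool.Agent.Q236.CR (nt S_CHR S_MOC S_PW)
open Pool.Agent.Y306.VK (abel')

theorem nt_norm (t : ℝ) (n : ℕ) : ‖nt t n‖ ≤ 1 := by
  unfold nt
  rcases Nat.eq_zero_or_pos n with h | h
  · subst h
    by_cases ht : t = 0
    · subst ht; simp
    · rw [Nat.cast_zero, Complex.zero_cpow]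
      · simp
      · simp [ht]
  · rw [Complex.norm_natCast_cpow_of_pos h]
    simp

/-- the numbers `X` for which `log X` is large in terms of given constants -/
theorem ev_log (c : ℝ) : ∀ᶠ X : ℕ in atTop, c ≤ Real.log X :=
  (Real.tendsto_log_atTop.comp tendsto_natCast_atTop_atTop).eventually_ge_atTop c

theorem ev_pow (c a : ℝ) (ha : 0 < a) (k : ℕ) : ∀ᶠ X : ℕ in atTop, c * Real.log X ^ k ≤ (X : ℝ) ^ a := by
  have h1 : (fun x : ℝ => Real.log x ^ (k : ℝ)) =o[atTop] fun x => x ^ a := isLittleO_log_rpow_rpow_atTop (k : ℝ) ha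
  have h2 := h1.def (c := 1 / (|c| + 1)) (by positivity)
  have h3 := (tendsto_natCast_atTop_atTop (R := ℝ)).eventually h2
  filter_upwards [h3, ev_log 0, eventually_ge_atTop 1] with X h4 h5 h6
  rw [Real.rpow_natCast, Real.norm_of_nonneg (by positivity), Real.norm_of_nonneg (by positivity)] at h4
  have h7 : c * Real.log X ^ k ≤ (|c| + 1) * Real.log X ^ k := by
    apply mul_le_mul_of_nonneg_right _ (by positivity)
    linarith [le_abs_self c]
  refine h7.trans ?_
  have h8 := mul_le_mul_of_nonneg_left h4 (by positivity : 0 ≤ |c| + 1)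
  calc (|c| + 1) * Real.log X ^ k ≤ (|c| + 1) * (1 / (|c| + 1) * (X : ℝ) ^ a) := h8
    _ = (X : ℝ) ^ a := by field_simp

/-- the block estimate from CHR -/
theorem chr_block (h : S_CHR) (B K m : ℕ) (hm : 1 ≤ m) : ∃ C₀ X₀ : ℕ, ∀ X : ℕ, X₀ ≤ X → ∀ (q : ℕ) (_ : NeZero q),
    (q : ℝ) ≤ Real.log X ^ B → ∀ χ : DirichletCharacter ℂ q, ∀ N N' : ℕ, 2 ≤ N → (X : ℝ) ≤ (N : ℝ) ^ m → N ≤ N' →
    N' ≤ 2 * N → N ≤ 2 * X ^ 2 → ∀ τ : ℝ, Real.log X ^ C₀ ≤ |τ| → |τ| ≤ X →
    ‖∑ n ∈ Finset.Ioc N N', χ (n : ZMod q) * nt τ n‖ ≤ N / Real.log X ^ K := by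
  obtain ⟨⟨C1, c, hc, _, hA⟩, ⟨C2, hC2, hB⟩⟩ := h
  have ha : 0 < c / (1 + m : ℝ) ^ 2 / m := by
    have : (0 : ℝ) < m := by exact_mod_cast hm
    positivity
  obtain ⟨X₀, hX₀⟩ := eventually_atTop.1 ((ev_log (8 * C2)).and
    (ev_pow (Real.exp (C1 * (1 + m) ^ C1)) _ ha (B + K)))
  refine ⟨2 * (B + K + 2), X₀, ?_⟩
  intro X hX q _ hq χ N N' hN hXN hNN hN' hNX τ ht1 ht2
  obtain ⟨hL, hP⟩ := hX₀ X hX
  set L := Real.log X with hLdef
  have hL8 : 8 ≤ L := by linarith
  have hL0 : 0 < L := by linarith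
  have hX0 : (0 : ℝ) < X := by
    rcases Nat.eq_zero_or_pos X with h0 | h0
    · exfalso
      rw [hLdef, h0] at hL8
      simp at hL8
      linarith
    · exact_mod_cast h0
  have hNr : (2 : ℝ) ≤ N := by exact_mod_cast hN
  have hN0 : (0 : ℝ) < N := by linarith
  have hq0 : (0 : ℝ) ≤ q := Nat.cast_nonneg q
  have ht0 : 1 ≤ |τ| := le_trans (one_le_pow₀ (by linarith)) ht1
  rcases le_or_gt |τ| (N : ℝ) with hcase | hcase
  · -- second derivative test
    have h1 := hB q inferInstance χ N N' τ (by omega) hNN hN' ht0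
    have hs : L ^ (B + K + 2) ≤ √|τ| := by
      apply Real.le_sqrt_of_sq_le
      rw [← pow_mul, mul_comm (B + K + 2) 2]
      exact ht1
    have hs0 : 0 < √|τ| := lt_of_lt_of_le (by positivity) hs
    have e1 : √|τ| ≤ N / √|τ| := by
      rw [le_div_iff₀ hs0, Real.mul_self_sqrt (by positivity)]
      exact hcase
    have e2 : N / √|τ| ≤ N / L ^ (B + K + 2) := div_le_div_of_nonneg_left hN0.le (by positivity) hs
    have e3 : 1 + Real.log N ≤ 4 * L := by
      have : Real.log N ≤ Real.log (2 * (X : ℝ) ^ 2) := by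
        apply Real.log_le_log hN0
        exact_mod_cast hNX
      rw [Real.log_mul (by norm_num) (by positivity), Real.log_pow] at this
      have h2 := Real.log_two_lt_d9
      push_cast at this
      rw [← hLdef] at this
      linarith
    have e0 : 0 ≤ Real.log N := Real.log_nonneg (by linarith)
    refine h1.trans ?_
    have hLp : 0 < L ^ (B + K + 2) := by positivity
    calc (q : ℝ) * (C2 * (√|τ| + N / √|τ|) * (1 + Real.log N))
        ≤ L ^ B * (C2 * (N / L ^ (B + K + 2) + N / L ^ (B + K + 2)) * (4 * L)) := by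
          have hp : 0 ≤ N / √|τ| := by positivity
          gcongr
          · exact e1.trans e2
      _ = 8 * C2 / L * (N / L ^ K) := by
          rw [show B + K + 2 = B + (K + 2) by ring, pow_add L B, pow_add L K]
          field_simp
          ring
      _ ≤ 1 * (N / L ^ K) := by
          apply mul_le_mul_of_nonneg_right _ (by positivity)
          rw [div_le_one hL0]
          exact hL
      _ = N / L ^ K := one_mul _
  · -- Vinogradov-Korobov
    have hlN : 0 < Real.log N := Real.log_pos (by linarith)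
    set κ := Real.log |τ| / Real.log N with hκ
    have k1 : 1 ≤ κ := by
      rw [hκ, le_div_iff₀ hlN, one_mul]
      exact Real.log_le_log hN0 hcase.le
    have k2 : κ ≤ m := by
      rw [hκ, div_le_iff₀ hlN]
      have h3 : Real.log |τ| ≤ Real.log ((N : ℝ) ^ m) := Real.log_le_log (by linarith) (ht2.trans hXN)
      rw [Real.log_pow] at h3
      exact h3
    have k3 : |τ| = (N : ℝ) ^ κ := by
      rw [Real.rpow_def_of_pos hN0, hκ, mul_div_cancel₀ _ hlN.ne', Real.exp_log (by linarith)]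
    have h1 := hA q inferInstance χ N N' τ κ hN hNN hN' k1 k3
    refine h1.trans ?_
    have hm0 : (0 : ℝ) < m := by exact_mod_cast hm
    have e1 : Real.exp (C1 * (1 + κ) ^ C1) ≤ Real.exp (C1 * (1 + m) ^ C1) := by
      apply Real.exp_le_exp.2
      gcongr
    have e2 : (N : ℝ) ^ (1 - c / (1 + κ) ^ 2 : ℝ) ≤ (N : ℝ) * (X : ℝ) ^ (-(c / (1 + m) ^ 2 / m) : ℝ) := by
      have e3 : (1 - c / (1 + κ) ^ 2 : ℝ) ≤ 1 + -(c / (1 + m) ^ 2) := by
        have : c / (1 + m : ℝ) ^ 2 ≤ c / (1 + κ) ^ 2 := by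
          apply div_le_div_of_nonneg_left hc.le (by positivity)
          gcongr
        linarith
      refine (Real.rpow_le_rpow_of_exponent_le (by linarith) e3).trans ?_
      rw [Real.rpow_add hN0, Real.rpow_one]
      apply mul_le_mul_of_nonneg_left _ hN0.le
      rw [Real.rpow_neg hN0.le, Real.rpow_neg hX0.le]
      apply inv_anti₀ (by positivity)
      have e4 : (X : ℝ) ^ (c / (1 + m) ^ 2 / m : ℝ) ≤ ((N : ℝ) ^ m) ^ (c / (1 + m) ^ 2 / m : ℝ) :=
        Real.rpow_le_rpow hX0.le hXN ha.le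
      refine e4.trans (le_of_eq ?_)
      rw [← Real.rpow_natCast, ← Real.rpow_mul hN0.le]
      congr 1
      field_simp
    have hXa : 0 < (X : ℝ) ^ (c / (1 + m) ^ 2 / m : ℝ) := by positivity
    calc (q : ℝ) * (Real.exp (C1 * (1 + κ) ^ C1) * (N : ℝ) ^ (1 - c / (1 + κ) ^ 2 : ℝ))
        ≤ L ^ B * (Real.exp (C1 * (1 + m) ^ C1) * ((N : ℝ) * (X : ℝ) ^ (-(c / (1 + m) ^ 2 / m) : ℝ))) := by
          gcongr
      _ = N / L ^ K * ((Real.exp (C1 * (1 + m) ^ C1) * L ^ (B + K)) / (X : ℝ) ^ (c / (1 + m) ^ 2 / m : ℝ)) := by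
          rw [Real.rpow_neg hX0.le, pow_add]
          field_simp
      _ ≤ N / L ^ K * 1 := by
          apply mul_le_mul_of_nonneg_left _ (by positivity)
          rw [div_le_one hXa]
          exact hP
      _ = N / L ^ K := mul_one _

/-- the second part of PW -/
theorem p2 (h : S_CHR) (B K m : ℕ) (hm : 1 ≤ m) : ∃ C₀ X₀ : ℕ, ∀ X : ℕ, X₀ ≤ X → ∀ (q : ℕ) (_ : NeZero q),
    (q : ℝ) ≤ Real.log X ^ B → ∀ χ : DirichletCharacter ℂ q, ∀ M u v : ℕ, (X : ℝ) ≤ (M : ℝ) ^ m → M ≤ u + 1 →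
    v ≤ 2 * M → M ≤ X ^ 2 → ∀ τ : ℝ, Real.log X ^ C₀ ≤ |τ| → |τ| ≤ X →
    ‖∑ n ∈ Finset.Ioc u v, χ (n : ZMod q) * nt τ n‖ ≤ M / Real.log X ^ K := by
  obtain ⟨C₀, X₁, hC⟩ := chr_block h B (K + 1) m hm
  obtain ⟨X₀, hX₀⟩ := eventually_atTop.1 ((ev_log 4).and
    ((ev_pow 1 1 one_pos ((K + 1) * m)).and (eventually_ge_atTop X₁)))
  refine ⟨C₀, X₀, ?_⟩
  intro X hX q _ hq χ M u v hXM hMu hvM hMX τ ht1 ht2
  obtain ⟨hL, hP, hX1⟩ := hX₀ X hX
  have hC' := hC X hX1 q inferInstance hq χ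
  set L := Real.log X with hLdef
  have hL0 : 0 < L := by linarith
  rcases Nat.lt_or_ge u v with huv | huv
  swap
  · rw [Finset.Ioc_eq_empty (by omega), Finset.sum_empty, norm_zero]
    positivity
  have hX2 : 2 ≤ X := by
    by_contra hcon
    have : X = 0 ∨ X = 1 := by omega
    rcases this with h0 | h0 <;> rw [hLdef, h0] at hL <;> simp at hL <;> linarith
  have hM2 : 2 ≤ M := by
    by_contra hcon
    have h1 : (M : ℝ) ≤ 1 := by
      have : M ≤ 1 := by omega
      exact_mod_cast this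
    have h2 : (M : ℝ) ^ m ≤ 1 := pow_le_one₀ (Nat.cast_nonneg M) h1
    have h3 : (2 : ℝ) ≤ X := by exact_mod_cast hX2
    linarith
  have hLM : L ^ (K + 1) ≤ M := by
    have h1 : (L ^ (K + 1)) ^ m ≤ (M : ℝ) ^ m := by
      rw [← pow_mul]
      rw [one_mul, Real.rpow_one] at hP
      exact hP.trans hXM
    exact le_of_pow_le_pow_left₀ (by omega) (Nat.cast_nonneg M) h1
  have hMr : (2 : ℝ) ≤ M := by exact_mod_cast hM2
  have hfin : 4 * ((M : ℝ) / L ^ (K + 1)) ≤ M / L ^ K := by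
    rw [pow_succ]
    have e : 4 * ((M : ℝ) / (L ^ K * L)) = (4 / L) * (M / L ^ K) := by field_simp
    rw [e]
    have h4 : 4 / L ≤ 1 := (div_le_one hL0).2 hL
    have h5 : 0 ≤ (M : ℝ) / L ^ K := by positivity
    nlinarith
  rcases Nat.lt_or_ge u M with hu | hu
  · -- `u = M - 1`
    have hsplit : Finset.Ioc u v = insert M (Finset.Ioc M v) := by
      ext n
      simp only [Finset.mem_Ioc, Finset.mem_insert]
      omega
    rw [hsplit, Finset.sum_insert (by simp)]
    have h1 := hC' M v hM2 hXM (by omega) hvM (by nlinarith) τ ht1 ht2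
    have h2 : ‖χ (M : ZMod q) * nt τ M‖ ≤ 1 := by
      rw [norm_mul]
      exact mul_le_one₀ (χ.norm_le_one _) (norm_nonneg _) (nt_norm τ M)
    have h3 : 1 ≤ (M : ℝ) / L ^ (K + 1) := by
      rw [le_div_iff₀ (by positivity), one_mul]
      exact hLM
    have h4 := norm_add_le (χ (M : ZMod q) * nt τ M) (∑ n ∈ Finset.Ioc M v, χ (n : ZMod q) * nt τ n)
    linarith
  · have h1 := hC' u v (by omega) (hXM.trans (pow_le_pow_left₀ (Nat.cast_nonneg M) (by exact_mod_cast hu) m))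
      huv.le (by omega) (by nlinarith) τ ht1 ht2
    have h2 : (u : ℝ) / L ^ (K + 1) ≤ 4 * ((M : ℝ) / L ^ (K + 1)) := by
      rw [← mul_div_assoc]
      apply div_le_div_of_nonneg_right _ (by positivity)
      have : u ≤ 2 * M := by omega
      have : (u : ℝ) ≤ 2 * M := by exact_mod_cast this
      linarith
    linarith

/-- partial summation with the weight `log` -/
theorem log_sum {z : ℕ → ℂ} {u v : ℕ} {B : ℝ} (hu : u ≤ v)
    (hB : ∀ k, u ≤ k → k ≤ v → ‖∑ n ∈ Ioc u k, z n‖ ≤ B) :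
    ‖∑ n ∈ Ioc u v, (Real.log n : ℂ) * z n‖ ≤ 2 * Real.log v * B := by
  have hB0 : 0 ≤ B := by
    have := hB u le_rfl hu
    simpa using this
  have h1 := abel' (a := fun n => Real.log v - Real.log n) (z := z) (B := B) hu
    (fun n _ => by
      rcases Nat.eq_zero_or_pos n with h | h
      · subst h; simp
      · have : Real.log n ≤ Real.log ((n + 1 : ℕ) : ℝ) :=
          Real.log_le_log (by exact_mod_cast h) (by push_cast; linarith)
        linarith) (by simp) hB
  have h2 : ‖(Real.log v : ℂ) * ∑ n ∈ Ioc u v, z n‖ ≤ Real.log v * B := by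
    rw [norm_mul, Complex.norm_real, Real.norm_of_nonneg (Real.log_natCast_nonneg v)]
    exact mul_le_mul_of_nonneg_left (hB v hu le_rfl) (Real.log_natCast_nonneg v)
  have e : ∑ n ∈ Ioc u v, (Real.log n : ℂ) * z n = (Real.log v : ℂ) * ∑ n ∈ Ioc u v, z n -
      ∑ n ∈ Ioc u v, ((Real.log v - Real.log n : ℝ) : ℂ) * z n := by
    rw [Finset.mul_sum, ← Finset.sum_sub_distrib]
    refine Finset.sum_congr rfl fun n _ => ?_
    push_cast
    ring
  rw [e]
  have h3 := norm_sub_le ((Real.log v : ℂ) * ∑ n ∈ Ioc u v, z n)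
    (∑ n ∈ Ioc u v, ((Real.log v - Real.log n : ℝ) : ℂ) * z n)
  have h4 : (Real.log v - Real.log u) * B ≤ Real.log v * B := by
    apply mul_le_mul_of_nonneg_right _ hB0
    linarith [Real.log_natCast_nonneg u]
  linarith

/-- the first part of PW -/
theorem p1 (h : S_MOC) (B K m : ℕ) (hm : 1 ≤ m) : ∃ C₀ X₀ : ℕ, ∀ X : ℕ, X₀ ≤ X → ∀ (q : ℕ) (_ : NeZero q),
    (q : ℝ) ≤ Real.log X ^ B → ∀ χ : DirichletCharacter ℂ q, ∀ M u v : ℕ, (X : ℝ) ≤ (M : ℝ) ^ m → M ≤ u + 1 →
    v ≤ 2 * M → M ≤ X ^ 2 → ∀ τ : ℝ, Real.log X ^ C₀ ≤ |τ| → |τ| ≤ X →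
    ‖∑ n ∈ Finset.Ioc u v, (χ (n : ZMod q) * ((ArithmeticFunction.moebius n : ℤ) : ℂ)) * nt τ n‖ ≤
      M / Real.log X ^ K := by
  obtain ⟨C₁, C, hC⟩ := h (2 * m) (B + 1) (K + 1)
  obtain ⟨X₀, hX₀⟩ := eventually_atTop.1 ((ev_log 8).and ((ev_log ((2 * m) ^ (B + 1))).and
    ((ev_log (4 * |C| * (2 * m) ^ (K + 1))).and ((ev_pow 1 1 one_pos m).and (eventually_ge_atTop (3 ^ m + 2))))))
  refine ⟨2 * C₁, X₀, ?_⟩
  intro X hX q _ hq χ M u v hXM hMu hvM hMX τ ht1 ht2
  obtain ⟨hL8, hL1, hL2, hP, hX3⟩ := hX₀ X hX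
  set L := Real.log X with hLdef
  have hL0 : 0 < L := by linarith
  have hm0 : (0 : ℝ) < m := by exact_mod_cast hm
  rcases Nat.lt_or_ge u v with huv | huv
  swap
  · rw [Finset.Ioc_eq_empty (by omega), Finset.sum_empty, norm_zero]
    positivity
  have hM4 : 3 < M := by
    by_contra hcon
    have h1 : (M : ℝ) ≤ 3 := by
      have : M ≤ 3 := by omega
      exact_mod_cast this
    have h2 : (M : ℝ) ^ m ≤ 3 ^ m := pow_le_pow_left₀ (Nat.cast_nonneg M) h1 m
    have h3 : (3 : ℝ) ^ m + 2 ≤ X := by exact_mod_cast hX3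
    linarith
  have hX0 : (0 : ℝ) < X := by
    have h3 : (3 : ℝ) ^ m + 2 ≤ X := by exact_mod_cast hX3
    have : (0 : ℝ) < 3 ^ m := by positivity
    linarith
  have hMr : (3 : ℝ) < M := by exact_mod_cast hM4
  -- the estimate for a prefix
  have key : ∀ N : ℕ, M ≤ N + 1 → N ≤ 2 * M →
      ‖∑ n ∈ Finset.Icc 1 N, ((ArithmeticFunction.moebius n : ℤ) : ℂ) * (χ (n : ZMod q) * nt τ n)‖ ≤
        (|C| * (2 * m) ^ (K + 1) * 2) * (M / L ^ (K + 1)) := by
    intro N hN1 hN2
    have hN3 : 3 ≤ N := by omega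
    have hNr : (3 : ℝ) ≤ N := by exact_mod_cast hN3
    have hXN : (X : ℝ) ≤ (N : ℝ) ^ (2 * m) := by
      refine hXM.trans ?_
      rw [pow_mul]
      apply pow_le_pow_left₀ (Nat.cast_nonneg M)
      have : (M : ℝ) ≤ N + 1 := by exact_mod_cast hN1
      nlinarith
    have hLN : L ≤ 2 * m * Real.log N := by
      have h1 := Real.log_le_log hX0 hXN
      rw [Real.log_pow] at h1
      push_cast at h1
      exact h1
    have hlN0 : 0 < Real.log N := Real.log_pos (by linarith)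
    have hlNu : Real.log N ≤ L ^ 2 := by
      have h1 : (N : ℝ) ≤ 2 * (X : ℝ) ^ 2 := by
        have h2 : N ≤ 2 * X ^ 2 := by nlinarith
        exact_mod_cast h2
      have h2 := Real.log_le_log (by linarith) h1
      rw [Real.log_mul (by norm_num) (by positivity), Real.log_pow, ← hLdef] at h2
      have h3 := Real.log_two_lt_d9
      push_cast at h2
      nlinarith
    have c1 : (q : ℝ) ≤ Real.log N ^ (B + 1) := by
      have h1 : (2 * m : ℝ) ^ B ≤ Real.log N := by
        have h2 : (2 * m : ℝ) * (2 * m) ^ B ≤ 2 * m * Real.log N := by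
          calc (2 * m : ℝ) * (2 * m) ^ B = (2 * m) ^ (B + 1) := by ring
            _ ≤ L := hL1
            _ ≤ _ := hLN
        exact le_of_mul_le_mul_left h2 (by positivity)
      calc (q : ℝ) ≤ L ^ B := hq
        _ ≤ (2 * m * Real.log N) ^ B := pow_le_pow_left₀ hL0.le hLN B
        _ = (2 * m : ℝ) ^ B * Real.log N ^ B := by rw [mul_pow]
        _ ≤ Real.log N * Real.log N ^ B := by gcongr
        _ = Real.log N ^ (B + 1) := by ring
    have c2 : Real.log N ^ C₁ ≤ |τ| := by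
      calc Real.log N ^ C₁ ≤ (L ^ 2) ^ C₁ := pow_le_pow_left₀ hlN0.le hlNu C₁
        _ = L ^ (2 * C₁) := by rw [pow_mul]
        _ ≤ |τ| := ht1
    have h1 := hC N q inferInstance χ τ (by omega) c1 c2 (ht2.trans hXN)
    refine h1.trans ?_
    have h2 : L ^ (K + 1) ≤ (2 * m) ^ (K + 1) * Real.log N ^ (K + 1) := by
      rw [← mul_pow]
      exact pow_le_pow_left₀ hL0.le hLN _
    have hp : 0 < Real.log N ^ (K + 1) := by positivity
    have hNM : (N : ℝ) ≤ 2 * M := by exact_mod_cast hN2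
    calc C * N / Real.log N ^ (K + 1) ≤ |C| * (2 * M) / Real.log N ^ (K + 1) := by
          apply div_le_div_of_nonneg_right _ hp.le
          calc C * N ≤ |C| * N := mul_le_mul_of_nonneg_right (le_abs_self C) (by linarith)
            _ ≤ |C| * (2 * M) := mul_le_mul_of_nonneg_left hNM (abs_nonneg C)
      _ ≤ (|C| * (2 * m) ^ (K + 1) * 2) * (M / L ^ (K + 1)) := by
          rw [← mul_div_assoc, div_le_div_iff₀ hp (by positivity)]
          have h4 : 0 ≤ |C| * (2 * M) := by positivity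
          calc |C| * (2 * M) * L ^ (K + 1) ≤ |C| * (2 * M) * ((2 * m) ^ (K + 1) * Real.log N ^ (K + 1)) :=
                mul_le_mul_of_nonneg_left h2 h4
            _ = _ := by ring
  have k1 := key u hMu (by omega)
  have k2 := key v (by omega) hvM
  have e : ∑ n ∈ Finset.Ioc u v, (χ (n : ZMod q) * ((ArithmeticFunction.moebius n : ℤ) : ℂ)) * nt τ n =
      (∑ n ∈ Finset.Icc 1 v, ((ArithmeticFunction.moebius n : ℤ) : ℂ) * (χ (n : ZMod q) * nt τ n)) -
      ∑ n ∈ Finset.Icc 1 u, ((ArithmeticFunction.moebius n : ℤ) : ℂ) * (χ (n : ZMod q) * nt τ n) := by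
    rw [eq_sub_iff_add_eq]
    have hd : Disjoint (Finset.Ioc u v) (Finset.Icc 1 u) := by
      rw [Finset.disjoint_left]
      intro n hn hn'
      rw [Finset.mem_Ioc] at hn
      rw [Finset.mem_Icc] at hn'
      omega
    have hun : Finset.Icc 1 v = Finset.Ioc u v ∪ Finset.Icc 1 u := by
      ext n
      simp only [Finset.mem_union, Finset.mem_Ioc, Finset.mem_Icc]
      omega
    rw [hun, Finset.sum_union hd]
    congr 1
    exact Finset.sum_congr rfl fun n _ => by ring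
  rw [e]
  refine (norm_sub_le _ _).trans ?_
  have hfin : 2 * ((|C| * (2 * m) ^ (K + 1) * 2) * ((M : ℝ) / L ^ (K + 1))) ≤ M / L ^ K := by
    have e2 : 2 * ((|C| * (2 * m) ^ (K + 1) * 2) * ((M : ℝ) / L ^ (K + 1))) =
        (4 * |C| * (2 * m) ^ (K + 1) / L) * (M / L ^ K) := by
      rw [pow_succ L K]
      field_simp
      ring
    rw [e2]
    have h4 : 4 * |C| * (2 * m) ^ (K + 1) / L ≤ 1 := (div_le_one hL0).2 hL2
    have h5 : 0 ≤ (M : ℝ) / L ^ K := by positivity
    nlinarith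
  linarith

theorem pw (h1 : S_CHR) (h2 : S_MOC) : S_PW := by
  intro B K m hm
  obtain ⟨C1, X1, hA⟩ := p1 h2 B K m hm
  obtain ⟨C2, X2, hB⟩ := p2 h1 B (K + 2) m hm
  obtain ⟨X₀, hX₀⟩ := eventually_atTop.1 ((ev_log 8).and ((eventually_ge_atTop X1).and (eventually_ge_atTop X2)))
  refine ⟨max C1 C2, X₀, ?_⟩
  intro X hX q _ hq χ M u v hXM hMu hvM hMX τ ht1 ht2
  obtain ⟨hL8, hX1, hX2⟩ := hX₀ X hX
  have hL1 : 1 ≤ Real.log X := by linarith
  have t1 : Real.log X ^ C1 ≤ |τ| := le_trans (pow_le_pow_right₀ hL1 (le_max_left _ _)) ht1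
  have t2 : Real.log X ^ C2 ≤ |τ| := le_trans (pow_le_pow_right₀ hL1 (le_max_right _ _)) ht1
  have hL0 : 0 < Real.log X := by linarith
  have b2 : ∀ k, ‖∑ n ∈ Finset.Ioc u k, χ (n : ZMod q) * nt τ n‖ ≤ M / Real.log X ^ (K + 2) ∨ 2 * M < k := by
    intro k
    rcases Nat.lt_or_ge (2 * M) k with h | h
    · exact Or.inr h
    · exact Or.inl (hB X hX2 q inferInstance hq χ M u k hXM hMu h hMX τ t2 ht2)
  have hMK : (M : ℝ) / Real.log X ^ (K + 2) ≤ M / Real.log X ^ K :=
    div_le_div_of_nonneg_left (Nat.cast_nonneg M) (by positivity) (pow_le_pow_right₀ hL1 (by omega))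
  refine ⟨hA X hX1 q inferInstance hq χ M u v hXM hMu hvM hMX τ t1 ht2, ?_, ?_⟩
  · rcases b2 v with h | h
    · exact h.trans hMK
    · omega
  · rcases Nat.lt_or_ge u v with huv | huv
    swap
    · rw [Finset.Ioc_eq_empty (by omega), Finset.sum_empty, norm_zero]
      positivity
    have e : ∑ n ∈ Finset.Ioc u v, (χ (n : ZMod q) * (Real.log n : ℂ)) * nt τ n =
        ∑ n ∈ Finset.Ioc u v, (Real.log n : ℂ) * (χ (n : ZMod q) * nt τ n) :=
      Finset.sum_congr rfl fun n _ => by ring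
    rw [e]
    have h3 := log_sum (z := fun n => χ (n : ZMod q) * nt τ n) huv.le (B := M / Real.log X ^ (K + 2))
      (fun k _ hk => by
        rcases b2 k with h | h
        · exact h
        · omega)
    refine h3.trans ?_
    have hX0 : (1 : ℝ) < X := by
      by_contra hcon
      push Not at hcon
      have := Real.log_nonpos (Nat.cast_nonneg X) hcon
      linarith
    have hlv : Real.log v ≤ 4 * Real.log X := by
      have hv0 : (0 : ℝ) < v := by
        have : 0 < v := by omega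
        exact_mod_cast this
      have h4 : (v : ℝ) ≤ 2 * (X : ℝ) ^ 2 := by
        have h2 : v ≤ 2 * X ^ 2 := by nlinarith
        exact_mod_cast h2
      have h5 := Real.log_le_log hv0 h4
      rw [Real.log_mul (by norm_num) (by positivity), Real.log_pow] at h5
      have h6 := Real.log_two_lt_d9
      push_cast at h5
      linarith
    have h5 : 0 ≤ (M : ℝ) / Real.log X ^ (K + 2) := by positivity
    calc 2 * Real.log v * ((M : ℝ) / Real.log X ^ (K + 2))
        ≤ 2 * (4 * Real.log X) * ((M : ℝ) / Real.log X ^ (K + 2)) := by gcongr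
      _ = (8 / Real.log X) * (M / Real.log X ^ K) := by
          rw [pow_add]
          field_simp
          ring
      _ ≤ 1 * (M / Real.log X ^ K) := by
          apply mul_le_mul_of_nonneg_right _ (by positivity)
          rw [div_le_one hL0]
          exact hL8
      _ = M / Real.log X ^ K := one_mul _

end Pool.Agent.V8H34.CR.Pw
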