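import Pool.Agent.V8H34.CR.MvgA

/-! Project CR, part MVG: the contribution of one tuple of cells. -/

set_option autoImplicit false

namespace Pool.Agent.V8H34.CR

open Finset MeasureTheory Pool.Agent.Q236.CR

theorem log_facts {X : ℕ} (hX : 1 ≤ X) (hL : 2 ≤ Real.log X) :
    1 + Real.log (18 * X : ℝ) ≤ 3 * Real.log X ∧ Real.log (9 * X + 3 : ℝ) ≤ 3 * Real.log X ∧
    1 + Real.log (9 * X : ℝ) ≤ 3 * Real.log X ∧ 1 ≤ Real.log (9 * X + 3 : ℝ) := by
  have hX0 : (0 : ℝ) < X := by exact_mod_cast hX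
  have hX1 : (1 : ℝ) ≤ X := by exact_mod_cast hX
  have he : (2.7182818283 : ℝ) < Real.exp 1 := Real.exp_one_gt_d9
  have h18 : Real.log 18 ≤ 3 := by
    rw [Real.log_le_iff_le_exp (by norm_num)]
    have : Real.exp 3 = Real.exp 1 ^ 3 := by rw [← Real.exp_nat_mul]; norm_num
    rw [this]
    have : (2.7182818283 : ℝ) ^ 3 ≤ Real.exp 1 ^ 3 := pow_le_pow_left₀ (by norm_num) he.le 3
    norm_num at this ⊢
    linarith
  have h1 : Real.log (18 * X : ℝ) = Real.log 18 + Real.log X := Real.log_mul (by norm_num) hX0.ne'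
  have h2 : Real.log (9 * X + 3 : ℝ) ≤ Real.log (18 * X : ℝ) :=
    Real.log_le_log (by positivity) (by linarith)
  have h3 : Real.log (9 * X : ℝ) ≤ Real.log (18 * X : ℝ) :=
    Real.log_le_log (by positivity) (by linarith)
  have h4 : Real.log (X : ℝ) ≤ Real.log (9 * X + 3 : ℝ) :=
    Real.log_le_log (by positivity) (by linarith)
  refine ⟨?_, ?_, ?_, by linarith⟩ <;> linarith

theorem coef_le {r X : ℕ} (hX : 1 ≤ X) (hL : 2 ≤ Real.log X) (G : Fin r → ℕ → ℂ)
    (hG : ∀ i n, ‖G i n‖ ≤ Real.log (n + 3) ∨ ‖G i n‖ ≤ 1) (w : Fin r → ℕ)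
    (hw : ∀ i, w i ≤ 9 * X) : ‖∏ i, G i (w i)‖ ≤ (3 * Real.log X) ^ r := by
  rw [norm_prod]
  have h0 : ∀ i, ‖G i (w i)‖ ≤ 3 * Real.log X := by
    intro i
    rcases hG i (w i) with h | h
    · refine h.trans (le_trans ?_ (log_facts hX hL).2.1)
      refine Real.log_le_log (by positivity) ?_
      have : (w i : ℝ) ≤ 9 * X := by exact_mod_cast hw i
      linarith
    · linarith
  calc ∏ i, ‖G i (w i)‖ ≤ ∏ _i : Fin r, (3 * Real.log X) :=
        prod_le_prod (fun _ _ => norm_nonneg _) fun i _ => h0 i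
    _ = _ := by rw [prod_const]; simp

/-- the cell as a finite set -/
noncomputable def cell (η : ℝ) (Y l : ℕ) : Finset ℕ := (Icc 1 Y).filter (fun n => cl η n = l)

theorem mem_cell {η : ℝ} (hη : 0 < η) {Y l n : ℕ} (h : n ∈ cell η Y l) :
    1 ≤ n ∧ n ≤ Y ∧ (n : ℝ) ≤ Real.exp ((l + 1) * η) ∧ Real.exp (l * η) ≤ n := by
  unfold cell at h
  rw [mem_filter, mem_Icc] at h
  have := (cl_iff hη h.1.1 l).1 h.2
  exact ⟨h.1.1, h.1.2, this.2.le, this.1⟩

theorem inner_cell {r : ℕ} (hr : 1 ≤ r) (X : ℕ) (hX : 1 ≤ X) (hL : 2 ≤ Real.log X) (K : ℕ)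
    (T0 T : ℝ) (hT0 : 0 ≤ T)
    (F : Fin r → ℕ → ℂ) (hF : ∀ i n, ‖F i n‖ ≤ Real.log (n + 3))
    (hgood : ∀ M : Fin r → ℕ, (∀ i, 1 ≤ M i) → X ≤ ∏ i, M i → ∏ i, M i ≤ 18 ^ r * X →
      ∃ i, Good X T0 T K (F i) (M i))
    {η : ℝ} (hη : 0 < η) (hη2 : Real.exp η ≤ 2) (x2 : ℕ) (hx2 : x2 ≤ 9 * X) (l : Fin r → ℕ)
    (h1 : (X : ℝ) ≤ ∏ i, Real.exp (l i * η)) (h2 : ∏ i, Real.exp ((l i + 1) * η) ≤ x2)
    (T1 T2 : ℝ) (h12 : T1 ≤ T2) (h12T : T2 - T1 ≤ T)
    (hτ : ∀ τ ∈ Set.Icc T1 T2, T0 ≤ |τ| ∧ |τ| ≤ T) :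
    ∫ τ in T1..T2, ‖∑ v ∈ Fintype.piFinset (fun i => cell η x2 (l i)),
        (∏ i, F i (v i)) * nt τ (∏ i, v i)‖ ^ 2 ≤
      (X : ℝ) ^ 2 / Real.log X ^ K * (2592 * (3 * Real.log X) ^ (2 ^ (r * 4) + 1 + 2 * r)) := by
  classical
  have hX0 : (0 : ℝ) < X := by exact_mod_cast hX
  have hL0 : 0 < Real.log X := by linarith
  set M : Fin r → ℕ := fun i => ⌈Real.exp (l i * η)⌉₊ with hM
  have hexp1 : ∀ i, 1 ≤ Real.exp (l i * η) := fun i => Real.one_le_exp (by positivity)
  have hM1 : ∀ i, 1 ≤ M i := fun i => Nat.one_le_iff_ne_zero.2 (by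
    rw [hM]; exact (Nat.ceil_pos.2 (Real.exp_pos _)).ne')
  have hMle : ∀ i, Real.exp (l i * η) ≤ M i := fun i => Nat.le_ceil _
  have hM2 : ∀ i, (M i : ℝ) ≤ 2 * Real.exp (l i * η) := by
    intro i
    have h3 : (M i : ℝ) < Real.exp (l i * η) + 1 := Nat.ceil_lt_add_one (Real.exp_pos _).le
    have := hexp1 i
    linarith
  have hexpmono : ∀ i, Real.exp (l i * η) ≤ Real.exp ((l i + 1) * η) := by
    intro i
    refine Real.exp_le_exp.2 ?_
    nlinarith
  have hx2r : (x2 : ℝ) ≤ 9 * X := by exact_mod_cast hx2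
  have hprod1 : X ≤ ∏ i, M i := by
    have : (X : ℝ) ≤ ∏ i, (M i : ℝ) :=
      h1.trans (prod_le_prod (fun i _ => (Real.exp_pos _).le) fun i _ => hMle i)
    exact_mod_cast this
  have hprod2 : ∏ i, M i ≤ 18 ^ r * X := by
    have : (∏ i, (M i : ℝ)) ≤ 18 ^ r * X := by
      calc (∏ i, (M i : ℝ)) ≤ ∏ i, (2 * Real.exp (l i * η)) :=
            prod_le_prod (fun i _ => Nat.cast_nonneg _) fun i _ => hM2 i
        _ = 2 ^ r * ∏ i, Real.exp (l i * η) := by rw [prod_mul_distrib]; simp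
        _ ≤ 2 ^ r * x2 := by
            refine mul_le_mul_of_nonneg_left (le_trans ?_ h2) (by positivity)
            exact prod_le_prod (fun i _ => (Real.exp_pos _).le) fun i _ => hexpmono i
        _ ≤ 2 ^ r * (9 ^ r * X) := by
            refine mul_le_mul_of_nonneg_left (hx2r.trans ?_) (by positivity)
            refine mul_le_mul_of_nonneg_right ?_ hX0.le
            calc (9 : ℝ) = 9 ^ 1 := by norm_num
              _ ≤ 9 ^ r := pow_le_pow_right₀ (by norm_num) hr
        _ = 18 ^ r * X := by rw [← mul_assoc, ← mul_pow]; norm_num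
    exact_mod_cast this
  obtain ⟨i, hi⟩ := hgood M hM1 hprod1 hprod2
  -- the polynomials
  set D : Fin r → ℝ → ℂ := fun j τ => ∑ n ∈ cell η x2 (l j), F j n * nt τ n with hD
  set S : Fin r → Finset ℕ := fun j => if j = i then {1} else cell η x2 (l j) with hS
  set G : Fin r → ℕ → ℂ := fun j n => if j = i then 1 else F j n with hG
  set E : ℝ → ℂ := fun τ => ∑ w ∈ Fintype.piFinset S, (∏ j, G j (w j)) * nt τ (∏ j, w j) with hE
  have hA : ∀ τ, ∑ v ∈ Fintype.piFinset (fun i => cell η x2 (l i)),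
        (∏ i, F i (v i)) * nt τ (∏ i, v i) = D i τ * E τ := by
    intro τ
    have e1 : ∑ v ∈ Fintype.piFinset (fun i => cell η x2 (l i)),
        (∏ i, F i (v i)) * nt τ (∏ i, v i) = ∏ j, D j τ := by
      rw [hD]
      simp only
      rw [prod_univ_sum]
      refine sum_congr rfl fun v _ => ?_
      rw [nt_prod, ← prod_mul_distrib]
    have e2 : E τ = ∏ j, (if j = i then 1 else D j τ) := by
      rw [hE]
      simp only
      have : ∀ j, (if j = i then 1 else D j τ) = ∑ n ∈ S j, G j n * nt τ n := by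
        intro j
        by_cases hj : j = i
        · simp only [hS, hG, hj, if_true, sum_singleton, nt_one, mul_one]
        · simp only [hS, hG, hj, if_false, hD]
      simp_rw [this]
      rw [prod_univ_sum]
      refine sum_congr rfl fun v _ => ?_
      rw [nt_prod, ← prod_mul_distrib]
    have e3 : ∏ j, D j τ = ∏ j, ((if j = i then D j τ else 1) * (if j = i then 1 else D j τ)) := by
      refine prod_congr rfl fun j _ => ?_
      by_cases hj : j = i <;> simp [hj]
    rw [e1, e3, prod_mul_distrib, ← e2, prod_ite_eq' univ i (fun j => D j τ)]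
    simp
  simp_rw [hA]
  -- the good factor
  set q : ℝ := (X : ℝ) / M i with hq
  have hMi0 : (0 : ℝ) < M i := by exact_mod_cast hM1 i
  have hq0 : 0 < q := div_pos hX0 hMi0
  set Q : ℝ := (X : ℝ) ^ 2 / Real.log X ^ K / ((T + q) * q) with hQ
  have hTq : 0 < (T + q) * q := by positivity
  have hQ0 : 0 ≤ Q := by positivity
  have hDi : ∀ τ ∈ Set.Icc T1 T2, ‖D i τ‖ ^ 2 ≤ Q := by
    intro τ hτ'
    obtain ⟨v, hv1, hv2⟩ := cell_eq hη hη2 x2 (l i)
    have h3 := hi (M i - 1) v (by have := hM1 i; omega) hv1 τ (hτ τ hτ').1 (hτ τ hτ').2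
    rw [hQ, le_div_iff₀ hTq]
    have h4 : D i τ = ∑ n ∈ Ioc (M i - 1) v, F i n * nt τ n := by
      rw [hD]
      simp only
      unfold cell
      rw [hv2]
    rw [h4]
    exact h3
  -- the other factors
  set Z : ℕ := 18 * X / M i with hZ
  have hZq : (Z : ℝ) ≤ 18 * q := by
    rw [hZ, hq]
    refine (Nat.cast_div_le).trans ?_
    push_cast
    rw [mul_div_assoc]
  have hZX : (Z : ℝ) ≤ 18 * X := by
    have : Z ≤ 18 * X := Nat.div_le_self _ _
    exact_mod_cast this
  have hcellY : ∀ j n, n ∈ S j → n ∈ Icc 1 (9 * X) := by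
    intro j n hn
    by_cases hj : j = i
    · simp only [hS, hj, if_true, mem_singleton] at hn
      rw [hn, mem_Icc]; omega
    · simp only [hS, hj, if_false] at hn
      have := mem_cell hη hn
      rw [mem_Icc]; omega
  have hW : ∀ w ∈ Fintype.piFinset S, ∀ j, w j ∈ Icc 1 (9 * X) := by
    intro w hw j
    exact hcellY j _ (Fintype.mem_piFinset.1 hw j)
  have hP : ∀ w ∈ Fintype.piFinset S, ∏ j, w j ∈ Icc 1 Z := by
    intro w hw
    rw [mem_Icc]
    refine ⟨Nat.one_le_iff_ne_zero.2 (prod_ne_zero_iff.2 fun j _ => ?_), ?_⟩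
    · have := hW w hw j
      rw [mem_Icc] at this; omega
    · rw [hZ, Nat.le_div_iff_mul_le (hM1 i)]
      have hwi : w i = 1 := by
        have := Fintype.mem_piFinset.1 hw i
        simpa [hS] using this
      have h3 : (∏ j, (w j : ℝ)) ≤ ∏ j ∈ univ.erase i, Real.exp ((l j + 1) * η) := by
        rw [← mul_prod_erase univ _ (mem_univ i), hwi]
        push_cast
        rw [one_mul]
        refine prod_le_prod (fun j _ => Nat.cast_nonneg _) fun j hj => ?_
        have h4 := Fintype.mem_piFinset.1 hw j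
        have hj' : j ≠ i := ne_of_mem_erase hj
        simp only [hS, hj', if_false] at h4
        exact (mem_cell hη h4).2.2.1
      have h5 : ((∏ j, w j : ℕ) : ℝ) * M i ≤ 18 * X := by
        push_cast
        calc (∏ j, (w j : ℝ)) * M i ≤
              (∏ j ∈ univ.erase i, Real.exp ((l j + 1) * η)) * (2 * Real.exp ((l i + 1) * η)) := by
              refine mul_le_mul h3 ((hM2 i).trans ?_) hMi0.le
                (prod_nonneg fun j _ => (Real.exp_pos _).le)
              have := hexpmono i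
              linarith
          _ = 2 * ∏ j, Real.exp ((l j + 1) * η) := by
              rw [← mul_prod_erase univ (fun j => Real.exp ((l j + 1) * η)) (mem_univ i)]; ring
          _ ≤ 18 * X := by linarith
      exact_mod_cast h5
  have hc : ∀ w ∈ Fintype.piFinset S, ‖∏ j, G j (w j)‖ ≤ (3 * Real.log X) ^ r := by
    intro w hw
    refine coef_le hX hL G ?_ w fun j => ?_
    · intro j n
      by_cases hj : j = i
      · right; simp [hG, hj]
      · left; simp only [hG, hj, if_false]; exact hF j n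
    · have := hW w hw j
      rw [mem_Icc] at this; exact this.2
  have hEms := ms_of_tuples (Fintype.piFinset S) (fun w => ∏ j, G j (w j)) ((3 * Real.log X) ^ r)
    (9 * X) Z (by positivity) hW (Icc 1 Z) (Subset.refl _) hP hc T1 T2 h12
  have hEcont : Continuous E := by
    rw [hE]
    refine cont_sum _ _ _ fun w hw => ?_
    exact (mem_Icc.1 (hP w hw)).1
  have hDcont : Continuous (D i) := by
    rw [hD]
    exact cont_sum _ _ _ fun n hn => (mem_cell hη hn).1
  have hstep1 : ∫ τ in T1..T2, ‖D i τ * E τ‖ ^ 2 ≤ ∫ τ in T1..T2, Q * ‖E τ‖ ^ 2 := by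
    refine intervalIntegral.integral_mono_on h12 ?_ ?_ ?_
    · exact ((hDcont.mul hEcont).norm.pow 2).intervalIntegrable _ _
    · exact (continuous_const.mul (hEcont.norm.pow 2)).intervalIntegrable _ _
    · intro τ hτ'
      rw [norm_mul, mul_pow]
      exact mul_le_mul_of_nonneg_right (hDi τ hτ') (by positivity)
  refine hstep1.trans ?_
  rw [intervalIntegral.integral_const_mul]
  refine (mul_le_mul_of_nonneg_left hEms hQ0).trans ?_
  -- the numerical part
  set ℓ : ℝ := 3 * Real.log X with hℓ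
  have hℓ1 : 1 ≤ ℓ := by rw [hℓ]; linarith
  set C : ℕ := 2 ^ (r * 4) with hC
  have hlogZ : 1 + Real.log Z ≤ ℓ := by
    refine le_trans ?_ (log_facts hX hL).1
    rcases Nat.eq_zero_or_pos Z with h | h
    · rw [h]
      simp only [CharP.cast_eq_zero, Real.log_zero, add_zero]
      have : 0 ≤ Real.log (18 * X : ℝ) := Real.log_nonneg (by
        have : (1 : ℝ) ≤ X := by exact_mod_cast hX
        linarith)
      linarith
    · have : (0 : ℝ) < Z := by exact_mod_cast h
      have := Real.log_le_log this hZX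
      linarith
  have hlogZ0 : 0 ≤ Real.log Z := Real.log_natCast_nonneg Z
  have hsum : ∑ n ∈ Icc 1 Z, (tr r (9 * X) n : ℝ) ^ 2 ≤ 18 * q * ℓ ^ C := by
    have h3 : ∑ n ∈ Icc 1 Z, (tr r (9 * X) n : ℝ) ^ 2 ≤ ∑ n ∈ Icc 1 Z, (tr r (9 * X) n : ℝ) ^ 4 := by
      refine sum_le_sum fun n _ => ?_
      norm_cast
      rcases Nat.eq_zero_or_pos (tr r (9 * X) n) with h | h
      · rw [h]; simp
      · exact Nat.pow_le_pow_right h (by norm_num)
    refine h3.trans ?_
    rcases Nat.eq_zero_or_pos Z with h | h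
    · rw [h]
      simp only [show Icc 1 0 = (∅ : Finset ℕ) from rfl, sum_empty]
      positivity
    · refine (dv_explicit r (9 * X) Z h).trans ?_
      refine mul_le_mul hZq (pow_le_pow_left₀ (by positivity) hlogZ _) (by positivity)
        (by positivity)
  have hfac : T2 - T1 + 8 * Z * (1 + Real.log Z) ≤ 144 * ℓ * (T + q) := by
    have h3 : 8 * (Z : ℝ) * (1 + Real.log Z) ≤ 8 * (18 * q) * ℓ :=
      mul_le_mul (by linarith) hlogZ (by positivity) (by positivity)
    nlinarith [mul_nonneg hT0 (by linarith : (0 : ℝ) ≤ ℓ - 1)]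
  calc Q * ((T2 - T1 + 8 * Z * (1 + Real.log Z)) *
        ((ℓ ^ r) ^ 2 * ∑ n ∈ Icc 1 Z, (tr r (9 * X) n : ℝ) ^ 2))
      ≤ Q * ((144 * ℓ * (T + q)) * ((ℓ ^ r) ^ 2 * (18 * q * ℓ ^ C))) := by
        refine mul_le_mul_of_nonneg_left ?_ hQ0
        refine mul_le_mul hfac (mul_le_mul_of_nonneg_left hsum (by positivity)) ?_ (by positivity)
        exact mul_nonneg (by positivity) (sum_nonneg fun _ _ => by positivity)
    _ = Q * ((T + q) * q) * (2592 * ℓ ^ (C + 1 + 2 * r)) := by ring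
    _ = _ := by rw [hQ, div_mul_cancel₀ _ hTq.ne']

end Pool.Agent.V8H34.CR
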