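import Pool.Agent.Q236.CR.Stm
import Pool.Agent.V8H34.CR.MvgB

/-! Project CR, part SIC: primes and the Moebius function with characters in almost all short intervals. -/

set_option autoImplicit false

namespace Pool.Agent.V8H34.CR

open Finset Filter MeasureTheory Pool.Agent.Q236.CR

/-- the common part of the two bounds: windows from mean squares of the Dirichlet polynomial -/
theorem sic_core (Cw : ℝ) (hCw : 1 ≤ Cw)
    (hwin : ∀ (a : ℕ → ℂ) (x Y : ℕ) (T : ℝ), 1 ≤ Y → 10 * Y ≤ x → 1 ≤ T →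
      ∑ m ∈ Finset.Ioc x (2 * x), ‖∑ n ∈ Finset.Ioc m (m + Y), a n‖ ^ 2 ≤
        Cw * ((Y : ℝ) ^ 2 / x) * (∫ τ in (-T)..T, ‖∑ n ∈ Finset.Ioc x (9 * x), a n * nt τ n‖ ^ 2) +
        Cw * (x / T + (x : ℝ) ^ 2 * (1 + Real.log x) / T ^ 2) *
          ∑ n ∈ Finset.Ioc x (9 * x), ‖a n‖ ^ 2)
    (U C₀ x Y : ℕ) (hY : 1 ≤ Y) (hYx : 10 * Y ≤ x) (T D : ℝ) (hD : 0 ≤ D) (c : ℕ → ℂ)
    (hL : Cw * (216 * 2 + 2 * D + 2) ≤ Real.log x)
    (hT0 : Real.log x ^ C₀ ≤ T) (hT1 : (x : ℝ) / Y * Real.log x ^ (U + 3) ≤ T)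
    (hc : ∀ n ∈ Ioc x (9 * x), ‖c n‖ ≤ 3 * Real.log x)
    (hlow : ∀ τ : ℝ, |τ| ≤ Real.log x ^ C₀ →
      ‖∑ n ∈ Ioc x (9 * x), c n * nt τ n‖ ≤ x / Real.log x ^ (C₀ + U + 1))
    (hs1 : ∫ τ in (Real.log x ^ C₀)..T, ‖∑ n ∈ Ioc x (9 * x), c n * nt τ n‖ ^ 2 ≤
      D * ((x : ℝ) ^ 2 / Real.log x ^ (U + 1)))
    (hs2 : ∫ τ in (-T)..(-Real.log x ^ C₀), ‖∑ n ∈ Ioc x (9 * x), c n * nt τ n‖ ^ 2 ≤
      D * ((x : ℝ) ^ 2 / Real.log x ^ (U + 1))) :
    ∑ m ∈ Finset.Ioc x (2 * x), ‖∑ n ∈ Finset.Ioc m (m + Y), c n‖ ^ 2 ≤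
      x * (Y : ℝ) ^ 2 / Real.log x ^ U := by
  have hx1 : 1 ≤ x := by omega
  have hx0 : (0 : ℝ) < x := by exact_mod_cast hx1
  have hY0 : (0 : ℝ) < Y := by exact_mod_cast hY
  have hY1 : (1 : ℝ) ≤ Y := by exact_mod_cast hY
  set L : ℝ := Real.log x with hLdef
  have hL434 : 434 ≤ L := by
    have : 1 * (216 * 2 + 2 * 0 + 2) ≤ Cw * (216 * 2 + 2 * D + 2) :=
      mul_le_mul hCw (by linarith) (by norm_num) (by linarith)
    linarith
  have hL0 : 0 < L := by linarith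
  have hL1 : 1 ≤ L := by linarith
  have hLC : 1 ≤ L ^ C₀ := one_le_pow₀ hL1
  have hT1' : 1 ≤ T := hLC.trans hT0
  have hTpos : 0 < T := by linarith
  set A : ℝ → ℂ := fun τ => ∑ n ∈ Ioc x (9 * x), c n * nt τ n with hA
  have hAcont : Continuous fun τ => ‖A τ‖ ^ 2 := by
    have : Continuous A := by
      rw [hA]
      exact cont_sum _ _ (fun n => n) fun n hn => by rw [mem_Ioc] at hn; omega
    exact this.norm.pow 2
  have hw := hwin c x Y T hY hYx hT1'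
  -- the integral
  have hsplit : ∫ τ in (-T)..T, ‖A τ‖ ^ 2 =
      (∫ τ in (-T)..(-L ^ C₀), ‖A τ‖ ^ 2) + (∫ τ in (-L ^ C₀)..(L ^ C₀), ‖A τ‖ ^ 2) +
        ∫ τ in (L ^ C₀)..T, ‖A τ‖ ^ 2 := by
    rw [intervalIntegral.integral_add_adjacent_intervals (hAcont.intervalIntegrable _ _)
      (hAcont.intervalIntegrable _ _), intervalIntegral.integral_add_adjacent_intervals
      (hAcont.intervalIntegrable _ _) (hAcont.intervalIntegrable _ _)]
  have hmid : ∫ τ in (-L ^ C₀)..(L ^ C₀), ‖A τ‖ ^ 2 ≤ 2 * ((x : ℝ) ^ 2 / L ^ (U + 1)) := by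
    have h1 : ∫ τ in (-L ^ C₀)..(L ^ C₀), ‖A τ‖ ^ 2 ≤
        ∫ τ in (-L ^ C₀)..(L ^ C₀), (x / L ^ (C₀ + U + 1)) ^ 2 := by
      refine intervalIntegral.integral_mono_on (by linarith) (hAcont.intervalIntegrable _ _)
        (continuous_const.intervalIntegrable _ _) fun τ hτ => ?_
      refine pow_le_pow_left₀ (norm_nonneg _) (hlow τ ?_) 2
      rw [abs_le]
      exact ⟨hτ.1, hτ.2⟩
    refine h1.trans ?_
    rw [intervalIntegral.integral_const, smul_eq_mul]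
    have h2 : (L ^ C₀ - -L ^ C₀) * (x / L ^ (C₀ + U + 1)) ^ 2 =
        2 * ((x : ℝ) ^ 2 / L ^ (U + 1)) * (1 / L ^ (C₀ + U + 1)) := by
      have : L ^ (C₀ + U + 1) = L ^ C₀ * L ^ (U + 1) := by rw [← pow_add]; rfl
      rw [this]
      field_simp
      ring
    rw [h2]
    have h3 : 1 / L ^ (C₀ + U + 1) ≤ 1 := by
      rw [div_le_one (by positivity)]
      exact one_le_pow₀ hL1
    calc _ ≤ 2 * ((x : ℝ) ^ 2 / L ^ (U + 1)) * 1 := mul_le_mul_of_nonneg_left h3 (by positivity)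
      _ = _ := mul_one _
  have hI : ∫ τ in (-T)..T, ‖A τ‖ ^ 2 ≤ (2 * D + 2) * ((x : ℝ) ^ 2 / L ^ (U + 1)) := by
    rw [hsplit]
    linarith
  -- the coefficients
  have hcoef : ∑ n ∈ Ioc x (9 * x), ‖c n‖ ^ 2 ≤ 72 * x * L ^ 2 := by
    calc ∑ n ∈ Ioc x (9 * x), ‖c n‖ ^ 2 ≤ ∑ n ∈ Ioc x (9 * x), (3 * L) ^ 2 :=
          sum_le_sum fun n hn => pow_le_pow_left₀ (norm_nonneg _) (hc n hn) 2
      _ = 72 * x * L ^ 2 := by
          rw [sum_const, Nat.card_Ioc, nsmul_eq_mul, Nat.cast_sub (by omega)]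
          push_cast
          ring
  have hxT : (x : ℝ) / T ≤ Y / L ^ (U + 3) := by
    rw [div_le_div_iff₀ hTpos (by positivity)]
    calc (x : ℝ) * L ^ (U + 3) = Y * ((x : ℝ) / Y * L ^ (U + 3)) := by field_simp
      _ ≤ Y * T := mul_le_mul_of_nonneg_left hT1 hY0.le
  have hxT2 : (x : ℝ) ^ 2 * (1 + L) / T ^ 2 ≤ 2 * Y ^ 2 / L ^ (U + 3) := by
    have h1 : (x : ℝ) ^ 2 * (1 + L) / T ^ 2 = (x / T) ^ 2 * (1 + L) := by
      rw [div_pow]; ring
    rw [h1]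
    have h2 : ((x : ℝ) / T) ^ 2 ≤ (Y / L ^ (U + 3)) ^ 2 := pow_le_pow_left₀ (by positivity) hxT 2
    calc ((x : ℝ) / T) ^ 2 * (1 + L) ≤ (Y / L ^ (U + 3)) ^ 2 * (2 * L) :=
          mul_le_mul h2 (by linarith) (by linarith) (by positivity)
      _ = 2 * Y ^ 2 / L ^ (U + 3) * (L / L ^ (U + 3)) := by field_simp
      _ ≤ 2 * Y ^ 2 / L ^ (U + 3) * 1 := by
          refine mul_le_mul_of_nonneg_left ?_ (by positivity)
          rw [div_le_one (by positivity)]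
          calc L = L ^ 1 := (pow_one L).symm
            _ ≤ L ^ (U + 3) := pow_le_pow_right₀ hL1 (by omega)
      _ = _ := mul_one _
  have hsec : x / T + (x : ℝ) ^ 2 * (1 + L) / T ^ 2 ≤ 3 * Y ^ 2 / L ^ (U + 3) := by
    have h1 : (Y : ℝ) / L ^ (U + 3) ≤ Y ^ 2 / L ^ (U + 3) :=
      div_le_div_of_nonneg_right (by nlinarith) (by positivity)
    have h2 : 3 * (Y : ℝ) ^ 2 / L ^ (U + 3) = Y ^ 2 / L ^ (U + 3) + 2 * Y ^ 2 / L ^ (U + 3) := by ring
    linarith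
  refine hw.trans ?_
  have hp1 : Cw * ((Y : ℝ) ^ 2 / x) * (∫ τ in (-T)..T, ‖A τ‖ ^ 2) ≤
      x * (Y : ℝ) ^ 2 / L ^ U * (Cw * (2 * D + 2) / L) := by
    calc Cw * ((Y : ℝ) ^ 2 / x) * (∫ τ in (-T)..T, ‖A τ‖ ^ 2) ≤
          Cw * ((Y : ℝ) ^ 2 / x) * ((2 * D + 2) * ((x : ℝ) ^ 2 / L ^ (U + 1))) :=
          mul_le_mul_of_nonneg_left hI (by positivity)
      _ = _ := by
          have : L ^ (U + 1) = L ^ U * L := pow_succ _ _
          rw [this]
          field_simp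
  have hp2 : Cw * (x / T + (x : ℝ) ^ 2 * (1 + L) / T ^ 2) * ∑ n ∈ Ioc x (9 * x), ‖c n‖ ^ 2 ≤
      x * (Y : ℝ) ^ 2 / L ^ U * (Cw * 216 / L) := by
    calc Cw * (x / T + (x : ℝ) ^ 2 * (1 + L) / T ^ 2) * ∑ n ∈ Ioc x (9 * x), ‖c n‖ ^ 2 ≤
          Cw * (3 * Y ^ 2 / L ^ (U + 3)) * (72 * x * L ^ 2) := by
          refine mul_le_mul (mul_le_mul_of_nonneg_left hsec (by linarith)) hcoef
            (sum_nonneg fun _ _ => by positivity) (by positivity)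
      _ = _ := by
          have : L ^ (U + 3) = L ^ U * L * L ^ 2 := by ring
          rw [this]
          field_simp
          ring
  have hfin : x * (Y : ℝ) ^ 2 / L ^ U * (Cw * (2 * D + 2) / L + Cw * 216 / L) ≤
      x * (Y : ℝ) ^ 2 / L ^ U := by
    have h1 : Cw * (2 * D + 2) / L + Cw * 216 / L ≤ 1 := by
      rw [← add_div, div_le_one hL0]
      nlinarith
    calc _ ≤ x * (Y : ℝ) ^ 2 / L ^ U * 1 := mul_le_mul_of_nonneg_left h1 (by positivity)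
      _ = _ := mul_one _
  have e : x * (Y : ℝ) ^ 2 / L ^ U * (Cw * (2 * D + 2) / L + Cw * 216 / L) =
      x * (Y : ℝ) ^ 2 / L ^ U * (Cw * (2 * D + 2) / L) +
      x * (Y : ℝ) ^ 2 / L ^ U * (Cw * 216 / L) := by ring
  rw [e] at hfin
  have : Cw * ((Y : ℝ) ^ 2 / x) * (∫ τ in (-T)..T, ‖∑ n ∈ Ioc x (9 * x), c n * nt τ n‖ ^ 2) ≤
      x * (Y : ℝ) ^ 2 / L ^ U * (Cw * (2 * D + 2) / L) := hp1
  linarith

/-- long windows -/
theorem sic_long (U x Y : ℕ) (hY : 1 ≤ Y) (hYx : x < 10 * Y) (hYx' : Y ≤ x) (c : ℕ → ℂ)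
    (hL : 100 ≤ Real.log x)
    (hlow : ∀ x1 x2 : ℕ, x ≤ x1 → x2 ≤ 9 * x →
      ‖∑ n ∈ Ioc x1 x2, c n‖ ≤ x / Real.log x ^ (U + 1)) :
    ∑ m ∈ Finset.Ioc x (2 * x), ‖∑ n ∈ Finset.Ioc m (m + Y), c n‖ ^ 2 ≤
      x * (Y : ℝ) ^ 2 / Real.log x ^ U := by
  have hx1 : 1 ≤ x := by omega
  have hx0 : (0 : ℝ) < x := by exact_mod_cast hx1
  have hY0 : (0 : ℝ) < Y := by exact_mod_cast hY
  set L : ℝ := Real.log x with hLdef
  have hL0 : 0 < L := by linarith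
  have hL1 : 1 ≤ L := by linarith
  have hxY : (x : ℝ) ≤ 10 * Y := by exact_mod_cast hYx.le
  calc ∑ m ∈ Finset.Ioc x (2 * x), ‖∑ n ∈ Finset.Ioc m (m + Y), c n‖ ^ 2
      ≤ ∑ m ∈ Finset.Ioc x (2 * x), (x / L ^ (U + 1)) ^ 2 := by
        refine sum_le_sum fun m hm => ?_
        rw [mem_Ioc] at hm
        exact pow_le_pow_left₀ (norm_nonneg _) (hlow m (m + Y) (by omega) (by omega)) 2
    _ = x * (x / L ^ (U + 1)) ^ 2 := by
        rw [sum_const, Nat.card_Ioc, nsmul_eq_mul, Nat.cast_sub (by omega)]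
        push_cast; ring
    _ ≤ x * (10 * Y / L ^ (U + 1)) ^ 2 := by
        refine mul_le_mul_of_nonneg_left ?_ hx0.le
        refine pow_le_pow_left₀ (by positivity) ?_ 2
        exact div_le_div_of_nonneg_right hxY (by positivity)
    _ = x * (Y : ℝ) ^ 2 / L ^ U * (100 / L / L ^ (U + 1)) := by
        have : L ^ (U + 1) = L ^ U * L := pow_succ _ _
        rw [this]
        field_simp
        ring
    _ ≤ x * (Y : ℝ) ^ 2 / L ^ U * 1 := by
        refine mul_le_mul_of_nonneg_left ?_ (by positivity)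
        have h1 : 100 / L ≤ 1 := by rw [div_le_one hL0]; exact hL
        refine (div_le_self (by positivity) (one_le_pow₀ hL1)).trans h1
    _ = _ := mul_one _

/-- the polynomial with constant coefficients -/
theorem const_poly (Cf : ℝ)
    (hfd : ∀ (q : ℕ) (_ : NeZero q) (χ : DirichletCharacter ℂ q) (M u v : ℕ) (τ : ℝ),
      1 ≤ M → M ≤ u + 1 → v ≤ 2 * M → 1 ≤ |τ| →
      ‖∑ n ∈ Finset.Ioc u v, χ (n : ZMod q) * nt τ n‖ ≤ Cf * (M / |τ| + q * |τ|) ∧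
      ‖∑ n ∈ Finset.Ioc u v, (χ (n : ZMod q) * (Real.log n : ℂ)) * nt τ n‖ ≤
        Cf * (M / |τ| + q * |τ|) * (1 + Real.log M))
    (x : ℕ) (hx : 1 ≤ x) (τ : ℝ) (hτ : 1 ≤ |τ|) :
    ‖∑ n ∈ Ioc x (9 * x), nt τ n‖ ≤ Cf * (15 * x / |τ| + 4 * |τ|) := by
  have hb : ∀ M u v : ℕ, 1 ≤ M → M ≤ u + 1 → v ≤ 2 * M →
      ‖∑ n ∈ Ioc u v, nt τ n‖ ≤ Cf * (M / |τ| + |τ|) := by
    intro M u v h1 h2 h3
    have h := (hfd 1 inferInstance 1 M u v τ h1 h2 h3 hτ).1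
    have e : ∑ n ∈ Finset.Ioc u v, (1 : DirichletCharacter ℂ 1) (n : ZMod 1) * nt τ n =
        ∑ n ∈ Ioc u v, nt τ n := by
      refine sum_congr rfl fun n _ => ?_
      have : (n : ZMod 1) = 1 := Subsingleton.elim _ _
      rw [this, map_one, one_mul]
    rw [e] at h
    simpa using h
  rw [← sum_Ioc_consecutive (fun n => nt τ n) (show x ≤ 2 * x by omega)
    (show 2 * x ≤ 9 * x by omega), ← sum_Ioc_consecutive (fun n => nt τ n)
    (show 2 * x ≤ 4 * x by omega) (show 4 * x ≤ 9 * x by omega),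
    ← sum_Ioc_consecutive (fun n => nt τ n)
    (show 4 * x ≤ 8 * x by omega) (show 8 * x ≤ 9 * x by omega)]
  have h1 := hb x x (2 * x) hx (by omega) le_rfl
  have h2 := hb (2 * x) (2 * x) (4 * x) (by omega) (by omega) (by omega)
  have h3 := hb (4 * x) (4 * x) (8 * x) (by omega) (by omega) (by omega)
  have h4 := hb (8 * x) (8 * x) (9 * x) (by omega) (by omega) (by omega)
  push_cast at h1 h2 h3 h4
  refine (norm_add_le _ _).trans ((add_le_add h1 ((norm_add_le _ _).trans (add_le_add h2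
    ((norm_add_le _ _).trans (add_le_add h3 h4))))).trans (le_of_eq ?_))
  ring

theorem two_sq (a b : ℝ) : (a + b) ^ 2 ≤ 2 * a ^ 2 + 2 * b ^ 2 := by
  nlinarith [sq_nonneg (a - b)]

theorem int_pos (y a T : ℝ) (ha : 0 < a) (haT : a ≤ T) :
    ∫ τ in a..T, (450 * y ^ 2 / τ ^ 2 + 32 * τ ^ 2) ≤ 450 * y ^ 2 / a + 11 * T ^ 3 := by
  have hd : ∀ τ ∈ Set.uIcc a T, HasDerivAt (fun τ : ℝ => -(450 * y ^ 2) * τ⁻¹ + 32 / 3 * τ ^ 3)
      (450 * y ^ 2 / τ ^ 2 + 32 * τ ^ 2) τ := by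
    intro τ hτ
    rw [Set.uIcc_of_le haT] at hτ
    have hτ0 : τ ≠ 0 := (ha.trans_le hτ.1).ne'
    have h1 := ((hasDerivAt_inv hτ0).const_mul (-(450 * y ^ 2))).add
      ((hasDerivAt_pow 3 τ).const_mul (32 / 3 : ℝ))
    have e : -(450 * y ^ 2) * (-(τ ^ 2)⁻¹) + 32 / 3 * (((3 : ℕ) : ℝ) * τ ^ (3 - 1)) =
        450 * y ^ 2 / τ ^ 2 + 32 * τ ^ 2 := by
      rw [div_eq_mul_inv]; push_cast; ring
    rw [← e]
    exact h1
  have hc : IntervalIntegrable (fun τ : ℝ => 450 * y ^ 2 / τ ^ 2 + 32 * τ ^ 2)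
      MeasureTheory.volume a T := by
    refine ContinuousOn.intervalIntegrable ?_
    rw [Set.uIcc_of_le haT]
    refine ContinuousOn.add (ContinuousOn.div continuousOn_const (by fun_prop) fun τ hτ => ?_)
      (by fun_prop)
    have : τ ≠ 0 := (ha.trans_le hτ.1).ne'
    positivity
  rw [intervalIntegral.integral_eq_sub_of_hasDerivAt hd hc]
  have hT : 0 < T := ha.trans_le haT
  have e1 : 0 ≤ 450 * y ^ 2 * T⁻¹ := by positivity
  have e2 : 0 ≤ T ^ 3 := by positivity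
  have e3 : 0 ≤ a ^ 3 := by positivity
  have e4 : 450 * y ^ 2 / a = 450 * y ^ 2 * a⁻¹ := div_eq_mul_inv _ _
  rw [e4]
  linarith

theorem int_neg (y a T : ℝ) (ha : 0 < a) (haT : a ≤ T) :
    ∫ τ in (-T)..(-a), (450 * y ^ 2 / τ ^ 2 + 32 * τ ^ 2) ≤ 450 * y ^ 2 / a + 11 * T ^ 3 := by
  have h := intervalIntegral.integral_comp_neg (a := a) (b := T)
    (fun τ : ℝ => 450 * y ^ 2 / τ ^ 2 + 32 * τ ^ 2)
  rw [← h]
  simp only [neg_sq]
  exact int_pos y a T ha haT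

/-- **SIC** -/
theorem sic (h1 : S_DPL) (h2 : S_WIN) (h3 : S_LOW) (h4 : S_FD) : S_SIC := by
  intro B U
  obtain ⟨Cw, hCw, hwin⟩ := h2
  obtain ⟨Cf, hCf, hfd⟩ := h4
  obtain ⟨Cm, hdpl⟩ := h1 B (U + 1)
  set C₀ : ℕ := max Cm (U + 1) with hC₀
  obtain ⟨C₁, X₁, hdpl⟩ := hdpl C₀ (le_max_left _ _)
  obtain ⟨X₂, hlow⟩ := h3 B C₀ (C₀ + U + 1)
  set C₂ : ℕ := C₁ + U + 1 with hC₂
  set D : ℝ := 2 + 922 * Cf ^ 2 with hD
  have hD0 : 0 ≤ D := by positivity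
  have hlog : Tendsto (fun n : ℕ => Real.log n) atTop atTop :=
    Real.tendsto_log_atTop.comp tendsto_natCast_atTop_atTop
  have g1 : ∀ᶠ n : ℕ in atTop, Cw * (216 * 2 + 2 * D + 2) ≤ Real.log n :=
    hlog.eventually_ge_atTop _
  have g2 : ∀ᶠ n : ℕ in atTop, 100 ≤ Real.log n := hlog.eventually_ge_atTop _
  have g3 : ∀ᶠ n : ℕ in atTop, Real.log n ^ (2 * (C₀ + C₂)) ≤ n := by
    have h5 : (fun x : ℝ => Real.log x ^ (2 * (C₀ + C₂))) =o[atTop] id :=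
      Real.isLittleO_pow_log_id_atTop
    have h6 := (h5.comp_tendsto tendsto_natCast_atTop_atTop (k := (fun n : ℕ => (n : ℝ)))).bound
      (c := 1) one_pos
    filter_upwards [h6, g2] with n hn hn1
    simp only [Function.comp, id, one_mul, Real.norm_eq_abs] at hn
    rw [abs_of_nonneg (by positivity), abs_of_nonneg (by positivity)] at hn
    exact hn
  obtain ⟨X₃, hX₃⟩ := eventually_atTop.1 (g1.and (g2.and g3))
  refine ⟨U + 3 + C₂, max (max X₁ X₂) (max X₃ 1), fun x hx q hq hqB χ Y hY1 hY2 => ?_⟩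
  have hxX1 : X₁ ≤ x := (le_max_left _ _).trans ((le_max_left _ _).trans hx)
  have hxX2 : X₂ ≤ x := (le_max_right _ _).trans ((le_max_left _ _).trans hx)
  have hxX3 : X₃ ≤ x := (le_max_left _ _).trans ((le_max_right _ _).trans hx)
  have hx1 : 1 ≤ x := (le_max_right _ _).trans ((le_max_right _ _).trans hx)
  obtain ⟨k1, k2, k3⟩ := hX₃ x hxX3
  have hx0 : (0 : ℝ) < x := by exact_mod_cast hx1
  have hx1r : (1 : ℝ) ≤ x := by exact_mod_cast hx1
  set L : ℝ := Real.log x with hLdef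
  have hL0 : 0 < L := by linarith
  have hL1 : 1 ≤ L := by linarith
  have hY0 : (0 : ℝ) < Y := lt_of_lt_of_le (by positivity) hY1
  have hY : 1 ≤ Y := by exact_mod_cast hY0
  -- coefficients
  have hlogn : ∀ n ∈ Ioc x (9 * x), Real.log n + 1 ≤ 3 * L := by
    intro n hn
    rw [mem_Ioc] at hn
    have h5 : Real.log n ≤ Real.log (9 * x : ℝ) := by
      refine Real.log_le_log (by exact_mod_cast (by omega : 0 < n)) ?_
      exact_mod_cast hn.2
    have := (log_facts hx1 (by linarith : 2 ≤ Real.log x)).2.2.1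
    linarith
  have hcL : ∀ n ∈ Ioc x (9 * x), ‖cL χ n - (if χ = 1 then 1 else 0)‖ ≤ 3 * L := by
    intro n hn
    refine (norm_sub_le _ _).trans (le_trans (add_le_add ?_ ?_) (hlogn n hn))
    · unfold cL
      rw [norm_mul, Complex.norm_real, Real.norm_eq_abs,
        abs_of_nonneg ArithmeticFunction.vonMangoldt_nonneg]
      calc _ ≤ 1 * Real.log n := mul_le_mul (χ.norm_le_one _)
            ArithmeticFunction.vonMangoldt_le_log ArithmeticFunction.vonMangoldt_nonneg zero_le_one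
        _ = _ := one_mul _
    · split_ifs <;> simp
  have hcM : ∀ n ∈ Ioc x (9 * x), ‖cM χ n‖ ≤ 3 * L := by
    intro n hn
    unfold cM
    rw [norm_mul]
    have h5 : ‖((ArithmeticFunction.moebius n : ℤ) : ℂ)‖ ≤ 1 := by
      rw [Complex.norm_intCast]
      exact_mod_cast ArithmeticFunction.abs_moebius_le_one
    calc _ ≤ 1 * 1 := mul_le_mul (χ.norm_le_one _) h5 (norm_nonneg _) zero_le_one
      _ ≤ _ := by linarith
  rcases lt_or_ge x (10 * Y) with hYx | hYx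
  · -- long windows
    have hnt0 : ∀ n, nt 0 n = 1 := by intro n; unfold nt; simp
    have hpow : (x : ℝ) / L ^ (C₀ + U + 1) ≤ x / L ^ (U + 1) := by
      refine div_le_div_of_nonneg_left hx0.le (by positivity) (pow_le_pow_right₀ hL1 (by omega))
    constructor
    · refine sic_long U x Y hY hYx hY2 _ k2 fun x1 x2 g h => ?_
      have := (hlow x hxX2 q hq hqB χ 0 (by rw [abs_zero]; positivity) x1 x2 g h).1
      simp only [hnt0, mul_one] at this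
      exact this.trans hpow
    · refine sic_long U x Y hY hYx hY2 _ k2 fun x1 x2 g h => ?_
      have := (hlow x hxX2 q hq hqB χ 0 (by rw [abs_zero]; positivity) x1 x2 g h).2
      simp only [hnt0, mul_one] at this
      exact this.trans hpow
  -- short windows
  set T : ℝ := max ((x : ℝ) / Y * L ^ (U + 3)) (L ^ C₀) with hT
  have hT0 : L ^ C₀ ≤ T := le_max_right _ _
  have hT1 : (x : ℝ) / Y * L ^ (U + 3) ≤ T := le_max_left _ _
  have ha1 : 1 ≤ L ^ C₀ := one_le_pow₀ hL1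
  have hTC2 : T * L ^ C₂ ≤ (x : ℝ) ^ (2 / 3 : ℝ) := by
    rw [hT, max_mul_of_nonneg _ _ (by positivity)]
    refine max_le ?_ ?_
    · have h5 : (x : ℝ) = (x : ℝ) ^ (1 / 3 : ℝ) * (x : ℝ) ^ (2 / 3 : ℝ) := by
        rw [← Real.rpow_add hx0]; norm_num
      have h6 : (x : ℝ) / Y * L ^ (U + 3) * L ^ C₂ = x * L ^ (U + 3 + C₂) / Y := by
        rw [pow_add L (U + 3) C₂]; ring
      rw [h6, div_le_iff₀ hY0]
      calc (x : ℝ) * L ^ (U + 3 + C₂) =
            (x : ℝ) ^ (2 / 3 : ℝ) * ((x : ℝ) ^ (1 / 3 : ℝ) * L ^ (U + 3 + C₂)) := by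
            nth_rewrite 1 [h5]; ring
        _ ≤ _ := mul_le_mul_of_nonneg_left hY1 (by positivity)
    · rw [← pow_add]
      have h5 : (L ^ (C₀ + C₂)) ^ 2 ≤ ((x : ℝ) ^ (1 / 2 : ℝ)) ^ 2 := by
        rw [← pow_mul, mul_comm, ← Real.rpow_natCast ((x : ℝ) ^ (1 / 2 : ℝ)), ← Real.rpow_mul hx0.le]
        norm_num
        exact k3
      have h6 := (pow_le_pow_iff_left₀ (by positivity) (by positivity) two_ne_zero).1 h5
      refine h6.trans (Real.rpow_le_rpow_of_exponent_le hx1r (by norm_num))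
  have hTC1 : T * L ^ C₁ ≤ (x : ℝ) ^ (2 / 3 : ℝ) := by
    refine le_trans (mul_le_mul_of_nonneg_left ?_ (by linarith)) hTC2
    exact pow_le_pow_right₀ hL1 (by omega)
  have hT3 : T ^ 3 ≤ (x : ℝ) ^ 2 / L ^ (U + 1) := by
    rw [le_div_iff₀ (by positivity)]
    calc T ^ 3 * L ^ (U + 1) ≤ T ^ 3 * (L ^ C₂) ^ 3 := by
          refine mul_le_mul_of_nonneg_left ?_ (pow_nonneg (by linarith) 3)
          rw [← pow_mul]
          exact pow_le_pow_right₀ hL1 (by omega)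
      _ = (T * L ^ C₂) ^ 3 := by rw [mul_pow]
      _ ≤ ((x : ℝ) ^ (2 / 3 : ℝ)) ^ 3 :=
          pow_le_pow_left₀ (mul_nonneg (by linarith) (by positivity)) hTC2 3
      _ = (x : ℝ) ^ 2 := by
          rw [← Real.rpow_natCast ((x : ℝ) ^ (2 / 3 : ℝ)), ← Real.rpow_mul hx0.le]
          norm_num
  have hxC0 : (x : ℝ) ^ 2 / L ^ C₀ ≤ (x : ℝ) ^ 2 / L ^ (U + 1) := by
    refine div_le_div_of_nonneg_left (by positivity) (by positivity)
      (pow_le_pow_right₀ hL1 (le_max_right _ _))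
  have hcont : ∀ c : ℕ → ℂ, Continuous fun τ : ℝ => ‖∑ n ∈ Ioc x (9 * x), c n * nt τ n‖ ^ 2 := by
    intro c
    have : Continuous fun τ : ℝ => ∑ n ∈ Ioc x (9 * x), c n * nt τ n :=
      cont_sum _ _ (fun n => n) fun n hn => by rw [mem_Ioc] at hn; omega
    exact this.norm.pow 2
  constructor
  · -- the von Mangoldt function
    have hd := hdpl x hxX1 q hq hqB χ T hTC1 hT0 x (9 * x) le_rfl le_rfl (cL χ) (Or.inl rfl)
    set c : ℕ → ℂ := fun n => cL χ n - (if χ = 1 then 1 else 0) with hc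
    -- pointwise bound
    have hpt : ∀ τ : ℝ, 1 ≤ |τ| → ‖∑ n ∈ Ioc x (9 * x), c n * nt τ n‖ ^ 2 ≤
        2 * ‖∑ n ∈ Ioc x (9 * x), cL χ n * nt τ n‖ ^ 2 +
          2 * Cf ^ 2 * (450 * (x : ℝ) ^ 2 / τ ^ 2 + 32 * τ ^ 2) := by
      intro τ hτ
      have e : ∑ n ∈ Ioc x (9 * x), c n * nt τ n = ∑ n ∈ Ioc x (9 * x), cL χ n * nt τ n -
          (if χ = 1 then 1 else 0) * ∑ n ∈ Ioc x (9 * x), nt τ n := by
        rw [mul_sum, ← sum_sub_distrib]
        exact sum_congr rfl fun n _ => by rw [hc]; ring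
      have hcp := const_poly Cf hfd x hx1 τ hτ
      have hδ : ‖(if χ = 1 then (1 : ℂ) else 0) * ∑ n ∈ Ioc x (9 * x), nt τ n‖ ≤
          Cf * (15 * x / |τ| + 4 * |τ|) := by
        rw [norm_mul]
        calc _ ≤ 1 * (Cf * (15 * x / |τ| + 4 * |τ|)) := by
              refine mul_le_mul ?_ hcp (norm_nonneg _) zero_le_one
              split_ifs <;> simp
          _ = _ := one_mul _
      rw [e]
      set a := ‖∑ n ∈ Ioc x (9 * x), cL χ n * nt τ n‖ with ha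
      set b := Cf * (15 * x / |τ| + 4 * |τ|) with hb
      have h5 : ‖∑ n ∈ Ioc x (9 * x), cL χ n * nt τ n -
          (if χ = 1 then (1 : ℂ) else 0) * ∑ n ∈ Ioc x (9 * x), nt τ n‖ ≤ a + b :=
        (norm_sub_le _ _).trans (by linarith)
      have h6 := pow_le_pow_left₀ (norm_nonneg _) h5 2
      have h7 : b ^ 2 ≤ Cf ^ 2 * (450 * (x : ℝ) ^ 2 / τ ^ 2 + 32 * τ ^ 2) := by
        rw [hb, mul_pow]
        refine mul_le_mul_of_nonneg_left ?_ (by positivity)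
        have h8 : (450 * (x : ℝ) ^ 2 / τ ^ 2 + 32 * τ ^ 2) =
            2 * (15 * x / |τ|) ^ 2 + 2 * (4 * |τ|) ^ 2 := by
          rw [div_pow, mul_pow, mul_pow, sq_abs]; ring
        rw [h8]
        exact two_sq _ _
      calc _ ≤ (a + b) ^ 2 := h6
        _ ≤ 2 * a ^ 2 + 2 * b ^ 2 := two_sq a b
        _ ≤ _ := by
            rw [mul_assoc 2 (Cf ^ 2)]
            exact add_le_add le_rfl (mul_le_mul_of_nonneg_left h7 (by norm_num))
    have hside : ∀ T1 T2 : ℝ, T1 ≤ T2 → (∀ τ ∈ Set.Icc T1 T2, 1 ≤ |τ|) →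
        ∫ τ in T1..T2, ‖∑ n ∈ Ioc x (9 * x), cL χ n * nt τ n‖ ^ 2 ≤
          (x : ℝ) ^ 2 / L ^ (U + 1) →
        ∫ τ in T1..T2, (450 * (x : ℝ) ^ 2 / τ ^ 2 + 32 * τ ^ 2) ≤
          450 * (x : ℝ) ^ 2 / L ^ C₀ + 11 * T ^ 3 →
        ∫ τ in T1..T2, ‖∑ n ∈ Ioc x (9 * x), c n * nt τ n‖ ^ 2 ≤
          D * ((x : ℝ) ^ 2 / L ^ (U + 1)) := by
      intro T1 T2 h12 hτ1 hI1 hI2
      have hg : IntervalIntegrable (fun τ : ℝ => 450 * (x : ℝ) ^ 2 / τ ^ 2 + 32 * τ ^ 2)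
          MeasureTheory.volume T1 T2 := by
        refine ContinuousOn.intervalIntegrable ?_
        rw [Set.uIcc_of_le h12]
        refine ContinuousOn.add (ContinuousOn.div continuousOn_const (by fun_prop) fun τ hτ => ?_)
          (by fun_prop)
        have := hτ1 τ hτ
        have : τ ≠ 0 := by
          rintro rfl
          rw [abs_zero] at this; linarith
        positivity
      have i1 := (hcont (cL χ)).intervalIntegrable (μ := MeasureTheory.volume) T1 T2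
      have h5 : ∫ τ in T1..T2, ‖∑ n ∈ Ioc x (9 * x), c n * nt τ n‖ ^ 2 ≤
          ∫ τ in T1..T2, (2 * ‖∑ n ∈ Ioc x (9 * x), cL χ n * nt τ n‖ ^ 2 +
            2 * Cf ^ 2 * (450 * (x : ℝ) ^ 2 / τ ^ 2 + 32 * τ ^ 2)) := by
        refine intervalIntegral.integral_mono_on h12 ((hcont c).intervalIntegrable _ _) ?_
          fun τ hτ => hpt τ (hτ1 τ hτ)
        exact (i1.const_mul 2).add (hg.const_mul _)
      rw [intervalIntegral.integral_add (i1.const_mul 2) (hg.const_mul _),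
        intervalIntegral.integral_const_mul, intervalIntegral.integral_const_mul] at h5
      have h6 : 2 * Cf ^ 2 * (∫ τ in T1..T2, (450 * (x : ℝ) ^ 2 / τ ^ 2 + 32 * τ ^ 2)) ≤
          2 * Cf ^ 2 * (461 * ((x : ℝ) ^ 2 / L ^ (U + 1))) := by
        refine mul_le_mul_of_nonneg_left (hI2.trans ?_) (by positivity)
        have : 450 * (x : ℝ) ^ 2 / L ^ C₀ = 450 * ((x : ℝ) ^ 2 / L ^ C₀) := by ring
        rw [this]
        linarith
      rw [hD]
      have e1 : (2 + 922 * Cf ^ 2) * ((x : ℝ) ^ 2 / L ^ (U + 1)) =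
          2 * ((x : ℝ) ^ 2 / L ^ (U + 1)) + 2 * Cf ^ 2 * (461 * ((x : ℝ) ^ 2 / L ^ (U + 1))) := by
        ring
      rw [e1]
      exact h5.trans (add_le_add (mul_le_mul_of_nonneg_left hI1 (by norm_num)) h6)
    refine sic_core Cw hCw hwin U C₀ x Y hY hYx T D hD0 c k1 hT0 hT1 hcL ?_ ?_ ?_
    · intro τ hτ
      exact (hlow x hxX2 q hq hqB χ τ hτ x (9 * x) le_rfl le_rfl).1
    · refine hside _ _ hT0 (fun τ hτ => ?_) hd.1 (int_pos _ _ _ (by linarith) hT0)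
      exact (ha1.trans hτ.1).trans (le_abs_self _)
    · refine hside _ _ (by linarith) (fun τ hτ => ?_) hd.2 (int_neg _ _ _ (by linarith) hT0)
      rw [abs_of_nonpos (by linarith [hτ.2])]
      linarith [hτ.2]
  · -- the Moebius function
    have hd := hdpl x hxX1 q hq hqB χ T hTC1 hT0 x (9 * x) le_rfl le_rfl (cM χ) (Or.inr rfl)
    have hD1 : 1 ≤ D := by rw [hD]; nlinarith [sq_nonneg Cf]
    have hbase : (x : ℝ) ^ 2 / L ^ (U + 1) ≤ D * ((x : ℝ) ^ 2 / L ^ (U + 1)) := by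
      have : 0 ≤ (x : ℝ) ^ 2 / L ^ (U + 1) := by positivity
      nlinarith
    refine sic_core Cw hCw hwin U C₀ x Y hY hYx T D hD0 (cM χ) k1 hT0 hT1 hcM ?_
      (hd.1.trans hbase) (hd.2.trans hbase)
    intro τ hτ
    exact (hlow x hxX2 q hq hqB χ τ hτ x (9 * x) le_rfl le_rfl).2

end Pool.Agent.V8H34.CR
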