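import Mathlib
import Pool.Agent.Q236.CR.Stm
import Pool.Agent.H370R2.MV
import Pool.Agent.H153R4.Pl

set_option autoImplicit false

namespace Pool.Agent.V8H34.CR.Win

open Finset MeasureTheory Pool.Agent.Q236.CR
open scoped ENNReal FourierTransform

/-- the sum over a multiplicative window -/
noncomputable def D (s : Finset ℕ) (a : ℕ → ℂ) (y k : ℝ) : ℂ :=
  ∑ n ∈ s, if y < n ∧ (n : ℝ) ≤ y * Real.exp k then a n else 0

/-- the Dirichlet polynomial -/
noncomputable def A (s : Finset ℕ) (a : ℕ → ℂ) (τ : ℝ) : ℂ := ∑ n ∈ s, a n * nt τ n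

/-- the kernel -/
noncomputable def K (k ξ : ℝ) : ℂ := ∫ v in (-k)..0, Complex.exp (((-2 * Real.pi * v * ξ : ℝ) : ℂ) * Complex.I)

lemma nt_exp (τ : ℝ) {n : ℕ} (hn : 1 ≤ n) :
    nt τ n = Complex.exp (((-(τ * Real.log n) : ℝ) : ℂ) * Complex.I) := by
  have hn0 : (0 : ℝ) < n := by exact_mod_cast hn
  unfold nt
  rw [Complex.cpow_def_of_ne_zero (by exact_mod_cast hn0.ne'), ← Complex.natCast_log]
  congr 1; push_cast; ring

lemma D_exp {s : Finset ℕ} (hs : ∀ n ∈ s, 1 ≤ n) (a : ℕ → ℂ) (k u : ℝ) :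
    D s a (Real.exp u) k =
      ∑ n ∈ s, (Set.Ico (Real.log n - k) (Real.log n)).indicator (fun _ => a n) u := by
  unfold D
  refine sum_congr rfl fun n hn => ?_
  have hn0 : (0 : ℝ) < n := by exact_mod_cast hs n hn
  have e1 : Real.exp u < n ↔ u < Real.log n := (Real.lt_log_iff_exp_lt hn0).symm
  have e2 : (n : ℝ) ≤ Real.exp u * Real.exp k ↔ Real.log n - k ≤ u := by
    rw [← Real.exp_add, ← Real.log_le_iff_le_exp hn0]
    constructor <;> intro h <;> linarith
  rw [Set.indicator_apply]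
  refine if_congr ?_ rfl rfl
  rw [Set.mem_Ico, e1, e2, and_comm]

lemma K_le {k ξ : ℝ} (hk : 0 ≤ k) : ‖K k ξ‖ ≤ k := by
  unfold K
  have := intervalIntegral.norm_integral_le_of_norm_le_const (a := -k) (b := 0) (C := 1)
    (f := fun v : ℝ => Complex.exp (((-2 * Real.pi * v * ξ : ℝ) : ℂ) * Complex.I))
    (fun v _ => by rw [Complex.norm_exp_ofReal_mul_I])
  refine this.trans (le_of_eq ?_)
  rw [one_mul, sub_neg_eq_add, zero_add, abs_of_nonneg hk]

lemma K_le' {k ξ : ℝ} (hξ : ξ ≠ 0) : ‖K k ξ‖ ≤ 1 / (Real.pi * |ξ|) := by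
  have hpi := Real.pi_pos
  have hc : (((-2 * Real.pi * ξ : ℝ) : ℂ) * Complex.I) ≠ 0 := by
    refine mul_ne_zero ?_ Complex.I_ne_zero
    have : (-2 * Real.pi * ξ : ℝ) ≠ 0 := by
      refine mul_ne_zero (mul_ne_zero (by norm_num) hpi.ne') hξ
    exact_mod_cast this
  unfold K
  have e : ∀ v : ℝ, Complex.exp (((-2 * Real.pi * v * ξ : ℝ) : ℂ) * Complex.I) =
      Complex.exp ((((-2 * Real.pi * ξ : ℝ) : ℂ) * Complex.I) * v) := by
    intro v; congr 1; push_cast; ring
  simp_rw [e]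
  rw [integral_exp_mul_complex hc, norm_div]
  have h1 : ‖(((-2 * Real.pi * ξ : ℝ) : ℂ) * Complex.I)‖ = 2 * Real.pi * |ξ| := by
    rw [norm_mul, Complex.norm_I, mul_one, Complex.norm_real, Real.norm_eq_abs, abs_mul, abs_mul,
      abs_neg, abs_two, abs_of_pos hpi]
  have h2 : ∀ v : ℝ, ‖Complex.exp ((((-2 * Real.pi * ξ : ℝ) : ℂ) * Complex.I) * v)‖ = 1 := by
    intro v
    rw [← e, Complex.norm_exp_ofReal_mul_I]
  rw [h1]
  have h3 : ‖Complex.exp ((((-2 * Real.pi * ξ : ℝ) : ℂ) * Complex.I) * (0 : ℝ)) -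
      Complex.exp ((((-2 * Real.pi * ξ : ℝ) : ℂ) * Complex.I) * (-k : ℝ))‖ ≤ 2 := by
    refine (norm_sub_le _ _).trans ?_
    rw [h2, h2]; norm_num
  have hx : 0 < |ξ| := abs_pos.mpr hξ
  refine (div_le_div_of_nonneg_right h3 (by positivity)).trans (le_of_eq ?_)
  field_simp

/-- the Fourier transform of the window function -/
lemma four {s : Finset ℕ} (hs : ∀ n ∈ s, 1 ≤ n) (a : ℕ → ℂ) {k : ℝ} (hk : 0 ≤ k) (ξ : ℝ) :
    𝓕 (fun u => D s a (Real.exp u) k) ξ = A s a (2 * Real.pi * ξ) * K k ξ := by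
  rw [Real.fourier_real_eq_integral_exp_smul]
  simp_rw [D_exp hs, smul_eq_mul, mul_sum]
  rw [integral_finsetSum]
  · unfold A
    rw [sum_mul]
    refine sum_congr rfl fun n hn => ?_
    have e1 : ∀ v : ℝ, Complex.exp (((-2 * Real.pi * v * ξ : ℝ) : ℂ) * Complex.I) *
        (Set.Ico (Real.log n - k) (Real.log n)).indicator (fun _ => a n) v =
        (Set.Ico (Real.log n - k) (Real.log n)).indicator
          (fun v => Complex.exp (((-2 * Real.pi * v * ξ : ℝ) : ℂ) * Complex.I) * a n) v := by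
      intro v
      rw [Set.indicator_apply, Set.indicator_apply]
      split_ifs <;> simp
    simp_rw [e1]
    rw [integral_indicator measurableSet_Ico, integral_Ico_eq_integral_Ioc,
      ← intervalIntegral.integral_of_le (by linarith), intervalIntegral.integral_mul_const]
    have e2 : ∫ v in (Real.log n - k)..(Real.log n),
        Complex.exp (((-2 * Real.pi * v * ξ : ℝ) : ℂ) * Complex.I) =
        nt (2 * Real.pi * ξ) n * K k ξ := by
      have := intervalIntegral.integral_comp_add_right (a := -k) (b := 0)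
        (fun v : ℝ => Complex.exp (((-2 * Real.pi * v * ξ : ℝ) : ℂ) * Complex.I)) (Real.log n)
      rw [zero_add, neg_add_eq_sub] at this
      rw [← this]
      unfold K
      rw [← intervalIntegral.integral_const_mul]
      refine intervalIntegral.integral_congr fun v _ => ?_
      rw [nt_exp _ (hs n hn), ← Complex.exp_add]
      congr 1; push_cast; ring
    rw [e2]; ring
  · intro n hn
    have : Integrable ((Set.Ico (Real.log n - k) (Real.log n)).indicator
        (fun v : ℝ => Complex.exp (((-2 * Real.pi * v * ξ : ℝ) : ℂ) * Complex.I) * a n)) := by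
      rw [integrable_indicator_iff measurableSet_Ico]
      refine ((Continuous.integrableOn_Icc ?_).mono_set Set.Ico_subset_Icc_self)
      fun_prop
    refine this.congr (Filter.Eventually.of_forall fun v => ?_)
    simp only
    rw [Set.indicator_apply, Set.indicator_apply]
    split_ifs <;> simp

lemma ind_int (b c : ℝ) (z : ℂ) : Integrable ((Set.Ico b c).indicator (fun _ : ℝ => z)) := by
  rw [integrable_indicator_iff measurableSet_Ico]
  exact integrableOn_const (by simp) (by simp)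

lemma ind_mem (b c : ℝ) (z : ℂ) : MemLp ((Set.Ico b c).indicator (fun _ : ℝ => z)) 2 := by
  exact memLp_indicator_const 2 measurableSet_Ico z (Or.inr (by simp))

/-- Plancherel -/
lemma planch {s : Finset ℕ} (hs : ∀ n ∈ s, 1 ≤ n) (a : ℕ → ℂ) {k : ℝ} (hk : 0 ≤ k) :
    ∫⁻ u, ‖D s a (Real.exp u) k‖ₑ ^ 2 = ∫⁻ ξ, ‖A s a (2 * Real.pi * ξ) * K k ξ‖ₑ ^ 2 := by
  have e : (fun u => D s a (Real.exp u) k) = fun u =>
      ∑ n ∈ s, (Set.Ico (Real.log n - k) (Real.log n)).indicator (fun _ => a n) u := by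
    funext u; exact D_exp hs a k u
  have h1 : Integrable (fun u => D s a (Real.exp u) k) := by
    rw [e]
    exact integrable_finsetSum _ fun n _ => ind_int _ _ _
  have h2 : MemLp (fun u => D s a (Real.exp u) k) 2 := by
    rw [e]
    exact memLp_finsetSum _ fun n _ => ind_mem _ _ _
  have h3 := Pool.Agent.H153R4.plancherel _ h1 h2
  rw [← h3]
  refine lintegral_congr fun ξ => ?_
  rw [four hs a hk]

lemma A_cont {s : Finset ℕ} (hs : ∀ n ∈ s, 1 ≤ n) (a : ℕ → ℂ) : Continuous (A s a) := by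
  have : A s a = fun τ => ∑ n ∈ s, a n * Complex.exp (((-(τ * Real.log n) : ℝ) : ℂ) * Complex.I) := by
    funext τ
    exact sum_congr rfl fun n hn => by rw [nt_exp τ (hs n hn)]
  rw [this]
  fun_prop

/-- the tail of a function with linearly growing integrals -/
lemma tail (g : ℝ → ℝ) (hg : Continuous g) (g0 : ∀ t, 0 ≤ g t) (E S T : ℝ) (hE : 0 ≤ E) (hS : 0 ≤ S)
    (hT : 1 ≤ T) (h : ∀ t1 t2 : ℝ, t1 ≤ t2 → ∫ t in t1..t2, g t ≤ (t2 - t1 + E) * S) :
    ∫⁻ t in Set.Ioi T, ENNReal.ofReal (g t / t ^ 2) ≤ ENNReal.ofReal (2 * ((1 / T + E / T ^ 2) * S)) := by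
  have hT0 : 0 < T := by linarith
  have hsub : Set.Ioi T ⊆ ⋃ j : ℕ, Set.Icc (2 ^ j * T) (2 ^ (j + 1) * T) := by
    intro t ht
    rw [Set.mem_Ioi] at ht
    obtain ⟨j, h1, h2⟩ := exists_nat_pow_near (x := t / T) (y := 2)
      (by rw [le_div_iff₀ hT0]; linarith) (by norm_num)
    rw [Set.mem_iUnion]
    refine ⟨j, ?_, ?_⟩
    · rwa [le_div_iff₀ hT0] at h1
    · rw [div_lt_iff₀ hT0] at h2
      exact h2.le
  refine (lintegral_mono_set hsub).trans ((lintegral_iUnion_le _ _).trans ?_)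
  have hj : ∀ j : ℕ, ∫⁻ t in Set.Icc (2 ^ j * T) (2 ^ (j + 1) * T), ENNReal.ofReal (g t / t ^ 2) ≤
      ENNReal.ofReal (((1 / T + E / T ^ 2) * S)) * ENNReal.ofReal (1 / 2) ^ j := by
    intro j
    have hp : (1 : ℝ) ≤ 2 ^ j := one_le_pow₀ (by norm_num)
    have hb : 0 < 2 ^ j * T := by positivity
    have h1 : ∫⁻ t in Set.Icc (2 ^ j * T) (2 ^ (j + 1) * T), ENNReal.ofReal (g t / t ^ 2) ≤
        ∫⁻ t in Set.Icc (2 ^ j * T) (2 ^ (j + 1) * T), ENNReal.ofReal (g t / (2 ^ j * T) ^ 2) := by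
      refine setLIntegral_mono' measurableSet_Icc fun t ht => ENNReal.ofReal_le_ofReal ?_
      refine div_le_div_of_nonneg_left (g0 t) (by positivity) ?_
      exact pow_le_pow_left₀ hb.le ht.1 2
    refine h1.trans ?_
    rw [← ofReal_integral_eq_lintegral_ofReal]
    · rw [← ENNReal.ofReal_pow (by norm_num), ← ENNReal.ofReal_mul (by positivity)]
      refine ENNReal.ofReal_le_ofReal ?_
      rw [integral_Icc_eq_integral_Ioc, ← intervalIntegral.integral_of_le (by
        rw [pow_succ]; nlinarith), intervalIntegral.integral_div, div_le_iff₀ (by positivity)]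
      refine (h _ _ (by rw [pow_succ]; nlinarith)).trans ?_
      have e1 : (2 : ℝ) ^ (j + 1) * T - 2 ^ j * T + E = 2 ^ j * T + E := by rw [pow_succ]; ring
      rw [e1]
      have e2 : (1 / T + E / T ^ 2) * S * (1 / 2) ^ j * (2 ^ j * T) ^ 2 =
          (2 ^ j * T + 2 ^ j * E) * S := by
        have : (1 / 2 : ℝ) ^ j * 2 ^ j = 1 := by rw [← mul_pow]; norm_num
        have h3 : (1 / T + E / T ^ 2) * T ^ 2 = T + E := by field_simp
        calc _ = ((1 / T + E / T ^ 2) * T ^ 2) * S * ((1 / 2) ^ j * 2 ^ j) * 2 ^ j := by ring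
          _ = _ := by rw [this, h3]; ring
      rw [e2]
      refine mul_le_mul_of_nonneg_right ?_ hS
      nlinarith
    · refine (Continuous.integrableOn_Icc ?_)
      fun_prop
    · exact Filter.Eventually.of_forall fun t => div_nonneg (g0 t) (by positivity)
  refine (ENNReal.tsum_le_tsum hj).trans ?_
  rw [ENNReal.tsum_mul_left, ENNReal.tsum_geometric]
  have e3 : (1 - ENNReal.ofReal (1 / 2))⁻¹ = ENNReal.ofReal 2 := by
    rw [← ENNReal.ofReal_one, ← ENNReal.ofReal_sub _ (by norm_num), ← ENNReal.ofReal_inv_of_pos (by norm_num)]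
    norm_num
  rw [e3, ← ENNReal.ofReal_mul (by positivity)]
  refine ENNReal.ofReal_le_ofReal (le_of_eq (by ring))

lemma plan_le {s : Finset ℕ} (hs : ∀ n ∈ s, 1 ≤ n) (a : ℕ → ℂ) {k : ℝ} (hk : 0 ≤ k) (E S T : ℝ)
    (hE : 0 ≤ E) (hS : 0 ≤ S) (hT : 1 ≤ T)
    (h : ∀ t1 t2 : ℝ, t1 ≤ t2 → ∫ t in t1..t2, ‖A s a t‖ ^ 2 ≤ (t2 - t1 + E) * S) :
    ∫⁻ u, ‖D s a (Real.exp u) k‖ₑ ^ 2 ≤
      ENNReal.ofReal ((2 * Real.pi)⁻¹ * (k ^ 2 * (∫ t in (-T)..T, ‖A s a t‖ ^ 2) +
        16 * ((1 / T + E / T ^ 2) * S))) := by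
  have hT0 : 0 < T := by linarith
  have hpi := Real.pi_pos
  have hA := A_cont hs a
  set g : ℝ → ℝ := fun t => ‖A s a t‖ ^ 2 with hg
  have hgc : Continuous g := by fun_prop
  have g0 : ∀ t, 0 ≤ g t := fun t => by positivity
  set h1 : ℝ → ℝ≥0∞ := (Set.Icc (-T) T).indicator (fun t => ENNReal.ofReal (k ^ 2 * g t)) with hh1
  set h2 : ℝ → ℝ≥0∞ := (Set.Ioi T).indicator (fun t => ENNReal.ofReal (4 * (g t / t ^ 2))) with hh2
  set h3 : ℝ → ℝ≥0∞ := (Set.Ioi T).indicator (fun t => ENNReal.ofReal (4 * (g (-t) / t ^ 2))) with hh3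
  have m1 : Measurable h1 := by
    refine Measurable.indicator ?_ measurableSet_Icc
    exact (ENNReal.measurable_ofReal).comp (by fun_prop)
  have m2 : Measurable h2 := by
    refine Measurable.indicator ?_ measurableSet_Ioi
    exact (ENNReal.measurable_ofReal).comp (by fun_prop)
  have m3 : Measurable h3 := by
    refine Measurable.indicator ?_ measurableSet_Ioi
    exact (ENNReal.measurable_ofReal).comp (by fun_prop)
  have hpt : ∀ ξ : ℝ, ‖A s a (2 * Real.pi * ξ) * K k ξ‖ₑ ^ 2 ≤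
      (fun t => h1 t + (h2 t + h3 (-t))) (2 * Real.pi * ξ) := by
    intro ξ
    have e0 : ‖A s a (2 * Real.pi * ξ) * K k ξ‖ₑ ^ 2 =
        ENNReal.ofReal (g (2 * Real.pi * ξ) * ‖K k ξ‖ ^ 2) := by
      rw [← ofReal_norm, ← ENNReal.ofReal_pow (norm_nonneg _), norm_mul, mul_pow]
    rw [e0]
    beta_reduce
    set τ := 2 * Real.pi * ξ with hτ
    by_cases c1 : τ ∈ Set.Icc (-T) T
    · have : h1 τ = ENNReal.ofReal (k ^ 2 * g τ) := Set.indicator_of_mem c1 _
      refine le_trans ?_ (le_add_right le_rfl)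
      rw [this]
      refine ENNReal.ofReal_le_ofReal ?_
      rw [mul_comm]
      exact mul_le_mul_of_nonneg_right (pow_le_pow_left₀ (norm_nonneg _) (K_le hk) 2) (g0 _)
    · have hτ0 : τ ≠ 0 := by
        intro h0
        apply c1
        rw [h0]; constructor <;> linarith
      have hξ0 : ξ ≠ 0 := by
        intro h0; apply hτ0; rw [hτ, h0, mul_zero]
      have hK : ‖K k ξ‖ ^ 2 ≤ 4 / τ ^ 2 := by
        have := pow_le_pow_left₀ (norm_nonneg _) (K_le' (k := k) hξ0) 2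
        refine this.trans (le_of_eq ?_)
        rw [hτ, div_pow, mul_pow, sq_abs, mul_pow, mul_pow]
        field_simp
        norm_num
      have hb : ENNReal.ofReal (g τ * ‖K k ξ‖ ^ 2) ≤ ENNReal.ofReal (4 * (g τ / τ ^ 2)) := by
        refine ENNReal.ofReal_le_ofReal ?_
        calc g τ * ‖K k ξ‖ ^ 2 ≤ g τ * (4 / τ ^ 2) := mul_le_mul_of_nonneg_left hK (g0 _)
          _ = 4 * (g τ / τ ^ 2) := by ring
      refine hb.trans (le_trans ?_ (le_add_left le_rfl))
      rcases lt_or_ge T τ with c2 | c2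
      · have : h2 τ = ENNReal.ofReal (4 * (g τ / τ ^ 2)) := Set.indicator_of_mem (Set.mem_Ioi.mpr c2) _
        rw [this]
        exact le_add_right le_rfl
      · have c3 : T < -τ := by
          by_contra h0
          push Not at h0
          exact c1 ⟨by linarith, c2⟩
        have : h3 (-τ) = ENNReal.ofReal (4 * (g (- -τ) / (-τ) ^ 2)) :=
          Set.indicator_of_mem (Set.mem_Ioi.mpr c3) _
        rw [this, neg_neg, neg_sq]
        exact le_add_left le_rfl
  rw [planch hs a hk]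
  refine (lintegral_mono hpt).trans ?_
  have hmeas : Measurable (fun t => h1 t + (h2 t + h3 (-t))) := by
    exact m1.add (m2.add (m3.comp measurable_neg))
  have e1 : ∫⁻ ξ, (fun t => h1 t + (h2 t + h3 (-t))) (2 * Real.pi * ξ) =
      ENNReal.ofReal |(2 * Real.pi)⁻¹| * ∫⁻ t, (h1 t + (h2 t + h3 (-t))) := by
    rw [← lintegral_map (μ := volume) hmeas (measurable_const_mul (2 * Real.pi)),
      Real.map_volume_mul_left (by positivity), lintegral_smul_measure, smul_eq_mul]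
  rw [e1, abs_of_pos (by positivity), ENNReal.ofReal_mul (by positivity)]
  gcongr
  rw [lintegral_add_left m1, lintegral_add_left m2, lintegral_neg_eq_self h3,
    lintegral_indicator measurableSet_Icc, lintegral_indicator measurableSet_Ioi,
    lintegral_indicator measurableSet_Ioi]
  have t1 : ∫⁻ t in Set.Icc (-T) T, ENNReal.ofReal (k ^ 2 * g t) =
      ENNReal.ofReal (k ^ 2 * ∫ t in (-T)..T, g t) := by
    rw [← ofReal_integral_eq_lintegral_ofReal]
    · rw [integral_Icc_eq_integral_Ioc, ← intervalIntegral.integral_of_le (by linarith),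
        intervalIntegral.integral_const_mul]
    · exact (Continuous.integrableOn_Icc (by fun_prop))
    · exact Filter.Eventually.of_forall fun t => mul_nonneg (by positivity) (g0 t)
  have t2 : ∫⁻ t in Set.Ioi T, ENNReal.ofReal (4 * (g t / t ^ 2)) ≤
      ENNReal.ofReal (8 * ((1 / T + E / T ^ 2) * S)) := by
    have := tail g hgc g0 E S T hE hS hT h
    simp_rw [ENNReal.ofReal_mul (p := 4) (by norm_num)]
    rw [lintegral_const_mul' _ _ (by simp)]
    refine (mul_le_mul_right this _).trans ?_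
    rw [← ENNReal.ofReal_mul (by norm_num)]
    exact ENNReal.ofReal_le_ofReal (le_of_eq (by ring))
  have t3 : ∫⁻ t in Set.Ioi T, ENNReal.ofReal (4 * (g (-t) / t ^ 2)) ≤
      ENNReal.ofReal (8 * ((1 / T + E / T ^ 2) * S)) := by
    have := tail (fun t => g (-t)) (by fun_prop) (fun t => g0 _) E S T hE hS hT (by
      intro t1 t2 ht
      rw [intervalIntegral.integral_comp_neg]
      refine (h (-t2) (-t1) (by linarith)).trans (le_of_eq (by ring)))
    simp_rw [ENNReal.ofReal_mul (p := 4) (by norm_num)]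
    rw [lintegral_const_mul' _ _ (by simp)]
    refine (mul_le_mul_right this _).trans ?_
    rw [← ENNReal.ofReal_mul (by norm_num)]
    exact ENNReal.ofReal_le_ofReal (le_of_eq (by ring))
  rw [t1]
  refine (add_le_add_right (add_le_add t2 t3) _).trans ?_
  have hI : 0 ≤ ∫ t in (-T)..T, g t := intervalIntegral.integral_nonneg (by linarith) fun t _ => g0 t
  rw [← ENNReal.ofReal_add (by positivity) (by positivity), ← ENNReal.ofReal_add (by positivity) (by positivity)]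
  exact ENNReal.ofReal_le_ofReal (le_of_eq (by ring))

lemma D_meas (s : Finset ℕ) (a : ℕ → ℂ) : Measurable (fun p : ℝ × ℝ => D s a p.1 p.2) := by
  unfold D
  refine Finset.measurable_fun_sum _ fun n _ => ?_
  refine Measurable.ite ?_ measurable_const measurable_const
  exact (measurableSet_lt measurable_fst measurable_const).inter
    (measurableSet_le measurable_const (measurable_fst.mul (Real.measurable_exp.comp measurable_snd)))

lemma cv (s : Finset ℕ) (a : ℕ → ℂ) (k : ℝ) {b : ℝ} (hb : 0 < b) :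
    ∫⁻ y in Set.Icc b (4 * b), ‖D s a y k‖ₑ ^ 2 ≤
      ENNReal.ofReal (4 * b) * ∫⁻ u, ‖D s a (Real.exp u) k‖ₑ ^ 2 := by
  have h1 : Set.Icc b (4 * b) ⊆ Real.exp '' (Set.Icc (Real.log b) (Real.log (4 * b))) := by
    intro y hy
    have hy0 : 0 < y := lt_of_lt_of_le hb hy.1
    exact ⟨Real.log y, ⟨Real.log_le_log hb hy.1, Real.log_le_log hy0 hy.2⟩, Real.exp_log hy0⟩
  refine (lintegral_mono_set h1).trans ?_
  rw [lintegral_image_eq_lintegral_abs_deriv_mul measurableSet_Icc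
    (fun u _ => (Real.hasDerivAt_exp u).hasDerivWithinAt) Real.exp_injective.injOn]
  rw [← lintegral_const_mul' _ _ ENNReal.ofReal_ne_top]
  refine le_trans ?_ (setLIntegral_le_lintegral (Set.Icc (Real.log b) (Real.log (4 * b))) _)
  refine setLIntegral_mono' measurableSet_Icc fun u hu => ?_
  gcongr
  rw [abs_of_pos (Real.exp_pos _), ← Real.le_log_iff_exp_le (by positivity)]
  exact hu.2

/-- the additive window -/
noncomputable def W (s : Finset ℕ) (a : ℕ → ℂ) (Y y : ℝ) : ℂ :=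
  ∑ n ∈ s, if y < n ∧ (n : ℝ) ≤ y + Y then a n else 0

lemma W_eq (s : Finset ℕ) (a : ℕ → ℂ) {Y y k : ℝ} (hY : 0 ≤ Y) (hy : 0 < y) (hk : y + Y ≤ y * Real.exp k) :
    W s a Y y = D s a y k - D s a (y + Y) (k - Real.log (1 + Y / y)) := by
  unfold W D
  rw [← sum_sub_distrib]
  refine sum_congr rfl fun n _ => ?_
  have e : (y + Y) * Real.exp (k - Real.log (1 + Y / y)) = y * Real.exp k := by
    rw [Real.exp_sub, Real.exp_log (by positivity)]
    have : (1 + Y / y) = (y + Y) / y := by field_simp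
    rw [this]
    have : y + Y ≠ 0 := by positivity
    field_simp
  rw [e]
  by_cases h1 : y < n
  · by_cases h2 : (n : ℝ) ≤ y + Y
    · rw [if_pos ⟨h1, h2⟩, if_pos ⟨h1, h2.trans hk⟩, if_neg (fun h => absurd h.1 (not_lt.mpr h2)), sub_zero]
    · rw [if_neg (fun h => h2 h.2)]
      push Not at h2
      by_cases h3 : (n : ℝ) ≤ y * Real.exp k
      · rw [if_pos ⟨h1, h3⟩, if_pos ⟨h2, h3⟩, sub_self]
      · rw [if_neg (fun h => h3 h.2), if_neg (fun h => h3 h.2), sub_self]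
  · rw [if_neg (fun h => h1 h.1), if_neg (fun h => h1 h.1), if_neg (fun h => h1 (by linarith [h.1])), sub_self]

lemma two_sq (z w : ℂ) : ‖z - w‖ₑ ^ 2 ≤ 2 * ‖z‖ₑ ^ 2 + 2 * ‖w‖ₑ ^ 2 := by
  have h : ∀ z : ℂ, ‖z‖ₑ ^ 2 = ENNReal.ofReal (‖z‖ ^ 2) := fun z => by
    rw [← ofReal_norm, ← ENNReal.ofReal_pow (norm_nonneg _)]
  have h2 : (2 : ℝ≥0∞) = ENNReal.ofReal 2 := by simp
  rw [h, h, h, h2, ← ENNReal.ofReal_mul (by norm_num), ← ENNReal.ofReal_mul (by norm_num),
    ← ENNReal.ofReal_add (by positivity) (by positivity)]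
  refine ENNReal.ofReal_le_ofReal ?_
  have := norm_sub_le z w
  nlinarith [norm_nonneg (z - w), norm_nonneg z, norm_nonneg w, sq_nonneg (‖z‖ - ‖w‖)]

/-- averaged window -/
noncomputable def Psi (s : Finset ℕ) (a : ℕ → ℂ) (k₀ y : ℝ) : ℝ≥0∞ :=
  ∫⁻ k in Set.Icc (k₀ / 2) (2 * k₀), ‖D s a y k‖ₑ ^ 2

lemma sv (s : Finset ℕ) (a : ℕ → ℂ) {x Y y k₀ : ℝ} (hx : 0 < x) (hY : 0 < Y) (hy : x ≤ y)
    (hk₀ : k₀ = 2 * Y / x) :
    ENNReal.ofReal k₀ * ‖W s a Y y‖ₑ ^ 2 ≤ 2 * Psi s a k₀ y + 2 * Psi s a k₀ (y + Y) := by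
  have hy0 : 0 < y := by linarith
  have hk0 : 0 < k₀ := by rw [hk₀]; positivity
  set c := Real.log (1 + Y / y) with hc
  have hc0 : 0 ≤ c := Real.log_nonneg (by have : 0 < Y / y := by positivity
                                          linarith)
  have hc1 : c ≤ k₀ / 2 := by
    have h1 := Real.log_le_sub_one_of_pos (x := 1 + Y / y) (by positivity)
    have h2 : Y / y ≤ Y / x := div_le_div_of_nonneg_left hY.le hx hy
    have h3 : k₀ / 2 = Y / x := by rw [hk₀]; field_simp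
    rw [h3]; linarith
  have m1 : ∀ z : ℝ, Measurable (fun k => D s a z k) := fun z =>
    (D_meas s a).comp (measurable_const.prodMk measurable_id)
  have e1 : ENNReal.ofReal k₀ * ‖W s a Y y‖ₑ ^ 2 =
      ∫⁻ k in Set.Icc k₀ (2 * k₀), ‖W s a Y y‖ₑ ^ 2 := by
    rw [setLIntegral_const, Real.volume_Icc, mul_comm]
    congr 2
    ring
  rw [e1]
  have h1 : ∫⁻ k in Set.Icc k₀ (2 * k₀), ‖W s a Y y‖ₑ ^ 2 ≤
      ∫⁻ k in Set.Icc k₀ (2 * k₀), (2 * ‖D s a y k‖ₑ ^ 2 + 2 * ‖D s a (y + Y) (k - c)‖ₑ ^ 2) := by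
    refine setLIntegral_mono' measurableSet_Icc fun k hk => ?_
    have hb : y + Y ≤ y * Real.exp k := by
      have h2 := Real.add_one_le_exp k
      have h3 : y * (k₀ + 1) ≤ y * Real.exp k := mul_le_mul_of_nonneg_left (by linarith [hk.1]) hy0.le
      have h4 : x * k₀ = 2 * Y := by rw [hk₀]; field_simp
      have h5 : x * k₀ ≤ y * k₀ := mul_le_mul_of_nonneg_right hy hk0.le
      linarith
    rw [W_eq s a hY.le hy0 hb]
    exact two_sq _ _
  refine h1.trans ?_
  rw [lintegral_add_left (((m1 y).enorm.pow_const 2).const_mul 2),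
    lintegral_const_mul' _ _ (by simp), lintegral_const_mul' _ _ (by simp)]
  refine add_le_add ?_ ?_
  · gcongr
    exact lintegral_mono_set (Set.Icc_subset_Icc_left (by linarith))
  · gcongr
    unfold Psi
    rw [← lintegral_indicator measurableSet_Icc, ← lintegral_indicator measurableSet_Icc,
      ← lintegral_sub_right_eq_self (fun k => (Set.Icc (k₀ / 2) (2 * k₀)).indicator
        (fun k => ‖D s a (y + Y) k‖ₑ ^ 2) k) c]
    refine lintegral_mono fun k => ?_
    rw [Set.indicator_apply, Set.indicator_apply]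
    by_cases hk : k ∈ Set.Icc k₀ (2 * k₀)
    · rw [if_pos hk, if_pos ⟨by linarith [hk.1], by linarith [hk.2]⟩]
    · rw [if_neg hk]
      exact zero_le

lemma sum_win (a : ℕ → ℂ) {x Y : ℕ} (hY : 10 * Y ≤ x) {m : ℕ} (hm : m ∈ Ioc x (2 * x)) {y : ℝ}
    (hy : y ∈ Set.Ico (m : ℝ) (m + 1)) :
    ∑ n ∈ Ioc m (m + Y), a n = W (Ioc x (9 * x)) a Y y := by
  unfold W
  rw [← sum_filter]
  refine sum_congr ?_ fun _ _ => rfl
  rw [mem_Ioc] at hm
  ext n
  rw [mem_filter, mem_Ioc, mem_Ioc]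
  constructor
  · rintro ⟨h1, h2⟩
    refine ⟨⟨by omega, by omega⟩, ?_, ?_⟩
    · have : (m : ℝ) + 1 ≤ n := by exact_mod_cast h1
      linarith [hy.2]
    · have : (n : ℝ) ≤ m + Y := by exact_mod_cast h2
      linarith [hy.1]
  · rintro ⟨_, h1, h2⟩
    constructor
    · have : (m : ℝ) < n := by linarith [hy.1]
      exact_mod_cast this
    · have : (n : ℝ) < m + Y + 1 := by linarith [hy.2]
      have : n < m + Y + 1 := by exact_mod_cast this
      omega

theorem main (a : ℕ → ℂ) (x Y : ℕ) (T E S : ℝ) (hY : 1 ≤ Y) (hYx : 10 * Y ≤ x) (hT : 1 ≤ T)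
    (hE : 0 ≤ E) (hS : 0 ≤ S)
    (h : ∀ t1 t2 : ℝ, t1 ≤ t2 → ∫ t in t1..t2, ‖A (Ioc x (9 * x)) a t‖ ^ 2 ≤ (t2 - t1 + E) * S) :
    ∑ m ∈ Ioc x (2 * x), ‖∑ n ∈ Ioc m (m + Y), a n‖ ^ 2 ≤
      6 * (4 * x * ((2 * Real.pi)⁻¹ * ((4 * Y / x) ^ 2 * (∫ t in (-T)..T, ‖A (Ioc x (9 * x)) a t‖ ^ 2) +
        16 * ((1 / T + E / T ^ 2) * S)))) := by
  have hpi := Real.pi_pos
  have hx10 : 10 ≤ x := by omega
  have hx0 : (0 : ℝ) < x := by exact_mod_cast (by omega : 0 < x)
  have hx1 : (10 : ℝ) ≤ x := by exact_mod_cast hx10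
  have hY0 : (0 : ℝ) < Y := by exact_mod_cast hY
  have hYx' : 10 * (Y : ℝ) ≤ x := by exact_mod_cast hYx
  set s := Ioc x (9 * x) with hs
  have hs1 : ∀ n ∈ s, 1 ≤ n := fun n hn => by rw [hs, mem_Ioc] at hn; omega
  set k₀ : ℝ := 2 * Y / x with hk₀
  have hk0 : 0 < k₀ := by positivity
  set I := ∫ t in (-T)..T, ‖A s a t‖ ^ 2 with hI
  have hI0 : 0 ≤ I := intervalIntegral.integral_nonneg (by linarith) fun t _ => by positivity
  set Q := (2 * Real.pi)⁻¹ * ((4 * Y / x) ^ 2 * I + 16 * ((1 / T + E / T ^ 2) * S)) with hQ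
  have hQ0 : 0 ≤ Q := by positivity
  -- the integral of Psi
  have hPsi : ∫⁻ y in Set.Icc (x : ℝ) (4 * x), Psi s a k₀ y ≤
      ENNReal.ofReal (4 * x * Q) * ENNReal.ofReal (3 / 2 * k₀) := by
    unfold Psi
    rw [lintegral_lintegral_swap]
    · have h1 : ∫⁻ k in Set.Icc (k₀ / 2) (2 * k₀), ∫⁻ y in Set.Icc (x : ℝ) (4 * x), ‖D s a y k‖ₑ ^ 2 ≤
          ∫⁻ k in Set.Icc (k₀ / 2) (2 * k₀), ENNReal.ofReal (4 * x * Q) := by
        refine setLIntegral_mono' measurableSet_Icc fun k hk => ?_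
        refine (cv s a k hx0).trans ?_
        have hkk : 0 ≤ k := by linarith [hk.1]
        rw [ENNReal.ofReal_mul (p := 4 * (x : ℝ)) (by positivity)]
        gcongr
        refine (plan_le hs1 a hkk E S T hE hS hT h).trans ?_
        refine ENNReal.ofReal_le_ofReal ?_
        rw [hQ]
        have h2 : k ^ 2 ≤ (4 * Y / x) ^ 2 := by
          refine pow_le_pow_left₀ hkk (hk.2.trans (le_of_eq ?_)) 2
          rw [hk₀]; ring
        have h3 : k ^ 2 * I ≤ (4 * Y / x) ^ 2 * I := mul_le_mul_of_nonneg_right h2 hI0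
        refine mul_le_mul_of_nonneg_left ?_ (by positivity)
        linarith
      refine h1.trans ?_
      rw [setLIntegral_const, Real.volume_Icc]
      gcongr
      linarith
    · refine Measurable.aemeasurable ?_
      exact (D_meas s a).enorm.pow_const 2
  -- from sums to integrals
  have hsum : ENNReal.ofReal k₀ * ∑ m ∈ Ioc x (2 * x), ‖∑ n ∈ Ioc m (m + Y), a n‖ₑ ^ 2 ≤
      2 * (∫⁻ y in Set.Icc (x : ℝ) (4 * x), Psi s a k₀ y) +
        2 * (∫⁻ y in Set.Icc (x : ℝ) (4 * x), Psi s a k₀ y) := by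
    have h1 : ∀ m ∈ Ioc x (2 * x), ENNReal.ofReal k₀ * ‖∑ n ∈ Ioc m (m + Y), a n‖ₑ ^ 2 ≤
        ∫⁻ y in Set.Ico (m : ℝ) (m + 1), (2 * Psi s a k₀ y + 2 * Psi s a k₀ (y + Y)) := by
      intro m hm
      have e1 : ENNReal.ofReal k₀ * ‖∑ n ∈ Ioc m (m + Y), a n‖ₑ ^ 2 =
          ∫⁻ y in Set.Ico (m : ℝ) (m + 1), ENNReal.ofReal k₀ * ‖∑ n ∈ Ioc m (m + Y), a n‖ₑ ^ 2 := by
        rw [setLIntegral_const, Real.volume_Ico]
        simp
      rw [e1]
      refine setLIntegral_mono' measurableSet_Ico fun y hy => ?_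
      rw [sum_win a hYx hm hy]
      refine sv s a hx0 hY0 ?_ hk₀
      rw [mem_Ioc] at hm
      have : (x : ℝ) ≤ m := by exact_mod_cast hm.1.le
      linarith [hy.1]
    rw [mul_sum]
    refine (sum_le_sum h1).trans ?_
    rw [← lintegral_biUnion_finset (s := Ioc x (2 * x)) (t := fun m : ℕ => Set.Ico (m : ℝ) (m + 1))]
    · have hsub : (⋃ m ∈ Ioc x (2 * x), Set.Ico (m : ℝ) (m + 1)) ⊆ Set.Icc (x : ℝ) (3 * x) := by
        intro y hy
        simp only [Set.mem_iUnion, mem_Ioc, exists_prop] at hy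
        obtain ⟨m, ⟨h1, h2⟩, h3, h4⟩ := hy
        have a1 : (x : ℝ) ≤ m := by exact_mod_cast h1.le
        have a2 : (m : ℝ) ≤ 2 * x := by exact_mod_cast h2
        exact ⟨by linarith, by linarith⟩
      refine (lintegral_mono_set hsub).trans ?_
      have mP : Measurable (Psi s a k₀) := by
        unfold Psi
        exact Measurable.lintegral_prod_right' (f := fun p : ℝ × ℝ => ‖D s a p.1 p.2‖ₑ ^ 2)
          ((D_meas s a).enorm.pow_const 2)
      rw [lintegral_add_left (mP.const_mul 2), lintegral_const_mul' _ _ (by simp),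
        lintegral_const_mul' _ _ (by simp)]
      refine add_le_add ?_ ?_
      · exact mul_le_mul_right (lintegral_mono_set (Set.Icc_subset_Icc_right (by linarith))) _
      · refine mul_le_mul_right ?_ _
        rw [← lintegral_indicator measurableSet_Icc, ← lintegral_indicator measurableSet_Icc,
          ← lintegral_add_right_eq_self (fun y => (Set.Icc (x : ℝ) (4 * x)).indicator
            (fun y => Psi s a k₀ y) y) (Y : ℝ)]
        refine lintegral_mono fun y => ?_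
        rw [Set.indicator_apply, Set.indicator_apply]
        by_cases hy : y ∈ Set.Icc (x : ℝ) (3 * x)
        · rw [if_pos hy, if_pos ⟨by linarith [hy.1], by linarith [hy.2]⟩]
        · rw [if_neg hy]
          exact zero_le
    · intro m _ m' _ hne
      simp only [Function.onFun]
      rw [Set.disjoint_left]
      intro y h1 h2
      apply hne
      have a1 : (m : ℝ) < m' + 1 := lt_of_le_of_lt h1.1 h2.2
      have a2 : (m' : ℝ) < m + 1 := lt_of_le_of_lt h2.1 h1.2
      have b1 : m < m' + 1 := by exact_mod_cast a1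
      have b2 : m' < m + 1 := by exact_mod_cast a2
      omega
    · intro m _
      exact measurableSet_Ico
  have hconv : ∑ m ∈ Ioc x (2 * x), ‖∑ n ∈ Ioc m (m + Y), a n‖ₑ ^ 2 =
      ENNReal.ofReal (∑ m ∈ Ioc x (2 * x), ‖∑ n ∈ Ioc m (m + Y), a n‖ ^ 2) := by
    rw [ENNReal.ofReal_sum_of_nonneg (fun m _ => by positivity)]
    refine sum_congr rfl fun m _ => ?_
    rw [← ofReal_norm, ← ENNReal.ofReal_pow (norm_nonneg _)]
  rw [hconv] at hsum
  have hfin : ENNReal.ofReal (k₀ * ∑ m ∈ Ioc x (2 * x), ‖∑ n ∈ Ioc m (m + Y), a n‖ ^ 2) ≤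
      ENNReal.ofReal (4 * ((4 * x * Q) * (3 / 2 * k₀))) := by
    rw [ENNReal.ofReal_mul hk0.le]
    refine hsum.trans ?_
    have e : ENNReal.ofReal (4 * ((4 * x * Q) * (3 / 2 * k₀))) =
        2 * (ENNReal.ofReal (4 * x * Q) * ENNReal.ofReal (3 / 2 * k₀)) +
        2 * (ENNReal.ofReal (4 * x * Q) * ENNReal.ofReal (3 / 2 * k₀)) := by
      rw [ENNReal.ofReal_mul (by norm_num), ENNReal.ofReal_mul (by positivity), ← two_mul, ← mul_assoc]
      norm_num
      ring
    rw [e]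
    gcongr
  rw [ENNReal.ofReal_le_ofReal_iff (by positivity)] at hfin
  have : k₀ * ∑ m ∈ Ioc x (2 * x), ‖∑ n ∈ Ioc m (m + Y), a n‖ ^ 2 ≤ k₀ * (6 * (4 * x * Q)) := by
    refine hfin.trans (le_of_eq ?_)
    ring
  exact le_of_mul_le_mul_left this hk0

lemma mv (a : ℕ → ℂ) (x : ℕ) (t1 t2 : ℝ) (h : t1 ≤ t2) :
    ∫ t in t1..t2, ‖A (Ioc x (9 * x)) a t‖ ^ 2 ≤
      (t2 - t1 + 8 * (9 * x : ℕ) * (1 + Real.log (9 * x : ℕ))) * ∑ n ∈ Ioc x (9 * x), ‖a n‖ ^ 2 := by
  have hsub : Ioc x (9 * x) ⊆ Icc 1 (9 * x) := by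
    intro n hn
    rw [mem_Ioc] at hn
    rw [mem_Icc]; omega
  have e1 : ∀ t : ℝ, A (Ioc x (9 * x)) a t = ∑ n ∈ Icc 1 (9 * x),
      (if n ∈ Ioc x (9 * x) then a n else 0) * (n : ℂ) ^ (-(t : ℂ) * Complex.I) := by
    intro t
    unfold A
    rw [← sum_subset hsub]
    · refine sum_congr rfl fun n hn => ?_
      rw [if_pos hn]
      rfl
    · intro n _ hn
      rw [if_neg hn, zero_mul]
  have e2 : ∑ n ∈ Icc 1 (9 * x), ‖(if n ∈ Ioc x (9 * x) then a n else 0 : ℂ)‖ ^ 2 =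
      ∑ n ∈ Ioc x (9 * x), ‖a n‖ ^ 2 := by
    rw [← sum_subset hsub]
    · refine sum_congr rfl fun n hn => ?_
      rw [if_pos hn]
    · intro n _ hn
      rw [if_neg hn]
      simp
  have := H370.mean_value (fun n => if n ∈ Ioc x (9 * x) then a n else 0) (9 * x) t1 t2 h
  rw [e2] at this
  simp_rw [e1]
  exact this

theorem win : S_WIN := by
  refine ⟨20000, by norm_num, ?_⟩
  intro a x Y T hY hYx hT
  have hpi := Real.pi_gt_three
  have hx10 : 10 ≤ x := by omega
  have hx0 : (0 : ℝ) < x := by exact_mod_cast (by omega : 0 < x)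
  have hT0 : 0 < T := by linarith
  have hlogx : 0 ≤ Real.log x := Real.log_natCast_nonneg x
  set S := ∑ n ∈ Ioc x (9 * x), ‖a n‖ ^ 2 with hS
  have hS0 : 0 ≤ S := sum_nonneg fun _ _ => by positivity
  set E : ℝ := 8 * (9 * x : ℕ) * (1 + Real.log (9 * x : ℕ)) with hE
  have hE0 : 0 ≤ E := by
    have := Real.log_natCast_nonneg (9 * x)
    positivity
  have hlog9 : Real.log 9 ≤ 3 := by
    have h1 : Real.log 9 = 2 * Real.log 3 := by
      rw [show (9 : ℝ) = 3 ^ 2 by norm_num, Real.log_pow]; norm_num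
    have h2 : Real.log 3 ≤ 3 / 2 := by
      rw [Real.log_le_iff_le_exp (by norm_num)]
      have := Real.quadratic_le_exp_of_nonneg (x := 3 / 2) (by norm_num)
      linarith
    linarith
  have hE1 : E ≤ 288 * (x * (1 + Real.log x)) := by
    rw [hE]
    push_cast
    rw [Real.log_mul (by norm_num) hx0.ne']
    have : 1 + (Real.log 9 + Real.log x) ≤ 4 * (1 + Real.log x) := by linarith
    calc 8 * (9 * (x : ℝ)) * (1 + (Real.log 9 + Real.log x)) ≤ 8 * (9 * (x : ℝ)) * (4 * (1 + Real.log x)) := by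
          gcongr
      _ = 288 * (x * (1 + Real.log x)) := by ring
  have h := main a x Y T E S hY hYx hT hE0 hS0 (mv a x)
  have eA : ∀ τ : ℝ, ∑ n ∈ Ioc x (9 * x), a n * nt τ n = A (Ioc x (9 * x)) a τ := fun τ => rfl
  simp_rw [eA]
  set I := ∫ t in (-T)..T, ‖A (Ioc x (9 * x)) a t‖ ^ 2 with hI
  have hI0 : 0 ≤ I := intervalIntegral.integral_nonneg (by linarith) fun t _ => by positivity
  refine h.trans ?_
  have hpi2 : (2 * Real.pi)⁻¹ ≤ 1 / 6 := by
    rw [← one_div]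
    exact one_div_le_one_div_of_le (by norm_num) (by linarith)
  have hP0 : 0 ≤ (4 * (Y : ℝ) / x) ^ 2 * I + 16 * ((1 / T + E / T ^ 2) * S) := by positivity
  calc 6 * (4 * x * ((2 * Real.pi)⁻¹ * ((4 * Y / x) ^ 2 * I + 16 * ((1 / T + E / T ^ 2) * S))))
      ≤ 6 * (4 * x * (1 / 6 * ((4 * Y / x) ^ 2 * I + 16 * ((1 / T + E / T ^ 2) * S)))) := by gcongr
    _ = 64 * ((Y : ℝ) ^ 2 / x) * I + 64 * (x / T) * S + 64 * (x * E / T ^ 2) * S := by
        field_simp
        ring
    _ ≤ 64 * ((Y : ℝ) ^ 2 / x) * I + 64 * (x / T) * S + 64 * (x * (288 * (x * (1 + Real.log x))) / T ^ 2) * S := by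
        gcongr
    _ ≤ 20000 * ((Y : ℝ) ^ 2 / x) * I + 20000 * (x / T + (x : ℝ) ^ 2 * (1 + Real.log x) / T ^ 2) * S := by
        have b1 : 0 ≤ ((Y : ℝ) ^ 2 / x) * I := by positivity
        have b2 : 0 ≤ (x / T) * S := by positivity
        have b3 : 0 ≤ ((x : ℝ) ^ 2 * (1 + Real.log x) / T ^ 2) * S := by positivity
        have e3 : 64 * (x * (288 * (x * (1 + Real.log x))) / T ^ 2) * S =
            18432 * (((x : ℝ) ^ 2 * (1 + Real.log x) / T ^ 2) * S) := by ring
        rw [e3]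
        nlinarith

end Pool.Agent.V8H34.CR.Win
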