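import Mathlib
import Pool.Agent.Q236.CR.Stm

/-!
# Primes in a fixed residue class in almost all short intervals, with the exact density, in mean
-/

set_option autoImplicit false

namespace Pool.Agent.V8H34.CR.FinA

open Finset Filter Pool.Agent.Q236.CR

lemma ev_real (P : ℝ → Prop) (h : ∀ᶠ x : ℝ in atTop, P x) : ∀ᶠ X : ℕ in atTop, P X :=
  tendsto_natCast_atTop_atTop.eventually h

/-- orthogonality of the characters modulo `W` -/
lemma orth {W : ℕ} [NeZero W] {n : ℕ} (hn : n.Coprime W) (J : ℕ) :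
    (Nat.totient W : ℂ) * (∑ j ∈ Icc 1 J, (ArithmeticFunction.vonMangoldt (n + W * j) : ℂ)) - (W * J : ℕ) =
      ∑ χ : DirichletCharacter ℂ W, χ (n : ZMod W)⁻¹ *
        ∑ k ∈ Ioc n (n + W * J), (cL χ k - (if χ = 1 then 1 else 0)) := by
  classical
  have hW : 0 < W := Nat.pos_of_ne_zero (NeZero.ne W)
  have hu : IsUnit ((n : ℕ) : ZMod W) := (ZMod.isUnit_iff_coprime n W).mpr hn
  have e1 : ∑ χ : DirichletCharacter ℂ W, χ (n : ZMod W)⁻¹ *
        ∑ k ∈ Ioc n (n + W * J), (cL χ k - (if χ = 1 then 1 else 0)) =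
      ∑ k ∈ Ioc n (n + W * J), (∑ χ : DirichletCharacter ℂ W, χ (n : ZMod W)⁻¹ * χ (k : ZMod W)) *
        (ArithmeticFunction.vonMangoldt k : ℂ) -
      ∑ k ∈ Ioc n (n + W * J), (∑ χ : DirichletCharacter ℂ W, χ (n : ZMod W)⁻¹ * (if χ = 1 then 1 else 0)) := by
    simp_rw [mul_sum]
    rw [sum_comm, ← sum_sub_distrib]
    refine sum_congr rfl fun k _ => ?_
    rw [sum_mul, ← sum_sub_distrib]
    refine sum_congr rfl fun χ _ => ?_
    unfold cL
    ring
  have e2 : ∑ χ : DirichletCharacter ℂ W, χ (n : ZMod W)⁻¹ * (if χ = 1 then (1 : ℂ) else 0) = 1 := by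
    simp_rw [mul_ite, mul_one, mul_zero]
    rw [sum_ite_eq' univ (1 : DirichletCharacter ℂ W)]
    rw [if_pos (mem_univ _)]
    have h0 := ZMod.isUnit_inv (m := W) (n := (n : ℤ)) (by simpa using hu)
    have : IsUnit ((n : ZMod W)⁻¹) := by simpa using h0
    exact MulChar.one_apply this
  rw [e1, e2, sum_const, Nat.card_Ioc, nsmul_eq_mul, mul_one]
  have e3 : n + W * J - n = W * J := by omega
  rw [e3]
  congr 1
  have e4 : ∀ k ∈ Ioc n (n + W * J),
      (∑ χ : DirichletCharacter ℂ W, χ (n : ZMod W)⁻¹ * χ (k : ZMod W)) *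
        (ArithmeticFunction.vonMangoldt k : ℂ) =
      if (n : ZMod W) = (k : ZMod W) then (Nat.totient W : ℂ) * (ArithmeticFunction.vonMangoldt k : ℂ) else 0 := by
    intro k _
    rw [DirichletCharacter.sum_char_inv_mul_char_eq ℂ hu]
    split_ifs <;> simp
  rw [sum_congr rfl e4, ← sum_filter, mul_sum]
  refine sum_bij (fun j _ => n + W * j) ?_ ?_ ?_ ?_
  · intro j hj
    rw [mem_Icc] at hj
    rw [mem_filter, mem_Ioc]
    have h1 : W * j ≤ W * J := Nat.mul_le_mul_left _ hj.2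
    have h2 : 1 ≤ W * j := Nat.mul_pos hW hj.1
    refine ⟨⟨by omega, by omega⟩, ?_⟩
    push_cast
    simp
  · intro j _ j' _ h
    have : W * j = W * j' := by omega
    exact Nat.eq_of_mul_eq_mul_left hW this
  · intro k hk
    rw [mem_filter, mem_Ioc] at hk
    obtain ⟨⟨h1, h2⟩, h3⟩ := hk
    rw [ZMod.natCast_eq_natCast_iff] at h3
    have h4 : W ∣ k - n := (Nat.modEq_iff_dvd' h1.le).mp h3
    obtain ⟨j, hj⟩ := h4
    refine ⟨j, ?_, by omega⟩
    rw [mem_Icc]
    constructor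
    · by_contra h5
      have : j = 0 := by omega
      rw [this] at hj; omega
    · have : W * j ≤ W * J := by omega
      exact Nat.le_of_mul_le_mul_left this hW
  · intro j _
    rfl

/-- the error term of a character -/
noncomputable def Ec {W : ℕ} [NeZero W] (χ : DirichletCharacter ℂ W) (Y n : ℕ) : ℝ :=
  ‖∑ k ∈ Ioc n (n + Y), (cL χ k - (if χ = 1 then 1 else 0))‖

/-- the sum of `Λ` in a class against the expected value -/
lemma class_err {W : ℕ} [NeZero W] {n : ℕ} (hn : n.Coprime W) (J : ℕ) :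
    |∑ j ∈ Icc 1 J, ArithmeticFunction.vonMangoldt (n + W * j) - (W * J : ℕ) / (Nat.totient W : ℝ)| ≤
      ∑ χ : DirichletCharacter ℂ W, Ec χ (W * J) n := by
  have hW : 0 < W := Nat.pos_of_ne_zero (NeZero.ne W)
  have hφ : 1 ≤ Nat.totient W := Nat.totient_pos.mpr hW
  have hφ1 : (1 : ℝ) ≤ Nat.totient W := by exact_mod_cast hφ
  have h1 := orth hn J
  have h2 : |(Nat.totient W : ℝ) * (∑ j ∈ Icc 1 J, ArithmeticFunction.vonMangoldt (n + W * j)) - (W * J : ℕ)| ≤
      ∑ χ : DirichletCharacter ℂ W, Ec χ (W * J) n := by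
    have h3 : (((Nat.totient W : ℝ) * (∑ j ∈ Icc 1 J, ArithmeticFunction.vonMangoldt (n + W * j)) -
        (W * J : ℕ) : ℝ) : ℂ) = (Nat.totient W : ℂ) *
          (∑ j ∈ Icc 1 J, (ArithmeticFunction.vonMangoldt (n + W * j) : ℂ)) - (W * J : ℕ) := by
      push_cast; ring
    rw [← Real.norm_eq_abs, ← Complex.norm_real, h3, h1]
    refine (norm_sum_le _ _).trans (sum_le_sum fun χ _ => ?_)
    rw [norm_mul]
    refine (mul_le_mul_of_nonneg_right (χ.norm_le_one _) (norm_nonneg _)).trans ?_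
    rw [one_mul]
    rfl
  have h4 : ∑ j ∈ Icc 1 J, ArithmeticFunction.vonMangoldt (n + W * j) - (W * J : ℕ) / (Nat.totient W : ℝ) =
      ((Nat.totient W : ℝ) * (∑ j ∈ Icc 1 J, ArithmeticFunction.vonMangoldt (n + W * j)) - (W * J : ℕ)) /
        (Nat.totient W : ℝ) := by
    field_simp
  rw [h4, abs_div, abs_of_pos (by linarith : (0 : ℝ) < Nat.totient W)]
  refine (div_le_self (abs_nonneg _) hφ1).trans h2

/-- one dyadic block -/
lemma block (h : S_SIC) (W : ℕ) (hW : 1 ≤ W) : ∃ (C x0 : ℕ) (N0 : ℝ), 0 ≤ N0 ∧ ∀ x : ℕ, x0 ≤ x → ∀ J : ℕ,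
    (x : ℝ) ^ (1 / 3 : ℝ) * Real.log x ^ C ≤ (W * J : ℕ) → W * J ≤ x →
    ∑ n ∈ Ioc x (2 * x), (if n.Coprime W then
      |∑ j ∈ Icc 1 J, ArithmeticFunction.vonMangoldt (n + W * j) - (W * J : ℕ) / (Nat.totient W : ℝ)| else 0) ≤
      N0 * (x * (W * J : ℕ) / Real.log x) := by
  have : NeZero W := ⟨by omega⟩
  obtain ⟨C, X0, h⟩ := h 1 2
  have hlog := ev_real _ (Real.tendsto_log_atTop.eventually (eventually_ge_atTop (max (W : ℝ) 1)))
  obtain ⟨X1, hX1⟩ := eventually_atTop.1 hlog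
  refine ⟨C, max X0 X1, (Fintype.card (DirichletCharacter ℂ W) : ℝ), by positivity, ?_⟩
  intro x hx J h1 h2
  have hlx := hX1 x ((le_max_right _ _).trans hx)
  have hW' : (W : ℝ) ≤ Real.log x := (le_max_left _ _).trans hlx
  have hl1 : 1 ≤ Real.log x := (le_max_right _ _).trans hlx
  have hl0 : 0 < Real.log x := by linarith
  have hm : ∀ χ : DirichletCharacter ℂ W, ∑ n ∈ Ioc x (2 * x), Ec χ (W * J) n ≤
      x * (W * J : ℕ) / Real.log x := by
    intro χ
    have h3 := (h x ((le_max_left _ _).trans hx) W inferInstance (by rw [pow_one]; exact hW') χ (W * J) h1 h2).1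
    have h4 : (∑ n ∈ Ioc x (2 * x), Ec χ (W * J) n) ^ 2 ≤ (x * (W * J : ℕ) / Real.log x) ^ 2 := by
      refine (sq_sum_le_card_mul_sum_sq (s := Ioc x (2 * x)) (f := fun n => Ec χ (W * J) n)).trans ?_
      rw [Nat.card_Ioc]
      have e : 2 * x - x = x := by omega
      rw [e]
      refine (mul_le_mul_of_nonneg_left h3 (Nat.cast_nonneg x)).trans (le_of_eq ?_)
      field_simp
    exact (abs_le_of_sq_le_sq' h4 (by positivity)).2
  calc ∑ n ∈ Ioc x (2 * x), (if n.Coprime W then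
      |∑ j ∈ Icc 1 J, ArithmeticFunction.vonMangoldt (n + W * j) - (W * J : ℕ) / (Nat.totient W : ℝ)| else 0)
      ≤ ∑ n ∈ Ioc x (2 * x), ∑ χ : DirichletCharacter ℂ W, Ec χ (W * J) n := by
        refine sum_le_sum fun n _ => ?_
        split_ifs with hc
        · exact class_err hc J
        · exact sum_nonneg fun χ _ => norm_nonneg _
    _ = ∑ χ : DirichletCharacter ℂ W, ∑ n ∈ Ioc x (2 * x), Ec χ (W * J) n := sum_comm
    _ ≤ ∑ χ : DirichletCharacter ℂ W, (x * (W * J : ℕ) / Real.log x) := sum_le_sum fun χ _ => hm χ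
    _ = _ := by rw [sum_const, card_univ, nsmul_eq_mul]

/-- primes against `Λ / log X` -/
noncomputable def gd (X k : ℕ) : ℝ :=
  |(if k.Prime then 1 else 0) - ArithmeticFunction.vonMangoldt k / Real.log X|

lemma gd_nonneg (X k : ℕ) : 0 ≤ gd X k := abs_nonneg _

lemma gd_sum (δ : ℝ) (hδ : 0 < δ) (C2 : ℕ) (hC2 : 1 ≤ C2) (ε : ℝ) (hε : 0 < ε) : ∀ᶠ X : ℕ in atTop,
    ∑ k ∈ Icc ⌈δ * X⌉₊ (C2 * X), gd X k ≤ ε * (X / Real.log X) := by
  have hC0 : (1 : ℝ) ≤ C2 := by exact_mod_cast hC2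
  set M : ℝ := |Real.log δ| + Real.log C2 with hM
  have hlC : 0 ≤ Real.log C2 := Real.log_nonneg hC0
  have hM0 : 0 ≤ M := by positivity
  have f1 := ev_real _ (Real.tendsto_log_atTop.eventually (eventually_ge_atTop
    (max (2 * |Real.log δ| + 2) (8 * M * (Real.log 4 * C2) / ε + 2))))
  have f2 : ∀ᶠ X : ℕ in atTop, Real.log X ≤ ε / (8 * (C2 : ℝ) ^ 2) * Real.sqrt X := by
    have g1 := (isLittleO_log_rpow_atTop (r := 1 / 2) (by norm_num)).def (c := ε / (8 * (C2 : ℝ) ^ 2)) (by positivity)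
    filter_upwards [ev_real _ g1, eventually_ge_atTop 1] with X h1 h2
    have hX1 : (1 : ℝ) ≤ X := by exact_mod_cast h2
    rw [Real.norm_of_nonneg (Real.log_nonneg hX1), Real.norm_of_nonneg (by positivity), ← Real.sqrt_eq_rpow] at h1
    exact h1
  have f3 : ∀ᶠ X : ℕ in atTop, (C2 : ℝ) ≤ Real.log X :=
    ev_real _ (Real.tendsto_log_atTop.eventually (eventually_ge_atTop (C2 : ℝ)))
  filter_upwards [f1, f2, f3, eventually_ge_atTop 2] with X hl hs hlC2 hX2
  have hX0 : (0 : ℝ) < X := by exact_mod_cast (by omega : 0 < X)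
  have hX1 : (1 : ℝ) ≤ X := by exact_mod_cast (by omega : 1 ≤ X)
  set L := Real.log (X : ℝ) with hL
  have hL1 : 2 * |Real.log δ| + 2 ≤ L := (le_max_left _ _).trans hl
  have hL2 : 8 * M * (Real.log 4 * C2) / ε + 2 ≤ L := (le_max_right _ _).trans hl
  have hL0 : 0 < L := by have := abs_nonneg (Real.log δ); linarith
  have hCX : (0 : ℝ) < C2 * X := by positivity
  -- pointwise
  have hpt : ∀ k ∈ Icc ⌈δ * X⌉₊ (C2 * X), gd X k ≤
      (if k.Prime then M / L * (2 * Real.log k / L) else 0) +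
      (if k.Prime then 0 else ArithmeticFunction.vonMangoldt k / L) := by
    intro k hk
    rw [mem_Icc] at hk
    have hk1 : δ * X ≤ k := (Nat.le_ceil _).trans (by exact_mod_cast hk.1)
    have hk2 : (k : ℝ) ≤ C2 * X := by exact_mod_cast hk.2
    unfold gd
    by_cases hp : k.Prime
    · rw [if_pos hp, if_pos hp, if_pos hp, add_zero, ArithmeticFunction.vonMangoldt_apply_prime hp]
      have hk0 : (0 : ℝ) < k := by exact_mod_cast hp.pos
      have a1 : Real.log δ + L ≤ Real.log k := by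
        rw [hL, ← Real.log_mul hδ.ne' hX0.ne']
        exact Real.log_le_log (by positivity) hk1
      have a2 : Real.log k ≤ Real.log C2 + L := by
        rw [hL, ← Real.log_mul (by positivity) hX0.ne']
        exact Real.log_le_log hk0 hk2
      have a3 : |1 - Real.log k / L| ≤ M / L := by
        have e : 1 - Real.log k / L = (L - Real.log k) / L := by field_simp
        rw [e, abs_div, abs_of_pos hL0]
        refine div_le_div_of_nonneg_right ?_ hL0.le
        rw [abs_le, hM]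
        have := neg_abs_le (Real.log δ)
        have := abs_nonneg (Real.log δ)
        constructor <;> linarith
      refine a3.trans ?_
      have a4 : 1 ≤ 2 * Real.log k / L := by
        rw [le_div_iff₀ hL0]
        have := neg_abs_le (Real.log δ)
        linarith
      have a5 : 0 ≤ M / L := by positivity
      nlinarith
    · rw [if_neg hp, if_neg hp, if_neg hp, zero_sub, abs_neg, zero_add,
        abs_of_nonneg (div_nonneg ArithmeticFunction.vonMangoldt_nonneg hL0.le)]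
  refine (sum_le_sum hpt).trans ?_
  rw [sum_add_distrib]
  have hsub : Icc ⌈δ * X⌉₊ (C2 * X) ⊆ Ioc 0 (C2 * X) := by
    intro k hk
    rw [mem_Icc] at hk
    rw [mem_Ioc]
    have : 0 < ⌈δ * (X : ℝ)⌉₊ := Nat.ceil_pos.mpr (by positivity)
    omega
  have hfl : ⌊((C2 * X : ℕ) : ℝ)⌋₊ = C2 * X := Nat.floor_natCast _
  have s1 : ∑ k ∈ Icc ⌈δ * X⌉₊ (C2 * X), (if k.Prime then M / L * (2 * Real.log k / L) else 0) ≤
      2 * M / L ^ 2 * (Real.log 4 * (C2 * X)) := by
    have h1 : ∑ k ∈ Icc ⌈δ * X⌉₊ (C2 * X), (if k.Prime then M / L * (2 * Real.log k / L) else 0) ≤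
        ∑ k ∈ Ioc 0 (C2 * X), (if k.Prime then M / L * (2 * Real.log k / L) else 0) := by
      refine sum_le_sum_of_subset_of_nonneg hsub fun k _ _ => ?_
      split_ifs
      · have := Real.log_natCast_nonneg k
        positivity
      · exact le_rfl
    refine h1.trans ?_
    have h2 : ∑ k ∈ Ioc 0 (C2 * X), (if k.Prime then M / L * (2 * Real.log k / L) else 0) =
        2 * M / L ^ 2 * Chebyshev.theta ((C2 * X : ℕ) : ℝ) := by
      rw [Chebyshev.theta, hfl, ← sum_filter, mul_sum]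
      refine sum_congr rfl fun k _ => ?_
      field_simp
    rw [h2]
    have h3 := Chebyshev.theta_le_log4_mul_x (x := ((C2 * X : ℕ) : ℝ)) (by positivity)
    push_cast at h3 ⊢
    exact mul_le_mul_of_nonneg_left h3 (by positivity)
  have s2 : ∑ k ∈ Icc ⌈δ * X⌉₊ (C2 * X), (if k.Prime then 0 else ArithmeticFunction.vonMangoldt k / L) ≤
      2 * Real.sqrt (C2 * X) * Real.log (C2 * X) / L := by
    have h1 : ∑ k ∈ Icc ⌈δ * X⌉₊ (C2 * X), (if k.Prime then 0 else ArithmeticFunction.vonMangoldt k / L) ≤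
        ∑ k ∈ Ioc 0 (C2 * X), (if k.Prime then 0 else ArithmeticFunction.vonMangoldt k / L) := by
      refine sum_le_sum_of_subset_of_nonneg hsub fun k _ _ => ?_
      split_ifs
      · exact le_rfl
      · exact div_nonneg ArithmeticFunction.vonMangoldt_nonneg hL0.le
    refine h1.trans ?_
    have h2 : ∑ k ∈ Ioc 0 (C2 * X), (if k.Prime then 0 else ArithmeticFunction.vonMangoldt k / L) =
        (Chebyshev.psi ((C2 * X : ℕ) : ℝ) - Chebyshev.theta ((C2 * X : ℕ) : ℝ)) / L := by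
      rw [Chebyshev.psi_sub_theta_eq_sum_not_prime, hfl, sum_filter, sum_div]
      refine sum_congr rfl fun k _ => ?_
      by_cases hp : k.Prime
      · simp [hp]
      · simp [hp]
    rw [h2]
    refine div_le_div_of_nonneg_right ?_ hL0.le
    have h3 := Chebyshev.psi_sub_theta_le (x := ((C2 * X : ℕ) : ℝ)) (by push_cast; nlinarith)
    push_cast at h3 ⊢
    exact h3
  have b1 : 2 * M / L ^ 2 * (Real.log 4 * (C2 * X)) ≤ ε / 2 * (X / L) := by
    have c1 : 8 * M * (Real.log 4 * C2) ≤ ε * L := by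
      have : 8 * M * (Real.log 4 * C2) / ε ≤ L := by linarith
      rw [div_le_iff₀ hε] at this
      linarith
    have c2 : 2 * M / L ^ 2 * (Real.log 4 * (C2 * X)) = (2 * M * (Real.log 4 * C2)) / L * (X / L) := by
      field_simp
    rw [c2]
    refine mul_le_mul_of_nonneg_right ?_ (by positivity)
    rw [div_le_iff₀ hL0]
    have : 0 ≤ ε * L := by positivity
    linarith
  have b2 : 2 * Real.sqrt (C2 * X) * Real.log (C2 * X) / L ≤ ε / 2 * (X / L) := by
    rw [← mul_div_assoc]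
    refine div_le_div_of_nonneg_right ?_ hL0.le
    have c1 : Real.log (C2 * X) ≤ 2 * L := by
      rw [Real.log_mul (by positivity) hX0.ne']
      have : Real.log C2 ≤ L := (Real.log_le_self (by positivity)).trans hlC2
      linarith
    have c2 : Real.sqrt (C2 * X) ≤ C2 * Real.sqrt X := by
      rw [Real.sqrt_mul (by positivity)]
      refine mul_le_mul_of_nonneg_right ?_ (Real.sqrt_nonneg _)
      rw [Real.sqrt_le_left (by positivity)]
      nlinarith
    have c3 : 0 ≤ Real.sqrt X := Real.sqrt_nonneg _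
    calc 2 * Real.sqrt (C2 * X) * Real.log (C2 * X) ≤ 2 * (C2 * Real.sqrt X) * (2 * L) := by
          have : 0 ≤ Real.log (C2 * X) := Real.log_nonneg (by nlinarith)
          gcongr
      _ ≤ 2 * (C2 * Real.sqrt X) * (2 * (ε / (8 * (C2 : ℝ) ^ 2) * Real.sqrt X)) := by gcongr
      _ = ε / (2 * C2) * (Real.sqrt X * Real.sqrt X) := by field_simp; ring
      _ = ε / (2 * C2) * X := by rw [Real.mul_self_sqrt hX0.le]
      _ ≤ ε / 2 * X := by
          refine mul_le_mul_of_nonneg_right ?_ hX0.le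
          exact div_le_div_of_nonneg_left hε.le (by norm_num) (by linarith)
  linarith

/-- sums over a dyadic cover -/
lemma dyadic (f : ℕ → ℝ) (x0 : ℕ) (I : ℕ) :
    ∑ n ∈ Ioc x0 (2 ^ I * x0), f n = ∑ i ∈ range I, ∑ n ∈ Ioc (2 ^ i * x0) (2 * (2 ^ i * x0)), f n := by
  induction I with
  | zero => simp
  | succ I ih =>
    rw [sum_range_succ, ← ih]
    have h1 : x0 ≤ 2 ^ I * x0 := Nat.le_mul_of_pos_left _ (by positivity)
    have h2 : 2 ^ I * x0 ≤ 2 * (2 ^ I * x0) := by omega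
    have e : 2 ^ (I + 1) * x0 = 2 * (2 ^ I * x0) := by rw [pow_succ]; ring
    rw [e]
    exact (sum_Ioc_consecutive f h1 h2).symm

lemma ev_len (C3 θ : ℝ) (hC3 : 1 ≤ C3) (hθ : 1 / 3 < θ) (C : ℕ) : ∀ᶠ X : ℕ in atTop,
    (C3 * X) ^ (1 / 3 : ℝ) * Real.log (C3 * X) ^ C ≤ (X : ℝ) ^ θ := by
  set r := (θ - 1 / 3) / 2 with hr
  have hr0 : 0 < r := by rw [hr]; linarith
  have g1 : ∀ᶠ z : ℝ in atTop, Real.log z ^ C ≤ z ^ r := by
    have := (isLittleO_log_rpow_rpow_atTop (C : ℝ) hr0).def (c := 1) one_pos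
    filter_upwards [this, eventually_ge_atTop 1] with z h1 h2
    rw [Real.rpow_natCast] at h1
    rw [Real.norm_of_nonneg (pow_nonneg (Real.log_nonneg h2) _), Real.norm_of_nonneg (by positivity), one_mul] at h1
    exact h1
  have g2 : Tendsto (fun X : ℕ => C3 * (X : ℝ)) atTop atTop :=
    tendsto_natCast_atTop_atTop.const_mul_atTop (by linarith)
  have g3 : ∀ᶠ X : ℕ in atTop, C3 ^ (1 / 3 + r) ≤ (X : ℝ) ^ r :=
    ev_real _ ((tendsto_rpow_atTop hr0).eventually (eventually_ge_atTop _))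
  filter_upwards [g2.eventually g1, g3, eventually_ge_atTop 1] with X h1 h2 h3
  have hX0 : (0 : ℝ) < X := by exact_mod_cast h3
  calc (C3 * X) ^ (1 / 3 : ℝ) * Real.log (C3 * X) ^ C ≤ (C3 * X) ^ (1 / 3 : ℝ) * (C3 * X) ^ r := by gcongr
    _ = C3 ^ (1 / 3 + r) * (X : ℝ) ^ (1 / 3 + r) := by
        rw [← Real.rpow_add (by positivity), Real.mul_rpow (by positivity) hX0.le]
    _ ≤ (X : ℝ) ^ r * (X : ℝ) ^ (1 / 3 + r) := by gcongr
    _ = (X : ℝ) ^ θ := by
        rw [← Real.rpow_add hX0]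
        congr 1
        rw [hr]; ring

theorem loc_mean (h : S_SIC) (W : ℕ) (hW : 1 ≤ W) (C1 : ℕ) (hC1 : 1 ≤ C1) (θ : ℝ) (hθ : 1 / 3 < θ)
    (δ η : ℝ) (hδ : 0 < δ) (hη : 0 < η) :
    ∀ᶠ X : ℕ in atTop, ∀ J : ℕ, (X : ℝ) ^ θ ≤ (W * J : ℕ) → ((W * J : ℕ) : ℝ) ≤ δ * X / 4 →
      ∑ n ∈ Icc ⌈δ * X⌉₊ (C1 * X), (if n.Coprime W then
        |(#((Icc 1 J).filter (fun j => (n + W * j).Prime)) : ℝ) / J -
          W / (Nat.totient W * Real.log X)| else 0) ≤ η * (X / Real.log X) := by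
  obtain ⟨C, x1, N0, hN0, hblock⟩ := block h W hW
  have hφ : 1 ≤ Nat.totient W := Nat.totient_pos.mpr hW
  have hφ1 : (1 : ℝ) ≤ Nat.totient W := by exact_mod_cast hφ
  have hC1' : (1 : ℝ) ≤ C1 := by exact_mod_cast hC1
  set C2 : ℕ := C1 + ⌈δ⌉₊ with hC2
  obtain ⟨I, hI⟩ : ∃ I : ℕ, 2 * (C1 : ℝ) / δ ≤ 2 ^ I := by
    obtain ⟨I, hI⟩ := pow_unbounded_of_one_lt (2 * (C1 : ℝ) / δ) (by norm_num : (1 : ℝ) < 2)
    exact ⟨I, hI.le⟩
  set C3 : ℝ := 2 ^ I * δ + 1 with hC3
  have hC31 : 1 ≤ C3 := by rw [hC3]; have : 0 < 2 ^ I * δ := by positivity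
                           linarith
  have f1 := gd_sum δ hδ C2 (by omega) (η / 2) (by positivity)
  have f2 := ev_len C3 θ hC31 hθ C
  have f3 : ∀ᶠ X : ℕ in atTop, (4 * (x1 + 4) : ℝ) / δ ≤ X :=
    ev_real _ (eventually_ge_atTop _)
  have f4 := ev_real _ (Real.tendsto_log_atTop.eventually (eventually_ge_atTop
    (max (2 * |Real.log (δ / 2)| + 1) (4 * (I * N0 * C3 * W) / η + 1))))
  filter_upwards [f1, f2, f3, f4, eventually_ge_atTop 2] with X g1 g2 g3 g4 hX2 J hJ1 hJ2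
  have hX0 : (0 : ℝ) < X := by exact_mod_cast (by omega : 0 < X)
  set L := Real.log (X : ℝ) with hL
  have hL1 : 2 * |Real.log (δ / 2)| + 1 ≤ L := (le_max_left _ _).trans g4
  have hL2 : 4 * (I * N0 * C3 * W) / η + 1 ≤ L := (le_max_right _ _).trans g4
  have hL0 : 0 < L := by have := abs_nonneg (Real.log (δ / 2)); linarith
  rw [div_le_iff₀ hδ] at g3
  have hx1' : (0 : ℝ) ≤ x1 := Nat.cast_nonneg _
  have hδX : 16 ≤ δ * X := by nlinarith
  -- the starting point
  set N1 := ⌈δ * (X : ℝ)⌉₊ with hN1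
  have hN1a : δ * X ≤ N1 := Nat.le_ceil _
  have hN1b : (N1 : ℝ) < δ * X + 1 := Nat.ceil_lt_add_one (by positivity)
  have hN12 : 2 ≤ N1 := by
    have : (2 : ℝ) ≤ N1 := by linarith
    exact_mod_cast this
  obtain ⟨x0, hx0⟩ : ∃ x0 : ℕ, N1 = x0 + 1 := ⟨N1 - 1, by omega⟩
  have hx0r : (N1 : ℝ) = x0 + 1 := by rw [hx0]; push_cast; rfl
  have hx0a : δ * X / 2 ≤ x0 := by linarith
  have hx0b : (x0 : ℝ) ≤ δ * X := by linarith
  have hx0p : (0 : ℝ) < x0 := by linarith
  have hx0n : 1 ≤ x0 := by exact_mod_cast hx0p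
  have hx1 : x1 ≤ x0 := by
    have : (x1 : ℝ) ≤ x0 := by nlinarith
    exact_mod_cast this
  have hJ : 1 ≤ J := by
    by_contra h0
    have h0 : J = 0 := by omega
    rw [h0, mul_zero, Nat.cast_zero] at hJ1
    have : 0 < (X : ℝ) ^ θ := by positivity
    linarith
  have hJ0 : (0 : ℝ) < J := by exact_mod_cast hJ
  have hlogx0 : L / 2 ≤ Real.log x0 := by
    have h1 : Real.log (δ / 2) + L ≤ Real.log x0 := by
      rw [hL, ← Real.log_mul (by positivity) hX0.ne']
      exact Real.log_le_log (by positivity) (by linarith)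
    have := neg_abs_le (Real.log (δ / 2))
    linarith
  -- pointwise
  set er : ℕ → ℝ := fun n => (if n.Coprime W then
      |∑ j ∈ Icc 1 J, ArithmeticFunction.vonMangoldt (n + W * j) - (W * J : ℕ) / (Nat.totient W : ℝ)| else 0)
    with her
  have her0 : ∀ n, 0 ≤ er n := fun n => by
    simp only [her]
    split_ifs
    · exact abs_nonneg _
    · exact le_rfl
  have hpt : ∀ n ∈ Icc N1 (C1 * X), (if n.Coprime W then
        |(#((Icc 1 J).filter (fun j => (n + W * j).Prime)) : ℝ) / J -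
          W / (Nat.totient W * L)| else 0) ≤
      1 / J * ∑ j ∈ Icc 1 J, gd X (n + W * j) + 1 / (J * L) * er n := by
    intro n _
    have hg0 : 0 ≤ 1 / (J : ℝ) * ∑ j ∈ Icc 1 J, gd X (n + W * j) :=
      mul_nonneg (by positivity) (sum_nonneg fun j _ => gd_nonneg _ _)
    have he0 : 0 ≤ 1 / (J * L) * er n := mul_nonneg (by positivity) (her0 n)
    by_cases hc : n.Coprime W
    · rw [if_pos hc]
      have e1 : er n = |∑ j ∈ Icc 1 J, ArithmeticFunction.vonMangoldt (n + W * j) -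
          (W * J : ℕ) / (Nat.totient W : ℝ)| := by simp only [her]; rw [if_pos hc]
      have e2 : (#((Icc 1 J).filter (fun j => (n + W * j).Prime)) : ℝ) / J - W / (Nat.totient W * L) =
          1 / J * ∑ j ∈ Icc 1 J, ((if (n + W * j).Prime then (1 : ℝ) else 0) -
            ArithmeticFunction.vonMangoldt (n + W * j) / L) +
          1 / (J * L) * (∑ j ∈ Icc 1 J, ArithmeticFunction.vonMangoldt (n + W * j) -
            (W * J : ℕ) / (Nat.totient W : ℝ)) := by
        rw [sum_sub_distrib, card_filter, ← sum_div]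
        push_cast
        field_simp
        ring
      rw [e2]
      refine (abs_add_le _ _).trans (add_le_add ?_ ?_)
      · rw [abs_mul, abs_of_nonneg (by positivity : (0 : ℝ) ≤ 1 / J)]
        refine mul_le_mul_of_nonneg_left ?_ (by positivity)
        exact abs_sum_le_sum_abs _ _
      · rw [abs_mul, abs_of_nonneg (by positivity : (0 : ℝ) ≤ 1 / (J * L)), e1]
    · rw [if_neg hc]
      linarith
  refine (sum_le_sum hpt).trans ?_
  rw [sum_add_distrib, ← mul_sum, ← mul_sum]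
  -- first sum
  have s1 : 1 / (J : ℝ) * ∑ n ∈ Icc N1 (C1 * X), ∑ j ∈ Icc 1 J, gd X (n + W * j) ≤ η / 2 * (X / L) := by
    rw [sum_comm]
    have h1 : ∀ j ∈ Icc 1 J, ∑ n ∈ Icc N1 (C1 * X), gd X (n + W * j) ≤ η / 2 * (X / L) := by
      intro j hj
      rw [mem_Icc] at hj
      refine le_trans ?_ g1
      have e1 : ∑ n ∈ Icc N1 (C1 * X), gd X (n + W * j) =
          ∑ k ∈ (Icc N1 (C1 * X)).image (fun n => n + W * j), gd X k := by
        rw [sum_image]
        intro a _ b _ hab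
        simp only at hab
        omega
      rw [e1]
      refine sum_le_sum_of_subset_of_nonneg ?_ fun _ _ _ => gd_nonneg _ _
      intro k hk
      rw [mem_image] at hk
      obtain ⟨n, hn, rfl⟩ := hk
      rw [mem_Icc] at hn ⊢
      refine ⟨by omega, ?_⟩
      have h2 : W * j ≤ W * J := Nat.mul_le_mul_left _ hj.2
      have h3 : W * J ≤ ⌈δ⌉₊ * X := by
        have : ((W * J : ℕ) : ℝ) ≤ ((⌈δ⌉₊ * X : ℕ) : ℝ) := by
          push_cast at hJ2 ⊢
          have := Nat.le_ceil δ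
          nlinarith
        exact_mod_cast this
      have h4 : C2 * X = C1 * X + ⌈δ⌉₊ * X := by rw [hC2]; ring
      omega
    calc 1 / (J : ℝ) * ∑ j ∈ Icc 1 J, ∑ n ∈ Icc N1 (C1 * X), gd X (n + W * j)
        ≤ 1 / (J : ℝ) * ∑ j ∈ Icc 1 J, η / 2 * (X / L) :=
          mul_le_mul_of_nonneg_left (sum_le_sum h1) (by positivity)
      _ = η / 2 * (X / L) := by
          rw [sum_const, Nat.card_Icc, nsmul_eq_mul, Nat.add_sub_cancel]
          field_simp
  -- second sum
  have s2 : 1 / (J * L) * ∑ n ∈ Icc N1 (C1 * X), er n ≤ η / 2 * (X / L) := by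
    have h1 : ∑ n ∈ Icc N1 (C1 * X), er n ≤ ∑ n ∈ Ioc x0 (2 ^ I * x0), er n := by
      refine sum_le_sum_of_subset_of_nonneg ?_ fun _ _ _ => her0 _
      intro n hn
      rw [mem_Icc] at hn
      rw [mem_Ioc]
      refine ⟨by omega, hn.2.trans ?_⟩
      have : ((C1 * X : ℕ) : ℝ) ≤ ((2 ^ I * x0 : ℕ) : ℝ) := by
        push_cast
        rw [div_le_iff₀ hδ] at hI
        have h2 : (2 : ℝ) ^ I * (δ * X / 2) ≤ 2 ^ I * x0 := mul_le_mul_of_nonneg_left hx0a (by positivity)
        nlinarith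
      exact_mod_cast this
    rw [dyadic] at h1
    have h2 : ∀ i ∈ range I, ∑ n ∈ Ioc (2 ^ i * x0) (2 * (2 ^ i * x0)), er n ≤
        N0 * (C3 * X * (W * J) / (L / 2)) := by
      intro i hi
      rw [mem_range] at hi
      have hxi1 : x0 ≤ 2 ^ i * x0 := Nat.le_mul_of_pos_left _ (by positivity)
      have hxi2 : ((2 ^ i * x0 : ℕ) : ℝ) ≤ C3 * X := by
        push_cast
        have h3 : (2 : ℝ) ^ i ≤ 2 ^ I := pow_le_pow_right₀ (by norm_num) hi.le
        calc (2 : ℝ) ^ i * x0 ≤ 2 ^ I * (δ * X) := mul_le_mul h3 hx0b hx0p.le (by positivity)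
          _ ≤ C3 * X := by rw [hC3]; nlinarith
      have hxi3 : (x0 : ℝ) ≤ ((2 ^ i * x0 : ℕ) : ℝ) := by exact_mod_cast hxi1
      have hxi1' : (1 : ℝ) ≤ ((2 ^ i * x0 : ℕ) : ℝ) := by
        have : (1 : ℝ) ≤ x0 := by exact_mod_cast hx0n
        linarith
      have hlen : ((2 ^ i * x0 : ℕ) : ℝ) ^ (1 / 3 : ℝ) * Real.log ((2 ^ i * x0 : ℕ) : ℝ) ^ C ≤ (W * J : ℕ) := by
        refine le_trans ?_ (g2.trans hJ1)
        have := Real.log_nonneg hxi1'
        gcongr
      have hle : W * J ≤ 2 ^ i * x0 := by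
        have : ((W * J : ℕ) : ℝ) ≤ ((2 ^ i * x0 : ℕ) : ℝ) := by linarith
        exact_mod_cast this
      refine (hblock (2 ^ i * x0) (hx1.trans hxi1) J hlen hle).trans ?_
      refine mul_le_mul_of_nonneg_left ?_ hN0
      have hlog : L / 2 ≤ Real.log ((2 ^ i * x0 : ℕ) : ℝ) :=
        hlogx0.trans (Real.log_le_log hx0p hxi3)
      have hWJ : ((W * J : ℕ) : ℝ) = W * J := by push_cast; rfl
      rw [hWJ]
      gcongr
    have h3 : ∑ n ∈ Icc N1 (C1 * X), er n ≤ I * (N0 * (C3 * X * (W * J) / (L / 2))) := by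
      refine h1.trans ((sum_le_sum h2).trans ?_)
      rw [sum_const, card_range, nsmul_eq_mul]
    calc 1 / (J * L) * ∑ n ∈ Icc N1 (C1 * X), er n ≤
        1 / (J * L) * (I * (N0 * (C3 * X * (W * J) / (L / 2)))) :=
          mul_le_mul_of_nonneg_left h3 (by positivity)
      _ = (2 * (I * N0 * C3 * W) / L) * (X / L) := by
          field_simp
      _ ≤ η / 2 * (X / L) := by
          refine mul_le_mul_of_nonneg_right ?_ (by positivity)
          rw [div_le_iff₀ hL0]
          have : 4 * (I * N0 * C3 * W) / η ≤ L := by linarith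
          rw [div_le_iff₀ hη] at this
          linarith
  linarith

end Pool.Agent.V8H34.CR.FinA
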