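import Pool.Agent.V8H34.CR.MvgB

/-! Project CR, part MVG: the contribution of the products near the ends of the interval. -/

set_option autoImplicit false

namespace Pool.Agent.V8H34.CR

open Finset MeasureTheory Pool.Agent.Q236.CR

theorem outer_part {r : ℕ} (hr : 1 ≤ r) (X : ℕ) (hX : 1 ≤ X) (hL : 2 ≤ Real.log X)
    (T : ℝ) (hT : T ≤ X) (F : Fin r → ℕ → ℂ) (hF : ∀ i n, ‖F i n‖ ≤ Real.log (n + 3))
    {δ : ℝ} (hδ : 0 < δ) (hrη : r * δ ^ 2 ≤ 1) (hrX : 1 ≤ r * δ ^ 2 * X)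
    (W : Finset (Fin r → ℕ)) (hW : ∀ w ∈ W, ∀ i, w i ∈ Icc 1 (9 * X)) (x1 x2 : ℕ) (hx12 : x1 ≤ x2)
    (hx2 : x2 ≤ 9 * X)
    (hW' : ∀ w ∈ W, x1 < ∏ i, w i ∧ ∏ i, w i ≤ x2 ∧
      (((∏ i, w i : ℕ) : ℝ) < Real.exp (r * δ ^ 2) * x1 ∨
        Real.exp (-(r * δ ^ 2)) * x2 < ((∏ i, w i : ℕ) : ℝ)))
    (T1 T2 : ℝ) (h12 : T1 ≤ T2) (h12T : T2 - T1 ≤ T) :
    ∫ τ in T1..T2, ‖∑ w ∈ W, (∏ i, F i (w i)) * nt τ (∏ i, w i)‖ ^ 2 ≤
      (X : ℝ) ^ 2 * (1168 * r * (3 * Real.log X) ^ (2 ^ (r * 4) + 1 + 2 * r) * δ) := by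
  classical
  have hX0 : (0 : ℝ) < X := by exact_mod_cast hX
  have hX1 : (1 : ℝ) ≤ X := by exact_mod_cast hX
  have hL0 : 0 < Real.log X := by linarith
  have hr0 : (1 : ℝ) ≤ r := by exact_mod_cast hr
  have hx1r : (x1 : ℝ) ≤ 9 * X := by exact_mod_cast hx12.trans hx2
  have hx2r : (x2 : ℝ) ≤ 9 * X := by exact_mod_cast hx2
  set κ : ℝ := r * δ ^ 2 with hκ
  have hκ0 : 0 < κ := by positivity
  have he1 : Real.exp κ - 1 ≤ 2 * κ := by
    have h := Real.abs_exp_sub_one_le (x := κ) (by rw [abs_of_pos hκ0]; exact hrη)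
    rw [abs_of_pos hκ0] at h
    exact (le_abs_self _).trans h
  have he2 : 1 - κ ≤ Real.exp (-κ) := by
    have := Real.add_one_le_exp (-κ)
    linarith
  have he3 : 1 ≤ Real.exp κ := Real.one_le_exp hκ0.le
  have he4 : Real.exp (-κ) ≤ 1 := by
    rw [Real.exp_le_one_iff]; linarith
  set P1 : Finset ℕ := Ioc x1 ⌊Real.exp κ * x1⌋₊ with hP1
  set P2 : Finset ℕ := Ioc ⌊Real.exp (-κ) * x2⌋₊ x2 with hP2
  set P : Finset ℕ := (P1 ∪ P2).filter (fun n => n ∈ Icc 1 (9 * X)) with hPdef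
  have hcard : (P.card : ℝ) ≤ 28 * κ * X := by
    have h0 : P.card ≤ P1.card + P2.card :=
      (card_filter_le _ _).trans (card_union_le _ _)
    have h1 : (P1.card : ℝ) ≤ 2 * κ * (9 * X) := by
      rw [hP1, Nat.card_Ioc]
      have h3 : x1 ≤ ⌊Real.exp κ * x1⌋₊ := by
        rw [Nat.le_floor_iff (by positivity)]
        have : (0 : ℝ) ≤ x1 := Nat.cast_nonneg _
        nlinarith
      rw [Nat.cast_sub h3]
      have h4 : (⌊Real.exp κ * x1⌋₊ : ℝ) ≤ Real.exp κ * x1 := Nat.floor_le (by positivity)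
      have h5 : (0 : ℝ) ≤ x1 := Nat.cast_nonneg _
      calc (⌊Real.exp κ * x1⌋₊ : ℝ) - x1 ≤ (Real.exp κ - 1) * x1 := by linarith
        _ ≤ 2 * κ * x1 := mul_le_mul_of_nonneg_right he1 h5
        _ ≤ _ := mul_le_mul_of_nonneg_left hx1r (by positivity)
    have h2 : (P2.card : ℝ) ≤ κ * (9 * X) + 1 := by
      rw [hP2, Nat.card_Ioc]
      have h5 : (0 : ℝ) ≤ x2 := Nat.cast_nonneg _
      have h3 : ⌊Real.exp (-κ) * x2⌋₊ ≤ x2 := by
        refine Nat.floor_le_of_le ?_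
        nlinarith
      rw [Nat.cast_sub h3]
      have h4 : Real.exp (-κ) * x2 < ⌊Real.exp (-κ) * x2⌋₊ + 1 := Nat.lt_floor_add_one _
      have h6 : (1 - κ) * x2 ≤ Real.exp (-κ) * x2 := mul_le_mul_of_nonneg_right he2 h5
      have h7 : κ * x2 ≤ κ * (9 * X) := mul_le_mul_of_nonneg_left hx2r hκ0.le
      linarith
    have h3 : (P.card : ℝ) ≤ P1.card + P2.card := by exact_mod_cast h0
    linarith
  have hPZ : P ⊆ Icc 1 (9 * X) := fun n hn => (mem_filter.1 hn).2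
  have hWP : ∀ w ∈ W, ∏ i, w i ∈ P := by
    intro w hw
    obtain ⟨h1, h2, h3⟩ := hW' w hw
    rw [hPdef, mem_filter, mem_union]
    refine ⟨?_, by rw [mem_Icc]; omega⟩
    rcases h3 with h3 | h3
    · left
      rw [hP1, mem_Ioc]
      exact ⟨h1, Nat.le_floor h3.le⟩
    · right
      rw [hP2, mem_Ioc]
      exact ⟨(Nat.floor_lt (by positivity)).2 h3, h2⟩
  have hc : ∀ w ∈ W, ‖∏ j, F j (w j)‖ ≤ (3 * Real.log X) ^ r := by
    intro w hw
    refine coef_le hX hL F (fun j n => Or.inl (hF j n)) w fun j => ?_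
    have := hW w hw j
    rw [mem_Icc] at this; exact this.2
  have hms := ms_of_tuples W (fun w => ∏ j, F j (w j)) ((3 * Real.log X) ^ r)
    (9 * X) (9 * X) (by positivity) hW P hPZ hWP hc T1 T2 h12
  refine hms.trans ?_
  set ℓ : ℝ := 3 * Real.log X with hℓ
  have hℓ1 : 1 ≤ ℓ := by rw [hℓ]; linarith
  set C : ℕ := 2 ^ (r * 4) with hC
  have hlog : 1 + Real.log ((9 * X : ℕ) : ℝ) ≤ ℓ := by
    push_cast
    exact (log_facts hX hL).2.2.1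
  have hlog0 : 0 ≤ Real.log ((9 * X : ℕ) : ℝ) := Real.log_natCast_nonneg _
  have h4 : ∑ n ∈ P, (tr r (9 * X) n : ℝ) ^ 4 ≤ 9 * X * ℓ ^ C := by
    refine (sum_le_sum_of_subset_of_nonneg hPZ fun _ _ _ => by positivity).trans ?_
    refine (dv_explicit r (9 * X) (9 * X) (by omega)).trans ?_
    push_cast at hlog hlog0 ⊢
    exact mul_le_mul_of_nonneg_left (pow_le_pow_left₀ (by linarith) hlog _) (by positivity)
  have hS : ∑ n ∈ P, (tr r (9 * X) n : ℝ) ^ 2 ≤ 16 * r * ℓ ^ C * X * δ := by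
    have h5 : (∑ n ∈ P, (tr r (9 * X) n : ℝ) ^ 2) ^ 2 ≤
        (P.card : ℝ) * ∑ n ∈ P, ((tr r (9 * X) n : ℝ) ^ 2) ^ 2 := sq_sum_le_card_mul_sum_sq
    have h6 : ∑ n ∈ P, ((tr r (9 * X) n : ℝ) ^ 2) ^ 2 = ∑ n ∈ P, (tr r (9 * X) n : ℝ) ^ 4 :=
      sum_congr rfl fun n _ => by rw [← pow_mul]
    rw [h6] at h5
    have h7 : (∑ n ∈ P, (tr r (9 * X) n : ℝ) ^ 2) ^ 2 ≤ (16 * r * ℓ ^ C * X * δ) ^ 2 := by
      calc (∑ n ∈ P, (tr r (9 * X) n : ℝ) ^ 2) ^ 2 ≤ (28 * κ * X) * (9 * X * ℓ ^ C) :=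
            h5.trans (mul_le_mul hcard h4 (sum_nonneg fun _ _ => by positivity) (by positivity))
        _ = 252 * r * ℓ ^ C * (X * δ) ^ 2 := by rw [hκ]; ring
        _ ≤ 256 * (r * r) * (ℓ ^ C * ℓ ^ C) * (X * δ) ^ 2 := by
            refine mul_le_mul_of_nonneg_right ?_ (by positivity)
            have h8 : (1 : ℝ) ≤ ℓ ^ C := one_le_pow₀ hℓ1
            refine mul_le_mul ?_ ?_ (by positivity) (by positivity)
            · nlinarith
            · nlinarith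
        _ = _ := by ring
    exact (pow_le_pow_iff_left₀ (sum_nonneg fun _ _ => by positivity) (by positivity)
      two_ne_zero).1 h7
  have hfac : T2 - T1 + 8 * ((9 * X : ℕ) : ℝ) * (1 + Real.log ((9 * X : ℕ) : ℝ)) ≤ 73 * X * ℓ := by
    have h3 : 8 * ((9 * X : ℕ) : ℝ) * (1 + Real.log ((9 * X : ℕ) : ℝ)) ≤ 8 * (9 * X) * ℓ := by
      refine mul_le_mul ?_ hlog (by positivity) (by positivity)
      push_cast; exact le_rfl
    nlinarith
  calc (T2 - T1 + 8 * ((9 * X : ℕ) : ℝ) * (1 + Real.log ((9 * X : ℕ) : ℝ))) *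
        ((ℓ ^ r) ^ 2 * ∑ n ∈ P, (tr r (9 * X) n : ℝ) ^ 2)
      ≤ (73 * X * ℓ) * ((ℓ ^ r) ^ 2 * (16 * r * ℓ ^ C * X * δ)) := by
        refine mul_le_mul hfac (mul_le_mul_of_nonneg_left hS (by positivity)) ?_ (by positivity)
        exact mul_nonneg (by positivity) (sum_nonneg fun _ _ => by positivity)
    _ = _ := by ring

end Pool.Agent.V8H34.CR
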